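import Pool.Agent.Lib.MP_cc2398_al.BR.SpecA

/-!
MP_cc2398_al, project BR, package A, module A1 (helper85): a countable field embeds into an uncountable
algebraically closed field over a common subfield.
-/

set_option autoImplicit false

namespace Pool.Agent.MPcc2398.BR

open Polynomial

universe u

private lemma A1_infinite {F : Type u} {Ω κ : Type} [Field F] [Field Ω] [Algebra F Ω] [IsAlgClosed Ω]
    [Countable F] (hu : Uncountable Ω) (y : κ → Ω) (hy : IsTranscendenceBasis F y) : Infinite κ := by
  have h1 : Cardinal.lift.{0} (Cardinal.mk Ω) = Cardinal.lift.{0} (Cardinal.mk κ) :=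
    IsAlgClosed.cardinal_eq_cardinal_transcendence_basis_of_aleph0_lt (R := F) y hy
      (Cardinal.mk_le_aleph0_iff.2 inferInstance) (Cardinal.aleph0_lt_mk_iff.2 hu)
  rw [Cardinal.lift_id, Cardinal.lift_id] at h1
  have h2 : Cardinal.aleph0 < Cardinal.mk κ := by
    rw [← h1]
    exact Cardinal.aleph0_lt_mk_iff.2 hu
  exact Cardinal.infinite_iff.2 h2.le

theorem vA1 : S_A1.{u} := by
  intro F K Ω _ _ _ _ _ _ _ hu
  have hF : Countable F := (FaithfulSMul.algebraMap_injective F K).countable
  obtain ⟨ι, x, hx⟩ := exists_isTranscendenceBasis' F K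
  obtain ⟨κ, y, hy⟩ := exists_isTranscendenceBasis' F Ω
  have hι : Countable ι := hx.1.injective.countable
  have hκ : Infinite κ := A1_infinite hu y hy
  obtain ⟨e0, he0⟩ := exists_injective_nat ι
  obtain ⟨e, he⟩ : ∃ e : ι → κ, Function.Injective e :=
    ⟨fun i => Infinite.natEmbedding κ (e0 i), (Infinite.natEmbedding κ).injective.comp he0⟩
  have hye : AlgebraicIndependent F (y ∘ e) := hy.1.comp e he
  let g : Algebra.adjoin F (Set.range x) →ₐ[F] Ω :=
    (MvPolynomial.aeval (y ∘ e)).comp (hx.1.aevalEquiv.symm : Algebra.adjoin F (Set.range x) →ₐ[F] _)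
  have hg : Function.Injective g := by
    intro a b hab
    have h1 : MvPolynomial.aeval (y ∘ e) (hx.1.aevalEquiv.symm a) =
        MvPolynomial.aeval (y ∘ e) (hx.1.aevalEquiv.symm b) := hab
    exact hx.1.aevalEquiv.symm.injective (hye h1)
  let _ : Algebra (Algebra.adjoin F (Set.range x)) Ω := g.toRingHom.toAlgebra
  have htow : IsScalarTower F (Algebra.adjoin F (Set.range x)) Ω :=
    IsScalarTower.of_algebraMap_eq fun r => (g.commutes r).symm
  have halg : Algebra.IsAlgebraic (Algebra.adjoin F (Set.range x)) K := hx.isAlgebraic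
  have hf : FaithfulSMul (Algebra.adjoin F (Set.range x)) Ω :=
    (faithfulSMul_iff_algebraMap_injective _ _).2 hg
  have ht1 : Module.IsTorsionFree (Algebra.adjoin F (Set.range x)) Ω := inferInstance
  have ht2 : Module.IsTorsionFree (Algebra.adjoin F (Set.range x)) K := inferInstance
  have φ : K →ₐ[Algebra.adjoin F (Set.range x)] Ω := IsAlgClosed.lift
  exact ⟨φ.restrictScalars F⟩

end Pool.Agent.MPcc2398.BR
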