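import Pool.Agent.Lib.MP_cc2398_al.BR.SpecA

set_option autoImplicit false

namespace Pool.Agent.MPcc2398.BR

open Polynomial

universe u

namespace A2aux

private theorem step (k K : Type u) [Field k] [Field K] [Algebra k K] [Algebra.IsAlgebraic k K]
    (v : AbsoluteValue k ℝ) (k₂ : Type u) [NontriviallyNormedField k₂] [CompleteSpace k₂] [IsUltrametricDist k₂]
    (f : k →+* k₂) (hf : ∀ x, ‖f x‖ = v x) : ∃ w : AbsoluteValue K ℝ, ∀ x, w (algebraMap k K x) = v x := by
  letI : Algebra k (AlgebraicClosure k₂) := ((algebraMap k₂ (AlgebraicClosure k₂)).comp f).toAlgebra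
  have φ : K →ₐ[k] AlgebraicClosure k₂ := IsAlgClosed.lift
  letI : NormedField (AlgebraicClosure k₂) := spectralNorm.normedField k₂ (AlgebraicClosure k₂)
  have hn : ∀ z : AlgebraicClosure k₂, ‖z‖ = spectralNorm k₂ (AlgebraicClosure k₂) z := fun z => rfl
  refine ⟨{ toFun := fun x => ‖φ x‖
            map_mul' := fun x y => by
              rw [map_mul, norm_mul]
            nonneg' := fun x => norm_nonneg _
            eq_zero' := fun x => by
              rw [norm_eq_zero, map_eq_zero]
            add_le' := fun x y => by
              rw [map_add]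
              exact norm_add_le _ _ }, fun x => ?_⟩
  change ‖φ (algebraMap k K x)‖ = v x
  rw [AlgHom.commutes]
  change ‖algebraMap k₂ (AlgebraicClosure k₂) (f x)‖ = v x
  rw [hn, spectralNorm_extends, hf]

end A2aux

/-- A nontrivial nonarchimedean absolute value extends to each algebraic extension. -/
theorem vA2 : S_A2.{u} := by
  intro k K _ _ _ _ v hv hna
  obtain ⟨x₀, hx0, hx1⟩ := hv
  have hcast : ∀ x : WithAbs v, ‖((x : WithAbs v) : v.Completion)‖ = v x.ofAbs := fun x =>
    (UniformSpace.Completion.norm_coe x).trans (WithAbs.norm_eq_apply_ofAbs v x)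
  have hnat : ∀ n : ℕ, v (n : k) ≤ 1 := by
    intro n
    induction n with
    | zero => simp
    | succ n ih =>
      rw [Nat.cast_succ]
      exact (hna _ _).trans (max_le ih (by rw [map_one]))
  haveI hu : IsUltrametricDist v.Completion := by
    apply IsUltrametricDist.isUltrametricDist_of_forall_norm_natCast_le_one
    intro n
    have h1 : ((n : ℕ) : v.Completion) = (((n : ℕ) : WithAbs v) : v.Completion) := by
      induction n with
      | zero =>
        rw [Nat.cast_zero, Nat.cast_zero]
        exact UniformSpace.Completion.coe_zero.symm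
      | succ n ih =>
        rw [Nat.cast_succ, Nat.cast_succ, ih, UniformSpace.Completion.coe_add, UniformSpace.Completion.coe_one]
    rw [h1, hcast]
    have h2 : ((n : ℕ) : WithAbs v).ofAbs = ((n : ℕ) : k) := map_natCast (WithAbs.equiv v) n
    rw [h2]
    exact hnat n
  letI hnn : NontriviallyNormedField v.Completion := NontriviallyNormedField.ofNormNeOne
    ⟨((WithAbs.toAbs v x₀ : WithAbs v) : v.Completion), by
      intro h
      have h3 := hcast (WithAbs.toAbs v x₀)
      rw [h, norm_zero] at h3
      exact hx0 ((v.eq_zero).1 h3.symm), by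
      rw [hcast]
      exact hx1⟩
  exact A2aux.step k K v v.Completion
    ((UniformSpace.Completion.coeRingHom : WithAbs v →+* v.Completion).comp (WithAbs.equiv v).symm.toRingHom)
    (fun x => hcast (WithAbs.toAbs v x))

end Pool.Agent.MPcc2398.BR
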