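import Pool.Agent.Lib.MP_cc2398_al.BR.SpecA

set_option autoImplicit false

namespace Pool.Agent.MPcc2398.BR

open Polynomial

universe u

theorem vA3 : S_A3.{u} := by
  classical
  intro k _
  have h2 : (1 : ℝ) < 2 := one_lt_two
  have h20 : (2 : ℝ) ≠ 0 := two_ne_zero
  let f : RatFunc k → ℝ := fun r => if r = 0 then 0 else 2 ^ r.intDegree
  have f0 : f 0 = 0 := by simp [f]
  have fn : ∀ r : RatFunc k, r ≠ 0 → f r = 2 ^ r.intDegree := fun r hr => by simp [f, hr]
  have fpos : ∀ r : RatFunc k, r ≠ 0 → 0 < f r := fun r hr => by rw [fn r hr]; positivity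
  have fnn : ∀ r : RatFunc k, 0 ≤ f r := fun r => by
    by_cases hr : r = 0
    · rw [hr, f0]
    · exact (fpos r hr).le
  have hstr : ∀ x y : RatFunc k, f (x + y) ≤ max (f x) (f y) := by
    intro x y
    by_cases hxy : x + y = 0
    · rw [hxy, f0]; exact le_max_of_le_left (fnn x)
    by_cases hy : y = 0
    · rw [hy, add_zero]; exact le_max_left _ _
    by_cases hx : x = 0
    · rw [hx, zero_add]; exact le_max_right _ _
    have h := RatFunc.intDegree_add_le hy hxy
    rw [fn _ hxy, fn _ hx, fn _ hy]
    rcases le_max_iff.1 h with h | h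
    · exact le_max_of_le_left (zpow_le_zpow_right₀ h2.le h)
    · exact le_max_of_le_right (zpow_le_zpow_right₀ h2.le h)
  let v : AbsoluteValue (RatFunc k) ℝ :=
    { toFun := f
      map_mul' := by
        intro x y
        by_cases hx : x = 0
        · rw [hx, zero_mul, f0, zero_mul]
        by_cases hy : y = 0
        · rw [hy, mul_zero, f0, mul_zero]
        show f (x * y) = f x * f y
        rw [fn _ (mul_ne_zero hx hy), fn _ hx, fn _ hy, RatFunc.intDegree_mul hx hy, zpow_add₀ h20]
      nonneg' := fnn
      eq_zero' := by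
        intro x
        constructor
        · intro h
          by_contra hx
          exact (fpos x hx).ne' h
        · rintro rfl
          exact f0
      add_le' := fun x y => (hstr x y).trans (max_le_add_of_nonneg (fnn x) (fnn y)) }
  refine ⟨v, ?_, hstr⟩
  show f RatFunc.X = 2
  rw [fn _ RatFunc.X_ne_zero, RatFunc.intDegree_X, zpow_one]

end Pool.Agent.MPcc2398.BR
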