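import Pool.Agent.Lib.MP_cc2398_al.BR.SpecA

/-!
# MP_cc2398_al, project BR, package A: module A4
-/

set_option autoImplicit false

namespace Pool.Agent.MPcc2398.BR

open Polynomial

universe u

namespace A4aux

/-- `k(t) ≤ k(t \ {l})(l)`. -/
theorem adjoin_le (k K : Type u) [Field k] [Field K] [Algebra k K] (l : K) (t : Set K) :
    IntermediateField.adjoin k t ≤
      (IntermediateField.adjoin (IntermediateField.adjoin k (t \ {l})) {l}).restrictScalars k := by
  rw [IntermediateField.adjoin_le_iff]
  intro y hy
  rw [SetLike.mem_coe, IntermediateField.mem_restrictScalars]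
  by_cases h : y = l
  · exact IntermediateField.subset_adjoin _ _ h
  · have h1 : y ∈ IntermediateField.adjoin k (t \ {l}) :=
      IntermediateField.subset_adjoin _ _ ⟨hy, h⟩
    exact (IntermediateField.adjoin (IntermediateField.adjoin k (t \ {l})) {l}).algebraMap_mem
      ⟨y, h1⟩

end A4aux

theorem vA4 : S_A4.{u} := by
  intro k K _ _ _ l hl
  have h0 : AlgebraicIndepOn k id ({l} : Set K) :=
    (algebraicIndependent_singleton_iff (⟨l, rfl⟩ : ({l} : Set K))).mpr hl
  obtain ⟨t, hlt, ht⟩ := exists_isTranscendenceBasis_superset h0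
  have hl' : l ∈ t := hlt rfl
  refine ⟨IntermediateField.adjoin k (t \ {l}), ?_, ?_⟩
  · rw [IntermediateField.transcendental_adjoin_iff]
    have h1 := ht.1.transcendental_adjoin (s := {j : t | j ≠ ⟨l, hl'⟩}) (i := ⟨l, hl'⟩)
      (fun h => h rfl)
    have h2 : ((fun j : t => (j : K)) '' {j : t | j ≠ ⟨l, hl'⟩}) = t \ {l} := by
      ext y
      constructor
      · rintro ⟨j, hj, rfl⟩
        exact ⟨j.2, fun h => hj (Subtype.ext h)⟩
      · rintro ⟨hy, hyl⟩
        exact ⟨⟨y, hy⟩, fun h => hyl (congrArg Subtype.val h), rfl⟩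
    rw [h2] at h1
    exact h1
  · have h1 := ht.isAlgebraic_field
    rw [Subtype.range_coe] at h1
    have hle := A4aux.adjoin_le k K l t
    let f : IntermediateField.adjoin k t →+*
        IntermediateField.adjoin (IntermediateField.adjoin k (t \ {l})) {l} :=
      { toFun := fun x => ⟨x, hle x.2⟩
        map_one' := rfl
        map_mul' := fun _ _ => rfl
        map_zero' := rfl
        map_add' := fun _ _ => rfl }
    let := f.toAlgebra
    have : IsScalarTower (IntermediateField.adjoin k t)
        (IntermediateField.adjoin (IntermediateField.adjoin k (t \ {l})) {l}) K :=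
      IsScalarTower.of_algebraMap_eq fun _ => rfl
    exact Algebra.IsAlgebraic.extendScalars (R := IntermediateField.adjoin k t) f.injective

end Pool.Agent.MPcc2398.BR
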