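import Pool.Agent.Lib.MP_cc2398_al.BR.SpecA

/-!
MP_cc2398_al, project BR, module A5 (helper57): an absolute value for a transcendental element.
-/

set_option autoImplicit false

namespace Pool.Agent.MPcc2398.BR

open Polynomial

universe u

/-- Uses: S_A2, S_A3, S_A4. -/
theorem vA5 (hA2 : S_A2.{u}) (hA3 : S_A3.{u}) (hA4 : S_A4.{u}) : S_A5.{u} := by
  intro k K _ _ _ l hl
  obtain ⟨k', hl', halg⟩ := hA4 k K l hl
  obtain ⟨v, hvX, hvn⟩ := hA3 k'
  have hinj : Function.Injective (aeval l : (k')[X] →ₐ[k'] K) := transcendental_iff_injective.1 hl'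
  let ψ : RatFunc k' →ₐ[k'] K := IsFractionRing.liftAlgHom (g := (aeval l : (k')[X] →ₐ[k'] K)) hinj
  have hψX : ψ RatFunc.X = l := by
    have h1 : ψ (algebraMap (k')[X] (RatFunc k') X) = aeval l (X : (k')[X]) :=
      IsFractionRing.lift_algebraMap hinj X
    rw [aeval_X, RatFunc.algebraMap_X] at h1
    exact h1
  have hle : IntermediateField.adjoin k' {l} ≤ ψ.fieldRange := by
    rw [IntermediateField.adjoin_le_iff]
    intro y hy
    rw [Set.mem_singleton_iff] at hy
    rw [hy]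
    exact ⟨RatFunc.X, hψX⟩
  let _ : Algebra (RatFunc k') K := ψ.toRingHom.toAlgebra
  have hmap : ∀ r : RatFunc k', algebraMap (RatFunc k') K r = ψ r := fun r => rfl
  have _ : Algebra.IsAlgebraic (RatFunc k') K := by
    refine ⟨fun x => ?_⟩
    obtain ⟨p, hp0, hpx⟩ := halg.isAlgebraic x
    have h1 : p.map (algebraMap (IntermediateField.adjoin k' {l}) K) ∈ Polynomial.lifts (algebraMap (RatFunc k') K) := by
      rw [Polynomial.lifts_iff_coeff_lifts]
      intro n
      rw [coeff_map]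
      obtain ⟨r, hr⟩ := hle (p.coeff n).2
      exact ⟨r, hr⟩
    rw [Polynomial.mem_lifts] at h1
    obtain ⟨q, hq⟩ := h1
    refine ⟨q, ?_, ?_⟩
    · rintro rfl
      rw [Polynomial.map_zero] at hq
      exact hp0 ((Polynomial.map_eq_zero _).1 hq.symm)
    · rw [aeval_def, ← eval_map, hq, eval_map, ← aeval_def]
      exact hpx
  have hnt : v.IsNontrivial := by
    refine ⟨RatFunc.X, RatFunc.X_ne_zero, ?_⟩
    rw [hvX]
    norm_num
  obtain ⟨w, hw⟩ := hA2 (RatFunc k') K v hnt hvn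
  refine ⟨w, ?_⟩
  have h1 := hw RatFunc.X
  rw [hmap, hψX, hvX] at h1
  rw [h1]
  norm_num

end Pool.Agent.MPcc2398.BR
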