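import Pool.Agent.Lib.MP_cc2398_al.BR.SpecA

/-!
# MP_cc2398_al, project BR, module A6: a root of norm `> 1` in `PadicAlgCl p`
-/

set_option autoImplicit false

namespace Pool.Agent.MPcc2398.BR

open Polynomial

universe u

namespace A6aux

variable {p : ℕ} [Fact p.Prime]

private lemma good_mul {g h : (PadicAlgCl p)[X]} (hg : ∀ n, ‖g.coeff n‖ ≤ 1) (hh : ∀ n, ‖h.coeff n‖ ≤ 1) :
    ∀ n, ‖(g * h).coeff n‖ ≤ 1 := by
  intro n
  rw [coeff_mul]
  refine IsUltrametricDist.norm_sum_le_of_forall_le_of_nonneg zero_le_one fun x _ => ?_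
  rw [norm_mul]
  exact mul_le_one₀ (hg _) (norm_nonneg _) (hh _)

private lemma good_X_sub_C {m : PadicAlgCl p} (hm : ‖m‖ ≤ 1) : ∀ n, ‖(X - C m).coeff n‖ ≤ 1 := by
  intro n
  rcases n with _ | _ | n
  · simpa using hm
  · simp [coeff_X]
  · simp [coeff_X]

private lemma good_prod (s : Multiset (PadicAlgCl p)) (hs : ∀ m ∈ s, ‖m‖ ≤ 1) :
    ∀ n, ‖((s.map fun a => X - C a).prod).coeff n‖ ≤ 1 := by
  induction s using Multiset.induction_on with
  | empty =>
    intro n
    rcases n with _ | n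
    · simp
    · simp [coeff_one]
  | cons a s ih =>
    rw [Multiset.map_cons, Multiset.prod_cons]
    exact good_mul (good_X_sub_C (hs a (Multiset.mem_cons_self a s)))
      (ih fun m hm => hs m (Multiset.mem_cons_of_mem hm))

private lemma norm_den (a : ℚ) (h : p ∣ a.den) : 1 < ‖(a : ℚ_[p])‖ := by
  by_contra hc
  have h1 := PadicInt.isUnit_den a (not_lt.1 hc)
  have h2 := PadicInt.isUnit_iff.1 h1
  rw [PadicInt.norm_natCast_eq_one_iff] at h2
  exact (Nat.Prime.coprime_iff_not_dvd Fact.out).1 h2 h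

end A6aux

open A6aux

theorem vA6 : S_A6 := by
  intro f hf hg
  have h1 : ∃ n, (f.coeff n).den ≠ 1 := by
    by_contra hc
    push Not at hc
    refine hg (∑ i ∈ Finset.range (f.natDegree + 1), C (f.coeff i).num * X ^ i) ?_
    rw [Polynomial.map_sum]
    conv_rhs => rw [f.as_sum_range_C_mul_X_pow]
    refine Finset.sum_congr rfl fun i _ => ?_
    rw [Polynomial.map_mul, Polynomial.map_pow, map_X, map_C]
    congr 2
    exact Rat.den_eq_one_iff _ |>.1 (hc i)
  obtain ⟨n, hn⟩ := h1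
  obtain ⟨p, hp, hpd⟩ := Nat.exists_prime_and_dvd hn
  have : Fact p.Prime := ⟨hp⟩
  refine ⟨p, ⟨hp⟩, ?_⟩
  by_contra hc
  push Not at hc
  set g : (PadicAlgCl p)[X] := f.map (algebraMap ℚ (PadicAlgCl p)) with hgdef
  have hgm : g.Monic := hf.map _
  have h2 := (IsAlgClosed.splits g).eq_prod_roots_of_monic hgm
  have h3 : ∀ m ∈ g.roots, ‖m‖ ≤ 1 := by
    intro m hm
    apply hc
    rw [mem_roots hgm.ne_zero, IsRoot.def, hgdef, eval_map] at hm
    rwa [aeval_def]
  have h4 := good_prod g.roots h3 n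
  rw [← h2, hgdef, coeff_map] at h4
  have h5 := norm_den (p := p) (f.coeff n) hpd
  rw [← PadicAlgCl.norm_extends] at h5
  have h6 : ((f.coeff n : ℚ_[p]) : PadicAlgCl p) = algebraMap ℚ (PadicAlgCl p) (f.coeff n) := by
    simp
  rw [h6] at h5
  exact absurd h4 (not_le.2 h5)

end Pool.Agent.MPcc2398.BR
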