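import Pool.Agent.Lib.MP_cc2398_al.BR.SpecA

/-!
# MP_cc2398_al, project BR, module A7: Kronecker, a complex root of norm different from 1
-/

set_option autoImplicit false

namespace Pool.Agent.MPcc2398.BR

open Polynomial

universe u

theorem vA7 : S_A7.{u} := by
  intro K _ _ l hl hn
  by_contra hc
  push Not at hc
  have hlQ : IsIntegral ℚ l := hl.tower_top
  have hfin : FiniteDimensional ℚ (IntermediateField.adjoin ℚ {l}) :=
    IntermediateField.adjoin.finiteDimensional hlQ
  have hchar : CharZero (IntermediateField.adjoin ℚ {l}) :=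
    charZero_of_injective_algebraMap (R := ℚ) (algebraMap ℚ _).injective
  have hnf : NumberField (IntermediateField.adjoin ℚ {l}) := ⟨⟩
  set g := IntermediateField.AdjoinSimple.gen ℚ l with hg
  have hgl : algebraMap (IntermediateField.adjoin ℚ {l}) K g = l :=
    IntermediateField.AdjoinSimple.algebraMap_gen ℚ l
  have hgi : IsIntegral ℤ g := by
    have h1 : IsIntegral ℤ (algebraMap (IntermediateField.adjoin ℚ {l}) K g) := by
      rw [hgl]
      exact hl
    exact (isIntegral_algebraMap_iff
      (algebraMap (IntermediateField.adjoin ℚ {l}) K).injective).1 h1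
  have hφ : ∀ φ : (IntermediateField.adjoin ℚ {l}) →+* ℂ, ‖φ g‖ = 1 := by
    intro φ
    apply hc
    have h1 : minpoly ℚ g = minpoly ℚ l := IntermediateField.minpoly_gen ℚ l
    rw [← h1]
    have h2 := Polynomial.aeval_algHom_apply φ.toRatAlgHom g (minpoly ℚ g)
    rw [minpoly.aeval, map_zero] at h2
    exact h2
  obtain ⟨n, hn0, hgn⟩ := NumberField.Embeddings.pow_eq_one_of_norm_eq_one
    (IntermediateField.adjoin ℚ {l}) ℂ hgi hφ
  apply hn n hn0
  rw [← hgl, ← map_pow, hgn, map_one]

end Pool.Agent.MPcc2398.BR
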