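import Pool.Agent.Lib.MP_cc2398_al.BR.SpecA

/-!
# MP_cc2398_al, project BR, module A8: an absolute value for an algebraic element in characteristic zero
-/

set_option autoImplicit false

namespace Pool.Agent.MPcc2398.BR

open Polynomial

universe u

private theorem A8_unc (k Ω : Type) [NontriviallyNormedField k] [CompleteSpace k] [Field Ω] [Algebra k Ω] :
    Uncountable Ω := by
  have h1 : Uncountable k := by
    rw [← not_countable_iff]
    intro hc
    have h2 := continuum_le_cardinal_of_nontriviallyNormedField k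
    have h3 : Cardinal.mk k ≤ Cardinal.aleph0 := Cardinal.mk_le_aleph0_iff.2 hc
    exact absurd (h2.trans h3) (not_le.2 Cardinal.aleph0_lt_continuum)
  exact (algebraMap k Ω).injective.uncountable

private theorem A8_ext (hA1 : S_A1.{u}) (K : Type u) [Field K] [CharZero K] [Countable K] (l : K)
    (hl : IsAlgebraic ℚ l) (Ω : Type) [NormedField Ω] [Algebra ℚ Ω] [IsAlgClosed Ω] (hu : Uncountable Ω)
    (m : Ω) (hm : aeval m (minpoly ℚ l) = 0) (h1 : ‖m‖ ≠ 1) : ∃ v : AbsoluteValue K ℝ, v l ≠ 1 := by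
  have hi : IsIntegral ℚ l := hl.isIntegral
  have hr : m ∈ (minpoly ℚ l).aroots Ω := by
    rw [mem_aroots]
    exact ⟨minpoly.ne_zero hi, hm⟩
  let ψ : IntermediateField.adjoin ℚ {l} →ₐ[ℚ] Ω :=
    (IntermediateField.algHomAdjoinIntegralEquiv ℚ hi).symm ⟨m, hr⟩
  have hψ : ψ (IntermediateField.AdjoinSimple.gen ℚ l) = m :=
    IntermediateField.algHomAdjoinIntegralEquiv_symm_apply_gen ℚ hi ⟨m, hr⟩
  let _ : Algebra (IntermediateField.adjoin ℚ {l}) Ω := ψ.toRingHom.toAlgebra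
  obtain ⟨φ⟩ := hA1 (IntermediateField.adjoin ℚ {l}) K Ω hu
  have hφ : φ l = m := by
    have h2 := φ.commutes (IntermediateField.AdjoinSimple.gen ℚ l)
    rw [IntermediateField.AdjoinSimple.algebraMap_gen] at h2
    rw [h2]
    exact hψ
  refine ⟨(NormedField.toAbsoluteValue Ω).comp (f := (φ : K →+* Ω)) φ.injective, ?_⟩
  change ‖φ l‖ ≠ 1
  rwa [hφ]

theorem vA8 (hA1 : S_A1.{u}) (hA6 : S_A6) (hA7 : S_A7.{u}) : S_A8.{u} := by
  intro K _ _ _ l hl hn
  by_cases hg : ∃ g : ℤ[X], g.map (Int.castRingHom ℚ) = minpoly ℚ l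
  · obtain ⟨g, hg⟩ := hg
    have hi : IsIntegral ℤ l := by
      refine ⟨g, ?_, ?_⟩
      · have h2 := minpoly.monic hl.isIntegral
        rw [← hg] at h2
        exact Polynomial.monic_of_injective Int.cast_injective h2
      · have h3 := minpoly.aeval ℚ l
        rw [← hg, aeval_def, eval₂_map] at h3
        rw [← h3]
        congr 1
        exact Subsingleton.elim _ _
    obtain ⟨m, hm, h1⟩ := hA7 K l hi hn
    exact A8_ext hA1 K l hl ℂ (A8_unc ℝ ℂ) m hm h1
  · obtain ⟨p, hp, m, hm, h1⟩ := hA6 (minpoly ℚ l) (minpoly.monic hl.isIntegral) (fun g h => hg ⟨g, h⟩)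
    exact A8_ext hA1 K l hl (PadicAlgCl p) (A8_unc ℚ_[p] (PadicAlgCl p)) m hm h1.ne'

end Pool.Agent.MPcc2398.BR
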