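import Pool.Agent.Lib.MP_cc2398_al.BR.SpecA

/-!
# MP_cc2398_al, project BR, module A9: assembly of package A
-/

set_option autoImplicit false

namespace Pool.Agent.MPcc2398.BR

open Polynomial

universe u

private theorem A9_lift (hA5 : S_A5.{u}) (R : Type) [Field R] (K : Type u) [Field K] [Algebra R K] (l : K)
    (h : Transcendental R l) : ∃ v : AbsoluteValue K ℝ, v l ≠ 1 := by
  let _ : Algebra (ULift.{u} R) K :=
    ((algebraMap R K).comp (ULift.ringEquiv : ULift.{u} R ≃+* R).toRingHom).toAlgebra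
  refine hA5 (ULift.{u} R) K l fun h' => h ?_
  exact h'.ringHom_of_comp_eq (ULift.ringEquiv : ULift.{u} R ≃+* R) (RingHom.id K)
    ULift.ringEquiv.injective (RingHom.ext fun _ => rfl)

private theorem A9_fin (p : ℕ) [Fact p.Prime] (K : Type u) [Field K] [Algebra (ZMod p) K] (l : K)
    (hl : l ≠ 0) (h : IsAlgebraic (ZMod p) l) : ∃ n : ℕ, 0 < n ∧ l ^ n = 1 := by
  have : FiniteDimensional (ZMod p) (IntermediateField.adjoin (ZMod p) {l}) :=
    IntermediateField.adjoin.finiteDimensional h.isIntegral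
  have : Finite (IntermediateField.adjoin (ZMod p) {l}) := Module.finite_of_finite (ZMod p)
  have hg : IntermediateField.AdjoinSimple.gen (ZMod p) l ≠ 0 := fun h0 => hl (by
    have := congrArg (algebraMap (IntermediateField.adjoin (ZMod p) {l}) K) h0
    rwa [IntermediateField.AdjoinSimple.algebraMap_gen, map_zero] at this)
  obtain ⟨n, hn, hn1⟩ := isOfFinOrder_iff_pow_eq_one.1 (isOfFinOrder_of_finite (Units.mk0 _ hg))
  refine ⟨n, hn, ?_⟩
  have h1 : (IntermediateField.AdjoinSimple.gen (ZMod p) l) ^ n = 1 := by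
    have := congrArg Units.val hn1
    simpa using this
  have h2 := congrArg (algebraMap (IntermediateField.adjoin (ZMod p) {l}) K) h1
  rwa [map_pow, IntermediateField.AdjoinSimple.algebraMap_gen, map_one] at h2

theorem vA9 (hA5 : S_A5.{u}) (hA8 : S_A8.{u}) : S_A9.{u} := by
  intro K _ _ l hl hn
  obtain ⟨p, hp⟩ := CharP.exists K
  rcases CharP.char_is_prime_or_zero K p with hp' | hp'
  · have : Fact p.Prime := ⟨hp'⟩
    let _ : Algebra (ZMod p) K := ZMod.algebra K p
    by_cases h : IsAlgebraic (ZMod p) l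
    · obtain ⟨n, hn0, hn1⟩ := A9_fin p K l hl h
      exact absurd hn1 (hn n hn0)
    · exact A9_lift hA5 (ZMod p) K l h
  · subst hp'
    have : CharZero K := CharP.charP_to_charZero K
    by_cases h : IsAlgebraic ℚ l
    · exact hA8 K l h hn
    · exact A9_lift hA5 ℚ K l h

theorem vAbs (hA5 : S_A5.{u}) (hA8 : S_A8.{u}) : S_Abs.{u} := by
  intro K _ _ _ l hl hn
  exact vA9 hA5 hA8 K l hl hn

end Pool.Agent.MPcc2398.BR
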