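import Pool.Agent.Lib.MP_cc2398_al.BR.SpecB

/-!
# MP_cc2398_al, project BR, module B1: Burnside, an irreducible representation over an algebraically closed field
spans the matrix algebra
-/

set_option autoImplicit false

namespace Pool.Agent.MPcc2398.BR

open Polynomial Matrix

universe u v

private theorem B1_functional {K : Type u} [Field K] {n : ℕ} (f : (Fin n → K) →ₗ[K] K) :
    ∃ φ : Fin n → K, ∀ v, f v = φ ⬝ᵥ v := by
  refine ⟨fun i => f (fun j => if i = j then 1 else 0), fun v => ?_⟩
  rw [LinearMap.pi_apply_eq_sum_univ f v, dotProduct]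
  exact Finset.sum_congr rfl fun i _ => by rw [smul_eq_mul, mul_comm]

private theorem B1_simple {K : Type u} [Field K] {Γ : Type v} [Group Γ] {n : ℕ} (hn : 0 < n)
    (ρ : Γ →* Matrix (Fin n) (Fin n) K) (h : Irr ρ Set.univ)
    (A : Subalgebra K (Module.End K (Fin n → K))) (hA : ∀ x, Matrix.toLin' (ρ x) ∈ A) :
    IsSimpleModule A (Fin n → K) := by
  have hne : Nonempty (Fin n) := ⟨⟨0, hn⟩⟩
  have hnt : Nontrivial (Fin n → K) := inferInstance
  rw [isSimpleModule_iff]
  refine { exists_pair_ne := ⟨⊥, ⊤, fun h0 => ?_⟩, eq_bot_or_eq_top := fun N => ?_ }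
  · obtain ⟨v, hv⟩ := exists_ne (0 : Fin n → K)
    have : v ∈ (⊤ : Submodule A (Fin n → K)) := trivial
    rw [← h0, Submodule.mem_bot] at this
    exact hv this
  · by_contra hc
    rw [not_or] at hc
    obtain ⟨a, haN, ha⟩ := (Submodule.ne_bot_iff N).1 hc.1
    have hlt : N.restrictScalars K < ⊤ := by
      rw [lt_top_iff_ne_top]
      intro h1
      exact hc.2 (by rwa [Submodule.restrictScalars_eq_top_iff] at h1)
    obtain ⟨f, hf, hN⟩ := Submodule.exists_le_ker_of_lt_top _ hlt
    obtain ⟨φ, hφ⟩ := B1_functional f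
    have hφ0 : φ ≠ 0 := by
      rintro rfl
      exact hf (LinearMap.ext fun v => by rw [hφ, zero_dotProduct, LinearMap.zero_apply])
    obtain ⟨x, -, hx⟩ := h a φ ha hφ0
    apply hx
    rw [← hφ]
    have h2 : (⟨Matrix.toLin' (ρ x), hA x⟩ : A) • a ∈ N := N.smul_mem _ haN
    have h3 : (⟨Matrix.toLin' (ρ x), hA x⟩ : A) • a = ρ x *ᵥ a := by
      change Matrix.toLin' (ρ x) a = _
      rw [Matrix.toLin'_apply]
    rw [h3] at h2
    exact LinearMap.mem_ker.1 (hN h2)

private theorem B1_top {K : Type u} [Field K] [IsAlgClosed K] {n : ℕ}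
    (A : Subalgebra K (Module.End K (Fin n → K))) (hs : IsSimpleModule A (Fin n → K)) : A = ⊤ := by
  rw [eq_top_iff]
  intro T _
  have hb := IsSimpleModule.algebraMap_end_bijective_of_isAlgClosed (A := A) (V := Fin n → K) K
  have hfin : Module.Finite (Module.End A (Fin n → K)) (Fin n → K) :=
    Module.Finite.of_restrictScalars_finite K _ _
  let f : Module.End (Module.End A (Fin n → K)) (Fin n → K) :=
    { toFun := T
      map_add' := T.map_add
      map_smul' := fun g v => by
        obtain ⟨c, rfl⟩ := hb.2 g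
        change T (c • v) = c • T v
        exact T.map_smul c v }
  obtain ⟨r, hr⟩ := Module.Finite.toModuleEnd_moduleEnd_surjective (R := A) (M := Fin n → K) f
  have h1 : (r : Module.End K (Fin n → K)) = T := by
    refine LinearMap.ext fun v => ?_
    have h2 := LinearMap.congr_fun hr v
    exact h2
  rw [← h1]
  exact r.2

theorem vB1 : S_B1.{u, v} := by
  intro K _ _ Γ _ n ρ h
  rcases Nat.eq_zero_or_pos n with rfl | hn
  · rw [eq_top_iff]
    intro X _
    rw [Subsingleton.elim X 0]
    exact Submodule.zero_mem _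
  · let f : Γ →* Module.End K (Fin n → K) :=
      ((Matrix.toLinAlgEquiv' : Matrix (Fin n) (Fin n) K ≃ₐ[K] _) : _ →* _).comp ρ
    have hfx : ∀ x, f x = Matrix.toLin' (ρ x) := fun x => rfl
    have hA : Algebra.adjoin K (Set.range f) = ⊤ := by
      refine B1_top _ (B1_simple hn ρ h _ fun x => ?_)
      rw [← hfx]
      exact Algebra.subset_adjoin ⟨x, rfl⟩
    have hspan : Submodule.span K (Set.range f) = ⊤ := by
      have h1 := Algebra.adjoin_eq_span K (Set.range f)
      have h2 : (Submonoid.closure (Set.range f) : Set (Module.End K (Fin n → K))) = Set.range f := by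
        rw [← MonoidHom.coe_mrange, Submonoid.closure_eq]
      rw [h2, hA] at h1
      rw [← h1]
      exact Algebra.top_toSubmodule
    have h3 : (Submodule.span K (Set.range ρ)).map
        ((Matrix.toLin' : Matrix (Fin n) (Fin n) K ≃ₗ[K] _) : _ →ₗ[K] Module.End K (Fin n → K)) = ⊤ := by
      rw [Submodule.map_span, ← Set.range_comp, ← hspan]
      rfl
    rw [eq_top_iff]
    intro X _
    have h4 : Matrix.toLin' X ∈ (⊤ : Submodule K (Module.End K (Fin n → K))) := trivial
    rw [← h3] at h4
    obtain ⟨Y, hY, hYX⟩ := h4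
    have h5 : Y = X := Matrix.toLin'.injective hYX
    rw [← h5]
    exact hY

end Pool.Agent.MPcc2398.BR
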