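import Pool.Agent.Lib.MP_cc2398_al.BR.SpecB

set_option autoImplicit false

namespace Pool.Agent.MPcc2398.BR

open Polynomial Matrix

universe u v

namespace B2aux

/-- The subring of the `ℤ`-algebra generated by a finite set is of finite type. -/
theorem finType {K : Type u} [Field K] (T : Finset K) :
    Algebra.FiniteType ℤ (Algebra.adjoin ℤ (T : Set K)).toSubring := by
  have h1 : Algebra.FiniteType ℤ (Algebra.adjoin ℤ (T : Set K)) :=
    (Subalgebra.fg_iff_finiteType _).1 (Subalgebra.fg_adjoin_finset T)
  let f : (Algebra.adjoin ℤ (T : Set K)) →+* (Algebra.adjoin ℤ (T : Set K)).toSubring :=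
    { toFun := fun x => ⟨x.1, x.2⟩
      map_one' := rfl
      map_mul' := fun _ _ => rfl
      map_zero' := rfl
      map_add' := fun _ _ => rfl }
  have hf : Function.Surjective f.toIntAlgHom := fun y => ⟨⟨y.1, y.2⟩, rfl⟩
  exact Algebra.FiniteType.of_surjective f.toIntAlgHom hf

end B2aux

theorem vB2 : S_B2.{u, v} := by
  classical
  intro K _ Γ _ hfg n ρ
  have hm : Monoid.FG Γ := Group.fg_iff_monoid_fg.1 hfg
  obtain ⟨S, hS, hSfin⟩ := (Monoid.fg_iff).1 hm
  let T : Finset K := hSfin.toFinset.biUnion fun s =>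
    (Finset.univ : Finset (Fin n × Fin n)).image fun p => ρ s p.1 p.2
  refine ⟨(Algebra.adjoin ℤ (T : Set K)).toSubring, B2aux.finType T, ?_⟩
  intro x
  have hx : x ∈ Submonoid.closure S := by rw [hS]; trivial
  induction hx using Submonoid.closure_induction with
  | mem s hs =>
    intro i j
    change ρ s i j ∈ Algebra.adjoin ℤ (T : Set K)
    apply Algebra.subset_adjoin
    rw [Finset.mem_coe, Finset.mem_biUnion]
    exact ⟨s, by simpa using hs, Finset.mem_image.2 ⟨(i, j), Finset.mem_univ _, rfl⟩⟩
  | one =>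
    intro i j
    rw [map_one, Matrix.one_apply]
    split_ifs
    · exact Subring.one_mem _
    · exact Subring.zero_mem _
  | mul a b _ _ ha hb =>
    intro i j
    rw [map_mul, Matrix.mul_apply]
    exact Subring.sum_mem _ fun k _ => Subring.mul_mem _ (ha i k) (hb k j)

end Pool.Agent.MPcc2398.BR
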