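import Pool.Agent.Lib.MP_cc2398_al.BR.SpecB

/-! `vB3 : S_B3`: two maximal ideals of a finitely generated domain with finite residue fields and without a common
prime number. -/

set_option autoImplicit false

namespace Pool.Agent.MPcc2398.BR

open Polynomial Matrix

universe u v

/-- `ℤ` is a Jacobson ring. -/
private theorem intJacobson : IsJacobsonRing ℤ := by
  rw [isJacobsonRing_iff_prime_eq]
  intro P hP
  by_cases h : P = ⊥
  · subst h
    refine le_antisymm ?_ Ideal.le_jacobson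
    intro x hx
    rw [Ideal.mem_jacobson_bot] at hx
    have h1 := Int.isUnit_iff.mp (hx x)
    have hx0 : x = 0 := by
      rcases h1 with h1 | h1 <;> nlinarith [sq_nonneg x]
    rw [hx0]
    exact Submodule.zero_mem _
  · have hm : P.IsMaximal := hP.isMaximal h
    exact Ideal.jacobson_eq_self_of_isMaximal

/-- The residue field of a maximal ideal of a finitely generated ring is finite. -/
private theorem finite_residue (A : Type u) [CommRing A] [Algebra.FiniteType ℤ A] (m : Ideal A) [hm : m.IsMaximal] :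
    Finite (A ⧸ m) := by
  let _ : Field (A ⧸ m) := Ideal.Quotient.field m
  have := intJacobson
  have : Algebra.FiniteType ℤ (A ⧸ m) :=
    Algebra.FiniteType.of_surjective (Ideal.Quotient.mkₐ ℤ m) (Ideal.Quotient.mkₐ_surjective ℤ m)
  have : Module.Finite ℤ (A ⧸ m) := finite_of_finite_type_of_isJacobsonRing ℤ (A ⧸ m)
  have : Algebra.IsIntegral ℤ (A ⧸ m) := inferInstance
  have hmax : (Ideal.comap (algebraMap ℤ (A ⧸ m)) (⊥ : Ideal (A ⧸ m))).IsMaximal :=
    Ideal.isMaximal_comap_of_isIntegral_of_isMaximal (⊥ : Ideal (A ⧸ m))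
  have hne : Ideal.comap (algebraMap ℤ (A ⧸ m)) (⊥ : Ideal (A ⧸ m)) ≠ ⊥ :=
    Ring.ne_bot_of_isMaximal_of_not_isField hmax Int.not_isField
  obtain ⟨N, hN, hN0⟩ := Submodule.exists_mem_ne_zero_of_ne_bot hne
  have hN' : (algebraMap ℤ (A ⧸ m)) N = 0 := hN
  have htor : Module.IsTorsion ℤ (A ⧸ m) := by
    intro x
    refine ⟨⟨N, mem_nonZeroDivisors_of_ne_zero hN0⟩, ?_⟩
    change N • x = 0
    rw [Algebra.smul_def, hN', zero_mul]
  exact Module.finite_of_fg_torsion _ htor

/-- **B3**. -/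
theorem vB3 : S_B3.{u} := by
  intro A _ _ _
  have := intJacobson
  have hJ : IsJacobsonRing A := isJacobsonRing_of_finiteType (A := ℤ)
  obtain ⟨m₁, hm₁⟩ := Ideal.exists_maximal A
  have hf₁ : Finite (A ⧸ m₁) := finite_residue A m₁
  let _ : Field (A ⧸ m₁) := Ideal.Quotient.field m₁
  obtain ⟨p, hp⟩ := CharP.exists (A ⧸ m₁)
  have hpp : p.Prime := CharP.char_is_prime (A ⧸ m₁) p
  have huniq : ∀ q : ℕ, q.Prime → (q : A) ∈ m₁ → q = p := by
    intro q hq hqm
    have h0 : ((q : ℕ) : A ⧸ m₁) = 0 := by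
      have h := Ideal.Quotient.eq_zero_iff_mem.mpr hqm
      rwa [map_natCast] at h
    have hdvd : p ∣ q := (CharP.cast_eq_zero_iff (A ⧸ m₁) p q).mp h0
    exact ((Nat.prime_dvd_prime_iff_eq hpp hq).mp hdvd).symm
  by_cases hp0 : (p : A) = 0
  · refine ⟨m₁, m₁, hm₁, hm₁, hf₁, hf₁, ?_⟩
    intro q hq hqm _
    rw [huniq q hq hqm, hp0]
  · have hjac : Ideal.jacobson (⊥ : Ideal A) = ⊥ := by
      have h := hJ.out (I := (⊥ : Ideal A)) (Ideal.isRadical_bot)
      exact h
    have hnot : (p : A) ∉ Ideal.jacobson (⊥ : Ideal A) := by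
      rw [hjac]
      exact fun h => hp0 h
    have hex : ∃ m₂ : Ideal A, m₂.IsMaximal ∧ (p : A) ∉ m₂ := by
      by_contra hcon
      push Not at hcon
      apply hnot
      rw [Ideal.jacobson, Ideal.mem_sInf]
      intro I hI
      exact hcon I hI.2
    obtain ⟨m₂, hm₂, hpm₂⟩ := hex
    refine ⟨m₁, m₂, hm₁, hm₂, hf₁, finite_residue A m₂, ?_⟩
    intro q hq hqm hqm₂
    rw [huniq q hq hqm] at hqm₂
    exact absurd hqm₂ hpm₂

end Pool.Agent.MPcc2398.BR
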