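import Pool.Agent.Lib.MP_cc2398_al.BR.SpecB

/-!
# MP_cc2398_al, project BR, module B4: eigenvalues of a matrix which is 1 modulo a prime ideal
-/

set_option autoImplicit false

namespace Pool.Agent.MPcc2398.BR

open Polynomial Matrix

universe u v

theorem vB4 : S_B4.{u} := by
  classical
  intro K _ A m hm n Y hY z hz q k hk hq
  choose y hy1 hy2 using hY
  obtain ⟨Y', hY'd⟩ : ∃ Y' : Matrix (Fin n) (Fin n) A, ∀ i j, Y' i j = y i j + (1 : Matrix (Fin n) (Fin n) A) i j :=
    ⟨fun i j => y i j + (1 : Matrix (Fin n) (Fin n) A) i j, fun i j => rfl⟩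
  have hY' : Y'.map (algebraMap A K) = Y := by
    ext i j
    rw [Matrix.map_apply, hY'd]
    change ((y i j + (1 : Matrix (Fin n) (Fin n) A) i j : A) : K) = Y i j
    rw [Subring.coe_add, hy2]
    have h1 : (((1 : Matrix (Fin n) (Fin n) A) i j : A) : K) = (1 : Matrix (Fin n) (Fin n) K) i j := by
      rw [Matrix.one_apply, Matrix.one_apply]
      split_ifs <;> simp
    rw [h1]
    ring
  have hf : Y'.charpoly.map (algebraMap A K) = Y.charpoly := by
    rw [← Matrix.charpoly_map, hY']
  have hroot : Y'.charpoly.eval₂ (algebraMap A K) z = 0 := by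
    rw [← Polynomial.eval_map, hf]
    exact hz
  have hint : IsIntegral A z := ⟨Y'.charpoly, Matrix.charpoly_monic _, hroot⟩
  obtain ⟨z', hz'⟩ : ∃ z' : integralClosure A K, (z' : K) = z := ⟨⟨z, hint⟩, rfl⟩
  have hint2 : Algebra.IsIntegral A (integralClosure A K) := inferInstance
  obtain ⟨Q, hQp, hQ⟩ := Ideal.exists_ideal_over_prime_of_isIntegral_of_isDomain
    (S := integralClosure A K) m (by
      intro x hx
      rw [RingHom.mem_ker] at hx
      have h1 : (algebraMap A K) x = 0 := by
        rw [IsScalarTower.algebraMap_apply A (integralClosure A K) K, hx, map_zero]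
      have h2 : x = 0 := Subtype.ext h1
      rw [h2]
      exact m.zero_mem)
  have hdom : IsDomain (integralClosure A K ⧸ Q) := Ideal.Quotient.isDomain Q
  obtain ⟨π, hπ⟩ : ∃ π : A →+* (integralClosure A K ⧸ Q),
      π = (Ideal.Quotient.mk Q).comp (algebraMap A (integralClosure A K)) := ⟨_, rfl⟩
  have hπm : ∀ x ∈ m, π x = 0 := by
    intro x hx
    rw [hπ, RingHom.comp_apply, Ideal.Quotient.eq_zero_iff_mem]
    rw [← hQ] at hx
    exact hx
  have hone : Y'.map π = 1 := by
    ext i j
    rw [Matrix.map_apply, hY'd, map_add, hπm _ (hy1 i j), zero_add, Matrix.one_apply, Matrix.one_apply]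
    split_ifs <;> simp
  have hroot2 : Y'.charpoly.eval₂ (algebraMap A (integralClosure A K)) z' = 0 := by
    apply Subtype.val_injective
    have h1 := Polynomial.hom_eval₂ Y'.charpoly (algebraMap A (integralClosure A K))
      (algebraMap (integralClosure A K) K) z'
    rw [← IsScalarTower.algebraMap_eq] at h1
    change (algebraMap (integralClosure A K) K) _ = _
    rw [h1]
    change Y'.charpoly.eval₂ (algebraMap A K) (z' : K) = 0
    rw [hz', hroot]
  obtain ⟨t, ht⟩ : ∃ t : integralClosure A K ⧸ Q, t = Ideal.Quotient.mk Q z' := ⟨_, rfl⟩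
  have hroot3 : (Y'.charpoly.map π).eval t = 0 := by
    rw [Polynomial.eval_map, hπ, ht, ← Polynomial.hom_eval₂, hroot2, map_zero]
  rw [← Matrix.charpoly_map, hone, Matrix.charpoly_one, eval_pow, eval_sub, eval_X, eval_one] at hroot3
  have ht1 : t = 1 := sub_eq_zero.1 (eq_zero_of_pow_eq_zero hroot3)
  -- the power
  have hw1 : z' ^ k ≠ 1 := by
    intro h
    apply hk
    rw [← hz']
    exact_mod_cast congrArg (fun b : integralClosure A K => (b : K)) h
  have hwq : (z' ^ k) ^ q = 1 := by
    apply Subtype.val_injective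
    rw [← hz'] at hq
    exact_mod_cast hq
  have hgeom : (∑ i ∈ Finset.range q, (z' ^ k) ^ i) * (z' ^ k - 1) = 0 := by
    rw [geom_sum_mul, hwq, sub_self]
  have hsum : ∑ i ∈ Finset.range q, (z' ^ k) ^ i = 0 :=
    (mul_eq_zero.1 hgeom).resolve_right (sub_ne_zero.2 hw1)
  have hmk : (Ideal.Quotient.mk Q) (∑ i ∈ Finset.range q, (z' ^ k) ^ i) = (q : integralClosure A K ⧸ Q) := by
    rw [map_sum]
    have h1 : ∀ i ∈ Finset.range q, (Ideal.Quotient.mk Q) ((z' ^ k) ^ i) = 1 := by
      intro i _
      rw [map_pow, map_pow, ← ht, ht1, one_pow, one_pow]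
    rw [Finset.sum_congr rfl h1, Finset.sum_const, Finset.card_range, nsmul_eq_mul, mul_one]
  rw [hsum, map_zero] at hmk
  have hqQ : (q : integralClosure A K) ∈ Q := by
    rw [← Ideal.Quotient.eq_zero_iff_mem, map_natCast]
    exact hmk.symm
  rw [← hQ, Ideal.mem_comap, map_natCast]
  exact hqQ

end Pool.Agent.MPcc2398.BR
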