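import Pool.Agent.Lib.MP_cc2398_al.BR.SpecB

/-!
# MP_cc2398_al, project BR, module B5: a power of the reduction modulo `m` is `1`
-/

set_option autoImplicit false

namespace Pool.Agent.MPcc2398.BR

open Polynomial Matrix

universe u v

theorem vB5 : S_B5.{u, v} := by
  classical
  intro K _ A m hfin Γ _ n ρ hA
  let ρ' : Γ →* Matrix (Fin n) (Fin n) A :=
    { toFun := fun x => Matrix.of fun i j => (⟨ρ x i j, hA x i j⟩ : A)
      map_one' := by
        ext i j
        simp [Matrix.one_apply, apply_ite]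
      map_mul' := by
        intro x y
        ext i j
        simp [Matrix.mul_apply] }
  let φ : Γ →* Matrix (Fin n) (Fin n) (A ⧸ m) :=
    (((Ideal.Quotient.mk m).mapMatrix : Matrix (Fin n) (Fin n) A →+* Matrix (Fin n) (Fin n) (A ⧸ m)) :
      Matrix (Fin n) (Fin n) A →* Matrix (Fin n) (Fin n) (A ⧸ m)).comp ρ'
  have hF : Finite (Matrix (Fin n) (Fin n) (A ⧸ m)) := Finite.of_injective
    (fun M : Matrix (Fin n) (Fin n) (A ⧸ m) => fun i j => M i j) fun M N h => by
      ext i j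
      exact congrFun (congrFun h i) j
  have hU : Finite (Matrix (Fin n) (Fin n) (A ⧸ m))ˣ :=
    Finite.of_injective (fun u : (Matrix (Fin n) (Fin n) (A ⧸ m))ˣ =>
      (u : Matrix (Fin n) (Fin n) (A ⧸ m))) Units.val_injective
  refine ⟨Nat.card (Matrix (Fin n) (Fin n) (A ⧸ m))ˣ, Nat.card_pos, ?_⟩
  intro x i j
  set e := Nat.card (Matrix (Fin n) (Fin n) (A ⧸ m))ˣ with he
  have h1 : φ (x ^ e) = 1 := by
    have h2 : φ.toHomUnits (x ^ e) = 1 := by
      rw [map_pow]
      exact pow_card_eq_one'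
    have h3 := congrArg (fun u : (Matrix (Fin n) (Fin n) (A ⧸ m))ˣ =>
      (u : Matrix (Fin n) (Fin n) (A ⧸ m))) h2
    exact h3
  have h2 : Ideal.Quotient.mk m (ρ' (x ^ e) i j) =
      Ideal.Quotient.mk m ((1 : Matrix (Fin n) (Fin n) A) i j) := by
    have h3 : φ (x ^ e) i j = (1 : Matrix (Fin n) (Fin n) (A ⧸ m)) i j := by rw [h1]
    have h4 : Ideal.Quotient.mk m ((1 : Matrix (Fin n) (Fin n) A) i j) =
        (1 : Matrix (Fin n) (Fin n) (A ⧸ m)) i j := by
      rw [Matrix.one_apply, Matrix.one_apply]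
      split_ifs
      · exact map_one _
      · exact map_zero _
    rw [h4]
    exact h3
  refine ⟨ρ' (x ^ e) i j - (1 : Matrix (Fin n) (Fin n) A) i j, Ideal.Quotient.eq.1 h2, ?_⟩
  have h5 : (((1 : Matrix (Fin n) (Fin n) A) i j : A) : K) = (1 : Matrix (Fin n) (Fin n) K) i j := by
    rw [Matrix.one_apply, Matrix.one_apply]
    split_ifs <;> rfl
  rw [← h5]
  rfl

end Pool.Agent.MPcc2398.BR
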