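import Pool.Agent.Lib.MP_cc2398_al.BR.SpecB

/-!
# MP_cc2398_al, project BR, module B6: all eigenvalues are `e`-th roots of unity for one `e`
-/

set_option autoImplicit false

namespace Pool.Agent.MPcc2398.BR

open Polynomial Matrix

universe u v

/-- `z ^ e` is an eigenvalue of `Y ^ e`. -/
private lemma B6_pow {K : Type u} [Field K] {n : ℕ} (Y : Matrix (Fin n) (Fin n) K) (z : K) (e : ℕ)
    (h : Y.charpoly.IsRoot z) : (Y ^ e).charpoly.IsRoot (z ^ e) := by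
  rw [← Matrix.mem_spectrum_iff_isRoot_charpoly] at h ⊢
  exact spectrum.pow_mem_pow Y e h

/-- The arithmetic step: `w` has finite order and all prime divisors of the order of a power are zero in `K`. -/
private lemma B6_one {K : Type u} [Field K] (w : K) (m : ℕ) (hm : 0 < m) (hw : w ^ m = 1)
    (h : ∀ q k : ℕ, q.Prime → w ^ k ≠ 1 → (w ^ k) ^ q = 1 → (q : K) = 0) : w = 1 := by
  by_contra hne
  have hfin : IsOfFinOrder w := isOfFinOrder_iff_pow_eq_one.2 ⟨m, hm, hw⟩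
  have hN : 0 < orderOf w := hfin.orderOf_pos
  have hN1 : orderOf w ≠ 1 := fun h1 => hne (orderOf_eq_one_iff.1 h1)
  obtain ⟨q, hq, hqd⟩ := Nat.exists_prime_and_dvd hN1
  obtain ⟨k, hk⟩ := hqd
  have hkpos : 0 < k := by
    rcases Nat.eq_zero_or_pos k with h0 | h0
    · rw [h0, mul_zero] at hk; omega
    · exact h0
  have hlt : k < orderOf w := by
    rw [hk]; exact lt_mul_of_one_lt_left hkpos hq.one_lt
  have h1 : w ^ k ≠ 1 := pow_ne_one_of_lt_orderOf hkpos.ne' hlt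
  have h2 : (w ^ k) ^ q = 1 := by
    rw [← pow_mul, mul_comm, ← hk]; exact pow_orderOf_eq_one w
  have hq0 : (q : K) = 0 := h q k hq h1 h2
  haveI : Fact q.Prime := ⟨hq⟩
  haveI : CharP K q := (CharP.charP_iff_prime_eq_zero hq).2 hq0
  have h3 : (w ^ k - 1) ^ q = 0 := by
    rw [sub_pow_char, h2, one_pow, sub_self]
  exact h1 (sub_eq_zero.1 (pow_eq_zero_iff hq.ne_zero |>.1 h3))

theorem vB6 (h2 : S_B2.{u, v}) (h3 : S_B3.{u}) (h4 : S_B4.{u}) (h5 : S_B5.{u, v}) :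
    S_B6.{u, v} := by
  intro K _ Γ _ hΓ n ρ hρ
  obtain ⟨A, hA, hent⟩ := h2 K Γ hΓ n ρ
  obtain ⟨m₁, m₂, hm₁, hm₂, hf₁, hf₂, hq⟩ := h3 A
  obtain ⟨e₁, he₁, hx₁⟩ := h5 K A m₁ hf₁ Γ n ρ hent
  obtain ⟨e₂, he₂, hx₂⟩ := h5 K A m₂ hf₂ Γ n ρ hent
  refine ⟨e₁ * e₂, Nat.mul_pos he₁ he₂, fun x z hz => ?_⟩
  have hr : (ρ (x ^ (e₁ * e₂))).charpoly.IsRoot (z ^ (e₁ * e₂)) := by
    rw [map_pow]; exact B6_pow _ _ _ hz
  obtain ⟨m, hm, hzm⟩ := hρ x z hz
  refine B6_one (z ^ (e₁ * e₂)) m hm ?_ ?_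
  · rw [← pow_mul, mul_comm, pow_mul, hzm, one_pow]
  · intro q k hqp hk1 hk2
    have a1 : (q : A) ∈ m₁ := by
      refine h4 K A m₁ hm₁.isPrime n (ρ (x ^ (e₁ * e₂))) ?_ _ hr q k hk1 hk2
      intro i j
      have := hx₁ (x ^ e₂) i j
      rw [← pow_mul, mul_comm e₂ e₁] at this
      exact this
    have a2 : (q : A) ∈ m₂ := by
      refine h4 K A m₂ hm₂.isPrime n (ρ (x ^ (e₁ * e₂))) ?_ _ hr q k hk1 hk2
      intro i j
      have := hx₂ (x ^ e₁) i j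
      rw [← pow_mul] at this
      exact this
    have a3 := hq q hqp a1 a2
    have a4 : ((q : A) : K) = ((0 : A) : K) := by rw [a3]
    simpa using a4

end Pool.Agent.MPcc2398.BR
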