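import Pool.Agent.Lib.MP_cc2398_al.BR.SpecB

/-!
# MP_cc2398_al, project BR, B7: finitely many traces and full span give a finite image
-/

set_option autoImplicit false

namespace Pool.Agent.MPcc2398.BR

open Polynomial Matrix

universe u v

namespace B7aux

/-- the linear map `Z ↦ trace (X * Z)` -/
def tm {K : Type u} [Field K] {n : ℕ} (X : Matrix (Fin n) (Fin n) K) :
    Matrix (Fin n) (Fin n) K →ₗ[K] K where
  toFun Z := (X * Z).trace
  map_add' a b := by rw [mul_add, Matrix.trace_add]
  map_smul' c a := by rw [mul_smul_comm, Matrix.trace_smul]; rfl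

theorem tm_apply {K : Type u} [Field K] {n : ℕ} (X Z : Matrix (Fin n) (Fin n) K) :
    tm X Z = (X * Z).trace := rfl

end B7aux

open B7aux in
theorem vB7 : S_B7.{u, v} := by
  intro K _ Γ _ n ρ hspan hT
  classical
  obtain ⟨s, hs, hs2⟩ := (Submodule.fg_span_iff_fg_span_finset_subset (Set.range ρ)).1
    (IsNoetherian.noetherian (Submodule.span K (Set.range ρ)))
  rw [hspan] at hs2
  let F : Matrix (Fin n) (Fin n) K → (s → K) := fun X y => (X * (y : Matrix (Fin n) (Fin n) K)).trace
  refine Set.Finite.of_finite_image (f := F) ?_ ?_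
  · refine (Set.Finite.pi' (t := fun _ : s => Set.range fun x => (ρ x).trace) fun _ => hT).subset ?_
    rintro _ ⟨_, ⟨x, rfl⟩, rfl⟩ y
    obtain ⟨z, hz⟩ := hs y.2
    refine ⟨x * z, ?_⟩
    show (ρ (x * z)).trace = (ρ x * (y : Matrix (Fin n) (Fin n) K)).trace
    rw [map_mul, hz]
  · intro X _ X' _ h
    rw [Matrix.ext_iff_trace_mul_right]
    have h1 : tm X = tm X' := by
      apply LinearMap.ext_on hs2.symm
      intro y hy
      rw [tm_apply, tm_apply]
      exact congrFun h ⟨y, hy⟩
    intro Z
    rw [← tm_apply, ← tm_apply, h1]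

end Pool.Agent.MPcc2398.BR
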