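import Pool.Agent.Lib.MP_cc2398_al.BR.SpecB

/-!
# MP_cc2398_al, project BR, module B8: finitely many traces
-/

set_option autoImplicit false

namespace Pool.Agent.MPcc2398.BR

open Polynomial Matrix

universe u v

theorem vB8 : S_B8.{u} := by
  classical
  intro K _ _ e n he
  have hp : (X ^ e - 1 : K[X]) ≠ 0 := by
    have := X_pow_sub_C_ne_zero he (1 : K)
    simpa using this
  let R : Finset K := (X ^ e - 1 : K[X]).roots.toFinset
  refine ((Finset.sym R n).image (fun s : Sym K n => (s : Multiset K).sum)).finite_toSet.subset ?_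
  rintro t ⟨Y, hY, rfl⟩
  have hc : Y.charpoly.roots.card = n := by
    rw [IsAlgClosed.card_roots_eq_natDegree, Matrix.charpoly_natDegree_eq_dim, Fintype.card_fin]
  simp only [Finset.coe_image, Set.mem_image, Finset.mem_coe]
  refine ⟨Sym.mk Y.charpoly.roots hc, ?_, ?_⟩
  · rw [Finset.mem_sym_iff]
    intro a ha
    have ha' : a ∈ Y.charpoly.roots := ha
    have h1 := hY a ((mem_roots Y.charpoly_monic.ne_zero).1 ha')
    simp [R, mem_roots hp, h1]
  · exact (Matrix.trace_eq_sum_roots_charpoly Y).symm

end Pool.Agent.MPcc2398.BR
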