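import Pool.Agent.Lib.MP_cc2398_al.BR.Spec
import Pool.Agent.Lib.MP_cc2398_al.Bf.Core

/-!
# MP_cc2398_al, project BR, module BFL: perfect normal closures without representations of degree `c`
-/

set_option autoImplicit false

namespace Pool.Agent.MPcc2398.BR

open Pool.Agent.MPcc2398 Matrix Filter Topology

universe u v w

open Bf in
theorem vBFL (hLin : S_Lin.{u, max u w}) (hUlt : S_Ult.{u, w}) (hDL : S_DL.{u, w}) : S_BFL.{u, w} := by
  classical
  intro G _ H hTB hcore hnlf
  obtain ⟨R, hRn, hRt, hRLF, hRmax, hst⟩ := aMain G H hTB hcore hnlf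
  refine ⟨R, hRn, hRt, hRLF, ?_⟩
  intro c x hx
  have hncl : Subgroup.normalClosure {x} = (⊤ : Subgroup G) := by
    by_contra h
    exact hx (hRmax _ Subgroup.normalClosure_normal h (Subgroup.subset_normalClosure (by simp)))
  have hcomm : (⁅(⊤ : Subgroup G), ⊤⁆ : Subgroup G) = ⊤ := by
    by_contra h
    have hle := hRmax _ inferInstance h
    have hHH : Co H H := by
      constructor <;> · rw [Subgroup.relIndex_self]; exact one_ne_zero
    obtain ⟨b1, -⟩ := hst H hHH
    apply hRt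
    rw [Subgroup.eq_top_iff']
    intro g
    apply b1 g
    intro k _
    exact hle (Subgroup.commutator_mem_commutator (Subgroup.mem_top g) (Subgroup.mem_top k))
  obtain ⟨s, hs⟩ := comm_fin (x := x) (by rw [hcomm]; exact Subgroup.mem_top x)
  have hxD : KL.{u, w} c (⊤ : Subgroup G) x := by
    by_contra hcon
    have h1 : ∀ s : Finset G, ∀ hg : x ∈ Subgroup.closure (s : Set G), ∃ (F : Type w) (_ : Field F)
        (ρ : Subgroup.closure (s : Set G) →* Matrix (Fin c) (Fin c) F), ρ ⟨x, hg⟩ ≠ 1 := by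
      intro s hg
      by_contra h2
      apply hcon
      refine ⟨s, by simp, hg, ?_⟩
      intro F _ ρ
      by_contra h3
      exact h2 ⟨F, inferInstance, ρ, h3⟩
    obtain ⟨F, hF, ρ, hρ⟩ := hUlt G c x h1
    exact hρ (hLin G H hTB hcore hnlf F c ρ x)
  obtain ⟨t, -, hxt, ht⟩ := hxD
  obtain ⟨L₀, hL₀, hst₀⟩ := exists_NC hTB hncl (s ∪ t)
  obtain ⟨L, hL1, hL2, hL3, hL4⟩ := aBig G H hTB L₀ hL₀ {x}
  rw [Finset.coe_union, Set.union_subset_iff] at hst₀
  refine ⟨L, hL1, hL2, hL4 (by simp), ?_⟩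
  intro L' hLL
  have hX := NC_mono (A := Subgroup.zpowers x) (hL3.trans hLL)
  refine ⟨?_, ?_⟩
  · apply NC_le_of_inv (inv_comm (inv_NC L' _))
    have h1 : Subgroup.closure (s : Set G) ≤ NC L' (Subgroup.zpowers x) :=
      (Subgroup.closure_le _).2 (fun y hy => hX (hst₀.1 hy))
    exact Subgroup.commutator_mono h1 h1 hs
  · intro F _ ρ g
    obtain ⟨D, hD1, hD2, hD3⟩ := hDL G c (NC L' (Subgroup.zpowers x))
    have hle : NC L' (Subgroup.zpowers x) ≤ D := by
      apply NC_le_of_inv (hD2 L' (inv_NC L' _))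
      rw [hD1]
      exact ⟨t, fun y hy => hX (hst₀.2 hy), hxt, fun F _ ρ => ht F ρ⟩
    exact hD3 F ρ g (hle g.2)

end Pool.Agent.MPcc2398.BR
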