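import Pool.Agent.Lib.MP_cc2398_al.BR.Spec

/-!
# MP_cc2398_al, project BR: `y` and `y⁻¹` proximal (helper41)
-/

set_option autoImplicit false

namespace Pool.Agent.MPcc2398.BR

open Pool.Agent.MPcc2398 Matrix Filter Topology

universe u v w

private lemma BI_scale {K : Type v} [Field K] {V : AbsoluteValue K ℝ} {n : ℕ} {Y : Matrix (Fin n) (Fin n) K}
    {a φ : Fin n → K} {l s : K} (h : Pr V Y a φ l) (hs : s ≠ 0) : Pr V (s • Y) a φ (s * l) := by
  obtain ⟨h1, h2, h3, h4, h5⟩ := h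
  refine ⟨mul_ne_zero hs h1, h2, ?_, ?_, ?_⟩
  · rw [Matrix.smul_mulVec, h3, smul_smul]
  · rw [Matrix.vecMul_smul, h4, smul_smul]
  · intro i j
    refine (h5 i j).congr (fun k => ?_)
    have : (s * l)⁻¹ ^ k * ((s • Y) ^ k) i j = l⁻¹ ^ k * (Y ^ k) i j := by
      rw [smul_pow, Matrix.smul_apply, smul_eq_mul, mul_inv, mul_pow]
      have : s⁻¹ ^ k * s ^ k = 1 := by rw [← mul_pow, inv_mul_cancel₀ hs, one_pow]
      calc s⁻¹ ^ k * l⁻¹ ^ k * (s ^ k * (Y ^ k) i j) = (s⁻¹ ^ k * s ^ k) * (l⁻¹ ^ k * (Y ^ k) i j) := by ring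
        _ = _ := by rw [this, one_mul]
    rw [this]

private lemma BI_dot {K : Type v} [Field K] (V : AbsoluteValue K ℝ) {n : ℕ} (x y : Fin n → K) {p q : ℝ}
    (hp : 0 ≤ p) (hx : ∀ i, V (x i) ≤ p) (hy : ∀ i, V (y i) ≤ q) : V (x ⬝ᵥ y) ≤ n * (p * q) := by
  unfold dotProduct
  refine (V.sum_le _ _).trans ?_
  have h : ∀ i ∈ (Finset.univ : Finset (Fin n)), V (x i * y i) ≤ p * q := fun i _ => by
    rw [V.map_mul]
    exact mul_le_mul (hx i) (hy i) (V.nonneg _) hp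
  refine (Finset.sum_le_sum h).trans ?_
  rw [Finset.sum_const, Finset.card_univ, Fintype.card_fin, nsmul_eq_mul]

private lemma BI_mul {K : Type v} [Field K] (V : AbsoluteValue K ℝ) {n : ℕ} (A B : Matrix (Fin n) (Fin n) K) {p q : ℝ}
    (hp : 0 ≤ p) (hA : ∀ i j, V (A i j) ≤ p) (hB : ∀ i j, V (B i j) ≤ q) (i j : Fin n) :
    V ((A * B) i j) ≤ n * (p * q) :=
  BI_dot V (fun k => A i k) (fun k => B k j) hp (fun k => hA i k) (fun k => hB k j)

theorem vBI (hRob : S_Rob.{u, v}) (hPrx : S_Prx.{v}) : S_BI.{u, v} := by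
  intro G _ H K _ _ V N R hD hI t ht a φ l hPr
  obtain ⟨hl, hφa, hYa, hφY, hlim⟩ := hPr
  have ha : a ≠ 0 := by
    rintro rfl
    simp at hφa
  have hφ : φ ≠ 0 := by
    rintro rfl
    simp at hφa
  have hN : 0 < N := by
    rcases Nat.eq_zero_or_pos N with h | h
    · subst h
      exact absurd (Subsingleton.elim a 0) ha
    · exact h
  have : Nonempty (Fin N) := ⟨⟨0, hN⟩⟩
  obtain ⟨F, κ, hκ, hF, hR⟩ := hRob G H K V N R hD hI a φ ha hφ
  -- the bound D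
  obtain ⟨D, hD1, hDa, hDφ, hDF⟩ : ∃ D : ℝ, 1 ≤ D ∧ (∀ i, V (a i) ≤ D) ∧ (∀ i, V (φ i) ≤ D) ∧
      ∀ p ∈ F, ∀ i j, V (R p.1 i j) ≤ D ∧ V (R p.1⁻¹ i j) ≤ D ∧ V (R p.2 i j) ≤ D ∧ V (R p.2⁻¹ i j) ≤ D := by
    have n1 : 0 ≤ ∑ i, V (a i) := Finset.sum_nonneg fun i _ => V.nonneg _
    have n2 : 0 ≤ ∑ i, V (φ i) := Finset.sum_nonneg fun i _ => V.nonneg _
    have n4 : ∀ p : G × G, ∀ i j : Fin N,
        0 ≤ V (R p.1 i j) + V (R p.1⁻¹ i j) + V (R p.2 i j) + V (R p.2⁻¹ i j) := fun p i j => by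
      have := V.nonneg (R p.1 i j)
      have := V.nonneg (R p.1⁻¹ i j)
      have := V.nonneg (R p.2 i j)
      have := V.nonneg (R p.2⁻¹ i j)
      linarith
    have n3 : 0 ≤ ∑ p ∈ F, ∑ i, ∑ j, (V (R p.1 i j) + V (R p.1⁻¹ i j) + V (R p.2 i j) + V (R p.2⁻¹ i j)) :=
      Finset.sum_nonneg fun p _ => Finset.sum_nonneg fun i _ => Finset.sum_nonneg fun j _ => n4 p i j
    refine ⟨1 + ∑ i, V (a i) + ∑ i, V (φ i) +
      ∑ p ∈ F, ∑ i, ∑ j, (V (R p.1 i j) + V (R p.1⁻¹ i j) + V (R p.2 i j) + V (R p.2⁻¹ i j)), by linarith, ?_, ?_, ?_⟩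
    · intro i
      have := Finset.single_le_sum (f := fun i => V (a i)) (fun i _ => V.nonneg _) (Finset.mem_univ i)
      linarith
    · intro i
      have := Finset.single_le_sum (f := fun i => V (φ i)) (fun i _ => V.nonneg _) (Finset.mem_univ i)
      linarith
    · intro p hp i j
      have s1 : V (R p.1 i j) + V (R p.1⁻¹ i j) + V (R p.2 i j) + V (R p.2⁻¹ i j) ≤
          ∑ p ∈ F, ∑ i, ∑ j, (V (R p.1 i j) + V (R p.1⁻¹ i j) + V (R p.2 i j) + V (R p.2⁻¹ i j)) := by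
        refine le_trans ?_ (Finset.single_le_sum (f := fun p : G × G => ∑ i, ∑ j,
          (V (R p.1 i j) + V (R p.1⁻¹ i j) + V (R p.2 i j) + V (R p.2⁻¹ i j)))
          (fun p _ => Finset.sum_nonneg fun i _ => Finset.sum_nonneg fun j _ => n4 p i j) hp)
        refine le_trans ?_ (Finset.single_le_sum (f := fun i : Fin N => ∑ j,
          (V (R p.1 i j) + V (R p.1⁻¹ i j) + V (R p.2 i j) + V (R p.2⁻¹ i j)))
          (fun i _ => Finset.sum_nonneg fun j _ => n4 p i j) (Finset.mem_univ i))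
        exact Finset.single_le_sum (f := fun j : Fin N =>
          (V (R p.1 i j) + V (R p.1⁻¹ i j) + V (R p.2 i j) + V (R p.2⁻¹ i j)))
          (fun j _ => n4 p i j) (Finset.mem_univ j)
      have := V.nonneg (R p.1 i j)
      have := V.nonneg (R p.1⁻¹ i j)
      have := V.nonneg (R p.2 i j)
      have := V.nonneg (R p.2⁻¹ i j)
      refine ⟨by linarith, by linarith, by linarith, by linarith⟩
  have hD0 : 0 ≤ D := by linarith
  have hNr : (1 : ℝ) ≤ N := by exact_mod_cast hN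
  have hN0 : (0 : ℝ) ≤ N := by linarith
  obtain ⟨B, hB⟩ : ∃ B : ℝ, B = (N : ℝ) ^ 3 * D ^ 3 := ⟨_, rfl⟩
  have hB1 : 1 ≤ B := by
    rw [hB]
    exact one_le_mul_of_one_le_of_one_le (one_le_pow₀ hNr) (one_le_pow₀ hD1)
  -- monomials
  have hmon : ∀ i j : ℕ, i ≤ 3 → j ≤ 3 → (N : ℝ) ^ i * D ^ j ≤ B := by
    intro i j hi hj
    rw [hB]
    exact mul_le_mul (pow_le_pow_right₀ hNr hi) (pow_le_pow_right₀ hD1 hj) (by positivity) (by positivity)
  obtain ⟨ε, hε, hPx⟩ := hPrx K V N κ B hκ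
  -- the number n
  have hev : ∀ᶠ k : ℕ in atTop, ∀ i j : Fin N, V (l⁻¹ ^ k * (R t ^ k) i j - a i * φ j) < ε / B := by
    rw [eventually_all]
    intro i
    rw [eventually_all]
    intro j
    exact (hlim i j).eventually (gt_mem_nhds (by positivity))
  obtain ⟨n, hn⟩ := hev.exists
  obtain ⟨X, hX⟩ : ∃ X : Matrix (Fin N) (Fin N) K, X = l⁻¹ ^ n • (R t) ^ n := ⟨_, rfl⟩
  obtain ⟨E, hE⟩ : ∃ E : Matrix (Fin N) (Fin N) K, E = X - vecMulVec a φ := ⟨_, rfl⟩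
  have hEb : ∀ i j, V (E i j) ≤ ε / B := by
    intro i j
    have := (hn i j).le
    rw [hE, hX, Matrix.sub_apply, Matrix.smul_apply, vecMulVec_apply, smul_eq_mul]
    exact this
  -- the matrix S
  obtain ⟨S, hS⟩ : ∃ S : Matrix (Fin N) (Fin N) K, S = R (t⁻¹ ^ n) := ⟨_, rfl⟩
  have hinv : R (t ^ n) * S = 1 := by
    rw [hS, ← map_mul, inv_pow, mul_inv_cancel, map_one]
  obtain ⟨⟨i₀, j₀⟩, hmax⟩ := Finite.exists_max (fun p : Fin N × Fin N => V (S p.1 p.2))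
  obtain ⟨s, hs⟩ : ∃ s, s = S i₀ j₀ := ⟨_, rfl⟩
  have hs0 : s ≠ 0 := by
    intro h0
    have hz : S = 0 := by
      ext i j
      have h1 : V (S i j) ≤ V (S i₀ j₀) := hmax (i, j)
      rw [← hs, h0, V.map_zero] at h1
      have h2 : V (S i j) = 0 := le_antisymm h1 (V.nonneg _)
      exact V.eq_zero.1 h2
    rw [hz, Matrix.mul_zero] at hinv
    have := congrFun (congrFun hinv ⟨0, hN⟩) ⟨0, hN⟩
    rw [Matrix.zero_apply, Matrix.one_apply_eq] at this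
    exact zero_ne_one this
  obtain ⟨τ, hτ⟩ : ∃ τ : Matrix (Fin N) (Fin N) K, τ = s⁻¹ • S := ⟨_, rfl⟩
  have hVs : 0 < V s := V.pos hs0
  have hτe : ∀ i j, V (τ i j) = V (S i j) / V s := by
    intro i j
    rw [hτ, Matrix.smul_apply, smul_eq_mul, V.map_mul, map_inv₀, div_eq_mul_inv, mul_comm]
  have hτ1 : ∀ i j, V (τ i j) ≤ 1 := by
    intro i j
    rw [hτe, div_le_one hVs, hs]
    exact hmax (i, j)
  have hτ2 : ∃ i j, V (τ i j) = 1 := ⟨i₀, j₀, by rw [hτe, ← hs, div_self hVs.ne']⟩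
  obtain ⟨⟨b, c⟩, hbc, hκ1, hκ2⟩ := hR τ hτ1 hτ2
  dsimp only at hκ1 hκ2
  have hbH : b ∈ H := (hF _ hbc).1
  have hcH : c ∈ H := (hF _ hbc).2
  have hb : ∀ i j, V (R b i j) ≤ D ∧ V (R b⁻¹ i j) ≤ D ∧ V (R c i j) ≤ D ∧ V (R c⁻¹ i j) ≤ D := hDF _ hbc
  obtain ⟨m, hm⟩ : ∃ m : K, m = l ^ n * s := ⟨_, rfl⟩
  have hm0 : m ≠ 0 := by rw [hm]; exact mul_ne_zero (pow_ne_zero _ hl) hs0
  have hXR : l ^ n • X = R (t ^ n) := by
    rw [hX, smul_smul, ← mul_pow, mul_inv_cancel₀ hl, one_pow, one_smul, map_pow]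
  have hτS : s • τ = S := by rw [hτ, smul_smul, mul_inv_cancel₀ hs0, one_smul]
  refine ⟨t ^ n * b * t⁻¹ ^ n * c, ?_, ?_, ?_⟩
  · exact H.mul_mem (H.mul_mem (H.mul_mem (H.pow_mem ht n) hbH) (H.pow_mem (H.inv_mem ht) n)) hcH
  · -- y
    obtain ⟨M, hM⟩ : ∃ M : Matrix (Fin N) (Fin N) K, M = R b * τ * R c := ⟨_, rfl⟩
    have hMb : ∀ i j, V (M i j) ≤ (N : ℝ) ^ 2 * D ^ 2 := by
      intro i j
      rw [hM]
      refine (BI_mul V _ _ (by positivity) (BI_mul V _ _ hD0 (fun i j => (hb i j).1) hτ1)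
        (fun i j => (hb i j).2.2.1) i j).trans (le_of_eq ?_)
      ring
    have hRy : R (t ^ n * b * t⁻¹ ^ n * c) = m • (X * M) := by
      rw [map_mul, map_mul, map_mul, ← hXR, ← hS, ← hτS, hM, hm]
      simp only [Matrix.smul_mul, Matrix.mul_smul, smul_smul, Matrix.mul_assoc]
      rw [mul_comm s]
    obtain ⟨a1, φ1, l1, h1⟩ := hPx (X * M) a (φ ᵥ* M)
      (fun i => (hDa i).trans (by simpa using hmon 0 1 (by norm_num) (by norm_num)))
      (fun i => (BI_dot V φ (fun k => M k i) hD0 hDφ (fun k => hMb k i)).trans (le_of_eq (by rw [hB]; ring)))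
      (by rw [← Matrix.dotProduct_mulVec, hM]; exact hκ1)
      (fun i j => by
        have e1 : (X * M) i j - a i * (φ ᵥ* M) j = (E * M) i j := by
          rw [hE, Matrix.sub_mul, vecMulVec_mul, Matrix.sub_apply, vecMulVec_apply]
        rw [e1]
        refine (BI_mul V _ _ (by positivity) hEb hMb i j).trans ?_
        have e2 : (N : ℝ) * (ε / B * ((N : ℝ) ^ 2 * D ^ 2)) = (ε / B) * ((N : ℝ) ^ 3 * D ^ 2) := by ring
        rw [e2]
        have e3 := hmon 3 2 (by norm_num) (by norm_num)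
        calc (ε / B) * ((N : ℝ) ^ 3 * D ^ 2) ≤ (ε / B) * B := mul_le_mul_of_nonneg_left e3 (by positivity)
          _ = ε := by field_simp)
    exact ⟨a1, φ1, m * l1, by rw [hRy]; exact BI_scale h1 hm0⟩
  · -- the inverse of y
    obtain ⟨M, hM⟩ : ∃ M : Matrix (Fin N) (Fin N) K, M = R b⁻¹ * τ := ⟨_, rfl⟩
    have hMb : ∀ i j, V (M i j) ≤ (N : ℝ) * D := by
      intro i j
      rw [hM]
      refine (BI_mul V _ _ hD0 (fun i j => (hb i j).2.1) hτ1 i j).trans (le_of_eq ?_)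
      ring
    have hyi : (t ^ n * b * t⁻¹ ^ n * c)⁻¹ = c⁻¹ * t ^ n * b⁻¹ * t⁻¹ ^ n := by
      rw [_root_.mul_inv_rev, _root_.mul_inv_rev, _root_.mul_inv_rev, inv_pow, inv_inv, ← mul_assoc, ← mul_assoc]
    have hRy : R (t ^ n * b * t⁻¹ ^ n * c)⁻¹ = m • (R c⁻¹ * X * M) := by
      rw [hyi, map_mul, map_mul, map_mul, ← hXR, ← hS, ← hτS, hM, hm]
      simp only [Matrix.smul_mul, Matrix.mul_smul, smul_smul, Matrix.mul_assoc]
      rw [mul_comm s]
    obtain ⟨a1, φ1, l1, h1⟩ := hPx (R c⁻¹ * X * M) (R c⁻¹ *ᵥ a) (φ ᵥ* M)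
      (fun i => (BI_dot V (fun k => R c⁻¹ i k) a hD0 (fun k => (hb i k).2.2.2) hDa).trans (by
        have := hmon 1 2 (by norm_num) (by norm_num)
        calc (N : ℝ) * (D * D) = (N : ℝ) ^ 1 * D ^ 2 := by ring
          _ ≤ B := this))
      (fun i => (BI_dot V φ (fun k => M k i) hD0 hDφ (fun k => hMb k i)).trans (by
        have := hmon 2 2 (by norm_num) (by norm_num)
        calc (N : ℝ) * (D * ((N : ℝ) * D)) = (N : ℝ) ^ 2 * D ^ 2 := by ring
          _ ≤ B := this))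
      (by rw [← Matrix.dotProduct_mulVec, Matrix.mulVec_mulVec, hM]; exact hκ2)
      (fun i j => by
        have e1 : (R c⁻¹ * X * M) i j - (R c⁻¹ *ᵥ a) i * (φ ᵥ* M) j = (R c⁻¹ * (E * M)) i j := by
          rw [hE, Matrix.sub_mul, vecMulVec_mul, Matrix.mul_sub, mul_vecMulVec, Matrix.sub_apply, vecMulVec_apply,
            Matrix.mul_assoc]
        rw [e1]
        refine (BI_mul V _ _ hD0 (fun i j => (hb i j).2.2.2)
          (BI_mul V _ _ (by positivity) hEb hMb) i j).trans ?_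
        have e2 : (N : ℝ) * (D * ((N : ℝ) * (ε / B * ((N : ℝ) * D)))) = (ε / B) * ((N : ℝ) ^ 3 * D ^ 2) := by ring
        rw [e2]
        have e3 := hmon 3 2 (by norm_num) (by norm_num)
        calc (ε / B) * ((N : ℝ) ^ 3 * D ^ 2) ≤ (ε / B) * B := mul_le_mul_of_nonneg_left e3 (by positivity)
          _ = ε := by field_simp)
    exact ⟨a1, φ1, m * l1, by rw [hRy]; exact BI_scale h1 hm0⟩

end Pool.Agent.MPcc2398.BR
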