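import Pool.Agent.Lib.MP_cc2398_al.BR.Spec

/-!
# MP_cc2398_al, project BR, part G: basic properties of the cones `Bs`, `Ns`
-/

set_option autoImplicit false

namespace Pool.Agent.MPcc2398.BR

open Pool.Agent.MPcc2398 Matrix Filter Topology

universe u v w

namespace BNaux

variable {K : Type v} [Field K] (V : AbsoluteValue K ℝ) {n : ℕ}

theorem nv_nonneg (x : Fin n → K) : 0 ≤ nv V x :=
  Finset.sum_nonneg fun _ _ => V.nonneg _

theorem nv_add (x y : Fin n → K) : nv V (x + y) ≤ nv V x + nv V y := by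
  unfold nv
  rw [← Finset.sum_add_distrib]
  exact Finset.sum_le_sum fun i _ => V.add_le _ _

theorem nv_smul (c : K) (x : Fin n → K) : nv V (c • x) = V c * nv V x := by
  unfold nv
  rw [Finset.mul_sum]
  exact Finset.sum_congr rfl fun i _ => by rw [Pi.smul_apply, smul_eq_mul, map_mul]

theorem dot_le (p x : Fin n → K) : V (p ⬝ᵥ x) ≤ nv V p * nv V x := by
  unfold dotProduct
  refine (V.sum_le _ _).trans ?_
  unfold nv
  rw [Finset.sum_mul]
  refine Finset.sum_le_sum fun i _ => ?_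
  rw [map_mul]
  exact mul_le_mul_of_nonneg_left
    (Finset.single_le_sum (f := fun j => V (x j)) (fun j _ => V.nonneg _) (Finset.mem_univ i))
    (V.nonneg _)

end BNaux

open BNaux

theorem vBN : S_BN.{v} := by
  intro K _ V n a φ ψ
  refine ⟨?_, ?_, ?_, ?_⟩
  · intro δ δ' h x hx
    exact lt_of_lt_of_le hx (mul_le_mul_of_nonneg_right h (V.nonneg _))
  · intro δ δ' h x hx
    exact le_trans hx (mul_le_mul_of_nonneg_right h (nv_nonneg V x))
  · have ha := nv_nonneg V a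
    refine ⟨1 / (2 + nv V a), by positivity, ?_⟩
    intro δ hδ hδ0
    rw [Set.disjoint_left]
    intro x hx hN
    have h1 : nv V (x - (φ ⬝ᵥ x) • a) < δ * V (φ ⬝ᵥ x) := hx
    have h2 : V (φ ⬝ᵥ x) ≤ δ * nv V x := hN
    have h0 := nv_nonneg V (x - (φ ⬝ᵥ x) • a)
    have hpos : 0 < V (φ ⬝ᵥ x) := by
      by_contra hc
      push Not at hc
      nlinarith
    have h3 : nv V x ≤ nv V (x - (φ ⬝ᵥ x) • a) + V (φ ⬝ᵥ x) * nv V a := by
      have := nv_add V (x - (φ ⬝ᵥ x) • a) ((φ ⬝ᵥ x) • a)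
      rwa [sub_add_cancel, nv_smul] at this
    have h4 : nv V x < (δ + nv V a) * V (φ ⬝ᵥ x) := by nlinarith
    have h5 : V (φ ⬝ᵥ x) < δ * ((δ + nv V a) * V (φ ⬝ᵥ x)) :=
      lt_of_le_of_lt h2 (mul_lt_mul_of_pos_left h4 hδ)
    have h6 : δ * (2 + nv V a) ≤ 1 := by
      have := (le_div_iff₀ (by positivity : (0 : ℝ) < 2 + nv V a)).1 hδ0
      exact this
    have h7 : δ ≤ 1 := by nlinarith
    have h8 : δ * (δ + nv V a) ≤ 1 := by nlinarith
    nlinarith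
  · intro h δ' hδ'
    have hp := nv_nonneg V ψ
    have hq := nv_nonneg V φ
    have hpq : 0 ≤ nv V ψ * nv V φ := mul_nonneg hp hq
    refine ⟨δ' / (1 + nv V ψ * nv V φ), by positivity, ?_⟩
    intro δ hδ hδ0 x hx
    have h1 : nv V (x - (φ ⬝ᵥ x) • a) < δ * V (φ ⬝ᵥ x) := hx
    have h2 : ψ ⬝ᵥ x = ψ ⬝ᵥ (x - (φ ⬝ᵥ x) • a) := by
      rw [dotProduct_sub, dotProduct_smul, h, smul_zero, sub_zero]
    have h3 : V (ψ ⬝ᵥ x) ≤ nv V ψ * nv V (x - (φ ⬝ᵥ x) • a) := by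
      rw [h2]; exact dot_le V _ _
    have h4 : V (φ ⬝ᵥ x) ≤ nv V φ * nv V x := dot_le V _ _
    have hx0 := nv_nonneg V x
    have h6 : δ * (1 + nv V ψ * nv V φ) ≤ δ' :=
      (le_div_iff₀ (by positivity : (0 : ℝ) < 1 + nv V ψ * nv V φ)).1 hδ0
    have h7 : nv V ψ * nv V (x - (φ ⬝ᵥ x) • a) ≤ nv V ψ * (δ * (nv V φ * nv V x)) :=
      mul_le_mul_of_nonneg_left (h1.le.trans (mul_le_mul_of_nonneg_left h4 hδ.le)) hp
    have h8 : δ * (nv V ψ * nv V φ) ≤ δ' := by nlinarith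
    show V (ψ ⬝ᵥ x) ≤ δ' * nv V x
    calc V (ψ ⬝ᵥ x) ≤ nv V ψ * (δ * (nv V φ * nv V x)) := h3.trans h7
      _ = δ * (nv V ψ * nv V φ) * nv V x := by ring
      _ ≤ δ' * nv V x := mul_le_mul_of_nonneg_right h8 hx0

end Pool.Agent.MPcc2398.BR
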