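import Pool.Agent.Lib.MP_cc2398_al.BR.SpecB

/-!
# MP_cc2398_al, project BR, package B: assembly (Burnside - Schur)
-/

set_option autoImplicit false

namespace Pool.Agent.MPcc2398.BR

universe u v

theorem vBur (h1 : S_B1.{u, v}) (h6 : S_B6.{u, v}) (h7 : S_B7.{u, v}) (h8 : S_B8.{u}) : S_Bur.{u, v} := by
  intro K _ _ Γ _ hΓ n ρ hI hr
  obtain ⟨e, he, hz⟩ := h6 K Γ hΓ n ρ hr
  refine h7 K Γ n ρ (h1 K Γ n ρ hI) ((h8 K e n he).subset ?_)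
  rintro _ ⟨x, rfl⟩
  exact ⟨ρ x, hz x, rfl⟩

end Pool.Agent.MPcc2398.BR
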