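import Pool.Agent.Lib.MP_cc2398_al.BR.Spec

/-!
MP_cc2398_al, project BR, module CA: the algebra generated by the coefficients is Noetherian, closed under
translations and inversion, and contains the matrix coefficients.
-/

set_option autoImplicit false

namespace Pool.Agent.MPcc2398.BR

open Pool.Agent.MPcc2398 Matrix Filter Topology

universe u v w

namespace CAaux

variable {G : Type u} [Group G] {K : Type v} [Field K] {n : ℕ} (ρ : G →* Matrix (Fin n) (Fin n) K)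

lemma gen1 (i j : Fin n) : (fun g => ρ g i j) ∈ CA ρ :=
  Algebra.subset_adjoin ⟨i, j, Or.inl rfl⟩

lemma gen2 (i j : Fin n) : (fun g => ρ g⁻¹ i j) ∈ CA ρ :=
  Algebra.subset_adjoin ⟨i, j, Or.inr rfl⟩

/-- linear combinations -/
lemma lin (c : Fin n → K) (f : Fin n → G → K) (h : ∀ i, f i ∈ CA ρ) :
    (fun g => ∑ i, c i * f i g) ∈ CA ρ := by
  have h1 : (fun g => ∑ i, c i * f i g) = ∑ i, c i • f i := by
    funext g
    simp [Finset.sum_apply]
  rw [h1]
  exact Subalgebra.sum_mem _ fun i _ => Subalgebra.smul_mem _ (h i) _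

/-- composition with a map `t`, when the generators allow it -/
lemma comp (t : G → G)
    (h : ∀ i j, (fun g => ρ (t g) i j) ∈ CA ρ ∧ (fun g => ρ (t g)⁻¹ i j) ∈ CA ρ) :
    ∀ f ∈ CA ρ, (fun g => f (t g)) ∈ CA ρ := by
  intro f hf
  unfold CA at hf
  induction hf using Algebra.adjoin_induction with
  | mem f hf =>
    obtain ⟨i, j, rfl | rfl⟩ := hf
    · exact (h i j).1
    · exact (h i j).2
  | algebraMap r => exact (CA ρ).algebraMap_mem r
  | add f f' _ _ h1 h2 => exact (CA ρ).add_mem h1 h2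
  | mul f f' _ _ h1 h2 => exact (CA ρ).mul_mem h1 h2

lemma noeth : IsNoetherianRing (CA ρ) := by
  have hfin : ({f : G → K | ∃ i j, f = (fun g => ρ g i j) ∨ f = (fun g => ρ g⁻¹ i j)}).Finite := by
    have h1 : {f : G → K | ∃ i j, f = (fun g => ρ g i j) ∨ f = (fun g => ρ g⁻¹ i j)} ⊆
        Set.range (fun p : Fin n × Fin n => (fun g => ρ g p.1 p.2)) ∪
        Set.range (fun p : Fin n × Fin n => (fun g => ρ g⁻¹ p.1 p.2)) := by
      rintro f ⟨i, j, rfl | rfl⟩
      · exact Or.inl ⟨(i, j), rfl⟩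
      · exact Or.inr ⟨(i, j), rfl⟩
    exact ((Set.finite_range _).union (Set.finite_range _)).subset h1
  have hfg : (CA ρ).FG := by
    refine Subalgebra.fg_def.2 ⟨_, hfin, rfl⟩
  have hft : Algebra.FiniteType K (CA ρ) := (Subalgebra.fg_iff_finiteType _).1 hfg
  exact Algebra.FiniteType.isNoetherianRing K _

lemma tr_right (x : G) : ∀ f ∈ CA ρ, (fun g => f (g * x)) ∈ CA ρ := by
  refine comp ρ (fun g => g * x) fun i j => ⟨?_, ?_⟩
  · have h1 : (fun g => ρ (g * x) i j) = fun g => ∑ k, ρ x k j * ρ g i k := by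
      funext g
      rw [map_mul, Matrix.mul_apply]
      exact Finset.sum_congr rfl fun k _ => mul_comm _ _
    rw [h1]
    exact lin ρ (fun k => ρ x k j) (fun k g => ρ g i k) fun k => gen1 ρ i k
  · have h1 : (fun g => ρ (g * x)⁻¹ i j) = fun g => ∑ k, ρ x⁻¹ i k * ρ g⁻¹ k j := by
      funext g
      rw [_root_.mul_inv_rev, map_mul, Matrix.mul_apply]
    rw [h1]
    exact lin ρ (fun k => ρ x⁻¹ i k) (fun k g => ρ g⁻¹ k j) fun k => gen2 ρ k j

lemma tr_left (x : G) : ∀ f ∈ CA ρ, (fun g => f (x * g)) ∈ CA ρ := by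
  refine comp ρ (fun g => x * g) fun i j => ⟨?_, ?_⟩
  · have h1 : (fun g => ρ (x * g) i j) = fun g => ∑ k, ρ x i k * ρ g k j := by
      funext g
      rw [map_mul, Matrix.mul_apply]
    rw [h1]
    exact lin ρ (fun k => ρ x i k) (fun k g => ρ g k j) fun k => gen1 ρ k j
  · have h1 : (fun g => ρ (x * g)⁻¹ i j) = fun g => ∑ k, ρ x⁻¹ k j * ρ g⁻¹ i k := by
      funext g
      rw [_root_.mul_inv_rev, map_mul, Matrix.mul_apply]
      exact Finset.sum_congr rfl fun k _ => mul_comm _ _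
    rw [h1]
    exact lin ρ (fun k => ρ x⁻¹ k j) (fun k g => ρ g⁻¹ i k) fun k => gen2 ρ i k

lemma tr_inv : ∀ f ∈ CA ρ, (fun g => f g⁻¹) ∈ CA ρ := by
  refine comp ρ (fun g => g⁻¹) fun i j => ⟨gen2 ρ i j, ?_⟩
  have h1 : (fun g => ρ (g⁻¹)⁻¹ i j) = fun g => ρ g i j := by
    funext g
    rw [inv_inv]
  rw [h1]
  exact gen1 ρ i j

lemma coeff1 (a φ : Fin n → K) : (fun g => φ ⬝ᵥ (ρ g *ᵥ a)) ∈ CA ρ := by
  have h1 : (fun g => φ ⬝ᵥ (ρ g *ᵥ a)) = fun g => ∑ i, φ i * (∑ j, a j * ρ g i j) := by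
    funext g
    simp only [dotProduct, mulVec]
    refine Finset.sum_congr rfl fun i _ => ?_
    congr 1
    exact Finset.sum_congr rfl fun j _ => mul_comm _ _
  rw [h1]
  exact lin ρ φ (fun i g => ∑ j, a j * ρ g i j) fun i =>
    lin ρ a (fun j g => ρ g i j) fun j => gen1 ρ i j

end CAaux

open CAaux

theorem vCA : S_CA.{u, v} := by
  intro G _ K _ n ρ
  refine ⟨noeth ρ, fun f hf => ⟨fun x => tr_right ρ x f hf, fun x => tr_left ρ x f hf, tr_inv ρ f hf⟩,
    fun a φ => ⟨coeff1 ρ a φ, ?_⟩⟩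
  exact tr_inv ρ _ (coeff1 ρ a φ)

end Pool.Agent.MPcc2398.BR
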