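import Pool.Agent.Lib.MP_cc2398_al.BR.Spec
import Pool.Agent.Lib.MP_cc2398_al.OE.DC

/-!
# MP_cc2398_al, project BR: the group is countable (`S_Cnt`)
-/

set_option autoImplicit false

namespace Pool.Agent.MPcc2398.BR

open Pool.Agent.MPcc2398 Matrix Filter Topology

universe u v w

namespace Cntaux

theorem freeGroup_countable : Countable (FreeGroup ℕ) := by
  have h : Function.Surjective (FreeGroup.mk : List (ℕ × Bool) → FreeGroup ℕ) := Quot.mk_surjective
  exact h.countable

theorem closure_range_countable {G : Type u} [Group G] (g : ℕ → G) :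
    ((Subgroup.closure (Set.range g) : Subgroup G) : Set G).Countable := by
  have := freeGroup_countable
  rw [← FreeGroup.range_lift_eq_closure, MonoidHom.coe_range]
  exact Set.countable_range _

end Cntaux

open Cntaux in
/-- A barely transitive totally imprimitive group is countable. -/
theorem vCnt : S_Cnt.{u} := by
  intro G _ H hTB
  obtain ⟨-, g, hg⟩ := OE.vDC G H hTB
  have hΓ : Subgroup.closure (Set.range g) = ⊤ := by
    by_contra hne
    have h0 : ((H.subgroupOf (Subgroup.closure (Set.range g)))).FiniteIndex := ⟨hTB.rel _ hne⟩
    have hf : Finite (Subgroup.closure (Set.range g) ⧸ H.subgroupOf (Subgroup.closure (Set.range g))) :=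
      Subgroup.finite_quotient_of_finiteIndex
    have hi : Function.Injective fun i : ℕ =>
        (QuotientGroup.mk (⟨g i, Subgroup.subset_closure ⟨i, rfl⟩⟩ : Subgroup.closure (Set.range g)) :
          Subgroup.closure (Set.range g) ⧸ H.subgroupOf (Subgroup.closure (Set.range g))) := by
      intro i j hij
      by_contra hne'
      have h1 := QuotientGroup.eq.1 hij
      have h2 : (g i)⁻¹ * g j ∈ H := Subgroup.mem_subgroupOf.1 h1
      refine hg i j hne' 1 H.one_mem _ h2 ?_
      group
    exact not_injective_infinite_finite _ hi
  have h3 := closure_range_countable g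
  rw [hΓ, Subgroup.coe_top] at h3
  exact Set.countable_univ_iff.1 h3

end Pool.Agent.MPcc2398.BR
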