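import Pool.Agent.Lib.MP_cc2398_al.BR.Spec

/-!
# MP_cc2398_al, project BR, module ConM (the name Con is reserved): local transversality
-/

set_option autoImplicit false

namespace Pool.Agent.MPcc2398.BR

open Pool.Agent.MPcc2398 Matrix Filter Topology

universe u v w

namespace Conaux

variable {K : Type v} [Field K] (V : AbsoluteValue K ℝ) {n : ℕ}

lemma nv_nonneg (x : Fin n → K) : 0 ≤ nv V x := Finset.sum_nonneg fun i _ => V.nonneg (x i)

lemma mv_nonneg (A : Matrix (Fin n) (Fin n) K) : 0 ≤ mv V A :=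
  Finset.sum_nonneg fun i _ => Finset.sum_nonneg fun j _ => V.nonneg (A i j)

lemma le_nv (x : Fin n → K) (i : Fin n) : V (x i) ≤ nv V x :=
  Finset.single_le_sum (f := fun i => V (x i)) (fun j _ => V.nonneg (x j)) (Finset.mem_univ i)

lemma V_sum_le (f : Fin n → K) : V (∑ i, f i) ≤ ∑ i, V (f i) := by
  classical
  have h : ∀ s : Finset (Fin n), V (∑ i ∈ s, f i) ≤ ∑ i ∈ s, V (f i) := by
    intro s
    induction s using Finset.induction_on with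
    | empty => simp
    | insert a s ha ih =>
      rw [Finset.sum_insert ha, Finset.sum_insert ha]
      exact (V.add_le _ _).trans (add_le_add le_rfl ih)
  exact h Finset.univ

lemma dot_le (y x : Fin n → K) : V (y ⬝ᵥ x) ≤ nv V y * nv V x := by
  unfold dotProduct
  refine (V_sum_le V _).trans ?_
  calc ∑ i, V (y i * x i) ≤ ∑ i, V (y i) * nv V x := by
        refine Finset.sum_le_sum fun i _ => ?_
        rw [map_mul]
        exact mul_le_mul_of_nonneg_left (le_nv V x i) (V.nonneg _)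
    _ = nv V y * nv V x := by rw [← Finset.sum_mul]; rfl

lemma mulVec_le (A : Matrix (Fin n) (Fin n) K) (x : Fin n → K) : nv V (A *ᵥ x) ≤ mv V A * nv V x := by
  rw [mv, Finset.sum_mul]
  exact Finset.sum_le_sum fun i _ => dot_le V (A i) x

lemma nv_add (x y : Fin n → K) : nv V (x + y) ≤ nv V x + nv V y := by
  unfold nv
  rw [← Finset.sum_add_distrib]
  exact Finset.sum_le_sum fun i _ => V.add_le _ _

lemma nv_smul (c : K) (x : Fin n → K) : nv V (c • x) = V c * nv V x := by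
  unfold nv
  rw [Finset.mul_sum]
  exact Finset.sum_congr rfl fun i _ => by simp

end Conaux

open Conaux in
theorem vCon : S_Con.{v} := by
  intro K _ V n A a φ ψ h
  have he : 0 < V (ψ ⬝ᵥ (A *ᵥ a)) := V.pos h
  set e := V (ψ ⬝ᵥ (A *ᵥ a)) with hedef
  have h1 := nv_nonneg V ψ
  have h2 := mv_nonneg V A
  have h3 := nv_nonneg V (A *ᵥ a)
  have hP : 0 ≤ nv V ψ * mv V A := mul_nonneg h1 h2
  have hD : 0 < 2 * (1 + nv V ψ * mv V A + nv V (A *ᵥ a) + mv V A) := by positivity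
  obtain ⟨δ, hδ0, hδ1, hδe⟩ : ∃ δ : ℝ, 0 < δ ∧ δ ≤ 1 ∧
      δ * (2 * (1 + nv V ψ * mv V A + nv V (A *ᵥ a) + mv V A)) ≤ e := by
    refine ⟨min 1 (e / (2 * (1 + nv V ψ * mv V A + nv V (A *ᵥ a) + mv V A))),
      lt_min one_pos (div_pos he hD), min_le_left _ _, ?_⟩
    calc min 1 (e / (2 * (1 + nv V ψ * mv V A + nv V (A *ᵥ a) + mv V A))) *
          (2 * (1 + nv V ψ * mv V A + nv V (A *ᵥ a) + mv V A))
        ≤ (e / (2 * (1 + nv V ψ * mv V A + nv V (A *ᵥ a) + mv V A))) *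
          (2 * (1 + nv V ψ * mv V A + nv V (A *ᵥ a) + mv V A)) :=
          mul_le_mul_of_nonneg_right (min_le_right _ _) hD.le
      _ = e := div_mul_cancel₀ _ hD.ne'
  refine ⟨δ, hδ0, ?_⟩
  intro δ' hδ'0 hδ'δ x hx hN
  have hx' : nv V (x - (φ ⬝ᵥ x) • a) < δ' * V (φ ⬝ᵥ x) := hx
  have hN' : V (ψ ⬝ᵥ (A *ᵥ x)) ≤ δ * nv V (A *ᵥ x) := hN
  obtain ⟨r, hr⟩ : ∃ r, r = x - (φ ⬝ᵥ x) • a := ⟨_, rfl⟩
  rw [← hr] at hx'
  have hxr : x = (φ ⬝ᵥ x) • a + r := by rw [hr]; abel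
  have hrn := nv_nonneg V r
  have hc : 0 < V (φ ⬝ᵥ x) := by
    by_contra hcon
    have h0 : V (φ ⬝ᵥ x) = 0 := le_antisymm (not_lt.mp hcon) (V.nonneg _)
    rw [h0, mul_zero] at hx'
    exact absurd hx' (not_lt.mpr hrn)
  obtain ⟨c, hcdef⟩ : ∃ c, c = φ ⬝ᵥ x := ⟨_, rfl⟩
  rw [← hcdef] at hx' hxr hc
  have hr1 : nv V r ≤ δ * V c := hx'.le.trans (mul_le_mul_of_nonneg_right hδ'δ hc.le)
  have hAx : A *ᵥ x = c • (A *ᵥ a) + A *ᵥ r := by
    conv_lhs => rw [hxr]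
    rw [Matrix.mulVec_add, Matrix.mulVec_smul]
  have hAr : nv V (A *ᵥ r) ≤ mv V A * (δ * V c) :=
    (mulVec_le V A r).trans (mul_le_mul_of_nonneg_left hr1 h2)
  have hup : nv V (A *ᵥ x) ≤ V c * nv V (A *ᵥ a) + mv V A * (δ * V c) := by
    rw [hAx]
    refine (nv_add V _ _).trans ?_
    rw [nv_smul]
    exact add_le_add le_rfl hAr
  have hlow : V c * e ≤ V (ψ ⬝ᵥ (A *ᵥ x)) + nv V ψ * (mv V A * (δ * V c)) := by
    have hval : c * (ψ ⬝ᵥ (A *ᵥ a)) = ψ ⬝ᵥ (A *ᵥ x) + -(ψ ⬝ᵥ (A *ᵥ r)) := by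
      rw [hAx, dotProduct_add, dotProduct_smul, smul_eq_mul]; ring
    calc V c * e = V (c * (ψ ⬝ᵥ (A *ᵥ a))) := by rw [map_mul]
      _ ≤ V (ψ ⬝ᵥ (A *ᵥ x)) + V (-(ψ ⬝ᵥ (A *ᵥ r))) := by rw [hval]; exact V.add_le _ _
      _ ≤ V (ψ ⬝ᵥ (A *ᵥ x)) + nv V ψ * (mv V A * (δ * V c)) := by
          rw [V.map_neg]
          exact add_le_add le_rfl ((dot_le V ψ _).trans (mul_le_mul_of_nonneg_left hAr h1))
  have hfin : V c * e ≤ δ * (V c * nv V (A *ᵥ a) + mv V A * (δ * V c)) +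
      nv V ψ * (mv V A * (δ * V c)) :=
    hlow.trans (add_le_add (hN'.trans (mul_le_mul_of_nonneg_left hup hδ0.le)) le_rfl)
  have hq : δ * (δ * mv V A) ≤ δ * mv V A :=
    mul_le_of_le_one_left (mul_nonneg hδ0.le h2) hδ1
  have hfin2 : V c * e ≤ V c * (δ * (nv V (A *ᵥ a) + mv V A + nv V ψ * mv V A)) := by
    refine hfin.trans ?_
    have : δ * (V c * nv V (A *ᵥ a) + mv V A * (δ * V c)) + nv V ψ * (mv V A * (δ * V c)) =
      V c * (δ * nv V (A *ᵥ a) + δ * (δ * mv V A) + δ * (nv V ψ * mv V A)) := by ring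
    rw [this]
    refine mul_le_mul_of_nonneg_left ?_ hc.le
    nlinarith [hq]
  have hfin3 : e ≤ δ * (nv V (A *ᵥ a) + mv V A + nv V ψ * mv V A) := le_of_mul_le_mul_left hfin2 hc
  nlinarith [mul_nonneg hδ0.le h2, mul_nonneg hδ0.le h3, mul_nonneg hδ0.le hP, hδ0, hδe]

end Pool.Agent.MPcc2398.BR
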