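import Pool.Agent.Lib.MP_cc2398_al.BR.Spec

/-!
# MP_cc2398_al, project BR, module Ctb: a representation over a countable algebraically closed field
-/

set_option autoImplicit false

namespace Pool.Agent.MPcc2398.BR

open Pool.Agent.MPcc2398 Matrix Filter Topology

universe u v w

private theorem Ctb_clo (F : Type v) [Field F] (s : Set F) (hs : s.Countable) :
    Countable (Subfield.closure s) := by
  rw [← Cardinal.mk_le_aleph0_iff]
  refine (Subfield.cardinalMk_closure_le_max s).trans (max_le ?_ le_rfl)
  exact Cardinal.le_aleph0_iff_set_countable.2 hs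

private theorem Ctb_alg (F : Type v) [Field F] [Countable F] : Countable (AlgebraicClosure F) := by
  rw [← Cardinal.mk_le_aleph0_iff]
  exact (Algebra.IsAlgebraic.cardinalMk_le_max F (AlgebraicClosure F)).trans
    (max_le (Cardinal.mk_le_aleph0_iff.2 inferInstance) le_rfl)

theorem vCtb : S_Ctb.{u, v} := by
  intro G _ _ F _ m ρ₀ x₀ h0
  let s : Set F := Set.range fun a : G × Fin m × Fin m => ρ₀ a.1 a.2.1 a.2.2
  have hs : s.Countable := Set.countable_range _
  have hs' : ∀ x i j, ρ₀ x i j ∈ Subfield.closure s := fun x i j =>
    Subfield.subset_closure ⟨(x, i, j), rfl⟩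
  have hc : Countable (Subfield.closure s) := Ctb_clo F s hs
  let τ : G → Matrix (Fin m) (Fin m) (Subfield.closure s) := fun x => Matrix.of fun i j => ⟨ρ₀ x i j, hs' x i j⟩
  have hτ : ∀ x, (Subfield.closure s).subtype.mapMatrix (τ x) = ρ₀ x := fun x => by
    ext i j
    rfl
  have hinj : Function.Injective ((Subfield.closure s).subtype.mapMatrix (m := Fin m)) := by
    intro A B h
    ext i j
    exact congrFun (congrFun h i) j
  let σ : G →* Matrix (Fin m) (Fin m) (Subfield.closure s) :=
    { toFun := τ
      map_one' := hinj (by rw [hτ, map_one, map_one])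
      map_mul' := fun x y => hinj (by rw [hτ, map_mul, map_mul, hτ, hτ]) }
  refine ⟨AlgebraicClosure (Subfield.closure s), inferInstance, Ctb_alg _, inferInstance,
    ((algebraMap (Subfield.closure s) (AlgebraicClosure (Subfield.closure s))).mapMatrix.toMonoidHom).comp σ, ?_⟩
  intro h
  apply h0
  have h1 : τ x₀ = 1 := by
    ext i j
    have h2 := congrFun (congrFun h i) j
    have h3 : algebraMap (Subfield.closure s) (AlgebraicClosure (Subfield.closure s)) (τ x₀ i j) =
        (1 : Matrix (Fin m) (Fin m) (AlgebraicClosure (Subfield.closure s))) i j := h2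
    have h4 : algebraMap (Subfield.closure s) (AlgebraicClosure (Subfield.closure s))
        ((1 : Matrix (Fin m) (Fin m) (Subfield.closure s)) i j) =
        (1 : Matrix (Fin m) (Fin m) (AlgebraicClosure (Subfield.closure s))) i j := by
      rw [Matrix.one_apply, Matrix.one_apply]
      split_ifs <;> simp
    exact congrArg Subtype.val ((algebraMap (Subfield.closure s)
      (AlgebraicClosure (Subfield.closure s))).injective (h3.trans h4.symm))
  rw [← hτ, h1, map_one]

end Pool.Agent.MPcc2398.BR
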