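import Pool.Agent.Lib.MP_cc2398_al.BR.Spec

/-!
# MP_cc2398_al, project BR, module DL: the residual subgroup
-/

set_option autoImplicit false

namespace Pool.Agent.MPcc2398.BR

open Pool.Agent.MPcc2398 Matrix Filter Topology

universe u v w

namespace DLaux

/-- All representations of degree `c` of the subgroup `A` are trivial on `g`. -/
def Tr {G : Type u} [Group G] (c : ℕ) (A : Subgroup G) (g : G) : Prop :=
  ∃ h : g ∈ A, ∀ (F : Type w) [Field F] (ρ : A →* Matrix (Fin c) (Fin c) F), ρ ⟨g, h⟩ = 1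

theorem Tr.mono {G : Type u} [Group G] {c : ℕ} {A B : Subgroup G} {g : G} (h : Tr.{u, w} c A g) (hAB : A ≤ B) :
    Tr.{u, w} c B g := by
  obtain ⟨hg, hr⟩ := h
  refine ⟨hAB hg, ?_⟩
  intro F _ ρ
  exact hr F (ρ.comp (Subgroup.inclusion hAB))

theorem Tr.one {G : Type u} [Group G] (c : ℕ) (A : Subgroup G) : Tr.{u, w} c A 1 := by
  refine ⟨A.one_mem, ?_⟩
  intro F _ ρ
  exact ρ.map_one

theorem Tr.mul {G : Type u} [Group G] {c : ℕ} {A : Subgroup G} {g h : G} (hg : Tr.{u, w} c A g)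
    (hh : Tr.{u, w} c A h) : Tr.{u, w} c A (g * h) := by
  obtain ⟨ag, rg⟩ := hg
  obtain ⟨ah, rh⟩ := hh
  refine ⟨A.mul_mem ag ah, ?_⟩
  intro F _ ρ
  have h1 : (⟨g * h, A.mul_mem ag ah⟩ : A) = ⟨g, ag⟩ * ⟨h, ah⟩ := rfl
  rw [h1, ρ.map_mul, rg F ρ, rh F ρ, one_mul]

theorem Tr.inv {G : Type u} [Group G] {c : ℕ} {A : Subgroup G} {g : G} (hg : Tr.{u, w} c A g) :
    Tr.{u, w} c A g⁻¹ := by
  obtain ⟨ag, rg⟩ := hg
  refine ⟨A.inv_mem ag, ?_⟩
  intro F _ ρ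
  have h1 : ρ (⟨g, ag⟩ * ⟨g⁻¹, A.inv_mem ag⟩ : A) = 1 := by
    have h2 : (⟨g, ag⟩ * ⟨g⁻¹, A.inv_mem ag⟩ : A) = 1 := by
      apply Subtype.ext
      exact mul_inv_cancel g
    rw [h2, ρ.map_one]
  rw [ρ.map_mul, rg F ρ, one_mul] at h1
  exact h1

theorem Tr.conj {G : Type u} [Group G] {c : ℕ} {A B : Subgroup G} {g l : G} (hg : Tr.{u, w} c A g)
    (hAB : ∀ x ∈ A, l * x * l⁻¹ ∈ B) : Tr.{u, w} c B (l * g * l⁻¹) := by
  obtain ⟨ag, rg⟩ := hg
  refine ⟨hAB g ag, ?_⟩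
  intro F _ ρ
  let φ : A →* B := ((MulAut.conj l).toMonoidHom.comp A.subtype).codRestrict B (by
    rintro ⟨x, hx⟩
    exact hAB x hx)
  have h1 : φ ⟨g, ag⟩ = ⟨l * g * l⁻¹, hAB g ag⟩ := by
    apply Subtype.ext
    rfl
  have h2 := rg F (ρ.comp φ)
  rw [MonoidHom.comp_apply, h1] at h2
  exact h2

theorem kl_iff {G : Type u} [Group G] {c : ℕ} {K : Subgroup G} {g : G} :
    KL.{u, w} c K g ↔ ∃ s : Finset G, (s : Set G) ⊆ K ∧ Tr.{u, w} c (Subgroup.closure (s : Set G)) g :=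
  Iff.rfl

theorem kl_one {G : Type u} [Group G] (c : ℕ) (K : Subgroup G) : KL.{u, w} c K 1 := by
  rw [kl_iff]
  refine ⟨∅, ?_, Tr.one c _⟩
  intro x hx
  simp at hx

theorem kl_mul {G : Type u} [Group G] {c : ℕ} {K : Subgroup G} {g h : G} (hg : KL.{u, w} c K g)
    (hh : KL.{u, w} c K h) : KL.{u, w} c K (g * h) := by
  classical
  rw [kl_iff] at hg hh ⊢
  obtain ⟨s, hs, ts⟩ := hg
  obtain ⟨t, ht, tt⟩ := hh
  refine ⟨s ∪ t, ?_, Tr.mul (ts.mono ?_) (tt.mono ?_)⟩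
  · rw [Finset.coe_union]
    exact Set.union_subset hs ht
  · exact Subgroup.closure_mono (Finset.coe_subset.2 Finset.subset_union_left)
  · exact Subgroup.closure_mono (Finset.coe_subset.2 Finset.subset_union_right)

theorem kl_inv {G : Type u} [Group G] {c : ℕ} {K : Subgroup G} {g : G} (hg : KL.{u, w} c K g) :
    KL.{u, w} c K g⁻¹ := by
  rw [kl_iff] at hg ⊢
  obtain ⟨s, hs, ts⟩ := hg
  exact ⟨s, hs, ts.inv⟩

theorem kl_conj {G : Type u} [Group G] {c : ℕ} {K : Subgroup G} {g l : G}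
    (hl : ∀ x ∈ K, l * x * l⁻¹ ∈ K) (hg : KL.{u, w} c K g) : KL.{u, w} c K (l * g * l⁻¹) := by
  classical
  rw [kl_iff] at hg ⊢
  obtain ⟨s, hs, ts⟩ := hg
  refine ⟨s.image (fun x => l * x * l⁻¹), ?_, ts.conj ?_⟩
  · intro y hy
    rw [Finset.coe_image] at hy
    obtain ⟨x, hx, rfl⟩ := hy
    exact hl x (hs hx)
  · intro x hx
    induction hx using Subgroup.closure_induction with
    | mem x hx =>
      apply Subgroup.subset_closure
      rw [Finset.coe_image]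
      exact ⟨x, hx, rfl⟩
    | one =>
      have h1 : l * 1 * l⁻¹ = 1 := by group
      rw [h1]
      exact Subgroup.one_mem _
    | mul x y _ _ hx hy =>
      have h1 : l * (x * y) * l⁻¹ = (l * x * l⁻¹) * (l * y * l⁻¹) := by group
      rw [h1]
      exact Subgroup.mul_mem _ hx hy
    | inv x _ hx =>
      have h1 : l * x⁻¹ * l⁻¹ = (l * x * l⁻¹)⁻¹ := by group
      rw [h1]
      exact Subgroup.inv_mem _ hx

end DLaux

open DLaux in
/-- **DL** -/
theorem vDL : S_DL.{u, w} := by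
  intro G _ c K
  let D : Subgroup G :=
    { carrier := {g | KL.{u, w} c K g}
      mul_mem' := fun hg hh => kl_mul hg hh
      one_mem' := kl_one c K
      inv_mem' := fun hg => kl_inv hg }
  refine ⟨D, fun g => Iff.rfl, ?_, ?_⟩
  · intro L hL l hl m hm
    exact kl_conj (fun x hx => hL l hl x hx) hm
  · intro F _ ρ g hg
    have hg' : KL.{u, w} c K (g : G) := hg
    rw [kl_iff] at hg'
    obtain ⟨s, hs, ts⟩ := hg'
    obtain ⟨hm, hr⟩ := ts.mono ((Subgroup.closure_le K).2 hs)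
    exact hr F ρ

end Pool.Agent.MPcc2398.BR
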