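import Pool.Agent.Lib.MP_cc2398_al.BR.Spec

/-!
# MP_cc2398_al, project BR, module Det: the dominant determinant
-/

set_option autoImplicit false

namespace Pool.Agent.MPcc2398.BR

open Pool.Agent.MPcc2398 Matrix Filter Topology

universe u v w

private theorem Det_mv_nonneg {K : Type v} [Field K] (V : AbsoluteValue K ℝ) {a b : ℕ}
    (P : Matrix (Fin a) (Fin b) K) : 0 ≤ mv V P :=
  Finset.sum_nonneg fun _ _ => Finset.sum_nonneg fun _ _ => V.nonneg _

private theorem Det_row {K : Type v} [Field K] (V : AbsoluteValue K ℝ) {a b : ℕ}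
    (P : Matrix (Fin a) (Fin b) K) (i : Fin a) : ∑ p, V (P i p) ≤ mv V P :=
  Finset.single_le_sum (f := fun i => ∑ p, V (P i p))
    (fun _ _ => Finset.sum_nonneg fun _ _ => V.nonneg _) (Finset.mem_univ i)

private theorem Det_col {K : Type v} [Field K] (V : AbsoluteValue K ℝ) {a b : ℕ}
    (S : Matrix (Fin a) (Fin b) K) (j : Fin b) : ∑ q, V (S q j) ≤ mv V S :=
  Finset.sum_le_sum fun q _ =>
    Finset.single_le_sum (f := fun j => V (S q j)) (fun _ _ => V.nonneg _) (Finset.mem_univ j)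

/-- entries of a product of three matrices -/
private theorem Det_bd {K : Type v} [Field K] (V : AbsoluteValue K ℝ) {a b c d : ℕ}
    (P : Matrix (Fin a) (Fin b) K) (Q : Matrix (Fin b) (Fin c) K) (S : Matrix (Fin c) (Fin d) K) (β : ℝ)
    (hβ : 0 ≤ β) (hQ : ∀ p q, V (Q p q) ≤ β) (i : Fin a) (j : Fin d) :
    V ((P * Q * S) i j) ≤ mv V P * mv V S * β := by
  have h1 : ∀ q, V ((P * Q) i q) ≤ mv V P * β := by
    intro q
    rw [Matrix.mul_apply]
    calc V (∑ p, P i p * Q p q) ≤ ∑ p, V (P i p * Q p q) := V.sum_le _ _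
      _ = ∑ p, V (P i p) * V (Q p q) := by simp only [map_mul]
      _ ≤ ∑ p, V (P i p) * β :=
          Finset.sum_le_sum fun p _ => mul_le_mul_of_nonneg_left (hQ p q) (V.nonneg _)
      _ = (∑ p, V (P i p)) * β := (Finset.sum_mul _ _ _).symm
      _ ≤ mv V P * β := mul_le_mul_of_nonneg_right (Det_row V P i) hβ
  rw [Matrix.mul_apply]
  calc V (∑ q, (P * Q) i q * S q j) ≤ ∑ q, V ((P * Q) i q * S q j) := V.sum_le _ _
    _ = ∑ q, V ((P * Q) i q) * V (S q j) := by simp only [map_mul]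
    _ ≤ ∑ q, (mv V P * β) * V (S q j) :=
        Finset.sum_le_sum fun q _ => mul_le_mul_of_nonneg_right (h1 q) (V.nonneg _)
    _ = (mv V P * β) * ∑ q, V (S q j) := (Finset.mul_sum _ _ _).symm
    _ ≤ (mv V P * β) * mv V S :=
        mul_le_mul_of_nonneg_left (Det_col V S j) (mul_nonneg (Det_mv_nonneg V P) hβ)
    _ = _ := by ring

/-- the determinant of the block is a coefficient -/
private theorem Det_mem (hCA : S_CA.{u, v}) {G : Type u} [Group G] {K : Type v} [Field K] {n r : ℕ}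
    (ρ : G →* Matrix (Fin n) (Fin n) K) (L : Matrix (Fin n) (Fin r) K) (J : Matrix (Fin r) (Fin n) K) :
    (fun x : G => (J * ρ x * L).det) ∈ CA ρ := by
  have h1 : ∀ i j, (fun x : G => (J * ρ x * L) i j) ∈ CA ρ := by
    intro i j
    have h2 := ((hCA G K n ρ).2.2 (fun q => L q j) (J i)).1
    have h3 : (fun x : G => (J * ρ x * L) i j) = fun g => J i ⬝ᵥ (ρ g *ᵥ fun q => L q j) := by
      funext x
      rw [Matrix.mul_assoc, Matrix.mul_apply]
      rfl
    rw [h3]
    exact h2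
  have h4 : (fun x : G => (J * ρ x * L).det) =
      ∑ σ : Equiv.Perm (Fin r), ((Equiv.Perm.sign σ : ℤˣ) : ℤ) • ∏ i, fun x : G => (J * ρ x * L) (σ i) i := by
    funext x
    rw [Matrix.det_apply, Finset.sum_apply]
    refine Finset.sum_congr rfl fun σ _ => ?_
    rw [Pi.smul_apply, Finset.prod_apply, Units.smul_def]
  rw [h4]
  refine Subalgebra.sum_mem _ fun σ _ => ?_
  exact zsmul_mem (Subalgebra.prod_mem _ fun i _ => h1 (σ i) i) _

theorem vDet (hCA : S_CA.{u, v}) (hGE : S_GE.{v}) (hDtL : S_DtL.{v}) : S_Det.{u, v} := by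
  intro G _ K _ _ V n ρ t l₀ hl₀ hV
  obtain ⟨r, L, J, R, R', c, hr, hR, hR'0, hR'R, hc, hJL, hYL, hdet, hA, hB⟩ := hGE K V n (ρ t) l₀ hl₀ hV
  have hVμ : 1 < V (J * ρ t * L).det := by
    rw [hdet]
    exact one_lt_pow₀ hR hr.ne'
  have hμ : (J * ρ t * L).det ≠ 0 := by
    intro h0
    rw [h0, map_zero] at hVμ
    linarith
  refine ⟨fun x => (J * ρ x * L).det, Det_mem hCA ρ L J, (J * ρ t * L).det, hVμ, ?_, ?_⟩
  · change (J * ρ 1 * L).det = 1
    rw [map_one, Matrix.mul_one, hJL, Matrix.det_one]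
  · intro x g
    have hpow : ∀ k : ℕ, (ρ t) ^ k * L = L * (J * ρ t * L) ^ k := by
      intro k
      induction k with
      | zero => rw [pow_zero, pow_zero, Matrix.one_mul, Matrix.mul_one]
      | succ k ih =>
        rw [pow_succ, Matrix.mul_assoc, hYL, ← Matrix.mul_assoc, ih, pow_succ, Matrix.mul_assoc]
    set c1 : ℝ := mv V (J * ρ x) * mv V (J * ρ g * L) with hc1
    set c2 : ℝ := mv V (J * ρ x) * mv V (ρ g * L) with hc2
    have hc1' : 0 ≤ c1 := mul_nonneg (Det_mv_nonneg _ _) (Det_mv_nonneg _ _)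
    have hc2' : 0 ≤ c2 := mul_nonneg (Det_mv_nonneg _ _) (Det_mv_nonneg _ _)
    have hR0 : 0 < R := by linarith
    have key := hDtL K V r n
      (fun k => (J * ρ x) * ((ρ t) ^ k * L) * (J * ρ g * L))
      (fun k => (J * ρ x) * ((ρ t) ^ k * ((1 : Matrix (Fin n) (Fin n) K) - L * J)) * (ρ g * L))
      (J * ρ t * L).det R R' ((c1 + c2) * c) hR'0 hR'R (mul_nonneg (add_nonneg hc1' hc2') hc) hdet
      (fun k i j => by
        have hb : 0 ≤ c * ((k : ℝ) + 1) ^ n * R ^ k := by positivity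
        refine (Det_bd V _ _ _ _ hb (fun p q => hA k p q) i j).trans ?_
        calc mv V (J * ρ x) * mv V (J * ρ g * L) * (c * ((k : ℝ) + 1) ^ n * R ^ k)
            ≤ (c1 + c2) * (c * ((k : ℝ) + 1) ^ n * R ^ k) :=
              mul_le_mul_of_nonneg_right (by linarith) hb
          _ = _ := by ring)
      (fun k i j => by
        have hb : 0 ≤ c * ((k : ℝ) + 1) ^ n * R' ^ k := by positivity
        refine (Det_bd V _ _ _ _ hb (fun p q => hB k p q) i j).trans ?_
        calc mv V (J * ρ x) * mv V (ρ g * L) * (c * ((k : ℝ) + 1) ^ n * R' ^ k)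
            ≤ (c1 + c2) * (c * ((k : ℝ) + 1) ^ n * R' ^ k) :=
              mul_le_mul_of_nonneg_right (by linarith) hb
          _ = _ := by ring)
    refine key.congr fun k => ?_
    congr 1
    have h1 : (J * ρ x) * ((ρ t) ^ k * L) * (J * ρ g * L) +
        (J * ρ x) * ((ρ t) ^ k * ((1 : Matrix (Fin n) (Fin n) K) - L * J)) * (ρ g * L) =
        J * ρ (x * t ^ k * g) * L := by
      rw [map_mul, map_mul, map_pow]
      simp only [Matrix.mul_sub, Matrix.sub_mul, Matrix.mul_one, Matrix.mul_assoc]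
      abel
    have h2 : ((J * ρ x) * ((ρ t) ^ k * L) * (J * ρ g * L)).det =
        (J * ρ x * L).det * (J * ρ t * L).det ^ k * (J * ρ g * L).det := by
      rw [hpow k, ← Matrix.mul_assoc (J * ρ x), Matrix.det_mul, Matrix.det_mul, Matrix.det_pow]
    show (J * ρ t * L).det⁻¹ ^ k * (((J * ρ x) * ((ρ t) ^ k * L) * (J * ρ g * L) +
        (J * ρ x) * ((ρ t) ^ k * ((1 : Matrix (Fin n) (Fin n) K) - L * J)) * (ρ g * L)).det -
        ((J * ρ x) * ((ρ t) ^ k * L) * (J * ρ g * L)).det) = _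
    rw [h1, h2, mul_sub, inv_pow]
    have h3 : (J * ρ t * L).det ^ k ≠ 0 := pow_ne_zero k hμ
    field_simp

end Pool.Agent.MPcc2398.BR
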