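import Pool.Agent.Lib.MP_cc2398_al.BR.Spec

/-!
# MP_cc2398_al, project BR: the limit of a determinant (`S_DtL`)
-/

set_option autoImplicit false

namespace Pool.Agent.MPcc2398.BR

open Pool.Agent.MPcc2398 Matrix Filter Topology

universe u v w

namespace DtLaux

theorem prodBound {K : Type v} [Field K] (V : AbsoluteValue K ℝ) {ι : Type*} [DecidableEq ι] (s : Finset ι)
    (x z : ι → K) (p q : ℝ) (hp : 0 ≤ p) (hq : 0 ≤ q) (hx : ∀ i ∈ s, V (x i) ≤ p) (hz : ∀ i ∈ s, V (z i) ≤ q) :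
    V (∏ i ∈ s, x i) ≤ p ^ s.card ∧
      V (∏ i ∈ s, (x i + z i) - ∏ i ∈ s, x i) ≤ (p + q) ^ s.card - p ^ s.card := by
  induction s using Finset.induction_on with
  | empty => simp
  | insert i s hi ih =>
    have ih' := ih (fun j hj => hx j (Finset.mem_insert_of_mem hj)) (fun j hj => hz j (Finset.mem_insert_of_mem hj))
    have hxi := hx i (Finset.mem_insert_self i s)
    have hzi := hz i (Finset.mem_insert_self i s)
    rw [Finset.prod_insert hi, Finset.prod_insert hi, Finset.card_insert_of_notMem hi]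
    refine ⟨?_, ?_⟩
    · rw [map_mul, pow_succ']
      exact mul_le_mul hxi ih'.1 (V.nonneg _) hp
    · have e : (x i + z i) * ∏ j ∈ s, (x j + z j) - x i * ∏ j ∈ s, x j =
          (x i + z i) * (∏ j ∈ s, (x j + z j) - ∏ j ∈ s, x j) + z i * ∏ j ∈ s, x j := by ring
      rw [e]
      refine (V.add_le _ _).trans ?_
      rw [map_mul, map_mul]
      have h1 : V (x i + z i) ≤ p + q := (V.add_le _ _).trans (add_le_add hxi hzi)
      have h2 : V (x i + z i) * V (∏ j ∈ s, (x j + z j) - ∏ j ∈ s, x j) ≤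
          (p + q) * ((p + q) ^ s.card - p ^ s.card) :=
        mul_le_mul h1 ih'.2 (V.nonneg _) (by linarith)
      have h3 : V (z i) * V (∏ j ∈ s, x j) ≤ q * p ^ s.card :=
        mul_le_mul hzi ih'.1 (V.nonneg _) hq
      calc _ ≤ (p + q) * ((p + q) ^ s.card - p ^ s.card) + q * p ^ s.card := add_le_add h2 h3
        _ = _ := by ring

theorem powBound (p q : ℝ) (hp : 0 ≤ p) (hq : 0 ≤ q) (r : ℕ) :
    (p + q) ^ (r + 1) - p ^ (r + 1) ≤ ((r : ℝ) + 1) * q * (p + q) ^ r := by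
  induction r with
  | zero => simp
  | succ r ih =>
    have h1 : p ^ (r + 1) ≤ (p + q) ^ (r + 1) := pow_le_pow_left₀ hp (by linarith) _
    have h2 : (p + q) * ((p + q) ^ (r + 1) - p ^ (r + 1)) ≤ (p + q) * (((r : ℝ) + 1) * q * (p + q) ^ r) :=
      mul_le_mul_of_nonneg_left ih (by linarith)
    have h3 : q * p ^ (r + 1) ≤ q * (p + q) ^ (r + 1) := mul_le_mul_of_nonneg_left h1 hq
    calc (p + q) ^ (r + 1 + 1) - p ^ (r + 1 + 1) = (p + q) * ((p + q) ^ (r + 1) - p ^ (r + 1)) + q * p ^ (r + 1) := by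
          ring
      _ ≤ (p + q) * (((r : ℝ) + 1) * q * (p + q) ^ r) + q * (p + q) ^ (r + 1) := add_le_add h2 h3
      _ = _ := by
        push_cast
        ring

theorem detBound {K : Type v} [Field K] (V : AbsoluteValue K ℝ) {r : ℕ} (A B : Matrix (Fin r) (Fin r) K) (p q : ℝ)
    (hp : 0 ≤ p) (hq : 0 ≤ q) (hA : ∀ i j, V (A i j) ≤ p) (hB : ∀ i j, V (B i j) ≤ q) :
    V ((A + B).det - A.det) ≤ (r.factorial : ℝ) * ((p + q) ^ r - p ^ r) := by
  rw [Matrix.det_apply, Matrix.det_apply, ← Finset.sum_sub_distrib]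
  refine (V.sum_le _ _).trans ?_
  have h1 : ∀ σ ∈ (Finset.univ : Finset (Equiv.Perm (Fin r))),
      V (Equiv.Perm.sign σ • ∏ i, (A + B) (σ i) i - Equiv.Perm.sign σ • ∏ i, A (σ i) i) ≤ (p + q) ^ r - p ^ r := by
    intro σ _
    rw [← smul_sub]
    have h2 := (prodBound V Finset.univ (fun i => A (σ i) i) (fun i => B (σ i) i) p q hp hq
      (fun i _ => hA _ _) (fun i _ => hB _ _)).2
    rw [Finset.card_univ, Fintype.card_fin] at h2
    have h3 : V (Equiv.Perm.sign σ • (∏ i, (A + B) (σ i) i - ∏ i, A (σ i) i)) =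
        V (∏ i, (A + B) (σ i) i - ∏ i, A (σ i) i) := by
      rcases Int.units_eq_one_or (Equiv.Perm.sign σ) with h | h
      · rw [h, one_smul]
      · rw [h, Units.neg_smul, one_smul, V.map_neg]
    rw [h3]
    exact h2
  refine (Finset.sum_le_sum h1).trans (le_of_eq ?_)
  rw [Finset.sum_const, Finset.card_univ, Fintype.card_perm, Fintype.card_fin, nsmul_eq_mul]

theorem limBound (D : ℕ) (ρ : ℝ) (h0 : 0 < ρ) (h1 : ρ < 1) :
    Tendsto (fun k : ℕ => ((k : ℝ) + 1) ^ D * ρ ^ k) atTop (𝓝 0) := by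
  have h2 := tendsto_pow_const_mul_const_pow_of_abs_lt_one D (r := ρ) (by rw [abs_of_pos h0]; exact h1)
  have h3 := (tendsto_add_atTop_iff_nat 1).2 h2
  have h4 := h3.const_mul ρ⁻¹
  rw [mul_zero] at h4
  refine h4.congr (fun k => ?_)
  push_cast
  rw [pow_succ]
  field_simp

end DtLaux

open DtLaux

/-- **DtL**. -/
theorem vDtL : S_DtL.{v} := by
  intro K _ V r d A B m R R' c hR' hRR hc hm hA hB
  have hR : 0 < R := hR'.trans hRR
  rcases r with _ | r
  · have h0 : ∀ k : ℕ, V (m⁻¹ ^ k * ((A k + B k).det - (A k).det)) = 0 := by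
      intro k
      rw [Matrix.det_isEmpty, Matrix.det_isEmpty, sub_self, mul_zero, map_zero]
    simp only [h0]
    exact tendsto_const_nhds
  · have hρ0 : 0 < R' / R := div_pos hR' hR
    have hρ1 : R' / R < 1 := (div_lt_one hR).2 hRR
    have hlim := (limBound (d * (r + 1)) (R' / R) hρ0 hρ1).const_mul
      (((r + 1).factorial : ℝ) * ((r : ℝ) + 1) * 2 ^ r * c ^ (r + 1))
    rw [mul_zero] at hlim
    refine squeeze_zero (fun k => V.nonneg _) (fun k => ?_) hlim
    have hk1 : (0 : ℝ) < (k : ℝ) + 1 := by positivity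
    set w : ℝ := c * ((k : ℝ) + 1) ^ d with hw
    have hw0 : 0 ≤ w := by positivity
    have hp : 0 ≤ w * R ^ k := by positivity
    have hq : 0 ≤ w * R' ^ k := by positivity
    have hqp : w * R' ^ k ≤ w * R ^ k := mul_le_mul_of_nonneg_left (pow_le_pow_left₀ hR'.le hRR.le k) hw0
    have h1 := detBound V (A k) (B k) (w * R ^ k) (w * R' ^ k) hp hq (hA k) (hB k)
    have h2 := powBound (w * R ^ k) (w * R' ^ k) hp hq r
    have h3 : (w * R ^ k + w * R' ^ k) ^ r ≤ (2 * (w * R ^ k)) ^ r :=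
      pow_le_pow_left₀ (by linarith) (by linarith) r
    have h4 : V ((A k + B k).det - (A k).det) ≤
        ((r + 1).factorial : ℝ) * (((r : ℝ) + 1) * (w * R' ^ k) * (2 * (w * R ^ k)) ^ r) := by
      refine h1.trans (mul_le_mul_of_nonneg_left ?_ (by positivity))
      refine h2.trans (mul_le_mul_of_nonneg_left h3 ?_)
      positivity
    rw [map_mul, map_pow, map_inv₀, hm]
    have h5 : ((R ^ (r + 1))⁻¹) ^ k * (((r + 1).factorial : ℝ) *
        (((r : ℝ) + 1) * (w * R' ^ k) * (2 * (w * R ^ k)) ^ r)) =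
        ((r + 1).factorial : ℝ) * ((r : ℝ) + 1) * 2 ^ r * c ^ (r + 1) *
          (((k : ℝ) + 1) ^ (d * (r + 1)) * (R' / R) ^ k) := by
      have e1 : ((R ^ (r + 1))⁻¹) ^ k = (R ^ k)⁻¹ * ((R ^ k) ^ r)⁻¹ := by
        rw [← mul_inv, inv_pow]
        congr 1
        rw [← pow_mul, ← pow_mul, ← pow_add]
        congr 1
        ring
      have e2 : ((k : ℝ) + 1) ^ (d * (r + 1)) = ((((k : ℝ) + 1) ^ d)) ^ (r + 1) := by rw [pow_mul]
      rw [e1, e2, div_pow, hw]
      have hRk : R ^ k ≠ 0 := (pow_pos hR k).ne'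
      generalize R ^ k = a at hRk
      generalize R' ^ k = b
      generalize ((k : ℝ) + 1) ^ d = e
      field_simp
      ring
    rw [← h5]
    exact mul_le_mul_of_nonneg_left h4 (by positivity)

end Pool.Agent.MPcc2398.BR
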