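import Pool.Agent.Lib.MP_cc2398_al.BR.Spec

/-!
# MP_cc2398_al, project BR: dynamics of a proximal matrix on cones
-/

set_option autoImplicit false

namespace Pool.Agent.MPcc2398.BR

open Pool.Agent.MPcc2398 Matrix Filter Topology

universe u v w

private theorem Dyn_nv_nonneg {K : Type v} [Field K] (V : AbsoluteValue K ℝ) {n : ℕ}
    (x : Fin n → K) : 0 ≤ nv V x :=
  Finset.sum_nonneg fun i _ => V.nonneg (x i)

private theorem Dyn_le {K : Type v} [Field K] (V : AbsoluteValue K ℝ) {n : ℕ}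
    (E : Matrix (Fin n) (Fin n) K) (x : Fin n → K) : nv V (E *ᵥ x) ≤ mv V E * nv V x := by
  unfold mv
  rw [Finset.sum_mul]
  refine Finset.sum_le_sum fun i _ => ?_
  rw [Finset.sum_mul]
  refine (V.sum_le Finset.univ fun j => E i j * x j).trans ?_
  refine Finset.sum_le_sum fun j _ => ?_
  rw [V.map_mul]
  refine mul_le_mul_of_nonneg_left ?_ (V.nonneg _)
  exact Finset.single_le_sum (f := fun j => V (x j)) (fun j _ => V.nonneg (x j)) (Finset.mem_univ j)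

private theorem Dyn_smul {K : Type v} [Field K] (V : AbsoluteValue K ℝ) {n : ℕ}
    (c : K) (x : Fin n → K) : nv V (c • x) = V c * nv V x := by
  unfold nv
  rw [Finset.mul_sum]
  exact Finset.sum_congr rfl fun i _ => by rw [Pi.smul_apply, smul_eq_mul, V.map_mul]

private theorem Dyn_pow {K : Type v} [Field K] {n : ℕ} (Y : Matrix (Fin n) (Fin n) K)
    (φ : Fin n → K) (l : K) (h : φ ᵥ* Y = l • φ) (k : ℕ) : φ ᵥ* (Y ^ k) = l ^ k • φ := by
  induction k with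
  | zero => rw [pow_zero, pow_zero, Matrix.vecMul_one, one_smul]
  | succ k ih =>
    rw [pow_succ, ← Matrix.vecMul_vecMul, ih, Matrix.smul_vecMul, h, smul_smul, pow_succ]

theorem vDyn : S_Dyn.{v} := by
  intro K _ V n Y a φ l hP δ δ' hδ hδ'
  obtain ⟨hl, -, -, hφ, hT⟩ := hP
  have hsum : Tendsto (fun k : ℕ => ∑ i, ∑ j, V (l⁻¹ ^ k * (Y ^ k) i j - a i * φ j)) atTop (𝓝 0) := by
    have h1 := tendsto_finsetSum (Finset.univ : Finset (Fin n)) fun i _ =>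
      tendsto_finsetSum (Finset.univ : Finset (Fin n)) fun j _ => hT i j
    simpa using h1
  have hev := hsum.eventually (gt_mem_nhds (mul_pos hδ hδ'))
  obtain ⟨k₀, hk₀⟩ := eventually_atTop.mp hev
  refine ⟨k₀, fun k hk x hx => ?_⟩
  have hE := hk₀ k hk
  obtain ⟨E, hEd⟩ : ∃ E : Matrix (Fin n) (Fin n) K,
      E = fun i j => l⁻¹ ^ k * (Y ^ k) i j - a i * φ j := ⟨_, rfl⟩
  have hmE : mv V E < δ * δ' := by
    rw [hEd]
    exact hE
  have hx' : δ * nv V x < V (φ ⬝ᵥ x) := not_le.mp hx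
  have hφk : φ ⬝ᵥ ((Y ^ k) *ᵥ x) = l ^ k * (φ ⬝ᵥ x) := by
    rw [Matrix.dotProduct_mulVec, Dyn_pow Y φ l hφ k, smul_dotProduct, smul_eq_mul]
  have hlk : l ^ k * l⁻¹ ^ k = 1 := by
    rw [← mul_pow, mul_inv_cancel₀ hl, one_pow]
  have hdec : (Y ^ k) *ᵥ x - (φ ⬝ᵥ ((Y ^ k) *ᵥ x)) • a = l ^ k • (E *ᵥ x) := by
    rw [hφk]
    funext i
    have h1 : (E *ᵥ x) i = l⁻¹ ^ k * ((Y ^ k) *ᵥ x) i - a i * (φ ⬝ᵥ x) := by
      simp only [Matrix.mulVec, dotProduct, hEd, sub_mul, Finset.sum_sub_distrib, Finset.mul_sum,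
        mul_assoc]
    rw [Pi.sub_apply, Pi.smul_apply, Pi.smul_apply, smul_eq_mul, smul_eq_mul, h1, mul_sub,
      ← mul_assoc (l ^ k), hlk]
    ring
  change nv V ((Y ^ k) *ᵥ x - (φ ⬝ᵥ ((Y ^ k) *ᵥ x)) • a) < δ' * V (φ ⬝ᵥ ((Y ^ k) *ᵥ x))
  rw [hdec, hφk, Dyn_smul, V.map_mul]
  have hVl : 0 < V (l ^ k) := V.pos (pow_ne_zero k hl)
  have hnx := Dyn_nv_nonneg V x
  have hmn : 0 ≤ mv V E :=
    Finset.sum_nonneg fun i _ => Finset.sum_nonneg fun j _ => V.nonneg (E i j)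
  have h2 : mv V E * nv V x < δ' * V (φ ⬝ᵥ x) := by
    calc mv V E * nv V x ≤ δ * δ' * nv V x := mul_le_mul_of_nonneg_right hmE.le hnx
      _ = δ' * (δ * nv V x) := by ring
      _ < δ' * V (φ ⬝ᵥ x) := mul_lt_mul_of_pos_left hx' hδ'
  calc V (l ^ k) * nv V (E *ᵥ x) ≤ V (l ^ k) * (mv V E * nv V x) :=
        mul_le_mul_of_nonneg_left (Dyn_le V E x) hVl.le
    _ < V (l ^ k) * (δ' * V (φ ⬝ᵥ x)) := mul_lt_mul_of_pos_left h2 hVl
    _ = δ' * (V (l ^ k) * V (φ ⬝ᵥ x)) := by ring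

end Pool.Agent.MPcc2398.BR
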