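import Pool.Agent.Lib.MP_cc2398_al.BR.Spec

/-!
# MP_cc2398_al, project BR, module Fd: the right translates of a coefficient span a finite-dimensional space
-/

set_option autoImplicit false

namespace Pool.Agent.MPcc2398.BR

open Pool.Agent.MPcc2398 Matrix Filter Topology

universe u v w

namespace Fdaux

variable {G : Type u} [Group G] {K : Type v} [Field K]

/-- The span of the right translates. -/
def T (f : G → K) : Submodule K (G → K) :=
  Submodule.span K (Set.range fun x : G => fun g : G => f (g * x))

theorem fg_of_le {f : G → K} {W : Submodule K (G → K)} (hW : W.FG)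
    (h : ∀ x : G, (fun g : G => f (g * x)) ∈ W) : (T f).FG := by
  have : FiniteDimensional K W := (Submodule.fg_iff_finiteDimensional W).1 hW
  have hle : T f ≤ W := Submodule.span_le.2 (by rintro _ ⟨x, rfl⟩; exact h x)
  exact (Submodule.fg_iff_finiteDimensional _).2 (Submodule.finiteDimensional_of_le hle)

theorem mem_T (f : G → K) (x : G) : (fun g : G => f (g * x)) ∈ T f :=
  Submodule.subset_span ⟨x, rfl⟩

theorem fg_add {f f' : G → K} (h : (T f).FG) (h' : (T f').FG) : (T (f + f')).FG := by
  refine fg_of_le (h.sup h') fun x => ?_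
  exact Submodule.add_mem_sup (mem_T f x) (mem_T f' x)

theorem fg_mul {f f' : G → K} (h : (T f).FG) (h' : (T f').FG) : (T (f * f')).FG := by
  refine fg_of_le (h.mul h') fun x => ?_
  exact Submodule.mul_mem_mul (mem_T f x) (mem_T f' x)

theorem fg_const (r : K) : (T (algebraMap K (G → K) r)).FG := by
  refine fg_of_le (Submodule.fg_span (Set.finite_singleton (algebraMap K (G → K) r))) fun x => ?_
  exact Submodule.subset_span rfl

variable {n : ℕ} (ρ : G →* Matrix (Fin n) (Fin n) K)

theorem fg_coeff (i j : Fin n) : (T (fun g : G => ρ g i j)).FG := by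
  refine fg_of_le (Submodule.fg_span (Set.finite_range fun k : Fin n => fun g : G => ρ g i k))
    fun x => ?_
  have h : (fun g : G => ρ (g * x) i j) = ∑ k, ρ x k j • fun g : G => ρ g i k := by
    funext g
    rw [map_mul, Matrix.mul_apply, Finset.sum_apply]
    exact Finset.sum_congr rfl fun k _ => mul_comm _ _
  rw [h]
  exact Submodule.sum_mem _ fun k _ => Submodule.smul_mem _ _ (Submodule.subset_span ⟨k, rfl⟩)

theorem fg_coinv (i j : Fin n) : (T (fun g : G => ρ g⁻¹ i j)).FG := by
  refine fg_of_le (Submodule.fg_span (Set.finite_range fun k : Fin n => fun g : G => ρ g⁻¹ k j))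
    fun x => ?_
  have h : (fun g : G => ρ (g * x)⁻¹ i j) = ∑ k, ρ x⁻¹ i k • fun g : G => ρ g⁻¹ k j := by
    funext g
    rw [_root_.mul_inv_rev, map_mul, Matrix.mul_apply, Finset.sum_apply]
    rfl
  rw [h]
  exact Submodule.sum_mem _ fun k _ => Submodule.smul_mem _ _ (Submodule.subset_span ⟨k, rfl⟩)

end Fdaux

open Fdaux

theorem vFd : S_Fd.{u, v} := by
  intro G _ K _ n ρ f hf
  refine (Submodule.fg_iff_finiteDimensional (T f)).1 ?_
  unfold CA at hf
  induction hf using Algebra.adjoin_induction with
  | mem f h =>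
    obtain ⟨i, j, rfl | rfl⟩ := h
    · exact fg_coeff ρ i j
    · exact fg_coinv ρ i j
  | algebraMap r => exact fg_const r
  | add f f' _ _ h h' => exact fg_add h h'
  | mul f f' _ _ h h' => exact fg_mul h h'

end Pool.Agent.MPcc2398.BR
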