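import Pool.Agent.Lib.MP_cc2398_al.BR.Spec
import Pool.Agent.Lib.MP_cc2398_al.OE.DC
import Pool.Agent.Lib.MP_cc2398_al.OE.Fin

/-!
# MP_cc2398_al, project BR: a free group with prescribed double cosets
-/

set_option autoImplicit false

namespace Pool.Agent.MPcc2398.BR

open Pool.Agent.MPcc2398 Matrix Filter Topology

universe u v w

/-- The action of `G` on vectors. -/
@[instance_reducible] private def Fre_act {G : Type u} [Group G] {K : Type v} [Field K] {n : ℕ}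
    (R : G →* Matrix (Fin n) (Fin n) K) : MulAction G (Fin n → K) where
  smul := fun g w => R g *ᵥ w
  one_smul := fun w => by
    change R 1 *ᵥ w = w
    rw [map_one, one_mulVec]
  mul_smul := fun g h w => by
    change R (g * h) *ᵥ w = R g *ᵥ (R h *ᵥ w)
    rw [map_mul, mulVec_mulVec]

private theorem Fre_mul {G : Type u} [Group G] {K : Type v} [Field K] {n : ℕ}
    (R : G →* Matrix (Fin n) (Fin n) K) (g h : G) (w : Fin n → K) : R g *ᵥ (R h *ᵥ w) = R (g * h) *ᵥ w := by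
  rw [map_mul, mulVec_mulVec]

/-- One element: `u ∈ H (g i) H` which maps the complement of `Ns` into `Bs`, in both directions. -/
private theorem Fre_one (hGen : S_Gen.{u, v}) (hHI : S_HI.{v}) {G : Type u} [Group G] {H : Subgroup G}
    {K : Type v} [Field K] (V : AbsoluteValue K ℝ) {n : ℕ} (R : G →* Matrix (Fin n) (Fin n) K)
    (hDen : Den H (CA R)) (hIrr : Irr R Set.univ) {y : G} (hy : y ∈ H) {a φ : Bool → Fin n → K}
    (hPD : PD V R y a φ) {δ : ℝ} (hδ : 0 < δ) (g : G) :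
    ∃ u p q : G, p ∈ H ∧ q ∈ H ∧ u = p * g * q ∧
      (∀ v, v ∉ Ns V (φ true) δ → R u *ᵥ v ∈ Bs V (a true) (φ true) δ) ∧
      (∀ v, v ∉ Ns V (φ false) δ → R u⁻¹ *ᵥ v ∈ Bs V (a false) (φ false) δ) := by
  obtain ⟨lt, ht⟩ := hPD.pos
  obtain ⟨lf, hf⟩ := hPD.neg
  have h1t : φ true ⬝ᵥ a true = 1 := ht.2.1
  have h1f : φ false ⬝ᵥ a false = 1 := hf.2.1
  have hat : a true ≠ 0 := by
    intro h0
    rw [h0, dotProduct_zero] at h1t
    exact zero_ne_one h1t
  have hφt : φ true ≠ 0 := by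
    intro h0
    rw [h0, zero_dotProduct] at h1t
    exact zero_ne_one h1t
  have haf : a false ≠ 0 := by
    intro h0
    rw [h0, dotProduct_zero] at h1f
    exact zero_ne_one h1f
  have hφf : φ false ≠ 0 := by
    intro h0
    rw [h0, zero_dotProduct] at h1f
    exact zero_ne_one h1f
  have n1 : R g *ᵥ a true ≠ 0 := by
    intro h0
    apply hat
    have h2 : R g⁻¹ *ᵥ (R g *ᵥ a true) = a true := by
      rw [Fre_mul, inv_mul_cancel, map_one, one_mulVec]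
    rw [← h2, h0, mulVec_zero]
  have n2 : φ false ᵥ* R g⁻¹ ≠ 0 := by
    intro h0
    apply hφf
    have h2 : (φ false ᵥ* R g⁻¹) ᵥ* R g = φ false := by
      rw [vecMul_vecMul, ← map_mul, inv_mul_cancel, map_one, vecMul_one]
    rw [← h2, h0, zero_vecMul]
  obtain ⟨w, hw, hw2⟩ := hGen G H K n R hDen hIrr Unit (fun _ => R g *ᵥ a true) (fun _ => φ true)
    (fun _ => a false) (fun _ => φ false ᵥ* R g⁻¹) (fun _ => ⟨n1, hφt, haf, n2⟩)
  obtain ⟨c1, c2⟩ := hw2 ()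
  have d1 : φ true ⬝ᵥ (R (w * g) *ᵥ a true) ≠ 0 := by
    rw [← Fre_mul]
    exact c1
  have d2 : φ false ⬝ᵥ (R (w * g)⁻¹ *ᵥ a false) ≠ 0 := by
    rw [_root_.mul_inv_rev, ← Fre_mul, dotProduct_mulVec]
    exact c2
  obtain ⟨k1, hk1⟩ := hHI K V n (R y) (R (w * g)) (a true) (φ true) lt ht d1 δ hδ
  obtain ⟨k2, hk2⟩ := hHI K V n (R y⁻¹) (R (w * g)⁻¹) (a false) (φ false) lf hf d2 δ hδ
  refine ⟨y ^ (max k1 k2) * (w * g) * y ^ (max k1 k2), y ^ (max k1 k2) * w, y ^ (max k1 k2),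
    H.mul_mem (H.pow_mem hy _) hw, H.pow_mem hy _, by group, ?_, ?_⟩
  · intro v hv
    have h3 := hk1 (max k1 k2) (le_max_left _ _) v hv
    rw [← map_pow, Fre_mul, Fre_mul] at h3
    exact h3
  · intro v hv
    have h3 := hk2 (max k1 k2) (le_max_right _ _) v hv
    rw [← map_pow, Fre_mul, Fre_mul] at h3
    have h4 : (y ^ (max k1 k2) * (w * g) * y ^ (max k1 k2))⁻¹ =
        y⁻¹ ^ (max k1 k2) * (w * g)⁻¹ * y⁻¹ ^ (max k1 k2) := by
      rw [inv_pow]
      group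
    rw [h4]
    exact h3

/-- A free group with prescribed double cosets: contradiction. -/
theorem vFre (hGen : S_Gen.{u, v}) (hHI : S_HI.{v}) (hFrm : S_Frm.{u, v}) (hPPL : S_PPL.{u, v}) :
    S_Fre.{u, v} := by
  intro G _ H hTB K _ V n R hDen hIrr y hy a φ hPD
  obtain ⟨-, g, hg⟩ := OE.vDC G H hTB
  have h1 : ∀ b, φ b ⬝ᵥ a b = 1 := by
    intro b
    cases b
    · obtain ⟨l, hl⟩ := hPD.neg
      exact hl.2.1
    · obtain ⟨l, hl⟩ := hPD.pos
      exact hl.2.1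
  have ha : ∀ b, a b ≠ 0 := by
    intro b h0
    have h2 := h1 b
    rw [h0, dotProduct_zero] at h2
    exact zero_ne_one h2
  have hφ : ∀ b, φ b ≠ 0 := by
    intro b h0
    have h2 := h1 b
    rw [h0, zero_dotProduct] at h2
    exact zero_ne_one h2
  obtain ⟨x, hx, hx2⟩ := hGen G H K n R hDen hIrr (Bool × Bool) (fun p => a p.2) (fun p => φ p.1)
    (fun p => a p.2) (fun p => φ p.1) (fun p => ⟨ha _, hφ _, ha _, hφ _⟩)
  obtain ⟨δ, M, hδ, hdis, hfrm⟩ := hFrm G K V n R y x a φ hPD (fun b b' => hx2 (b, b'))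
  have hone := fun i : ℕ => Fre_one hGen hHI V R hDen hIrr hy hPD hδ (g i)
  choose h0 p q hp hq he hA hB using hone
  obtain ⟨z, hz⟩ : ∃ z, z = x * y * x⁻¹ := ⟨_, rfl⟩
  have hzH : z ∈ H := by
    rw [hz]
    exact H.mul_mem (H.mul_mem hx hy) (H.inv_mem hx)
  have hfrm' : ∀ i j : ℕ, i ≠ j → ∀ (b b' : Bool) (v : Fin n → K),
      R (z ^ (-((M : ℤ) * i))) *ᵥ v ∈ Bs V (a b) (φ b) δ →
      R (z ^ (-((M : ℤ) * j))) *ᵥ v ∉ Ns V (φ b') δ ∧ R (z ^ (-((M : ℤ) * j))) *ᵥ v ∉ Bs V (a b') (φ b') δ := by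
    intro i j hij b b' v hv
    have hd : ((i : ℤ) - j) ≠ 0 := by
      intro h
      apply hij
      omega
    have h2 := hfrm ((i : ℤ) - j) hd b b' _ hv
    rw [← hz, Fre_mul, ← _root_.zpow_add] at h2
    have h3 : (M : ℤ) * ((i : ℤ) - j) + -((M : ℤ) * i) = -((M : ℤ) * j) := by ring
    rw [h3] at h2
    exact h2
  let _ : MulAction G (Fin n → K) := Fre_act R
  have hact : ∀ (u : G) (v : Fin n → K), u • v = R u *ᵥ v := fun u v => rfl
  have hinj := hPPL G (Fin n → K) (fun i => z ^ ((M : ℤ) * i) * h0 i * z ^ (-((M : ℤ) * i)))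
    (fun i b => {v | R (z ^ (-((M : ℤ) * i))) *ᵥ v ∈ Bs V (a b) (φ b) δ})
    (fun i b => {v | R (z ^ (-((M : ℤ) * i))) *ᵥ v ∈ Ns V (φ b) δ}) ?_ ?_ ?_ ?_ ?_
  · refine OE.vFin G H hTB _ ?_ hinj
    intro i j hij hmem
    have hP : ∀ i : ℕ, z ^ ((M : ℤ) * i) * h0 i * z ^ (-((M : ℤ) * i)) =
        (z ^ ((M : ℤ) * i) * p i) * g i * (q i * z ^ (-((M : ℤ) * i))) := by
      intro i
      rw [he i]
      simp only [mul_assoc]
    rw [hP i, hP j] at hmem
    have hm : ∀ i : ℕ, z ^ ((M : ℤ) * i) * p i ∈ H := fun i => H.mul_mem (H.zpow_mem hzH _) (hp i)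
    have hm' : ∀ i : ℕ, q i * z ^ (-((M : ℤ) * i)) ∈ H := fun i => H.mul_mem (hq i) (H.zpow_mem hzH _)
    have key : ∀ P1 Q1 P2 Q2 : G, P1 ∈ H → Q1 ∈ H → P2 ∈ H → Q2 ∈ H →
        (P1 * g i * Q1)⁻¹ * (P2 * g j * Q2) ∈ H → False := by
      intro P1 Q1 P2 Q2 e1 e2 e3 e4 e5
      refine hg i j hij (P2⁻¹ * P1) (H.mul_mem (H.inv_mem e3) e1)
        (Q1 * ((P1 * g i * Q1)⁻¹ * (P2 * g j * Q2)) * Q2⁻¹)
        (H.mul_mem (H.mul_mem e2 e5) (H.inv_mem e4)) ?_
      group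
    exact key _ _ _ _ (hm i) (hm' i) (hm j) (hm' j) hmem
  · intro i v hv
    simp only [Set.mem_ofPred_eq] at hv ⊢
    rw [hact, Fre_mul]
    have h5 := hA i _ hv
    rw [Fre_mul] at h5
    have h6 : z ^ (-((M : ℤ) * i)) * (z ^ ((M : ℤ) * i) * h0 i * z ^ (-((M : ℤ) * i))) =
        h0 i * z ^ (-((M : ℤ) * i)) := by
      rw [← mul_assoc, ← mul_assoc, ← _root_.zpow_add, neg_add_cancel, zpow_zero, one_mul]
    rw [h6]
    exact h5
  · intro i v hv
    simp only [Set.mem_ofPred_eq] at hv ⊢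
    rw [hact, Fre_mul]
    have h5 := hB i _ hv
    rw [Fre_mul] at h5
    have h6 : z ^ (-((M : ℤ) * i)) * (z ^ ((M : ℤ) * i) * h0 i * z ^ (-((M : ℤ) * i)))⁻¹ =
        (h0 i)⁻¹ * z ^ (-((M : ℤ) * i)) := by
      group
    rw [h6]
    exact h5
  · intro i j b b' hb
    rw [Set.disjoint_left]
    intro v hv hv'
    simp only [Set.mem_ofPred_eq] at hv hv'
    by_cases hij : i = j
    · subst hij
      have hbb := hb rfl
      subst hbb
      exact Set.disjoint_left.1 (hdis b) hv hv'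
    · exact (hfrm' i j hij b b' v hv).1 hv'
  · intro i j b hij
    rw [Set.disjoint_left]
    intro v hv hv'
    exact (hfrm' i j hij true b v hv).2 hv'
  · intro i
    refine ⟨R (z ^ ((M : ℤ) * i)) *ᵥ a true, ?_⟩
    simp only [Set.mem_ofPred_eq]
    rw [Fre_mul, ← _root_.zpow_add, neg_add_cancel, zpow_zero, map_one, one_mulVec]
    change nv V (a true - (φ true ⬝ᵥ a true) • a true) < δ * V (φ true ⬝ᵥ a true)
    rw [h1 true, one_smul, sub_self, map_one, mul_one]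
    have h7 : nv V (0 : Fin n → K) = 0 := by
      unfold nv
      simp
    rw [h7]
    exact hδ

end Pool.Agent.MPcc2398.BR
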