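import Pool.Agent.Lib.MP_cc2398_al.BR.Spec

set_option autoImplicit false

namespace Pool.Agent.MPcc2398.BR

open Pool.Agent.MPcc2398 Matrix Filter Topology

universe u v w

namespace Frmaux

private theorem exists_le {ι : Type} [Finite ι] [Nonempty ι] (f : ι → ℝ) (hf : ∀ i, 0 < f i) :
    ∃ δ : ℝ, 0 < δ ∧ ∀ i, δ ≤ f i := by
  obtain ⟨i, hi⟩ := Finite.exists_min f
  exact ⟨f i, hf i, hi⟩

end Frmaux

theorem vFrm (hDyn : S_Dyn.{v}) (hCon : S_Con.{v}) (hBN : S_BN.{v}) : S_Frm.{u, v} := by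
  intro G _ K _ V n R y x a φ hPD hx
  let yy : Bool → G := fun e => if e then y else y⁻¹
  have hPr : ∀ e, ∃ l, Pr V (R (yy e)) (a e) (φ e) l := by
    intro e
    cases e
    · exact hPD.neg
    · exact hPD.pos
  choose d1 hd1 h1 using fun p : Bool × Bool => hCon K V n (R x⁻¹) (a p.1) (φ p.1) (φ p.2) (hx p.2 p.1).2
  choose d2 hd2 h2 using fun p : Bool × Bool => hCon K V n (R x) (a p.1) (φ p.1) (φ p.2) (hx p.2 p.1).1
  obtain ⟨e1, he1, hle1⟩ := Frmaux.exists_le d1 hd1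
  obtain ⟨e2, he2, hle2⟩ := Frmaux.exists_le d2 hd2
  obtain ⟨δ₁, hδ₁, hδ1, hδ2⟩ : ∃ δ₁ : ℝ, 0 < δ₁ ∧ δ₁ ≤ e1 ∧ δ₁ ≤ e2 :=
    ⟨min e1 e2, lt_min he1 he2, min_le_left _ _, min_le_right _ _⟩
  choose l hl using hPr
  choose k₀ hk₀ using fun e => hDyn K V n (R (yy e)) (a e) (φ e) (l e) (hl e) δ₁ δ₁ hδ₁ hδ₁
  have key : ∀ e b b' : Bool, ∀ m ≥ max (k₀ true) (k₀ false), ∀ w ∈ Bs V (a b) (φ b) δ₁,
      R x *ᵥ ((R (yy e)) ^ m *ᵥ (R x⁻¹ *ᵥ w)) ∉ Ns V (φ b') δ₁ := by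
    intro e b b' m hm w hw
    have hm' : k₀ e ≤ m := by
      cases e
      · exact (le_max_right _ _).trans hm
      · exact (le_max_left _ _).trans hm
    have s1 : R x⁻¹ *ᵥ w ∉ Ns V (φ e) δ₁ := fun h =>
      h1 (b, e) δ₁ hδ₁ (hδ1.trans (hle1 _)) w hw ((hBN K V n (a e) (φ e) (φ e)).2.1 _ _ (hδ1.trans (hle1 (b, e))) h)
    have s2 := hk₀ e m hm' _ s1
    exact fun h => h2 (e, b') δ₁ hδ₁ (hδ2.trans (hle2 _)) _ s2
      ((hBN K V n (a b') (φ b') (φ b')).2.1 _ _ (hδ2.trans (hle2 (e, b'))) h)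
  choose d3 hd3 h3 using fun b => (hBN K V n (a b) (φ b) (φ b)).2.2.1
  have hopp : ∀ b, φ (!b) ⬝ᵥ a b = 0 := by
    intro b
    have := hPD.opp (!b)
    rwa [Bool.not_not] at this
  choose d4 hd4 h4 using fun b => (hBN K V n (a b) (φ b) (φ (!b))).2.2.2 (hopp b) δ₁ hδ₁
  obtain ⟨e3, he3, hle3⟩ := Frmaux.exists_le d3 hd3
  obtain ⟨e4, he4, hle4⟩ := Frmaux.exists_le d4 hd4
  obtain ⟨δ, hδ, q1, q3, q4⟩ : ∃ δ : ℝ, 0 < δ ∧ δ ≤ δ₁ ∧ δ ≤ e3 ∧ δ ≤ e4 :=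
    ⟨min δ₁ (min e3 e4), lt_min hδ₁ (lt_min he3 he4), min_le_left _ _,
      (min_le_right _ _).trans (min_le_left _ _), (min_le_right _ _).trans (min_le_right _ _)⟩
  refine ⟨δ, max (k₀ true) (k₀ false), hδ, fun b => h3 b δ hδ (q3.trans (hle3 b)), ?_⟩
  intro d hd b b' w hw
  have hw1 : w ∈ Bs V (a b) (φ b) δ₁ := (hBN K V n (a b) (φ b) (φ b)).1 _ _ q1 hw
  set M := max (k₀ true) (k₀ false) with hM
  have hall : ∀ b'' : Bool, R ((x * y * x⁻¹) ^ ((M : ℤ) * d)) *ᵥ w ∉ Ns V (φ b'') δ₁ := by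
    intro b''
    rcases lt_or_gt_of_ne hd with hneg | hpos
    · obtain ⟨k, hk⟩ : ∃ k : ℕ, d = -(k : ℤ) := ⟨d.natAbs, by omega⟩
      have hk1 : 1 ≤ k := by omega
      have e1 : (x * y * x⁻¹) ^ ((M : ℤ) * d) = x * (yy false) ^ (M * k) * x⁻¹ := by
        have : (M : ℤ) * d = -(((M * k : ℕ)) : ℤ) := by
          rw [hk]; push_cast; ring
        rw [this, _root_.zpow_neg, _root_.zpow_natCast, conj_pow]
        change _ = x * (y⁻¹) ^ (M * k) * x⁻¹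
        rw [inv_pow]
        group
      rw [e1, map_mul, map_mul, map_pow, ← mulVec_mulVec, ← mulVec_mulVec]
      exact key false b b'' (M * k) (Nat.le_mul_of_pos_right _ hk1) w hw1
    · obtain ⟨k, hk⟩ : ∃ k : ℕ, d = (k : ℤ) := ⟨d.natAbs, by omega⟩
      have hk1 : 1 ≤ k := by omega
      have e1 : (x * y * x⁻¹) ^ ((M : ℤ) * d) = x * (yy true) ^ (M * k) * x⁻¹ := by
        have : (M : ℤ) * d = (((M * k : ℕ)) : ℤ) := by
          rw [hk]; push_cast; ring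
        rw [this, _root_.zpow_natCast, conj_pow]
        rfl
      rw [e1, map_mul, map_mul, map_pow, ← mulVec_mulVec, ← mulVec_mulVec]
      exact key true b b'' (M * k) (Nat.le_mul_of_pos_right _ hk1) w hw1
  refine ⟨fun h => hall b' ((hBN K V n (a b') (φ b') (φ b')).2.1 _ _ q1 h), fun h => hall (!b') ?_⟩
  exact h4 b' δ hδ (q4.trans (hle4 b')) h

end Pool.Agent.MPcc2398.BR
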