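import Pool.Agent.Lib.MP_cc2398_al.BR.Spec

/-!
# MP_cc2398_al, project BR: the dominant block of a matrix
-/

set_option autoImplicit false

namespace Pool.Agent.MPcc2398.BR

open Pool.Agent.MPcc2398 Matrix Filter Topology

universe u v w

/-- a bound between -/
private lemma GE_between (s : Multiset ℝ) (R : ℝ) (hR : 0 < R) (hs : ∀ x ∈ s, x < R) :
    ∃ R' : ℝ, 0 < R' ∧ R' < R ∧ ∀ x ∈ s, x ≤ R' := by
  induction s using Multiset.induction_on with
  | empty => exact ⟨R / 2, by linarith, by linarith, by simp⟩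
  | cons a s ih =>
    obtain ⟨R₁, h1, h2, h3⟩ := ih (fun x hx => hs x (Multiset.mem_cons_of_mem hx))
    refine ⟨max R₁ a, lt_max_of_lt_left h1, max_lt h2 (hs a (Multiset.mem_cons_self a s)), ?_⟩
    intro x hx
    rcases Multiset.mem_cons.1 hx with h | h
    · rw [h]; exact le_max_right _ _
    · exact (h3 x h).trans (le_max_left _ _)

/-- a maximal value -/
private lemma GE_max (s : Multiset ℝ) (x₀ : ℝ) (h : x₀ ∈ s) : ∃ R ∈ s, x₀ ≤ R ∧ ∀ x ∈ s, x ≤ R := by
  have hne : s.toFinset.Nonempty := ⟨x₀, Multiset.mem_toFinset.2 h⟩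
  refine ⟨s.toFinset.max' hne, Multiset.mem_toFinset.1 (Finset.max'_mem _ _), ?_, ?_⟩
  · exact Finset.le_max' _ _ (Multiset.mem_toFinset.2 h)
  · intro x hx
    exact Finset.le_max' _ _ (Multiset.mem_toFinset.2 hx)

private lemma GE_le_nv {K : Type v} [Field K] (V : AbsoluteValue K ℝ) {n : ℕ} (x : Fin n → K) (i : Fin n) :
    V (x i) ≤ nv V x :=
  Finset.single_le_sum (f := fun i => V (x i)) (fun _ _ => V.nonneg _) (Finset.mem_univ i)

/-- growth for matrices, from growth for columns -/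
private lemma GE_cols (hGr1 : S_Gr1.{v}) {K : Type v} [Field K] (V : AbsoluteValue K ℝ) {n m : ℕ}
    (Y : Matrix (Fin n) (Fin n) K) (M : Matrix (Fin n) (Fin m) K) (r : ℝ) (hr : 0 < r)
    (hM : ∀ j, (fun i => M i j) ∈ ⨆ l : {l : K // V l ≤ r}, Module.End.maxGenEigenspace (Matrix.toLin' Y) (l : K)) :
    ∃ c : ℝ, 0 ≤ c ∧ ∀ (k : ℕ) (i : Fin n) (j : Fin m), V ((Y ^ k * M) i j) ≤ c * (k + 1) ^ n * r ^ k := by
  have h1 : ∀ j, ∃ c : ℝ, 0 ≤ c ∧ ∀ k : ℕ, nv V ((Y ^ k) *ᵥ (fun i => M i j)) ≤ c * (k + 1) ^ n * r ^ k :=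
    fun j => hGr1 K V n Y r hr _ (hM j)
  choose c hc0 hc using h1
  refine ⟨∑ j, c j, Finset.sum_nonneg (fun j _ => hc0 j), ?_⟩
  intro k i j
  have h2 : (Y ^ k * M) i j = ((Y ^ k) *ᵥ (fun i => M i j)) i := rfl
  rw [h2]
  refine (GE_le_nv V _ i).trans ((hc j k).trans ?_)
  have h3 : c j ≤ ∑ j, c j := Finset.single_le_sum (f := c) (fun j _ => hc0 j) (Finset.mem_univ j)
  have h4 : (0 : ℝ) ≤ ((k : ℝ) + 1) ^ n * r ^ k := by positivity
  calc c j * ((k : ℝ) + 1) ^ n * r ^ k = c j * (((k : ℝ) + 1) ^ n * r ^ k) := by ring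
    _ ≤ (∑ j, c j) * (((k : ℝ) + 1) ^ n * r ^ k) := mul_le_mul_of_nonneg_right h3 h4
    _ = (∑ j, c j) * ((k : ℝ) + 1) ^ n * r ^ k := by ring

theorem vGE (hGr1 : S_Gr1.{v}) : S_GE.{v} := by
  intro K _ _ V n Y l₀ hl₀ hV₀
  set T : Module.End K (Fin n → K) := Matrix.toLin' Y with hT
  set E : K → Submodule K (Fin n → K) := fun l => T.maxGenEigenspace l with hE
  have hTop : ⨆ l, E l = ⊤ := Module.End.iSup_maxGenEigenspace_eq_top T
  have hInd : iSupIndep E := Module.End.independent_maxGenEigenspace T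
  have hch : T.charpoly = Y.charpoly := Matrix.charpoly_toLin' Y
  have hroot : ∀ l, T.HasEigenvalue l ↔ Y.charpoly.IsRoot l := by
    intro l
    rw [Module.End.hasEigenvalue_iff_isRoot_charpoly, hch]
  have hBot : ∀ l, ¬ Y.charpoly.IsRoot l → E l = ⊥ := by
    intro l hl
    by_contra hne
    apply hl
    rw [← hroot]
    have h : T.HasUnifEigenvalue l ⊤ := hne
    exact h.lt zero_lt_one
  have hch0 : Y.charpoly ≠ 0 := (Matrix.charpoly_monic Y).ne_zero
  have hmr : ∀ l, l ∈ Y.charpoly.roots ↔ Y.charpoly.IsRoot l := fun l => Polynomial.mem_roots hch0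
  -- the maximum
  obtain ⟨R, hRmem, hRl, hRmax⟩ := GE_max (Y.charpoly.roots.map V) (V l₀)
    (Multiset.mem_map_of_mem V ((hmr l₀).2 hl₀))
  obtain ⟨l₁, hl₁, hl₁R⟩ := Multiset.mem_map.1 hRmem
  have hR1 : 1 < R := hV₀.trans_le hRl
  have hR0 : 0 < R := by linarith
  have hmax : ∀ l, Y.charpoly.IsRoot l → V l ≤ R := fun l hl =>
    hRmax _ (Multiset.mem_map_of_mem V ((hmr l).2 hl))
  classical
  obtain ⟨R', hR'0, hR'R, hR'⟩ := GE_between ((Y.charpoly.roots.map V).filter (fun x => x < R)) R hR0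
    (fun x hx => (Multiset.mem_filter.1 hx).2)
  have hR'2 : ∀ l, Y.charpoly.IsRoot l → V l ≠ R → V l ≤ R' := by
    intro l hl hne
    apply hR'
    rw [Multiset.mem_filter]
    exact ⟨Multiset.mem_map_of_mem V ((hmr l).2 hl), lt_of_le_of_ne (hmax l hl) hne⟩
  -- the two spaces
  set E₁ : Submodule K (Fin n → K) := ⨆ l ∈ {l : K | V l = R}, E l with hE₁
  set E₂ : Submodule K (Fin n → K) := ⨆ l ∈ {l : K | V l ≠ R}, E l with hE₂
  have hle : ∀ l, V l = R → E l ≤ E₁ := fun l hl => le_iSup₂_of_le (f := fun l (_ : l ∈ {l : K | V l = R}) => E l) l hl le_rfl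
  have hle2 : ∀ l, V l ≠ R → E l ≤ E₂ := fun l hl => le_iSup₂_of_le (f := fun l (_ : l ∈ {l : K | V l ≠ R}) => E l) l hl le_rfl
  have hdis : Disjoint E₁ E₂ := by
    apply iSupIndep.disjoint_biSup_biSup hInd
    rw [Set.disjoint_left]
    intro l h1 h2
    exact h2 h1
  have hcod : Codisjoint E₁ E₂ := by
    rw [codisjoint_iff, eq_top_iff, ← hTop]
    apply iSup_le
    intro l
    by_cases h : V l = R
    · exact (hle l h).trans le_sup_left
    · exact (hle2 l h).trans le_sup_right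
  have hcomp : IsCompl E₁ E₂ := ⟨hdis, hcod⟩
  have hinvE : ∀ l, ∀ x ∈ E l, T x ∈ E l := fun l x hx =>
    Module.End.mapsTo_maxGenEigenspace_of_comm (Commute.refl T) l hx
  have hinv1 : E₁ ≤ E₁.comap T := by
    apply iSup₂_le
    intro l hl x hx
    exact hle l hl (hinvE l x hx)
  have hinv2 : E₂ ≤ E₂.comap T := by
    apply iSup₂_le
    intro l hl x hx
    exact hle2 l hl (hinvE l x hx)
  have hE1le : E₁ ≤ ⨆ l : {l : K // V l ≤ R}, Module.End.maxGenEigenspace (Matrix.toLin' Y) (l : K) := by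
    apply iSup₂_le
    intro l hl
    have hl' : V l = R := hl
    exact le_iSup (fun l : {l : K // V l ≤ R} => Module.End.maxGenEigenspace (Matrix.toLin' Y) (l : K)) ⟨l, hl'.le⟩
  have hE2le : E₂ ≤ ⨆ l : {l : K // V l ≤ R'}, Module.End.maxGenEigenspace (Matrix.toLin' Y) (l : K) := by
    apply iSup₂_le
    intro l hl
    by_cases hrt : Y.charpoly.IsRoot l
    · exact le_iSup (fun l : {l : K // V l ≤ R'} => Module.End.maxGenEigenspace (Matrix.toLin' Y) (l : K))
        ⟨l, hR'2 l hrt hl⟩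
    · rw [hBot l hrt]
      exact bot_le
  have hE1ne : E₁ ≠ ⊥ := by
    intro hbot
    have h1 : E l₁ = ⊥ := by
      rw [eq_bot_iff, ← hbot]
      exact hle l₁ hl₁R
    have h2 : T.HasEigenvalue l₁ := (hroot l₁).2 ((hmr l₁).1 hl₁)
    obtain ⟨x, hx⟩ := h2.exists_hasEigenvector
    have h3 : x ∈ E l₁ := Module.End.eigenspace_le_maxGenEigenspace hx.1
    rw [h1, Submodule.mem_bot] at h3
    exact hx.2 h3
  -- coordinates
  obtain ⟨r, hr⟩ : ∃ r, r = Module.finrank K E₁ := ⟨_, rfl⟩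
  have hr0 : 0 < r := by
    rw [hr]
    rw [Nat.pos_iff_ne_zero]
    intro h0
    exact hE1ne (Submodule.finrank_eq_zero.1 h0)
  obtain ⟨b⟩ : Nonempty (Module.Basis (Fin r) K E₁) := ⟨Module.finBasisOfFinrankEq K E₁ hr.symm⟩
  set ι : (Fin r → K) →ₗ[K] (Fin n → K) := E₁.subtype ∘ₗ b.equivFun.symm.toLinearMap with hι
  set π : (Fin n → K) →ₗ[K] (Fin r → K) := b.equivFun.toLinearMap ∘ₗ E₁.projectionOnto E₂ hcomp with hπ
  have hιmem : ∀ z, ι z ∈ E₁ := fun z => (b.equivFun.symm z).2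
  have hπι : π ∘ₗ ι = LinearMap.id := by
    apply LinearMap.ext
    intro z
    have h1 : E₁.projectionOnto E₂ hcomp ((b.equivFun.symm z : E₁) : Fin n → K) = b.equivFun.symm z :=
      Submodule.projectionOnto_apply_left hcomp _
    have h2 : π (ι z) = b.equivFun (E₁.projectionOnto E₂ hcomp ((b.equivFun.symm z : E₁) : Fin n → K)) := rfl
    rw [LinearMap.comp_apply, h2, h1, LinearEquiv.apply_symm_apply, LinearMap.id_apply]
  have hιπ1 : ∀ x ∈ E₁, ι (π x) = x := by
    intro x hx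
    simp [hπ, hι, Submodule.projectionOnto_apply_of_mem_left hcomp hx]
  have hιπ2 : ∀ x, x - ι (π x) ∈ E₂ := by
    intro x
    have h1 : ι (π x) = (E₁.projectionOnto E₂ hcomp x : Fin n → K) := by
      simp [hπ, hι]
    rw [h1, ← Submodule.projectionOnto_apply_eq_zero_iff hcomp, map_sub, Submodule.projectionOnto_apply_left, sub_self]
  have hιinj : ∀ z, ι z = 0 → z = 0 := by
    intro z hz
    have h1 : π (ι z) = z := by
      have := LinearMap.congr_fun hπι z
      simpa using this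
    rw [← h1, hz, map_zero]
  set L : Matrix (Fin n) (Fin r) K := LinearMap.toMatrix' ι with hL
  set J : Matrix (Fin r) (Fin n) K := LinearMap.toMatrix' π with hJ
  have hY : Y = LinearMap.toMatrix' T := by rw [hT, LinearMap.toMatrix'_toLin']
  have hJL : J * L = 1 := by
    rw [hL, hJ, ← LinearMap.toMatrix'_comp, hπι, LinearMap.toMatrix'_id]
  have hTι : T ∘ₗ ι = ι ∘ₗ (π ∘ₗ (T ∘ₗ ι)) := by
    apply LinearMap.ext
    intro z
    exact (hιπ1 _ (hinv1 (hιmem z))).symm
  have hJYL : J * Y * L = LinearMap.toMatrix' (π ∘ₗ (T ∘ₗ ι)) := by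
    rw [LinearMap.toMatrix'_comp, LinearMap.toMatrix'_comp, ← hY, Matrix.mul_assoc]
  have hYL : Y * L = L * (J * Y * L) := by
    rw [hJYL, hL, ← LinearMap.toMatrix'_comp, ← hTι, LinearMap.toMatrix'_comp, ← hY]
  -- the eigenvalues of the block
  have hev : ∀ l, (J * Y * L).charpoly.IsRoot l → V l = R := by
    intro l hl
    have h1 : (π ∘ₗ (T ∘ₗ ι)).charpoly = (J * Y * L).charpoly := by
      rw [hJYL, ← Matrix.charpoly_toLin', Matrix.toLin'_toMatrix']
    have h2 : Module.End.HasEigenvalue (π ∘ₗ (T ∘ₗ ι)) l := by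
      rw [Module.End.hasEigenvalue_iff_isRoot_charpoly, h1]
      exact hl
    obtain ⟨z, hz⟩ := h2.exists_hasEigenvector
    have hz1 : (π ∘ₗ (T ∘ₗ ι)) z = l • z := Module.End.mem_eigenspace_iff.1 hz.1
    have h3 : T (ι z) = l • ι z := by
      have h4 := LinearMap.congr_fun hTι z
      simp only [LinearMap.comp_apply] at h4 hz1
      rw [h4, hz1, map_smul]
    have h5 : ι z ∈ E l := Module.End.eigenspace_le_maxGenEigenspace (Module.End.mem_eigenspace_iff.2 h3)
    by_contra hne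
    have h6 : ι z ∈ E₂ := hle2 l hne h5
    have h7 : ι z = 0 := by
      have := (Submodule.disjoint_def.1 hdis) _ (hιmem z) h6
      exact this
    exact hz.2 (hιinj z h7)
  have hdet : V (J * Y * L).det = R ^ r := by
    rw [Matrix.det_eq_prod_roots_charpoly, map_multiset_prod]
    have h1 : (J * Y * L).charpoly.roots.map V = Multiset.replicate r R := by
      rw [Multiset.eq_replicate]
      constructor
      · rw [Multiset.card_map]
        have h2 : Multiset.card (J * Y * L).charpoly.roots = (J * Y * L).charpoly.natDegree :=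
          IsAlgClosed.card_roots_eq_natDegree
        rw [h2, Matrix.charpoly_natDegree_eq_dim, Fintype.card_fin]
      · intro x hx
        obtain ⟨l, hl, rfl⟩ := Multiset.mem_map.1 hx
        exact hev l (Polynomial.isRoot_of_mem_roots hl)
    rw [h1, Multiset.prod_replicate]
  -- growth
  have hcolL : ∀ j, (fun i => L i j) ∈ E₁ := by
    intro j
    have h1 : (fun i => L i j) = ι (Pi.single j 1) := by
      ext i
      rw [hL, LinearMap.toMatrix'_apply]
    rw [h1]
    exact hιmem _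
  have hcolP : ∀ j, (fun i => ((1 : Matrix (Fin n) (Fin n) K) - L * J) i j) ∈ E₂ := by
    intro j
    have h1 : (fun i => ((1 : Matrix (Fin n) (Fin n) K) - L * J) i j) =
        Pi.single j 1 - ι (π (Pi.single j 1)) := by
      ext i
      have h2 : L * J = LinearMap.toMatrix' (ι ∘ₗ π) := by
        rw [LinearMap.toMatrix'_comp]
      rw [h2, Matrix.sub_apply, LinearMap.toMatrix'_apply]
      simp [Matrix.one_apply, Pi.single_apply]
    rw [h1]
    exact hιπ2 _
  obtain ⟨c₁, hc₁0, hc₁⟩ := GE_cols hGr1 V Y L R hR0 (fun j => hE1le (hcolL j))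
  obtain ⟨c₂, hc₂0, hc₂⟩ := GE_cols hGr1 V Y (1 - L * J) R' hR'0 (fun j => hE2le (hcolP j))
  refine ⟨r, L, J, R, R', c₁ + c₂, hr0, hR1, hR'0, hR'R, by positivity, hJL, hYL, hdet, ?_, ?_⟩
  · intro k i j
    refine (hc₁ k i j).trans ?_
    have h4 : (0 : ℝ) ≤ ((k : ℝ) + 1) ^ n * R ^ k := by positivity
    have : c₁ * ((k : ℝ) + 1) ^ n * R ^ k ≤ (c₁ + c₂) * ((k : ℝ) + 1) ^ n * R ^ k := by
      rw [mul_assoc, mul_assoc]
      exact mul_le_mul_of_nonneg_right (by linarith) h4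
    exact this
  · intro k i j
    refine (hc₂ k i j).trans ?_
    have h4 : (0 : ℝ) ≤ ((k : ℝ) + 1) ^ n * R' ^ k := by positivity
    have : c₂ * ((k : ℝ) + 1) ^ n * R' ^ k ≤ (c₁ + c₂) * ((k : ℝ) + 1) ^ n * R' ^ k := by
      rw [mul_assoc, mul_assoc]
      exact mul_le_mul_of_nonneg_right (by linarith) h4
    exact this

end Pool.Agent.MPcc2398.BR
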