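import Pool.Agent.Lib.MP_cc2398_al.BR.Spec

/-!
# MP_cc2398_al, project BR: general position (`S_Gen`)
-/

set_option autoImplicit false

namespace Pool.Agent.MPcc2398.BR

open Pool.Agent.MPcc2398 Matrix Filter Topology

universe u v w

namespace Genaux

/-- a product of finitely many nonzero elements of a domain of functions is a nonzero element -/
theorem prod_ne {G : Type u} [Group G] {K : Type v} [Field K] (A : Subalgebra K (G → K))
    (hdom : ∀ f ∈ A, ∀ f' ∈ A, f * f' = 0 → f = 0 ∨ f' = 0) {κ : Type} (s : Finset κ) (F : κ → G → K)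
    (hF : ∀ i, F i ∈ A ∧ F i ≠ 0) : (∏ i ∈ s, F i) ∈ A ∧ (∏ i ∈ s, F i) ≠ 0 := by
  classical
  induction s using Finset.induction_on with
  | empty =>
    refine ⟨by rw [Finset.prod_empty]; exact A.one_mem, ?_⟩
    rw [Finset.prod_empty]
    intro h
    have := congrFun h 1
    simp at this
  | insert i s hi ih =>
    rw [Finset.prod_insert hi]
    refine ⟨A.mul_mem (hF i).1 ih.1, ?_⟩
    intro h
    rcases hdom _ (hF i).1 _ ih.1 h with h | h
    · exact (hF i).2 h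
    · exact ih.2 h

end Genaux

theorem vGen (hCA : S_CA.{u, v}) : S_Gen.{u, v} := by
  intro G _ H K _ n ρ hden hirr ι _ a φ a' φ' hne
  cases nonempty_fintype ι
  obtain ⟨_, _, hmem⟩ := hCA G K n ρ
  have hf : ∀ i, (fun g => φ i ⬝ᵥ (ρ g *ᵥ a i)) ∈ CA ρ := fun i => (hmem (a i) (φ i)).1
  have hf' : ∀ i, (fun g => φ' i ⬝ᵥ (ρ g⁻¹ *ᵥ a' i)) ∈ CA ρ := fun i => (hmem (a' i) (φ' i)).2
  have hn : ∀ i, (fun g => φ i ⬝ᵥ (ρ g *ᵥ a i)) ≠ 0 := by
    intro i h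
    obtain ⟨x, _, hx⟩ := hirr (a i) (φ i) (hne i).1 (hne i).2.1
    exact hx (congrFun h x)
  have hn' : ∀ i, (fun g => φ' i ⬝ᵥ (ρ g⁻¹ *ᵥ a' i)) ≠ 0 := by
    intro i h
    obtain ⟨x, _, hx⟩ := hirr (a' i) (φ' i) (hne i).2.2.1 (hne i).2.2.2
    apply hx
    have h2 := congrFun h x⁻¹
    simp only [inv_inv, Pi.zero_apply] at h2
    exact h2
  have key := Genaux.prod_ne (CA ρ) hden.1 Finset.univ
    (fun i => (fun g => φ i ⬝ᵥ (ρ g *ᵥ a i)) * (fun g => φ' i ⬝ᵥ (ρ g⁻¹ *ᵥ a' i)))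
    (fun i => ⟨(CA ρ).mul_mem (hf i) (hf' i), fun h => by
      rcases hden.1 _ (hf i) _ (hf' i) h with h | h
      · exact hn i h
      · exact hn' i h⟩)
  obtain ⟨h, hH, hh⟩ : ∃ h ∈ H, (∏ i, ((fun g => φ i ⬝ᵥ (ρ g *ᵥ a i)) *
      (fun g => φ' i ⬝ᵥ (ρ g⁻¹ *ᵥ a' i)))) h ≠ 0 := by
    by_contra hc
    push Not at hc
    exact key.2 (hden.2 _ key.1 hc)
  refine ⟨h, hH, fun i => ?_⟩
  rw [Finset.prod_apply, Finset.prod_ne_zero_iff] at hh
  have h2 := hh i (Finset.mem_univ i)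
  rw [Pi.mul_apply] at h2
  exact ⟨left_ne_zero_of_mul h2, right_ne_zero_of_mul h2⟩

end Pool.Agent.MPcc2398.BR
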