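import Pool.Agent.Lib.MP_cc2398_al.BR.Spec

/-!
MP_cc2398_al, project BR, module Gr1 (helper57): growth of the powers of a matrix on a generalised eigenspace.
-/

set_option autoImplicit false

namespace Pool.Agent.MPcc2398.BR

open Pool.Agent.MPcc2398 Matrix Filter Topology

universe u v w

namespace Gr1aux

lemma nv_nonneg {K : Type v} [Field K] (V : AbsoluteValue K ℝ) {n : ℕ} (x : Fin n → K) : 0 ≤ nv V x :=
  Finset.sum_nonneg fun i _ => V.nonneg (x i)

lemma nv_zero {K : Type v} [Field K] (V : AbsoluteValue K ℝ) {n : ℕ} : nv V (0 : Fin n → K) = 0 := by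
  unfold nv
  simp

lemma nv_add {K : Type v} [Field K] (V : AbsoluteValue K ℝ) {n : ℕ} (x y : Fin n → K) :
    nv V (x + y) ≤ nv V x + nv V y := by
  unfold nv
  rw [← Finset.sum_add_distrib]
  exact Finset.sum_le_sum fun i _ => V.add_le (x i) (y i)

lemma nv_smul {K : Type v} [Field K] (V : AbsoluteValue K ℝ) {n : ℕ} (a : K) (x : Fin n → K) :
    nv V (a • x) = V a * nv V x := by
  unfold nv
  rw [Finset.mul_sum]
  refine Finset.sum_congr rfl fun i _ => ?_
  rw [Pi.smul_apply, smul_eq_mul, V.map_mul]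

lemma nv_sum {K : Type v} [Field K] (V : AbsoluteValue K ℝ) {n : ℕ} {ι : Type*} (s : Finset ι)
    (f : ι → Fin n → K) : nv V (∑ i ∈ s, f i) ≤ ∑ i ∈ s, nv V (f i) := by
  classical
  induction s using Finset.induction_on with
  | empty => rw [Finset.sum_empty, Finset.sum_empty, nv_zero]
  | insert a s ha ih =>
    rw [Finset.sum_insert ha, Finset.sum_insert ha]
    exact (nv_add V _ _).trans (by linarith)

end Gr1aux

open Gr1aux in
theorem vGr1 : S_Gr1.{v} := by
  classical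
  intro K _ V n Y r hr x hx
  refine Submodule.iSup_induction _ (motive := fun x => ∃ c : ℝ, 0 ≤ c ∧ ∀ k : ℕ,
    nv V ((Y ^ k) *ᵥ x) ≤ c * (k + 1) ^ n * r ^ k) hx ?_ ?_ ?_
  · rintro ⟨l, hl⟩ x hx
    have hfin : Module.finrank K (Fin n → K) = n := by simp
    rw [Module.End.maxGenEigenspace_eq_genEigenspace_finrank, hfin, Module.End.mem_genEigenspace_nat,
      LinearMap.mem_ker] at hx
    set D : Module.End K (Fin n → K) := Matrix.toLin' Y - l • 1 with hD
    have hDj : ∀ j : ℕ, n ≤ j → (D ^ j) x = 0 := by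
      intro j hj
      obtain ⟨i, rfl⟩ := Nat.exists_eq_add_of_le' hj
      rw [pow_add, Module.End.mul_apply, hx, map_zero]
    have hYk : ∀ k : ℕ, (Y ^ k) *ᵥ x =
        ∑ j ∈ Finset.range (k + 1), ((k.choose j : K) * l ^ (k - j)) • (D ^ j) x := by
      intro k
      have h1 : Matrix.toLin' Y = D + l • 1 := by
        rw [hD]
        abel
      have h2 : Commute D (l • (1 : Module.End K (Fin n → K))) := (Commute.one_right D).smul_right l
      have h3 : (Y ^ k) *ᵥ x = ((D + l • (1 : Module.End K (Fin n → K))) ^ k) x := by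
        rw [← h1, ← Matrix.toLin'_pow, Matrix.toLin'_apply]
      rw [h3, h2.add_pow, LinearMap.sum_apply]
      refine Finset.sum_congr rfl fun j _ => ?_
      rw [smul_pow, one_pow, mul_smul_comm, mul_one, ← nsmul_eq_mul', LinearMap.smul_apply, LinearMap.smul_apply,
        ← Nat.cast_smul_eq_nsmul K, smul_smul]
    refine ⟨∑ j ∈ Finset.range n, (r⁻¹) ^ j * nv V ((D ^ j) x),
      Finset.sum_nonneg fun j _ => mul_nonneg (by positivity) (nv_nonneg V _), fun k => ?_⟩
    have hk1 : (1 : ℝ) ≤ (k : ℝ) + 1 := by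
      have : (0 : ℝ) ≤ (k : ℝ) := Nat.cast_nonneg k
      linarith
    have hterm : ∀ j ∈ Finset.range (k + 1), nv V (((k.choose j : K) * l ^ (k - j)) • (D ^ j) x) ≤
        ((r⁻¹) ^ j * nv V ((D ^ j) x)) * ((k : ℝ) + 1) ^ n * r ^ k := by
      intro j hj
      have hjk : j ≤ k := Nat.lt_succ_iff.1 (Finset.mem_range.1 hj)
      rw [nv_smul]
      by_cases hjn : n ≤ j
      · rw [hDj j hjn, nv_zero]
        simp
      push Not at hjn
      have hN := nv_nonneg V ((D ^ j) x)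
      have a1 : V ((k.choose j : K)) ≤ ((k : ℝ) + 1) ^ n := by
        calc V ((k.choose j : K)) ≤ (k.choose j : ℝ) := V.apply_nat_le_self _
          _ ≤ ((k ^ j : ℕ) : ℝ) := by exact_mod_cast Nat.choose_le_pow k j
          _ = (k : ℝ) ^ j := by push_cast; rfl
          _ ≤ ((k : ℝ) + 1) ^ j := pow_le_pow_left₀ (Nat.cast_nonneg k) (by linarith) j
          _ ≤ ((k : ℝ) + 1) ^ n := pow_le_pow_right₀ hk1 hjn.le
      have a2 : V (l ^ (k - j)) ≤ r ^ k * (r⁻¹) ^ j := by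
        rw [V.map_pow]
        calc V l ^ (k - j) ≤ r ^ (k - j) := pow_le_pow_left₀ (V.nonneg l) hl _
          _ = r ^ k * (r⁻¹) ^ j := by
            rw [inv_pow, pow_sub₀ r hr.ne' hjk]
      rw [V.map_mul]
      calc V ((k.choose j : K)) * V (l ^ (k - j)) * nv V ((D ^ j) x)
          ≤ ((k : ℝ) + 1) ^ n * (r ^ k * (r⁻¹) ^ j) * nv V ((D ^ j) x) := by
            refine mul_le_mul_of_nonneg_right (mul_le_mul a1 a2 (V.nonneg _) (by positivity)) hN
        _ = ((r⁻¹) ^ j * nv V ((D ^ j) x)) * ((k : ℝ) + 1) ^ n * r ^ k := by ring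
    have hg0 : ∀ j : ℕ, 0 ≤ (r⁻¹) ^ j * nv V ((D ^ j) x) := fun j =>
      mul_nonneg (by positivity) (nv_nonneg V _)
    have hsub : ∑ j ∈ Finset.range (k + 1), (r⁻¹) ^ j * nv V ((D ^ j) x) ≤
        ∑ j ∈ Finset.range n, (r⁻¹) ^ j * nv V ((D ^ j) x) := by
      calc ∑ j ∈ Finset.range (k + 1), (r⁻¹) ^ j * nv V ((D ^ j) x)
          ≤ ∑ j ∈ Finset.range (max n (k + 1)), (r⁻¹) ^ j * nv V ((D ^ j) x) :=
            Finset.sum_le_sum_of_subset_of_nonneg (Finset.range_mono (le_max_right _ _)) fun j _ _ => hg0 j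
        _ = ∑ j ∈ Finset.range n, (r⁻¹) ^ j * nv V ((D ^ j) x) := by
            symm
            refine Finset.sum_subset (Finset.range_mono (le_max_left _ _)) fun j _ hj => ?_
            rw [Finset.mem_range, not_lt] at hj
            rw [hDj j hj, nv_zero, mul_zero]
    calc nv V ((Y ^ k) *ᵥ x)
        ≤ ∑ j ∈ Finset.range (k + 1), nv V (((k.choose j : K) * l ^ (k - j)) • (D ^ j) x) := by
          rw [hYk k]
          exact nv_sum V _ _
      _ ≤ ∑ j ∈ Finset.range (k + 1), ((r⁻¹) ^ j * nv V ((D ^ j) x)) * ((k : ℝ) + 1) ^ n * r ^ k :=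
          Finset.sum_le_sum hterm
      _ = (∑ j ∈ Finset.range (k + 1), (r⁻¹) ^ j * nv V ((D ^ j) x)) * ((k : ℝ) + 1) ^ n * r ^ k := by
          rw [Finset.sum_mul, Finset.sum_mul]
      _ ≤ (∑ j ∈ Finset.range n, (r⁻¹) ^ j * nv V ((D ^ j) x)) * ((k : ℝ) + 1) ^ n * r ^ k := by
          refine mul_le_mul_of_nonneg_right (mul_le_mul_of_nonneg_right hsub (by positivity)) (by positivity)
  · refine ⟨0, le_rfl, fun k => ?_⟩
    rw [Matrix.mulVec_zero, nv_zero]
    simp
  · rintro x y ⟨c, hc, h1⟩ ⟨c', hc', h2⟩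
    refine ⟨c + c', add_nonneg hc hc', fun k => ?_⟩
    rw [Matrix.mulVec_add]
    calc nv V ((Y ^ k) *ᵥ x + (Y ^ k) *ᵥ y) ≤ nv V ((Y ^ k) *ᵥ x) + nv V ((Y ^ k) *ᵥ y) := nv_add V _ _
      _ ≤ c * ((k : ℝ) + 1) ^ n * r ^ k + c' * ((k : ℝ) + 1) ^ n * r ^ k := add_le_add (h1 k) (h2 k)
      _ = (c + c') * ((k : ℝ) + 1) ^ n * r ^ k := by ring

end Pool.Agent.MPcc2398.BR
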