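import Pool.Agent.Lib.MP_cc2398_al.BR.Spec

/-!
# MP_cc2398_al, project BR: growth of the powers of a matrix (`S_Gr2`)
-/

set_option autoImplicit false

namespace Pool.Agent.MPcc2398.BR

open Pool.Agent.MPcc2398 Matrix Filter Topology

universe u v w

namespace Gr2aux

theorem gen_bot {K : Type v} [Field K] {n : ℕ} (Y : Matrix (Fin n) (Fin n) K) (l : K)
    (hl : ¬ Y.charpoly.IsRoot l) :
    Module.End.maxGenEigenspace (Matrix.toLin' Y) l = ⊥ := by
  by_contra hne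
  have h1 : Module.End.HasUnifEigenvalue (Matrix.toLin' Y) l ⊤ := hne
  have h2 : Module.End.HasEigenvalue (Matrix.toLin' Y) l := h1.lt zero_lt_one
  have h3 := (Module.End.hasEigenvalue_iff_isRoot_charpoly (Matrix.toLin' Y) l).1 h2
  rw [Matrix.charpoly_toLin'] at h3
  exact hl h3

end Gr2aux

/-- **Gr2**. -/
theorem vGr2 (hGr1 : S_Gr1.{v}) : S_Gr2.{v} := by
  intro K _ _ V n Y r hr hroot
  have htop : ∀ x : Fin n → K, x ∈ ⨆ l : {l : K // V l ≤ r},
      Module.End.maxGenEigenspace (Matrix.toLin' Y) (l : K) := by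
    intro x
    have hx : x ∈ ⨆ l : K, Module.End.maxGenEigenspace (Matrix.toLin' Y) l := by
      rw [Module.End.iSup_maxGenEigenspace_eq_top]
      trivial
    refine (iSup_le fun l => ?_ : (⨆ l : K, Module.End.maxGenEigenspace (Matrix.toLin' Y) l) ≤
      ⨆ l : {l : K // V l ≤ r}, Module.End.maxGenEigenspace (Matrix.toLin' Y) (l : K)) hx
    by_cases hl : V l ≤ r
    · exact le_iSup (fun l : {l : K // V l ≤ r} =>
        Module.End.maxGenEigenspace (Matrix.toLin' Y) (l : K)) ⟨l, hl⟩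
    · rw [Gr2aux.gen_bot Y l fun h => hl (hroot l h)]
      exact bot_le
  choose c hc0 hc using fun j : Fin n =>
    hGr1 K V n Y r hr (Pi.single j 1) (htop (Pi.single j 1))
  refine ⟨∑ j, c j, Finset.sum_nonneg fun j _ => hc0 j, fun k i j => ?_⟩
  have h1 : (Y ^ k) i j = ((Y ^ k) *ᵥ (Pi.single j 1 : Fin n → K)) i := by
    simp
  have h2 : V ((Y ^ k) i j) ≤ nv V ((Y ^ k) *ᵥ (Pi.single j 1 : Fin n → K)) := by
    rw [h1]
    exact Finset.single_le_sum (f := fun i => V (((Y ^ k) *ᵥ (Pi.single j 1 : Fin n → K)) i))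
      (fun i _ => V.nonneg _) (Finset.mem_univ i)
  have h3 : c j ≤ ∑ j, c j := Finset.single_le_sum (fun j _ => hc0 j) (Finset.mem_univ j)
  have h4 : (0 : ℝ) ≤ ((k : ℝ) + 1) ^ n * r ^ k := by positivity
  calc V ((Y ^ k) i j) ≤ _ := h2
    _ ≤ c j * (k + 1) ^ n * r ^ k := hc j k
    _ = c j * (((k : ℝ) + 1) ^ n * r ^ k) := by ring
    _ ≤ (∑ j, c j) * (((k : ℝ) + 1) ^ n * r ^ k) := mul_le_mul_of_nonneg_right h3 h4
    _ = (∑ j, c j) * (k + 1) ^ n * r ^ k := by ring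

end Pool.Agent.MPcc2398.BR
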