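import Pool.Agent.Lib.MP_cc2398_al.BR.Spec

/-!
# MP_cc2398_al, project BR: module HI (one ping-pong generator)
-/

set_option autoImplicit false

namespace Pool.Agent.MPcc2398.BR

open Pool.Agent.MPcc2398 Matrix Filter Topology

universe u v w

/-- **HI**.  If `A` maps the attracting vector of a proximal matrix `Y` outside the repelling hyperplane, then
`Y ^ k A Y ^ k` maps the complement of a neighbourhood of the repelling hyperplane into a given neighbourhood of the
attracting point, for all large `k`. -/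
theorem vHI (hDyn : S_Dyn.{v}) (hCon : S_Con.{v}) : S_HI.{v} := by
  intro K _ V n Y A a φ l hP hA δ hδ
  obtain ⟨δ₁, h1, h2⟩ := hCon K V n A a φ φ hA
  obtain ⟨k₁, hk1⟩ := hDyn K V n Y a φ l hP δ δ₁ hδ h1
  obtain ⟨k₂, hk2⟩ := hDyn K V n Y a φ l hP δ₁ δ h1 hδ
  exact ⟨max k₁ k₂, fun k hk x hx => hk2 k ((le_max_right _ _).trans hk) _
    (h2 δ₁ h1 le_rfl _ (hk1 k ((le_max_left _ _).trans hk) x hx))⟩

end Pool.Agent.MPcc2398.BR
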