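import Pool.Agent.Lib.MP_cc2398_al.BR.Def

/-!
# MP_cc2398_al, project BR: subgroups of bounded index and permutation matrices
-/

set_option autoImplicit false

namespace Pool.Agent.MPcc2398.BR

open Pool.Agent.MPcc2398 Matrix

universe u w

/-- If `|X : Y ∩ X|` is finite and at most `c` then `Y` contains each `x ∈ X` which is in the kernel of all
homomorphisms `X →* GL c E`. -/
theorem index_step {G : Type u} [Group G] {c : ℕ} {X Y : Subgroup G} (h0 : Y.relIndex X ≠ 0)
    (hc : Y.relIndex X ≤ c) (x : X)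
    (hx : ∀ (E : Type w) [Field E] (φ : X →* GL (Fin c) E), φ x = 1) : (x : G) ∈ Y := by
  classical
  have hfin : Finite (X ⧸ Y.subgroupOf X) := by
    rcases finite_or_infinite (X ⧸ Y.subgroupOf X) with h | h
    · exact h
    · exact absurd (Subgroup.index_eq_zero_iff_infinite.2 h) h0
  have := Fintype.ofFinite (X ⧸ Y.subgroupOf X)
  have hcard : Fintype.card (X ⧸ Y.subgroupOf X) ≤ Fintype.card (Fin c) := by
    rw [Fintype.card_fin, ← Nat.card_eq_fintype_card]
    exact hc
  obtain ⟨ι⟩ := Function.Embedding.nonempty_of_card_le hcard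
  let f₁ : X →* Equiv.Perm (X ⧸ Y.subgroupOf X) := MulAction.toPermHom X (X ⧸ Y.subgroupOf X)
  let f₂ : Equiv.Perm (X ⧸ Y.subgroupOf X) →* Equiv.Perm (Fin c) := Equiv.Perm.viaEmbeddingHom ι
  let f₃ : Equiv.Perm (Fin c) →* Matrix (Fin c) (Fin c) (ULift.{w} ℚ) :=
    { toFun := fun σ => (σ⁻¹).permMatrix (ULift.{w} ℚ)
      map_one' := by simp
      map_mul' := by
        intro σ τ
        rw [_root_.mul_inv_rev, Matrix.permMatrix_mul] }
  have h1 := hx (ULift.{w} ℚ) ((f₃.comp (f₂.comp f₁)).toHomUnits)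
  have h2 : f₃ (f₂ (f₁ x)) = 1 := by
    have := congrArg Units.val h1
    simpa using this
  have h3 : f₂ (f₁ x) = 1 := by
    have h4 : ((f₂ (f₁ x))⁻¹).permMatrix (ULift.{w} ℚ) = (1 : Equiv.Perm (Fin c)).permMatrix (ULift.{w} ℚ) := by
      rw [Matrix.permMatrix_one]
      exact h2
    have h5 : (f₂ (f₁ x))⁻¹ = 1 := by
      ext i
      have h6 := congrArg (fun M => M *ᵥ (Pi.single (((f₂ (f₁ x))⁻¹ : Equiv.Perm (Fin c)) i) 1 : Fin c → ULift.{w} ℚ)) h4
      simp only [Matrix.permMatrix_mulVec] at h6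
      have h7 := congrFun h6 i
      simp only [Function.comp_apply, Pi.single_eq_same, Equiv.Perm.coe_one, id_eq] at h7
      by_contra hne
      rw [Pi.single_eq_of_ne (by
        intro h8
        apply hne
        rw [← h8]
        rfl)] at h7
      exact one_ne_zero h7
    exact inv_eq_one.1 h5
  have h4 : f₁ x = 1 := Equiv.Perm.viaEmbeddingHom_injective ι (by rw [map_one]; exact h3)
  have h5 : x • ((1 : X) : X ⧸ Y.subgroupOf X) = ((1 : X) : X ⧸ Y.subgroupOf X) := by
    have := congrArg (fun σ : Equiv.Perm (X ⧸ Y.subgroupOf X) => σ ((1 : X) : X ⧸ Y.subgroupOf X)) h4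
    simpa [f₁] using this
  have h6 : ((x * 1 : X) : X ⧸ Y.subgroupOf X) = ((1 : X) : X ⧸ Y.subgroupOf X) := h5
  rw [QuotientGroup.eq] at h6
  have h7 : x⁻¹ ∈ Y.subgroupOf X := by simpa using h6
  exact Subgroup.mem_subgroupOf.1 ((Subgroup.inv_mem_iff _).1 h7)

end Pool.Agent.MPcc2398.BR
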