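import Pool.Agent.Lib.MP_cc2398_al.BR.Spec

/-!
# MP_cc2398_al, project BR, module Lin (helper36): no linear representations
-/

set_option autoImplicit false

namespace Pool.Agent.MPcc2398.BR

open Pool.Agent.MPcc2398 Matrix Filter Topology

universe u v w

theorem vLin (hSt2 : S_St2.{u, v}) (hBI : S_BI.{u, v}) (hOpp : S_Opp.{v}) (hFre : S_Fre.{u, v}) : S_Lin.{u, v} := by
  intro G _ H hTB hN hLF F _ m ρ x
  by_contra hx
  obtain ⟨K, _, _, V, N, R, hN2, hDen, hIrr, t, ht, a, φ, l, hPr⟩ := hSt2 G H hTB hN hLF F m ρ x hx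
  obtain ⟨y, hy, ⟨a1, φ1, l1, hp1⟩, ⟨a2, φ2, l2, hp2⟩⟩ := hBI G H K V N R hDen hIrr t ht a φ l hPr
  have ho := hOpp K V N hN2 (R y) (R y⁻¹) (by rw [← map_mul, mul_inv_cancel, map_one]) a1 φ1 a2 φ2 l1 l2 hp1 hp2
  refine hFre G H hTB K V N R hDen hIrr y hy (fun b => cond b a1 a2) (fun b => cond b φ1 φ2)
    ⟨⟨l1, hp1⟩, ⟨l2, hp2⟩, ?_⟩
  intro b
  cases b
  · exact ho.2
  · exact ho.1

end Pool.Agent.MPcc2398.BR
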