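import Pool.Agent.Lib.MP_cc2398_al.BR.Spec

set_option autoImplicit false

namespace Pool.Agent.MPcc2398.BR

open Pool.Agent.MPcc2398 Matrix Filter Topology

universe u v w

/-- A representation on a space of dimension smaller than the least degree is trivial. -/
private theorem Minaux_triv {G : Type u} [Group G] {K : Type v} [Field K] {n : ℕ}
    (hmin : ∀ m < n, ∀ ρ : G →* Matrix (Fin m) (Fin m) K, ∀ x, ρ x = 1)
    {E : Type w} [AddCommGroup E] [Module K E] [FiniteDimensional K E]
    (hE : Module.finrank K E < n) (σ : G →* Module.End K E) (x : G) : σ x = 1 := by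
  have h := hmin _ hE
    ((LinearMap.toMatrixAlgEquiv (Module.finBasis K E)).toAlgHom.toRingHom.toMonoidHom.comp σ) x
  have h2 : LinearMap.toMatrixAlgEquiv (Module.finBasis K E) (σ x) = 1 := h
  have h3 : LinearMap.toMatrixAlgEquiv (Module.finBasis K E) (σ x)
      = LinearMap.toMatrixAlgEquiv (Module.finBasis K E) 1 := by rw [h2, map_one]
  exact (LinearMap.toMatrixAlgEquiv (Module.finBasis K E)).injective h3

theorem vMin : S_Min.{u, v} := by
  classical
  intro G _ K _ hcomm m₀ ρ₀ x₀ hx₀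
  have hex : ∃ n : ℕ, ∃ ρ : G →* Matrix (Fin n) (Fin n) K, ∃ x, ρ x ≠ 1 := ⟨m₀, ρ₀, x₀, hx₀⟩
  let n := Nat.find hex
  obtain ⟨ρ, x₁, hx₁⟩ : ∃ ρ : G →* Matrix (Fin n) (Fin n) K, ∃ x, ρ x ≠ 1 := Nat.find_spec hex
  have hmin : ∀ m < n, ∀ ρ : G →* Matrix (Fin m) (Fin m) K, ∀ x, ρ x = 1 := by
    intro m hm ρ' x
    by_contra hne
    exact Nat.find_min hex hm ⟨ρ', x, hne⟩
  refine ⟨n, ρ, ⟨x₁, hx₁⟩, ?_⟩
  intro a φ ha hφ
  by_contra hcon
  have hz : ∀ x : G, φ ⬝ᵥ (ρ x *ᵥ a) = 0 := by
    intro x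
    by_contra hne
    exact hcon ⟨x, Set.mem_univ x, hne⟩
  -- the span of the orbit
  let W : Submodule K (Fin n → K) := Submodule.span K (Set.range fun x : G => ρ x *ᵥ a)
  have hinv : ∀ x : G, ∀ w ∈ W, ρ x *ᵥ w ∈ W := by
    intro x w hw
    induction hw using Submodule.span_induction with
    | mem y hy =>
      obtain ⟨g, rfl⟩ := hy
      refine Submodule.subset_span ⟨x * g, ?_⟩
      simp only [map_mul, Matrix.mulVec_mulVec]
    | zero => simp
    | add y z _ _ hy hz =>
      rw [Matrix.mulVec_add]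
      exact W.add_mem hy hz
    | smul c y _ hy =>
      rw [Matrix.mulVec_smul]
      exact W.smul_mem c hy
  have haW : a ∈ W := by
    refine Submodule.subset_span ⟨1, ?_⟩
    simp
  have hφW : ∀ w ∈ W, φ ⬝ᵥ w = 0 := by
    intro w hw
    induction hw using Submodule.span_induction with
    | mem y hy =>
      obtain ⟨g, rfl⟩ := hy
      exact hz g
    | zero => simp
    | add y z _ _ hy hz => rw [dotProduct_add, hy, hz, add_zero]
    | smul c y _ hy => rw [dotProduct_smul, hy, smul_zero]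
  have hWbot : W ≠ ⊥ := by
    intro h
    rw [h] at haW
    exact ha ((Submodule.mem_bot K).1 haW)
  have hWtop : W ≠ ⊤ := by
    intro h
    apply hφ
    funext i
    have h1 : φ ⬝ᵥ (Pi.single i (1 : K)) = 0 := hφW _ (by rw [h]; trivial)
    simpa using h1
  have hfr : Module.finrank K (Fin n → K) = n := by simp
  have hW1 : Module.finrank K W < n := by
    have := Submodule.finrank_lt (K := K) (V := Fin n → K) (s := W) hWtop
    rwa [hfr] at this
  have hW2 : Module.finrank K ((Fin n → K) ⧸ W) < n := by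
    have h1 := Submodule.finrank_quotient_add_finrank W
    have h2 : Module.finrank K W ≠ 0 := by
      intro h0
      exact hWbot (Submodule.finrank_eq_zero.1 h0)
    rw [hfr] at h1
    omega
  -- the two smaller representations
  let L : G → Module.End K (Fin n → K) := fun x => Matrix.toLin' (ρ x)
  have hLap : ∀ x v, L x v = ρ x *ᵥ v := fun x v => Matrix.toLin'_apply (ρ x) v
  have hinv' : ∀ x : G, ∀ w ∈ W, L x w ∈ W := by
    intro x w hw
    rw [hLap]
    exact hinv x w hw
  let σ₁ : G →* Module.End K W :=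
    { toFun := fun x => (L x).restrict (hinv' x)
      map_one' := by
        ext w
        simp [LinearMap.restrict_apply, hLap]
      map_mul' := by
        intro x y
        ext w
        simp [LinearMap.restrict_apply, hLap, Matrix.mulVec_mulVec] }
  let σ₂ : G →* Module.End K ((Fin n → K) ⧸ W) :=
    { toFun := fun x => W.mapQ W (L x) (fun w hw => hinv' x w hw)
      map_one' := by
        refine Submodule.linearMap_qext _ ?_
        refine LinearMap.ext fun v => ?_
        simp [hLap]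
      map_mul' := by
        intro x y
        refine Submodule.linearMap_qext _ ?_
        refine LinearMap.ext fun v => ?_
        simp [hLap, Matrix.mulVec_mulVec] }
  have h1 : ∀ x : G, ∀ w ∈ W, ρ x *ᵥ w = w := by
    intro x w hw
    have h := Minaux_triv hmin hW1 σ₁ x
    have h' := congrArg (fun f : Module.End K W => ((f ⟨w, hw⟩ : W) : Fin n → K)) h
    simpa [σ₁, LinearMap.restrict_apply, hLap] using h'
  have h2 : ∀ (x : G) (b : Fin n → K), ρ x *ᵥ b - b ∈ W := by
    intro x b
    have h := Minaux_triv hmin hW2 σ₂ x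
    have h' := congrArg (fun f : Module.End K ((Fin n → K) ⧸ W) => f (Submodule.Quotient.mk b)) h
    have h'' : (Submodule.Quotient.mk (ρ x *ᵥ b) : (Fin n → K) ⧸ W) = Submodule.Quotient.mk b := by
      simpa [σ₂, hLap] using h'
    exact (Submodule.Quotient.eq W).1 h''
  have h3 : ∀ (x y : G) (b : Fin n → K), ρ x *ᵥ (ρ y *ᵥ b) = ρ x *ᵥ b + (ρ y *ᵥ b - b) := by
    intro x y b
    have e : ρ y *ᵥ b = b + (ρ y *ᵥ b - b) := by abel
    calc ρ x *ᵥ (ρ y *ᵥ b) = ρ x *ᵥ (b + (ρ y *ᵥ b - b)) := by rw [← e]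
      _ = ρ x *ᵥ b + ρ x *ᵥ (ρ y *ᵥ b - b) := Matrix.mulVec_add _ _ _
      _ = ρ x *ᵥ b + (ρ y *ᵥ b - b) := by rw [h1 x _ (h2 y b)]
  have h4 : ∀ x y : G, ρ x * ρ y = ρ y * ρ x := by
    intro x y
    apply Matrix.toLin'.injective
    refine LinearMap.ext fun b => ?_
    rw [Matrix.toLin'_apply, Matrix.toLin'_apply, ← Matrix.mulVec_mulVec, ← Matrix.mulVec_mulVec,
      h3 x y b, h3 y x b]
    abel
  exact hx₁ (hcomm n ρ h4 x₁)

end Pool.Agent.MPcc2398.BR
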