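import Pool.Agent.Lib.MP_cc2398_al.BR.Spec
import Pool.Agent.Lib.MP_cc2398_al.All

/-!
# MP_cc2398_al, project BR: Nrt (some element of `H` has an eigenvalue which is not a root of unity)
-/

set_option autoImplicit false

namespace Pool.Agent.MPcc2398.BR

open Pool.Agent.MPcc2398 Matrix Filter Topology

universe u v w

/-- A finite subset of `H` whose images span the same space as the images of all elements of `H`. -/
private theorem exists_span {G : Type u} [Group G] (H : Subgroup G) {K : Type v} [Field K] {n : ℕ}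
    (ρ : G →* Matrix (Fin n) (Fin n) K) :
    ∃ s₀ : Finset G, (s₀ : Set G) ⊆ H ∧
      ∀ h ∈ H, ρ h ∈ Submodule.span K (ρ '' (s₀ : Set G)) := by
  classical
  obtain ⟨b, hb, hsp, hli⟩ := exists_linearIndependent K (ρ '' (H : Set G))
  have hfin : b.Finite := hli.setFinite
  obtain ⟨t, ht, htf, hsp'⟩ := (Set.exists_subset_image_finite_and
    (p := fun c => Submodule.span K c = Submodule.span K (ρ '' (H : Set G)))).1 ⟨b, hb, hfin, hsp⟩
  refine ⟨htf.toFinset, by simpa using ht, fun h hh => ?_⟩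
  rw [Set.Finite.coe_toFinset, hsp']
  exact Submodule.subset_span ⟨h, hh, rfl⟩

/-- The linear functional `M ↦ φ (M a)`. -/
private theorem span_zero {G : Type u} [Group G] {K : Type v} [Field K] {n : ℕ}
    (ρ : G →* Matrix (Fin n) (Fin n) K) (s : Set G) (a φ : Fin n → K)
    (h0 : ∀ h ∈ s, φ ⬝ᵥ (ρ h *ᵥ a) = 0) (M : Matrix (Fin n) (Fin n) K)
    (hM : M ∈ Submodule.span K (ρ '' s)) : φ ⬝ᵥ (M *ᵥ a) = 0 := by
  induction hM using Submodule.span_induction with
  | mem x hx =>
    obtain ⟨h, hh, rfl⟩ := hx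
    exact h0 h hh
  | zero => simp
  | add x y _ _ hx hy => rw [Matrix.add_mulVec, dotProduct_add, hx, hy, add_zero]
  | smul c x _ hx => rw [Matrix.smul_mulVec, dotProduct_smul, hx, smul_zero]

/-- A representation with finite image has a kernel of finite index. -/
private theorem index_of_finite {G : Type u} [Group G] (Γ : Subgroup G) {K : Type v} [Field K] {n : ℕ}
    (ρ : G →* Matrix (Fin n) (Fin n) K) (hf : (Set.range (ρ.comp Γ.subtype)).Finite) :
    ρ.ker.relIndex Γ ≠ 0 := by
  let f : Γ →* (Matrix (Fin n) (Fin n) K)ˣ := (ρ.comp Γ.subtype).toHomUnits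
  have hval : ∀ x, ((f x : (Matrix (Fin n) (Fin n) K)ˣ) : Matrix (Fin n) (Fin n) K) = ρ (x : G) := fun x => rfl
  have hfr : (Set.range f).Finite := by
    refine Set.Finite.of_finite_image (f := fun z : (Matrix (Fin n) (Fin n) K)ˣ =>
      (z : Matrix (Fin n) (Fin n) K)) (hf.subset ?_) (Units.val_injective.injOn)
    rintro _ ⟨_, ⟨x, rfl⟩, rfl⟩
    exact ⟨x, rfl⟩
  have hfin : Finite f.range := hfr.to_subtype
  have hker : f.ker = ρ.ker.subgroupOf Γ := by
    ext x
    rw [MonoidHom.mem_ker, Subgroup.mem_subgroupOf, MonoidHom.mem_ker, ← hval]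
    exact Units.val_eq_one.symm
  have h1 : f.ker.index ≠ 0 := (Subgroup.finiteIndex_ker f).index_ne_zero
  rw [hker] at h1
  exact h1

theorem vNrt (hCA : S_CA.{u, v}) (hBur : S_Bur.{v, u}) : S_Nrt.{u, v} := by
  classical
  intro G _ H tb hcf hnlf K _ _ n ρ hne hirr hden
  by_contra hcon
  have hroot : ∀ t ∈ H, ∀ l : K, (ρ t).charpoly.IsRoot l → ∃ m : ℕ, 0 < m ∧ l ^ m = 1 := by
    intro t ht l hl
    by_contra hc
    exact hcon ⟨t, ht, l, hl, fun m hm he => hc ⟨m, hm, he⟩⟩
  apply hnlf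
  have hNtop : ρ.ker ≠ ⊤ := by
    intro h
    obtain ⟨x, hx⟩ := hne
    apply hx
    have : x ∈ ρ.ker := by rw [h]; exact Subgroup.mem_top x
    exact MonoidHom.mem_ker.1 this
  have hN : LF ρ.ker := aNorm G H tb hcf ρ.ker inferInstance hNtop
  obtain ⟨s₀, hs₀, hspan⟩ := exists_span H ρ
  have hH : LF H := by
    refine aExt G ρ.ker H hN fun s hs => ?_
    let Γ : Subgroup G := Subgroup.closure ((s ∪ s₀ : Finset G) : Set G)
    have hΓH : Γ ≤ H := by
      rw [Subgroup.closure_le]
      intro x hx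
      rcases Finset.mem_union.1 (Finset.mem_coe.1 hx) with h | h
      · exact hs h
      · exact hs₀ h
    have hle : Subgroup.closure (s : Set G) ≤ Γ :=
      Subgroup.closure_mono (by intro x hx; exact Finset.mem_coe.2 (Finset.mem_union_left _ hx))
    have hFG : Group.FG Γ := (Group.fg_iff_subgroup_fg Γ).2 ⟨s ∪ s₀, rfl⟩
    have hirr' : Irr (ρ.comp Γ.subtype) Set.univ := by
      intro a φ ha hφ
      by_contra hc
      have h0 : ∀ h ∈ (s₀ : Set G), φ ⬝ᵥ (ρ h *ᵥ a) = 0 := by
        intro h hh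
        by_contra hne0
        exact hc ⟨⟨h, Subgroup.subset_closure (Finset.mem_coe.2 (Finset.mem_union_right _ hh))⟩,
          Set.mem_univ _, hne0⟩
      have hz : (fun g => φ ⬝ᵥ (ρ g *ᵥ a)) = 0 :=
        hden.2 _ ((hCA G K n ρ).2.2 a φ).1 fun h hh => span_zero ρ _ a φ h0 _ (hspan h hh)
      obtain ⟨x, -, hx⟩ := hirr a φ ha hφ
      exact hx (congrFun hz x)
    have hfin := hBur K Γ hFG n (ρ.comp Γ.subtype) hirr' fun x l hl => hroot x (hΓH x.2) l hl
    have h1 := index_of_finite Γ ρ hfin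
    exact fun h => h1 (Subgroup.relIndex_eq_zero_of_le_right hle h)
  refine aExt G H ⊤ hH fun s _ => ?_
  have hHtop : H ≠ ⊤ := by
    intro h
    have := tb.idx
    rw [h, Subgroup.index_top] at this
    exact one_ne_zero this
  obtain ⟨L, hL, -, -, hsL⟩ := aBig G H tb H hHtop s
  have h1 := tb.rel L hL
  exact fun h => h1 (Subgroup.relIndex_eq_zero_of_le_right ((Subgroup.closure_le L).2 hsL) h)

end Pool.Agent.MPcc2398.BR
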