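import Pool.Agent.Lib.MP_cc2398_al.BR.Spec

set_option autoImplicit false

namespace Pool.Agent.MPcc2398.BR

open Pool.Agent.MPcc2398 Matrix Filter Topology

universe u v w

namespace Nulaux

/-- The sum of the absolute values of the coefficients. -/
private noncomputable def nm {K : Type v} [Field K] (V : AbsoluteValue K ℝ) {σ : Type}
    (q : MvPolynomial σ K) : ℝ := ∑ d ∈ q.support, V (q.coeff d)

private theorem nm_nonneg {K : Type v} [Field K] (V : AbsoluteValue K ℝ) {σ : Type}
    (q : MvPolynomial σ K) : 0 ≤ nm V q :=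
  Finset.sum_nonneg fun _ _ => V.nonneg _

private theorem eval_le {K : Type v} [Field K] (V : AbsoluteValue K ℝ) {σ : Type}
    (q : MvPolynomial σ K) (τ : σ → K) (hτ : ∀ i, V (τ i) ≤ 1) :
    V (MvPolynomial.eval τ q) ≤ nm V q := by
  rw [MvPolynomial.eval_eq]
  refine (V.sum_le _ _).trans (Finset.sum_le_sum fun d _ => ?_)
  rw [map_mul, map_prod]
  have h1 : ∏ i ∈ d.support, V (τ i ^ d i) ≤ 1 := by
    refine Finset.prod_le_one (fun i _ => V.nonneg _) fun i _ => ?_
    rw [map_pow]
    exact pow_le_one₀ (V.nonneg _) (hτ i)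
  calc V (MvPolynomial.coeff d q) * ∏ i ∈ d.support, V (τ i ^ d i)
      ≤ V (MvPolynomial.coeff d q) * 1 := mul_le_mul_of_nonneg_left h1 (V.nonneg _)
    _ = V (MvPolynomial.coeff d q) := mul_one _

end Nulaux

open Nulaux in
theorem vNul : S_Nul.{v} := by
  intro K _ _ V σ _ P hP
  classical
  have : Fintype σ := Fintype.ofFinite σ
  have hfg : (Submodule.span (MvPolynomial σ K) P).FG := IsNoetherian.noetherian _
  obtain ⟨F, hFP, hF⟩ := (Submodule.fg_span_iff_fg_span_finset_subset P).1 hfg
  have hX : ∀ i : σ, ∃ (m : ℕ) (q : MvPolynomial σ K → MvPolynomial σ K),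
      ∑ p ∈ F, q p * p = (MvPolynomial.X i : MvPolynomial σ K) ^ m := by
    intro i
    have h1 : (MvPolynomial.X i : MvPolynomial σ K) ∈
        MvPolynomial.vanishingIdeal K (MvPolynomial.zeroLocus K (Ideal.span P)) := by
      rw [MvPolynomial.mem_vanishingIdeal_iff]
      intro x hx
      rw [MvPolynomial.mem_zeroLocus_iff] at hx
      have h0 : x = 0 := by
        refine hP x fun p hp => ?_
        have := hx p (Ideal.subset_span hp)
        simpa [MvPolynomial.aeval_eq_eval] using this
      rw [MvPolynomial.aeval_X, h0]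
      rfl
    rw [MvPolynomial.vanishingIdeal_zeroLocus_eq_radical, Ideal.mem_radical_iff] at h1
    obtain ⟨m, hm⟩ := h1
    have h2 : (MvPolynomial.X i : MvPolynomial σ K) ^ m ∈
        Submodule.span (MvPolynomial σ K) ((F : Set (MvPolynomial σ K))) := by
      rw [← hF]
      exact hm
    obtain ⟨f, -, hf⟩ := Submodule.mem_span_finset.1 h2
    exact ⟨m, f, by simpa [smul_eq_mul] using hf⟩
  choose m q hq using hX
  set S : ℝ := ∑ i, ∑ p ∈ F, nm V (q i p) with hS
  have hS0 : 0 ≤ S := Finset.sum_nonneg fun i _ => Finset.sum_nonneg fun p _ => nm_nonneg V _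
  refine ⟨F, 1 / (1 + S), by positivity, hFP, ?_⟩
  intro τ hτ ⟨i, hi⟩
  by_contra hcon
  push Not at hcon
  have h1 : V (MvPolynomial.eval τ (∑ p ∈ F, q i p * p)) = 1 := by
    rw [hq i, map_pow, MvPolynomial.eval_X, map_pow, hi, one_pow]
  have h2 : V (MvPolynomial.eval τ (∑ p ∈ F, q i p * p)) ≤ S * (1 / (1 + S)) := by
    rw [map_sum]
    refine (V.sum_le _ _).trans ?_
    calc ∑ p ∈ F, V (MvPolynomial.eval τ (q i p * p))
        ≤ ∑ p ∈ F, nm V (q i p) * (1 / (1 + S)) := by
          refine Finset.sum_le_sum fun p hp => ?_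
          rw [map_mul, map_mul]
          exact mul_le_mul (eval_le V _ τ hτ) (hcon p hp).le (V.nonneg _) (nm_nonneg V _)
      _ = (∑ p ∈ F, nm V (q i p)) * (1 / (1 + S)) := by rw [Finset.sum_mul]
      _ ≤ S * (1 / (1 + S)) := by
          refine mul_le_mul_of_nonneg_right ?_ (by positivity)
          rw [hS]
          exact Finset.single_le_sum (f := fun i => ∑ p ∈ F, nm V (q i p))
            (fun j _ => Finset.sum_nonneg fun p _ => nm_nonneg V _) (Finset.mem_univ i)
  have h3 : S * (1 / (1 + S)) < 1 := by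
    rw [mul_one_div, div_lt_one (by positivity)]
    linarith
  linarith

end Pool.Agent.MPcc2398.BR
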