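import Pool.Agent.Lib.MP_cc2398_al.BR.Spec

/-!
# MP_cc2398_al, project BR: module Opp
-/

set_option autoImplicit false

namespace Pool.Agent.MPcc2398.BR

open Pool.Agent.MPcc2398 Matrix Filter Topology

universe u v w

/-- the covector of the first matrix on the vector of the second -/
private lemma Oppaux_one {K : Type v} [Field K] {n : ℕ} (Y Z : Matrix (Fin n) (Fin n) K)
    (h : Y * Z = 1) (φ a' : Fin n → K) (l l' : K) (h1 : φ ᵥ* Y = l • φ) (h2 : Z *ᵥ a' = l' • a') :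
    φ ⬝ᵥ a' = l * l' * (φ ⬝ᵥ a') := by
  have h3 : a' = l' • (Y *ᵥ a') := by
    rw [← mulVec_smul, ← h2, mulVec_mulVec, h, one_mulVec]
  calc φ ⬝ᵥ a' = φ ⬝ᵥ (l' • (Y *ᵥ a')) := by rw [← h3]
    _ = l' * (φ ⬝ᵥ (Y *ᵥ a')) := by rw [dotProduct_smul, smul_eq_mul]
    _ = l' * ((φ ᵥ* Y) ⬝ᵥ a') := by rw [dotProduct_mulVec]
    _ = l' * (l * (φ ⬝ᵥ a')) := by rw [h1, smul_dotProduct, smul_eq_mul]
    _ = _ := by ring

/-- the product of two convergent sequences of scalars -/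
private lemma Oppaux_mul {K : Type v} [Field K] (V : AbsoluteValue K ℝ) (x z : ℕ → K) (x0 z0 : K)
    (hx : Tendsto (fun k => V (x k - x0)) atTop (𝓝 0))
    (hz : Tendsto (fun k => V (z k - z0)) atTop (𝓝 0)) :
    Tendsto (fun k => V (x k * z k - x0 * z0)) atTop (𝓝 0) := by
  have h1 : Tendsto (fun k => V (x k - x0) * V (z k - z0) + V (x k - x0) * V z0 +
      V x0 * V (z k - z0)) atTop (𝓝 0) := by
    have := ((hx.mul hz).add (hx.mul_const (V z0))).add (hz.const_mul (V x0))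
    simpa using this
  refine squeeze_zero (fun k => V.nonneg _) (fun k => ?_) h1
  have h2 : x k * z k - x0 * z0 = (x k - x0) * (z k - z0) + (x k - x0) * z0 + x0 * (z k - z0) := by
    ring
  rw [h2]
  refine (V.add_le _ _).trans ?_
  rw [V.map_mul x0]
  refine add_le_add ((V.add_le _ _).trans ?_) le_rfl
  rw [V.map_mul, V.map_mul]

/-- the sum of products -/
private lemma Oppaux_sum {K : Type v} [Field K] (V : AbsoluteValue K ℝ) {n : ℕ}
    (x z : Fin n → ℕ → K) (x0 z0 : Fin n → K) (c : K)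
    (hx : ∀ m, Tendsto (fun k => V (x m k - x0 m)) atTop (𝓝 0))
    (hz : ∀ m, Tendsto (fun k => V (z m k - z0 m)) atTop (𝓝 0))
    (hc : ∀ k, ∑ m, x m k * z m k = c) : c = ∑ m, x0 m * z0 m := by
  have h1 : Tendsto (fun k => ∑ m, V (x m k * z m k - x0 m * z0 m)) atTop (𝓝 0) := by
    have := tendsto_finsetSum Finset.univ
      (fun m (_ : m ∈ Finset.univ) => Oppaux_mul V (x m) (z m) (x0 m) (z0 m) (hx m) (hz m))
    simpa using this
  have h2 : ∀ k, V (c - ∑ m, x0 m * z0 m) ≤ ∑ m, V (x m k * z m k - x0 m * z0 m) := by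
    intro k
    rw [← hc k, ← Finset.sum_sub_distrib]
    exact V.sum_le _ _
  have h3 : V (c - ∑ m, x0 m * z0 m) ≤ 0 := ge_of_tendsto' h1 h2
  have h4 : V (c - ∑ m, x0 m * z0 m) = 0 := le_antisymm h3 (V.nonneg _)
  exact sub_eq_zero.mp (V.eq_zero.mp h4)

/-- **Opp** -/
theorem vOpp : S_Opp.{v} := by
  intro K _ V n hn Y Z hYZ a φ a' φ' l l' hY hZ
  obtain ⟨hl, hφ, hYa, hYφ, hYt⟩ := hY
  obtain ⟨hl', hφ', hZa, hZφ, hZt⟩ := hZ
  have hZY : Z * Y = 1 := mul_eq_one_comm.mp hYZ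
  have e1 := Oppaux_one Y Z hYZ φ a' l l' hYφ hZa
  have e2 := Oppaux_one Z Y hZY φ' a l' l hZφ hYa
  by_cases hll : l * l' = 1
  · exfalso
    have hcomm : Commute Y Z := by
      rw [Commute, SemiconjBy, hYZ, hZY]
    have key : ∀ i j, (1 : Matrix (Fin n) (Fin n) K) i j =
        ∑ m, (a i * φ m) * (a' m * φ' j) := by
      intro i j
      refine Oppaux_sum V (fun m k => l⁻¹ ^ k * (Y ^ k) i m) (fun m k => l'⁻¹ ^ k * (Z ^ k) m j)
        _ _ _ (fun m => hYt i m) (fun m => hZt m j) ?_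
      intro k
      have h1 : (Y ^ k) * (Z ^ k) = 1 := by
        rw [← hcomm.mul_pow, hYZ, one_pow]
      have h2 : l⁻¹ ^ k * l'⁻¹ ^ k = 1 := by
        rw [← mul_pow, ← mul_inv, hll, inv_one, one_pow]
      have h3 : ∑ m, (Y ^ k) i m * (Z ^ k) m j = (1 : Matrix (Fin n) (Fin n) K) i j := by
        rw [← h1, Matrix.mul_apply]
      calc ∑ m, l⁻¹ ^ k * (Y ^ k) i m * (l'⁻¹ ^ k * (Z ^ k) m j)
          = ∑ m, (l⁻¹ ^ k * l'⁻¹ ^ k) * ((Y ^ k) i m * (Z ^ k) m j) :=
            Finset.sum_congr rfl fun m _ => by ring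
        _ = _ := by rw [h2, ← Finset.mul_sum, h3, one_mul]
    have key2 : ∀ i j, (1 : Matrix (Fin n) (Fin n) K) i j = a i * (φ ⬝ᵥ a') * φ' j := by
      intro i j
      rw [key i j, dotProduct, Finset.mul_sum, Finset.sum_mul]
      exact Finset.sum_congr rfl fun m _ => by ring
    have k00 := key2 ⟨0, by omega⟩ ⟨0, by omega⟩
    have k11 := key2 ⟨1, by omega⟩ ⟨1, by omega⟩
    have k01 := key2 ⟨0, by omega⟩ ⟨1, by omega⟩
    rw [Matrix.one_apply_eq] at k00 k11
    rw [Matrix.one_apply_ne (by simp)] at k01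
    have n0 : a ⟨0, by omega⟩ * (φ ⬝ᵥ a') ≠ 0 := by
      intro h
      rw [h, zero_mul] at k00
      exact one_ne_zero k00
    have n1 : φ' ⟨1, by omega⟩ ≠ 0 := by
      intro h
      rw [h, mul_zero] at k11
      exact one_ne_zero k11
    exact mul_ne_zero n0 n1 k01.symm
  · constructor
    · by_contra h
      exact hll (mul_right_cancel₀ h (by rw [one_mul]; exact e1.symm))
    · by_contra h
      rw [mul_comm] at hll
      exact hll (mul_right_cancel₀ h (by rw [one_mul]; exact e2.symm))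

end Pool.Agent.MPcc2398.BR
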