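import Pool.Agent.Lib.MP_cc2398_al.BR.Spec
import Pool.Agent.Lib.MP_cc2398_al.All

/-!
# MP_cc2398_al, project BR, module Per (helper13): homomorphisms with commutative image are trivial
-/

set_option autoImplicit false

namespace Pool.Agent.MPcc2398.BR

open Pool.Agent.MPcc2398 Matrix Filter Topology

universe u v w

private lemma Per_comm {G : Type u} [Group G] {M : Type v} [Monoid M] (f : G →* M)
    (hf : ∀ x y, f x * f y = f y * f x) (a b : G) : f (a * b * a⁻¹ * b⁻¹) = 1 := by
  have h1 : f (a * b * a⁻¹ * b⁻¹) = f (b * a * a⁻¹ * b⁻¹) := by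
    simp only [map_mul]
    rw [hf a b]
  rw [h1, mul_inv_cancel_right, mul_inv_cancel, map_one]

theorem vPer : S_Per.{u, v} := by
  intro G _ H hTB hcore hnlf M _ f hf x
  obtain ⟨R, hRn, hRt, hRLF, hRmax, hst⟩ := aMain G H hTB hcore hnlf
  have hcomm : (⁅(⊤ : Subgroup G), ⊤⁆ : Subgroup G) = ⊤ := by
    by_contra h
    have hle := hRmax _ inferInstance h
    have hHH : Co H H := by
      constructor <;> · rw [Subgroup.relIndex_self]; exact one_ne_zero
    obtain ⟨b1, -⟩ := hst H hHH
    apply hRt
    rw [Subgroup.eq_top_iff']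
    intro g
    apply b1 g
    intro k _
    exact hle (Subgroup.commutator_mem_commutator (Subgroup.mem_top g) (Subgroup.mem_top k))
  have hker : (⁅(⊤ : Subgroup G), ⊤⁆ : Subgroup G) ≤ f.ker := by
    rw [Subgroup.commutator_le]
    intro a _ b _
    rw [MonoidHom.mem_ker, commutatorElement_def]
    exact Per_comm f hf a b
  have hx : x ∈ f.ker := hker (by rw [hcomm]; exact Subgroup.mem_top x)
  exact MonoidHom.mem_ker.1 hx

end Pool.Agent.MPcc2398.BR
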