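import Pool.Agent.Lib.MP_cc2398_al.BR.Spec

/-!
# MP_cc2398_al, project BR, module Pln: bound for the eigenvalues on an invariant plane
-/

set_option autoImplicit false

namespace Pool.Agent.MPcc2398.BR

open Pool.Agent.MPcc2398 Matrix Filter Topology

universe u v w

private lemma Pln_ne {K : Type v} [Field K] {n : ℕ} {w₁ w₂ : Fin n → K} (h : LinearIndependent K ![w₁, w₂]) :
    ∃ k l, w₁ k * w₂ l - w₁ l * w₂ k ≠ 0 := by
  by_contra hne
  push Not at hne
  have h1 : w₁ ≠ 0 := by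
    have := h.ne_zero 0
    simpa using this
  obtain ⟨k, hk⟩ := Function.ne_iff.1 h1
  rw [LinearIndependent.pair_iff] at h
  have h2 := h (w₂ k) (-(w₁ k)) (by
    funext l
    have h3 := hne k l
    simp only [Pi.add_apply, Pi.smul_apply, smul_eq_mul, Pi.zero_apply]
    linear_combination -h3)
  apply hk
  simpa using h2.2

private lemma Pln_S {K : Type v} [Field K] {n : ℕ} (w₁ w₂ f g : Fin n → K) :
    ∑ k, ∑ l, f k * g l * (w₁ k * w₂ l - w₁ l * w₂ k) =
      (∑ k, f k * w₁ k) * (∑ l, g l * w₂ l) - (∑ k, f k * w₂ k) * (∑ l, g l * w₁ l) := by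
  rw [Finset.sum_mul_sum, Finset.sum_mul_sum, ← Finset.sum_sub_distrib]
  refine Finset.sum_congr rfl fun k _ => ?_
  rw [← Finset.sum_sub_distrib]
  refine Finset.sum_congr rfl fun l _ => ?_
  ring

theorem vPln : S_Pln.{v} := by
  intro K _ V n Y u η C ε hC hε hu hη hY w₁ w₂ α β γ hli h1 h2
  obtain ⟨k₀, l₀, hkl⟩ := Pln_ne hli
  have hne : Nonempty (Fin n × Fin n) := ⟨(k₀, l₀)⟩
  obtain ⟨⟨i, j⟩, hij⟩ := Finite.exists_max
    (fun p : Fin n × Fin n => V (w₁ p.1 * w₂ p.2 - w₁ p.2 * w₂ p.1))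
  obtain ⟨M, hM⟩ : ∃ M : ℝ, M = V (w₁ i * w₂ j - w₁ j * w₂ i) := ⟨_, rfl⟩
  have hmax : ∀ k l, V (w₁ k * w₂ l - w₁ l * w₂ k) ≤ M := fun k l => by
    rw [hM]
    exact hij (k, l)
  have hMpos : 0 < M := lt_of_lt_of_le (V.pos hkl) (hmax k₀ l₀)
  have e1 : ∀ i, ∑ k, Y i k * w₁ k = α * w₁ i := fun i => by
    simpa [Matrix.mulVec, dotProduct] using congrFun h1 i
  have e2 : ∀ i, ∑ k, Y i k * w₂ k = β * w₂ i + γ * w₁ i := fun i => by
    simpa [Matrix.mulVec, dotProduct] using congrFun h2 i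
  have key : (α * β) * (w₁ i * w₂ j - w₁ j * w₂ i) =
      ∑ k, ∑ l, (u i * η k * (Y j l - u j * η l) + (Y i k - u i * η k) * (u j * η l) +
        (Y i k - u i * η k) * (Y j l - u j * η l)) * (w₁ k * w₂ l - w₁ l * w₂ k) := by
    have s1 := Pln_S w₁ w₂ (fun k => Y i k) (fun l => Y j l)
    have s2 := Pln_S w₁ w₂ (fun k => u i * η k) (fun l => u j * η l)
    have s3 : ∑ k, u i * η k * w₁ k = u i * ∑ k, η k * w₁ k := by
      rw [Finset.mul_sum]
      exact Finset.sum_congr rfl fun k _ => by ring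
    have s4 : ∑ k, u j * η k * w₂ k = u j * ∑ k, η k * w₂ k := by
      rw [Finset.mul_sum]
      exact Finset.sum_congr rfl fun k _ => by ring
    have s5 : ∑ k, u i * η k * w₂ k = u i * ∑ k, η k * w₂ k := by
      rw [Finset.mul_sum]
      exact Finset.sum_congr rfl fun k _ => by ring
    have s6 : ∑ k, u j * η k * w₁ k = u j * ∑ k, η k * w₁ k := by
      rw [Finset.mul_sum]
      exact Finset.sum_congr rfl fun k _ => by ring
    rw [e1, e1, e2, e2] at s1
    rw [s3, s4, s5, s6] at s2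
    have s7 : ∑ k, ∑ l, (u i * η k * (Y j l - u j * η l) + (Y i k - u i * η k) * (u j * η l) +
        (Y i k - u i * η k) * (Y j l - u j * η l)) * (w₁ k * w₂ l - w₁ l * w₂ k) =
        ∑ k, ∑ l, Y i k * Y j l * (w₁ k * w₂ l - w₁ l * w₂ k) -
        ∑ k, ∑ l, u i * η k * (u j * η l) * (w₁ k * w₂ l - w₁ l * w₂ k) := by
      rw [← Finset.sum_sub_distrib]
      refine Finset.sum_congr rfl fun k _ => ?_
      rw [← Finset.sum_sub_distrib]
      refine Finset.sum_congr rfl fun l _ => ?_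
      ring
    rw [s7, s1, s2]
    ring
  have hterm : ∀ k l, V ((u i * η k * (Y j l - u j * η l) + (Y i k - u i * η k) * (u j * η l) +
        (Y i k - u i * η k) * (Y j l - u j * η l)) * (w₁ k * w₂ l - w₁ l * w₂ k)) ≤
      (2 * C ^ 2 * ε + ε ^ 2) * M := by
    intro k l
    rw [map_mul]
    have a1 : V (u i * η k * (Y j l - u j * η l)) ≤ C * C * ε := by
      rw [map_mul, map_mul]
      exact mul_le_mul (mul_le_mul (hu i) (hη k) (V.nonneg _) hC) (hY j l) (V.nonneg _) (mul_nonneg hC hC)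
    have a2 : V ((Y i k - u i * η k) * (u j * η l)) ≤ ε * (C * C) := by
      rw [map_mul, map_mul]
      exact mul_le_mul (hY i k) (mul_le_mul (hu j) (hη l) (V.nonneg _) hC)
        (mul_nonneg (V.nonneg _) (V.nonneg _)) hε
    have a3 : V ((Y i k - u i * η k) * (Y j l - u j * η l)) ≤ ε * ε := by
      rw [map_mul]
      exact mul_le_mul (hY i k) (hY j l) (V.nonneg _) hε
    have a4 := V.add_le (u i * η k * (Y j l - u j * η l) + (Y i k - u i * η k) * (u j * η l))
      ((Y i k - u i * η k) * (Y j l - u j * η l))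
    have a5 := V.add_le (u i * η k * (Y j l - u j * η l)) ((Y i k - u i * η k) * (u j * η l))
    refine mul_le_mul ?_ (hmax k l) (V.nonneg _) (by positivity)
    nlinarith [a1, a2, a3, a4, a5]
  have hsum : V (∑ k, ∑ l, (u i * η k * (Y j l - u j * η l) + (Y i k - u i * η k) * (u j * η l) +
        (Y i k - u i * η k) * (Y j l - u j * η l)) * (w₁ k * w₂ l - w₁ l * w₂ k)) ≤
      n ^ 2 * ((2 * C ^ 2 * ε + ε ^ 2) * M) := by
    refine (V.sum_le _ _).trans ?_
    calc ∑ k : Fin n, V (∑ l, (u i * η k * (Y j l - u j * η l) + (Y i k - u i * η k) * (u j * η l) +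
        (Y i k - u i * η k) * (Y j l - u j * η l)) * (w₁ k * w₂ l - w₁ l * w₂ k))
        ≤ ∑ _k : Fin n, n * ((2 * C ^ 2 * ε + ε ^ 2) * M) := by
          refine Finset.sum_le_sum fun k _ => (V.sum_le _ _).trans ?_
          refine (Finset.sum_le_sum fun l _ => hterm k l).trans (le_of_eq ?_)
          rw [Finset.sum_const, Finset.card_univ, Fintype.card_fin, nsmul_eq_mul]
      _ = n ^ 2 * ((2 * C ^ 2 * ε + ε ^ 2) * M) := by
          rw [Finset.sum_const, Finset.card_univ, Fintype.card_fin, nsmul_eq_mul]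
          ring
  rw [← key, map_mul, ← hM] at hsum
  have hfin : V (α * β) * M ≤ (n ^ 2 * (2 * C ^ 2 * ε + ε ^ 2)) * M := by
    calc V (α * β) * M ≤ n ^ 2 * ((2 * C ^ 2 * ε + ε ^ 2) * M) := hsum
      _ = (n ^ 2 * (2 * C ^ 2 * ε + ε ^ 2)) * M := by ring
  exact le_of_mul_le_mul_right hfin hMpos

end Pool.Agent.MPcc2398.BR
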