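import Pool.Agent.Lib.MP_cc2398_al.BR.Spec

set_option autoImplicit false

namespace Pool.Agent.MPcc2398.BR

open Pool.Agent.MPcc2398 Matrix Filter Topology

universe u v w

namespace Prlaux

private theorem span_top {K : Type v} [Field K] {N : ℕ} (s : Set (Fin N → K))
    (h : ∀ ψ : Fin N → K, (∀ y ∈ s, ψ ⬝ᵥ y = 0) → ψ = 0) : Submodule.span K s = ⊤ := by
  by_contra hne
  obtain ⟨f, hf0, hf⟩ := Submodule.exists_le_ker_of_lt_top _ (lt_top_iff_ne_top.2 hne)
  have hval : ∀ y : Fin N → K, f y = (fun i => f (Pi.single i 1)) ⬝ᵥ y := by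
    intro y
    have h1 : y = ∑ i, y i • (Pi.single i (1 : K) : Fin N → K) := by
      funext j
      rw [Finset.sum_apply, Finset.sum_eq_single j]
      · simp
      · intro i _ hij
        simp [Pi.single_eq_of_ne hij.symm]
      · intro hj
        exact absurd (Finset.mem_univ j) hj
    conv_lhs => rw [h1]
    rw [map_sum, dotProduct]
    refine Finset.sum_congr rfl fun i _ => ?_
    rw [map_smul, smul_eq_mul, mul_comm]
  have h2 : (fun i => f (Pi.single i 1)) = (0 : Fin N → K) := h _ (fun y hy => by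
    rw [← hval]
    exact LinearMap.mem_ker.1 (hf (Submodule.subset_span hy)))
  apply hf0
  refine LinearMap.ext fun y => ?_
  rw [hval, h2, zero_dotProduct]
  rfl

private theorem tadd {K : Type v} [Field K] (V : AbsoluteValue K ℝ) {x y : ℕ → K}
    (hx : Tendsto (fun k => V (x k)) atTop (𝓝 0)) (hy : Tendsto (fun k => V (y k)) atTop (𝓝 0)) :
    Tendsto (fun k => V (x k + y k)) atTop (𝓝 0) := by
  refine squeeze_zero (fun k => V.nonneg _) (fun k => V.add_le _ _) ?_
  simpa using hx.add hy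

private theorem tmul {K : Type v} [Field K] (V : AbsoluteValue K ℝ) (c : K) {x : ℕ → K}
    (hx : Tendsto (fun k => V (x k)) atTop (𝓝 0)) : Tendsto (fun k => V (c * x k)) atTop (𝓝 0) := by
  have h1 := hx.const_mul (V c)
  rw [mul_zero] at h1
  refine h1.congr fun k => ?_
  rw [map_mul]

private theorem tconst {K : Type v} [Field K] (V : AbsoluteValue K ℝ) {c : K}
    (hx : Tendsto (fun _ : ℕ => V c) atTop (𝓝 0)) : c = 0 :=
  V.eq_zero.1 (tendsto_nhds_unique tendsto_const_nhds hx)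

/-- Uniqueness of limits. -/
private theorem uniq {K : Type v} [Field K] (V : AbsoluteValue K ℝ) {μ α β : K} (hμ : μ ≠ 0) (x : ℕ → K)
    (h1 : Tendsto (fun k : ℕ => V (μ⁻¹ ^ k * x k - α)) atTop (𝓝 0))
    (h2 : Tendsto (fun k : ℕ => V (μ⁻¹ ^ k * x (k + 1) - β)) atTop (𝓝 0)) : β = μ * α := by
  have h3 : Tendsto (fun k : ℕ => V (μ⁻¹ ^ (k + 1) * x (k + 1) - α)) atTop (𝓝 0) :=
    h1.comp (tendsto_add_atTop_nat 1)
  have h4 := tadd V (tmul V μ h3) (tmul V (-1) h2)
  have h5 : β - μ * α = 0 := by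
    refine tconst V (h4.congr fun k => ?_)
    congr 1
    have h6 : μ * (μ⁻¹ ^ (k + 1) * x (k + 1)) = μ⁻¹ ^ k * x (k + 1) := by
      rw [pow_succ]
      field_simp
    rw [mul_sub, h6]
    ring
  exact sub_eq_zero.1 h5

end Prlaux

/-- The representation is irreducible and the element is proximal. -/
theorem vPrl : S_Prl.{u, v} := by
  intro G _ K _ V N R a φ t μ hμ hψ hz hφa hlim
  -- statement (2)
  have hmv : ∀ (x : G) (b c : Fin N → K), (b ᵥ* R x) ⬝ᵥ c = b ⬝ᵥ (R x *ᵥ c) := fun x b c =>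
    (dotProduct_mulVec b (R x) c).symm
  have hmm : ∀ (x y : G) (c : Fin N → K), R x *ᵥ (R y *ᵥ c) = R (x * y) *ᵥ c := fun x y c => by
    rw [mulVec_mulVec, map_mul]
  have hs1 : Submodule.span K (Set.range fun g : G => R g *ᵥ a) = ⊤ := by
    refine Prlaux.span_top _ fun ψ h => hψ ψ fun x => h _ ⟨x, rfl⟩
  have hs2 : Submodule.span K (Set.range fun x : G => φ ᵥ* R x) = ⊤ := by
    refine Prlaux.span_top _ fun ψ h => hz ψ fun x => ?_
    have h1 := h _ ⟨x, rfl⟩
    rw [dotProduct_comm, hmv] at h1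
    exact h1
  have hQ1 : ∀ (x : G) (z : Fin N → K), Tendsto (fun k : ℕ => V (μ⁻¹ ^ k * ((φ ᵥ* R x) ⬝ᵥ (R (t ^ k) *ᵥ z)) -
      ((φ ᵥ* R x) ⬝ᵥ a) * (φ ⬝ᵥ z))) atTop (𝓝 0) := by
    intro x z
    have hzm : z ∈ Submodule.span K (Set.range fun g : G => R g *ᵥ a) := by
      rw [hs1]
      trivial
    induction hzm using Submodule.span_induction with
    | mem y hy =>
      obtain ⟨g, rfl⟩ := hy
      refine (hlim x g).congr fun k => ?_
      rw [hmv, hmv, hmm, hmm, mul_assoc]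
    | zero =>
      refine tendsto_const_nhds.congr fun k => ?_
      rw [mulVec_zero, dotProduct_zero, dotProduct_zero, mul_zero, mul_zero, sub_zero, map_zero]
    | add y y' _ _ h1 h2 =>
      refine (Prlaux.tadd V h1 h2).congr fun k => ?_
      rw [mulVec_add, dotProduct_add, dotProduct_add]
      congr 1
      ring
    | smul c y _ h1 =>
      refine (Prlaux.tmul V c h1).congr fun k => ?_
      rw [mulVec_smul, dotProduct_smul, dotProduct_smul, smul_eq_mul, smul_eq_mul]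
      congr 1
      ring
  have hQ : ∀ ψ z : Fin N → K, Tendsto (fun k : ℕ => V (μ⁻¹ ^ k * (ψ ⬝ᵥ (R (t ^ k) *ᵥ z)) -
      (ψ ⬝ᵥ a) * (φ ⬝ᵥ z))) atTop (𝓝 0) := by
    intro ψ z
    have hzm : ψ ∈ Submodule.span K (Set.range fun x : G => φ ᵥ* R x) := by
      rw [hs2]
      trivial
    induction hzm using Submodule.span_induction with
    | mem y hy =>
      obtain ⟨x, rfl⟩ := hy
      exact hQ1 x z
    | zero =>
      refine tendsto_const_nhds.congr fun k => ?_
      rw [zero_dotProduct, zero_dotProduct, mul_zero, zero_mul, sub_zero, map_zero]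
    | add y y' _ _ h1 h2 =>
      refine (Prlaux.tadd V h1 h2).congr fun k => ?_
      rw [add_dotProduct, add_dotProduct]
      congr 1
      ring
    | smul c y _ h1 =>
      refine (Prlaux.tmul V c h1).congr fun k => ?_
      rw [smul_dotProduct, smul_dotProduct, smul_eq_mul, smul_eq_mul]
      congr 1
      ring
  refine ⟨⟨hμ, hφa, ?_, ?_, ?_⟩, ?_⟩
  · -- eigenvector
    refine dotProduct_eq _ _ fun ψ => ?_
    rw [dotProduct_comm, dotProduct_comm _ ψ, dotProduct_smul, smul_eq_mul]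
    refine Prlaux.uniq V hμ (fun k => ψ ⬝ᵥ (R (t ^ k) *ᵥ a)) ?_ ?_
    · refine (hQ ψ a).congr fun k => ?_
      rw [hφa, mul_one]
    · refine (hQ (ψ ᵥ* R t) a).congr fun k => ?_
      rw [hφa, mul_one, hmv, hmv, hmm, ← pow_succ']
  · -- eigencovector
    refine dotProduct_eq _ _ fun z => ?_
    rw [hmv, smul_dotProduct, smul_eq_mul]
    refine Prlaux.uniq V hμ (fun k => φ ⬝ᵥ (R (t ^ k) *ᵥ z)) ?_ ?_
    · refine (hQ φ z).congr fun k => ?_
      rw [hφa, one_mul]
    · refine (hQ φ (R t *ᵥ z)).congr fun k => ?_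
      rw [hφa, one_mul, hmm, ← pow_succ]
  · intro i j
    refine (hQ (Pi.single i 1) (Pi.single j 1)).congr fun k => ?_
    rw [single_dotProduct, one_mul, mulVec_single_one, single_dotProduct, one_mul, dotProduct_single, mul_one,
      map_pow]
    rfl
  · intro z ψ hz0 hψ0
    obtain ⟨x₁, hx₁⟩ : ∃ x, φ ⬝ᵥ (R x *ᵥ z) ≠ 0 := by
      by_contra h
      exact hz0 (hz z fun x => not_not.1 fun h' => h ⟨x, h'⟩)
    obtain ⟨x₂, hx₂⟩ : ∃ x, ψ ⬝ᵥ (R x *ᵥ a) ≠ 0 := by
      by_contra h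
      exact hψ0 (hψ ψ fun x => not_not.1 fun h' => h ⟨x, h'⟩)
    by_contra hcon
    have h0 : ∀ x : G, ψ ⬝ᵥ (R x *ᵥ z) = 0 := fun x =>
      not_not.1 fun h' => hcon ⟨x, Set.mem_univ x, h'⟩
    have h1 := hQ (ψ ᵥ* R x₂) (R x₁ *ᵥ z)
    have h2 : (0 : K) - (ψ ⬝ᵥ (R x₂ *ᵥ a)) * (φ ⬝ᵥ (R x₁ *ᵥ z)) = 0 := by
      refine Prlaux.tconst V (h1.congr fun k => ?_)
      rw [hmv, hmv, hmm, hmm, h0, mul_zero]
    rw [zero_sub, neg_eq_zero, mul_eq_zero] at h2
    exact h2.elim hx₂ hx₁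

end Pool.Agent.MPcc2398.BR
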