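import Pool.Agent.Lib.MP_cc2398_al.BR.Spec

/-! MP_cc2398_al, project BR, module Prx: matrices close to rank one are proximal. -/

set_option autoImplicit false

namespace Pool.Agent.MPcc2398.BR

open Pool.Agent.MPcc2398 Matrix Filter Topology

universe u v w

/-- eigenvectors for different eigenvalues are independent -/
private lemma Prx_li {K : Type v} [Field K] {n : ℕ} {Y : Matrix (Fin n) (Fin n) K} {w₁ w₂ : Fin n → K} {α β : K}
    (h1 : w₁ ≠ 0) (h2 : w₂ ≠ 0) (e1 : Y *ᵥ w₁ = α • w₁) (e2 : Y *ᵥ w₂ = β • w₂) (hne : β ≠ α) :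
    LinearIndependent K ![w₁, w₂] := by
  rw [LinearIndependent.pair_iff]
  intro s t hst
  have h3 : Y *ᵥ (s • w₁ + t • w₂) = 0 := by rw [hst, Matrix.mulVec_zero]
  rw [Matrix.mulVec_add, Matrix.mulVec_smul, Matrix.mulVec_smul, e1, e2] at h3
  have h4 : (s * (α - β)) • w₁ = 0 := by
    have h5 : s • α • w₁ + t • β • w₂ - β • (s • w₁ + t • w₂) = 0 := by rw [h3, hst, smul_zero, sub_zero]
    have h6 : s • α • w₁ + t • β • w₂ - β • (s • w₁ + t • w₂) = (s * (α - β)) • w₁ := by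
      ext i
      simp only [Pi.add_apply, Pi.sub_apply, Pi.smul_apply, smul_eq_mul]
      ring
    rw [← h6]
    exact h5
  have hs : s = 0 := by
    rcases smul_eq_zero.1 h4 with h5 | h5
    · rcases mul_eq_zero.1 h5 with h6 | h6
      · exact h6
      · exact absurd (sub_eq_zero.1 h6).symm hne
    · exact absurd h5 h1
  refine ⟨hs, ?_⟩
  rw [hs, zero_smul, zero_add] at hst
  rcases smul_eq_zero.1 hst with h5 | h5
  · exact h5
  · exact absurd h5 h2

/-- an eigenvector -/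
private lemma Prx_ev {K : Type v} [Field K] {n : ℕ} {Y : Matrix (Fin n) (Fin n) K} {α : K}
    (h : Y.charpoly.IsRoot α) : ∃ w : Fin n → K, w ≠ 0 ∧ Y *ᵥ w = α • w := by
  have h1 : (Matrix.scalar (Fin n) α - Y).det = 0 := by
    rw [← Matrix.eval_charpoly]
    exact h
  obtain ⟨w, hw, hw2⟩ := Matrix.exists_mulVec_eq_zero_iff.2 h1
  refine ⟨w, hw, ?_⟩
  rw [Matrix.sub_mulVec] at hw2
  have h2 : (Matrix.scalar (Fin n) α) *ᵥ w = α • w := by
    ext i
    simp [Matrix.scalar_apply, Matrix.mulVec_diagonal]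
  rw [h2] at hw2
  exact (sub_eq_zero.1 hw2).symm

/-- a root of maximal value -/
private lemma Prx_root {K : Type v} [Field K] [IsAlgClosed K] (V : AbsoluteValue K ℝ) {n : ℕ} (hn : 0 < n)
    (Y : Matrix (Fin n) (Fin n) K) : ∃ α : K, Y.charpoly.IsRoot α ∧ V Y.trace ≤ n * V α := by
  classical
  have hdeg : Y.charpoly.natDegree = n := by
    rw [Matrix.charpoly_natDegree_eq_dim, Fintype.card_fin]
  have hne : Y.charpoly ≠ 0 := (Matrix.charpoly_monic Y).ne_zero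
  have hroot : ∃ x, Y.charpoly.IsRoot x := by
    refine IsAlgClosed.exists_root _ ?_
    intro h0
    have h1 : Y.charpoly.natDegree = 0 := Polynomial.natDegree_eq_of_degree_eq_some h0
    rw [hdeg] at h1
    exact hn.ne' h1
  obtain ⟨x, hx⟩ := hroot
  have hxm : x ∈ Y.charpoly.roots.toFinset := by
    rw [Multiset.mem_toFinset, Polynomial.mem_roots hne]
    exact hx
  obtain ⟨α, hα, hmax⟩ := Finset.exists_max_image Y.charpoly.roots.toFinset (fun z => V z) ⟨x, hxm⟩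
  rw [Multiset.mem_toFinset, Polynomial.mem_roots hne] at hα
  refine ⟨α, hα, ?_⟩
  rw [Matrix.trace_eq_sum_roots_charpoly]
  have h1 : V (Y.charpoly.roots.sum) ≤ (Y.charpoly.roots.map (fun z => V z)).sum :=
    Multiset.le_sum_of_subadditive _ (map_zero V).le (fun a b => V.add_le a b) _
  have h2 : (Y.charpoly.roots.map (fun z => V z)).sum ≤
      (Y.charpoly.roots.map (fun z => V z)).card • V α := by
    refine Multiset.sum_le_card_nsmul _ _ ?_
    intro y hy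
    rw [Multiset.mem_map] at hy
    obtain ⟨z, hz, rfl⟩ := hy
    exact hmax z (Multiset.mem_toFinset.2 hz)
  rw [Multiset.card_map, nsmul_eq_mul] at h2
  have h3 : ((Y.charpoly.roots.card : ℕ) : ℝ) ≤ n := by
    have := Polynomial.card_roots' Y.charpoly
    rw [hdeg] at this
    exact_mod_cast this
  exact h1.trans (h2.trans (mul_le_mul_of_nonneg_right h3 (V.nonneg _)))

/-- the trace -/
private lemma Prx_tr {K : Type v} [Field K] (V : AbsoluteValue K ℝ) {n : ℕ} {Y : Matrix (Fin n) (Fin n) K}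
    {u η : Fin n → K} {ε : ℝ} (h : ∀ i j, V (Y i j - u i * η j) ≤ ε) : V (η ⬝ᵥ u) ≤ V Y.trace + n * ε := by
  have h1 : η ⬝ᵥ u = Y.trace - ∑ i, (Y i i - u i * η i) := by
    rw [Finset.sum_sub_distrib, Matrix.trace, dotProduct]
    simp only [Matrix.diag_apply]
    have : ∑ i, η i * u i = ∑ i, u i * η i := Finset.sum_congr rfl fun i _ => mul_comm _ _
    rw [this]
    ring
  rw [h1]
  have h2 : V (∑ i, (Y i i - u i * η i)) ≤ n * ε := by
    calc V (∑ i, (Y i i - u i * η i)) ≤ ∑ i, V (Y i i - u i * η i) := V.sum_le _ _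
      _ ≤ ∑ _i : Fin n, ε := Finset.sum_le_sum fun i _ => h i i
      _ = n * ε := by rw [Finset.sum_const, Finset.card_univ, Fintype.card_fin, nsmul_eq_mul]
  calc V (Y.trace - ∑ i, (Y i i - u i * η i)) ≤ V Y.trace + V (∑ i, (Y i i - u i * η i)) := V.sub_le_add _ _
    _ ≤ _ := by linarith

theorem vPrx (hPln : S_Pln.{v}) (hSpc : S_Spc.{v}) : S_Prx.{v} := by
  intro K _ _ V n κ C hκ
  rcases Nat.eq_zero_or_pos n with hn | hn
  · subst hn
    refine ⟨1, one_pos, ?_⟩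
    intro Y u η _ _ h _
    exfalso
    have h1 : η ⬝ᵥ u = 0 := by simp [dotProduct]
    rw [h1, map_zero] at h
    linarith
  have hn' : (0 : ℝ) < n := by exact_mod_cast hn
  obtain ⟨D, hD⟩ : ∃ D : ℝ, D = max C 0 := ⟨_, rfl⟩
  have hD0 : 0 ≤ D := by rw [hD]; exact le_max_right _ _
  have hDC : C ≤ D := by rw [hD]; exact le_max_left _ _
  obtain ⟨s, hs⟩ : ∃ s : ℝ, s = κ / (2 * n) := ⟨_, rfl⟩
  have hs0 : 0 < s := by rw [hs]; positivity
  obtain ⟨ε, hε⟩ : ∃ ε : ℝ, ε = min 1 (min s (s ^ 2 / (2 * (n ^ 2 * (2 * D ^ 2 + 1))))) := ⟨_, rfl⟩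
  have hε0 : 0 < ε := by
    rw [hε]
    exact lt_min one_pos (lt_min hs0 (by positivity))
  have hε1 : ε ≤ 1 := by rw [hε]; exact min_le_left _ _
  have hε2 : ε ≤ s := by rw [hε]; exact (min_le_right _ _).trans (min_le_left _ _)
  have hε3 : ε ≤ s ^ 2 / (2 * (n ^ 2 * (2 * D ^ 2 + 1))) := by
    rw [hε]; exact (min_le_right _ _).trans (min_le_right _ _)
  obtain ⟨q', hq'⟩ : ∃ q' : ℝ, q' = (n : ℝ) ^ 2 * (2 * D ^ 2 * ε + ε ^ 2) := ⟨_, rfl⟩
  have hq0 : 0 ≤ q' := by rw [hq']; positivity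
  have hq1 : q' < s ^ 2 := by
    have h1 : 2 * D ^ 2 * ε + ε ^ 2 ≤ (2 * D ^ 2 + 1) * ε := by nlinarith
    have h2 : q' ≤ (n : ℝ) ^ 2 * ((2 * D ^ 2 + 1) * ε) := by
      rw [hq']
      exact mul_le_mul_of_nonneg_left h1 (by positivity)
    have h3 : (n : ℝ) ^ 2 * (2 * D ^ 2 + 1) * ε ≤ s ^ 2 / 2 := by
      have h4 : (0 : ℝ) < n ^ 2 * (2 * D ^ 2 + 1) := by positivity
      calc (n : ℝ) ^ 2 * (2 * D ^ 2 + 1) * ε ≤
            (n : ℝ) ^ 2 * (2 * D ^ 2 + 1) * (s ^ 2 / (2 * (n ^ 2 * (2 * D ^ 2 + 1)))) :=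
            mul_le_mul_of_nonneg_left hε3 h4.le
        _ = s ^ 2 / 2 := by field_simp
    have h5 : 0 < s ^ 2 := by positivity
    calc q' ≤ (n : ℝ) ^ 2 * ((2 * D ^ 2 + 1) * ε) := h2
      _ = (n : ℝ) ^ 2 * (2 * D ^ 2 + 1) * ε := by ring
      _ ≤ s ^ 2 / 2 := h3
      _ < s ^ 2 := by linarith
  refine ⟨ε, hε0, ?_⟩
  intro Y u η hu hη hk hY
  have hu' : ∀ i, V (u i) ≤ D := fun i => (hu i).trans hDC
  have hη' : ∀ i, V (η i) ≤ D := fun i => (hη i).trans hDC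
  obtain ⟨α, hα, hαt⟩ := Prx_root V hn Y
  have htr := Prx_tr V hY
  have hsα : s ≤ V α := by
    have h1 : (n : ℝ) * ε ≤ κ / 2 := by
      calc (n : ℝ) * ε ≤ n * s := mul_le_mul_of_nonneg_left hε2 hn'.le
        _ = κ / 2 := by rw [hs]; field_simp
    have h2 : κ / 2 ≤ n * V α := by linarith
    rw [hs, div_le_iff₀ (by positivity)]
    linarith
  have hα0 : 0 < V α := lt_of_lt_of_le hs0 hsα
  have hPl : ∀ (w₁ w₂ : Fin n → K) (β γ : K), LinearIndependent K ![w₁, w₂] → Y *ᵥ w₁ = α • w₁ →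
      Y *ᵥ w₂ = β • w₂ + γ • w₁ → V (α * β) ≤ q' := by
    intro w₁ w₂ β γ hl e1 e2
    rw [hq']
    exact hPln K V n Y u η D ε hD0 hε0.le hu' hη' hY w₁ w₂ α β γ hl e1 e2
  obtain ⟨w₁, hw₁, e₁⟩ := Prx_ev hα
  have hβ : ∀ β : K, Y.charpoly.IsRoot β → β ≠ α → V β ≤ q' / s := by
    intro β hβ hne
    obtain ⟨w₂, hw₂, e₂⟩ := Prx_ev hβ
    have h1 := hPl w₁ w₂ β 0 (Prx_li hw₁ hw₂ e₁ e₂ hne) e₁ (by rw [zero_smul, add_zero]; exact e₂)
    rw [map_mul] at h1
    rw [le_div_iff₀ hs0]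
    calc V β * s ≤ V β * V α := mul_le_mul_of_nonneg_left hsα (V.nonneg _)
      _ = V α * V β := mul_comm _ _
      _ ≤ q' := h1
  have hqα : q' / s < V α := by
    refine lt_of_lt_of_le ?_ hsα
    rw [div_lt_iff₀ hs0, ← sq]
    exact hq1
  obtain ⟨a, φ, hP⟩ := hSpc K V n Y α (q' / s) hα (by positivity) hqα hβ (by
    intro w₁ w₂ γ hl e1 e2
    have h1 := hPl w₁ w₂ α γ hl e1 e2
    rw [map_mul] at h1
    have h2 : s ^ 2 ≤ V α * V α := by
      rw [← sq]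
      exact pow_le_pow_left₀ hs0.le hsα 2
    linarith)
  exact ⟨a, φ, α, hP⟩

end Pool.Agent.MPcc2398.BR
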