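import Pool.Agent.Lib.MP_cc2398_al.BR.Spec

/-!
# MP_cc2398_al, project BR: the representation on the span of the translates of a function
-/

set_option autoImplicit false

namespace Pool.Agent.MPcc2398.BR

open Pool.Agent.MPcc2398 Matrix Filter Topology

universe u v w

namespace Repaux

variable {G : Type u} [Group G] {K : Type v} [Field K]

/-- The span of the right translates of `f`. -/
abbrev SE (f : G → K) : Submodule K (G → K) := Submodule.span K (Set.range fun x : G => fun g : G => f (g * x))

/-- Right translation. -/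
def tr (x : G) : (G → K) →ₗ[K] (G → K) where
  toFun h := fun g => h (g * x)
  map_add' _ _ := rfl
  map_smul' _ _ := rfl

theorem tr_mem (f : G → K) (x : G) : ∀ h ∈ SE f, tr x h ∈ SE f := by
  intro h hh
  induction hh using Submodule.span_induction with
  | mem h hh =>
    obtain ⟨y, rfl⟩ := hh
    refine Submodule.subset_span ⟨x * y, ?_⟩
    funext g
    simp [tr, mul_assoc]
  | zero => rw [map_zero]; exact Submodule.zero_mem _
  | add a b _ _ ha hb => rw [map_add]; exact Submodule.add_mem _ ha hb
  | smul c a _ ha => rw [map_smul]; exact Submodule.smul_mem _ _ ha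

/-- Right translation on the span. -/
def ts (f : G → K) (x : G) : SE f →ₗ[K] SE f := (tr x).restrict (tr_mem f x)

theorem ts_apply (f : G → K) (x : G) (h : SE f) (g : G) : (ts f x h : G → K) g = (h : G → K) (g * x) := rfl

theorem ts_one (f : G → K) : ts f (1 : G) = LinearMap.id := by
  refine LinearMap.ext fun h => Subtype.ext (funext fun g => ?_)
  rw [ts_apply, mul_one, LinearMap.id_apply]

theorem ts_mul (f : G → K) (x y : G) : ts f (x * y) = (ts f x).comp (ts f y) := by
  refine LinearMap.ext fun h => Subtype.ext (funext fun g => ?_)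
  rw [LinearMap.comp_apply, ts_apply, ts_apply, ts_apply, mul_assoc]

theorem f_mem (f : G → K) : f ∈ SE f := Submodule.subset_span ⟨1, by funext g; simp⟩

/-- The matrix representation in a basis. -/
noncomputable def RR (f : G → K) {N : ℕ} (b : Module.Basis (Fin N) K (SE f)) : G →* Matrix (Fin N) (Fin N) K where
  toFun x := LinearMap.toMatrix b b (ts f x)
  map_one' := by rw [ts_one, LinearMap.toMatrix_id]
  map_mul' x y := by rw [ts_mul, LinearMap.toMatrix_comp b b b]

theorem RR_mulVec (f : G → K) {N : ℕ} (b : Module.Basis (Fin N) K (SE f)) (x : G) (h : SE f) :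
    RR f b x *ᵥ (b.repr h) = b.repr (ts f x h) := LinearMap.toMatrix_mulVec_repr b b (ts f x) h

theorem phi_dot (f : G → K) {N : ℕ} (b : Module.Basis (Fin N) K (SE f)) (h : SE f) :
    (fun j => (b j : G → K) 1) ⬝ᵥ (b.repr h) = (h : G → K) 1 := by
  have h1 := b.sum_repr h
  have h2 : ((∑ i, b.repr h i • b i : SE f) : G → K) 1 = (h : G → K) 1 := by rw [h1]
  rw [← h2, Submodule.coe_sum, Finset.sum_apply]
  simp only [dotProduct, Submodule.coe_smul, Pi.smul_apply, smul_eq_mul]
  exact Finset.sum_congr rfl fun i _ => mul_comm _ _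

theorem phi_RR (f : G → K) {N : ℕ} (b : Module.Basis (Fin N) K (SE f)) (x : G) (h : SE f) :
    (fun j => (b j : G → K) 1) ⬝ᵥ (RR f b x *ᵥ (b.repr h)) = (h : G → K) x := by
  rw [RR_mulVec, phi_dot, ts_apply, one_mul]

theorem span_zero (f : G → K) {N : ℕ} (b : Module.Basis (Fin N) K (SE f)) (ψ : Fin N → K)
    (hψ : ∀ x, ψ ⬝ᵥ (RR f b x *ᵥ (b.repr ⟨f, f_mem f⟩)) = 0) : ψ = 0 := by
  have key : ∀ h : SE f, ψ ⬝ᵥ (b.repr h) = 0 := by
    rintro ⟨h, hh⟩
    induction hh using Submodule.span_induction with
    | mem h hh =>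
      obtain ⟨y, rfl⟩ := hh
      have h1 := hψ y
      rw [RR_mulVec] at h1
      exact h1
    | zero =>
      have h0 : (⟨0, Submodule.zero_mem _⟩ : SE f) = 0 := rfl
      rw [h0, map_zero]
      simp
    | add p q hp hq ep eq =>
      have h0 : (⟨p + q, Submodule.add_mem _ hp hq⟩ : SE f) = ⟨p, hp⟩ + ⟨q, hq⟩ := rfl
      rw [h0, map_add, Finsupp.coe_add, dotProduct_add, ep, eq, add_zero]
    | smul c p hp ep =>
      have h0 : (⟨c • p, Submodule.smul_mem _ c hp⟩ : SE f) = c • ⟨p, hp⟩ := rfl
      rw [h0, map_smul, Finsupp.coe_smul, dotProduct_smul, ep, smul_zero]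
  funext j
  have h1 := key (b j)
  rw [b.repr_self, Finsupp.single_eq_pi_single, dotProduct_single_one] at h1
  exact h1

end Repaux

open Repaux

/-- **Rep**. -/
theorem vRep : S_Rep.{u, v} := by
  intro G _ K _ f hfd
  let b := Module.finBasis K (SE f)
  refine ⟨Module.finrank K (SE f), RR f b, b.repr ⟨f, f_mem f⟩, fun j => (b j : G → K) 1, ?_, ?_, ?_⟩
  · intro x
    exact (phi_RR f b x ⟨f, f_mem f⟩).symm
  · intro ψ hψ
    exact span_zero f b ψ hψ
  · intro z hz
    have h1 : ((b.repr (b.equivFun.symm z) : Fin _ →₀ K) : Fin _ → K) = z := by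
      have := b.equivFun.apply_symm_apply z
      rwa [Module.Basis.equivFun_apply] at this
    have h2 : b.equivFun.symm z = 0 := by
      refine Subtype.ext (funext fun x => ?_)
      have h3 := phi_RR f b x (b.equivFun.symm z)
      rw [h1, hz x] at h3
      exact h3.symm
    have h4 := congrArg b.equivFun h2
    rwa [LinearEquiv.apply_symm_apply, map_zero] at h4

end Pool.Agent.MPcc2398.BR
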