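import Pool.Agent.Lib.MP_cc2398_al.BR.Spec

/-!
# MP_cc2398_al, project BR: finitely many pairs `(b, c)` suffice for all matrices (`S_Rob`)
-/

set_option autoImplicit false

namespace Pool.Agent.MPcc2398.BR

open Pool.Agent.MPcc2398 Matrix Filter Topology

universe u v w

namespace Robaux

variable {K : Type v} [Field K] {N : ℕ}

/-- The linear form `τ ↦ x (τ y)` as a polynomial. -/
private noncomputable def lf (x y : Fin N → K) : MvPolynomial (Fin N × Fin N) K :=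
  ∑ i, ∑ j, MvPolynomial.C (x i * y j) * MvPolynomial.X (i, j)

private theorem dot_eq (x y : Fin N → K) (τ : Matrix (Fin N) (Fin N) K) :
    x ⬝ᵥ (τ *ᵥ y) = ∑ i, ∑ j, x i * y j * τ i j := by
  simp only [dotProduct, mulVec, Finset.mul_sum]
  refine Finset.sum_congr rfl fun i _ => Finset.sum_congr rfl fun j _ => ?_
  ring

private theorem eval_lf (x y : Fin N → K) (τ : Matrix (Fin N) (Fin N) K) :
    MvPolynomial.eval (fun p : Fin N × Fin N => τ p.1 p.2) (lf x y) = x ⬝ᵥ (τ *ᵥ y) := by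
  rw [dot_eq]
  simp [lf, map_sum]

private theorem three (x y : Fin N → K) (A τ B : Matrix (Fin N) (Fin N) K) :
    x ⬝ᵥ ((A * τ * B) *ᵥ y) = (x ᵥ* A) ⬝ᵥ (τ *ᵥ (B *ᵥ y)) := by
  rw [← Matrix.mulVec_mulVec, ← Matrix.mulVec_mulVec, Matrix.dotProduct_mulVec x A]

/-- The bound of the linear form. -/
private noncomputable def bd (V : AbsoluteValue K ℝ) (x y : Fin N → K) : ℝ := ∑ i, ∑ j, V (x i) * V (y j)

private theorem bd_nonneg (V : AbsoluteValue K ℝ) (x y : Fin N → K) : 0 ≤ bd V x y :=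
  Finset.sum_nonneg fun _ _ => Finset.sum_nonneg fun _ _ => mul_nonneg (V.nonneg _) (V.nonneg _)

private theorem le_bd (V : AbsoluteValue K ℝ) (x y : Fin N → K) (τ : Matrix (Fin N) (Fin N) K)
    (h : ∀ i j, V (τ i j) ≤ 1) : V (x ⬝ᵥ (τ *ᵥ y)) ≤ bd V x y := by
  rw [dot_eq]
  refine (V.sum_le _ _).trans (Finset.sum_le_sum fun i _ => (V.sum_le _ _).trans
    (Finset.sum_le_sum fun j _ => ?_))
  rw [map_mul, map_mul]
  exact mul_le_of_le_one_right (mul_nonneg (V.nonneg _) (V.nonneg _)) (h i j)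

private theorem low {x y k D : ℝ} (hx : 0 ≤ x) (hy : y ≤ D) (hD : 0 < D) (h : k ≤ x * y) : k / D ≤ x := by
  rw [div_le_iff₀ hD]
  exact h.trans (mul_le_mul_of_nonneg_left hy hx)

end Robaux

open Robaux in
/-- **Rob**. -/
theorem vRob (hGen : S_Gen.{u, v}) (hNul : S_Nul.{v}) : S_Rob.{u, v} := by
  classical
  intro G _ H K _ _ V N R hDen hIrr a φ ha hφ
  -- the polynomials
  let P : G × G → MvPolynomial (Fin N × Fin N) K := fun q =>
    lf (φ ᵥ* R q.1) (R q.2 *ᵥ a) * lf (φ ᵥ* R q.1⁻¹) (R q.2⁻¹ *ᵥ a)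
  have hP : ∀ (q : G × G) (τ : Matrix (Fin N) (Fin N) K),
      MvPolynomial.eval (fun p : Fin N × Fin N => τ p.1 p.2) (P q) =
        (φ ⬝ᵥ ((R q.1 * τ * R q.2) *ᵥ a)) * (φ ⬝ᵥ ((R q.1⁻¹ * τ * R q.2⁻¹) *ᵥ a)) := by
    intro q τ
    simp only [P]
    rw [map_mul, eval_lf, eval_lf, three, three]
  let S : Set (MvPolynomial (Fin N × Fin N) K) := {p | ∃ q : G × G, (q.1 ∈ H ∧ q.2 ∈ H) ∧ p = P q}
  obtain ⟨F₀, κ₀, hκ₀, hF₀, hev⟩ := hNul K V (Fin N × Fin N) S (by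
    intro τ₀ hτ₀
    by_contra hne
    obtain ⟨⟨i, j⟩, hij⟩ := Function.ne_iff.1 hne
    let τ : Matrix (Fin N) (Fin N) K := Matrix.of fun i j => τ₀ (i, j)
    have hτ : (fun p : Fin N × Fin N => τ p.1 p.2) = τ₀ := by
      funext p
      rfl
    have hrow : τ i ≠ 0 := by
      intro h0
      exact hij (by simpa [τ] using congrFun h0 j)
    obtain ⟨c, hc, hc'⟩ := hGen G H K N R hDen hIrr Unit (fun _ => a) (fun _ => τ i) (fun _ => a)
      (fun _ => τ i) (fun _ => ⟨ha, hrow, ha, hrow⟩)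
    obtain ⟨hc1, hc2⟩ := hc' ()
    have hz : τ *ᵥ (R c *ᵥ a) ≠ 0 := fun h0 => hc1 (by simpa [mulVec] using congrFun h0 i)
    have hz' : τ *ᵥ (R c⁻¹ *ᵥ a) ≠ 0 := fun h0 => hc2 (by simpa [mulVec] using congrFun h0 i)
    obtain ⟨b, hb, hb'⟩ := hGen G H K N R hDen hIrr Unit (fun _ => τ *ᵥ (R c *ᵥ a)) (fun _ => φ)
      (fun _ => τ *ᵥ (R c⁻¹ *ᵥ a)) (fun _ => φ) (fun _ => ⟨hz, hφ, hz', hφ⟩)
    obtain ⟨hb1, hb2⟩ := hb' ()
    have h0 := hτ₀ (P (b, c)) ⟨(b, c), ⟨hb, hc⟩, rfl⟩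
    rw [← hτ, hP] at h0
    rcases mul_eq_zero.1 h0 with h1 | h1
    · apply hb1
      rw [← h1, Matrix.mulVec_mulVec, Matrix.mulVec_mulVec]
    · apply hb2
      rw [← h1, Matrix.mulVec_mulVec, Matrix.mulVec_mulVec])
  have hch : ∀ p : MvPolynomial (Fin N × Fin N) K, ∃ q : G × G, p ∈ S → (q.1 ∈ H ∧ q.2 ∈ H) ∧ p = P q := by
    intro p
    by_cases hp : p ∈ S
    · obtain ⟨q, hq⟩ := hp
      exact ⟨q, fun _ => hq⟩
    · exact ⟨1, fun h => absurd h hp⟩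
  choose g hg using hch
  let B : G × G → ℝ := fun q =>
    bd V (φ ᵥ* R q.1) (R q.2 *ᵥ a) + bd V (φ ᵥ* R q.1⁻¹) (R q.2⁻¹ *ᵥ a)
  have hB : ∀ q, 0 ≤ B q := fun q => add_nonneg (bd_nonneg _ _ _) (bd_nonneg _ _ _)
  let F : Finset (G × G) := F₀.image g
  let D : ℝ := 1 + ∑ q ∈ F, B q
  have hD : 0 < D := by
    have := Finset.sum_nonneg fun q (_ : q ∈ F) => hB q
    simp only [D]
    linarith
  refine ⟨F, κ₀ / D, div_pos hκ₀ hD, ?_, ?_⟩
  · intro q hq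
    obtain ⟨p, hp, rfl⟩ := Finset.mem_image.1 hq
    exact (hg p (hF₀ hp)).1
  · intro τ hτ1 ⟨i, j, hij⟩
    obtain ⟨p, hp, hκ⟩ := hev (fun p : Fin N × Fin N => τ p.1 p.2) (fun p => hτ1 p.1 p.2) ⟨(i, j), hij⟩
    have hpg := (hg p (hF₀ hp)).2
    have hmem : g p ∈ F := Finset.mem_image_of_mem g hp
    rw [hpg, hP, map_mul] at hκ
    have hBD : B (g p) ≤ D := by
      have h1 := Finset.single_le_sum (f := B) (fun q _ => hB q) hmem
      simp only [D]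
      linarith
    have h1 : V (φ ⬝ᵥ ((R (g p).1 * τ * R (g p).2) *ᵥ a)) ≤ D := by
      rw [three]
      have := le_bd V (φ ᵥ* R (g p).1) (R (g p).2 *ᵥ a) τ hτ1
      have h2 := bd_nonneg V (φ ᵥ* R (g p).1⁻¹) (R (g p).2⁻¹ *ᵥ a)
      simp only [B] at hBD
      linarith
    have h2 : V (φ ⬝ᵥ ((R (g p).1⁻¹ * τ * R (g p).2⁻¹) *ᵥ a)) ≤ D := by
      rw [three]
      have := le_bd V (φ ᵥ* R (g p).1⁻¹) (R (g p).2⁻¹ *ᵥ a) τ hτ1
      have h2 := bd_nonneg V (φ ᵥ* R (g p).1) (R (g p).2 *ᵥ a)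
      simp only [B] at hBD
      linarith
    exact ⟨g p, hmem, low (V.nonneg _) h2 hD hκ, low (V.nonneg _) h1 hD (by rw [mul_comm]; exact hκ)⟩

end Pool.Agent.MPcc2398.BR
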