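import Pool.Agent.Lib.MP_cc2398_al.BR.Spec

/-!
# MP_cc2398_al, project BR: stage 1
-/

set_option autoImplicit false

namespace Pool.Agent.MPcc2398.BR

open Pool.Agent.MPcc2398 Matrix Filter Topology

universe u v w

/-- **St1**: a representation over an algebraically closed field with an absolute value, an element `t` of the
stabilizer and the determinant `f` of its dominant block. -/
theorem vSt1 (hZar : S_Zar.{u, v}) (hPer : S_Per.{u, v}) (hCnt : S_Cnt.{u}) (hCtb : S_Ctb.{u, v})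
    (hMin : S_Min.{u, v}) (hAbs : S_Abs.{v}) (hNrt : S_Nrt.{u, v}) (hRt1 : S_Rt1.{v})
    (hDet : S_Det.{u, v}) : S_St1.{u, v} := by
  intro G _ H hTB hcore hnlf F _ m ρ₀ x₀ hx₀
  have : Countable G := hCnt G H hTB
  obtain ⟨K, iK, iC, iA, ρ₁, hρ₁⟩ := hCtb G F m ρ₀ x₀ hx₀
  obtain ⟨n, ρ, hnt, hirr⟩ := hMin G K
    (fun n f hf x => hPer G H hTB hcore hnlf (Matrix (Fin n) (Fin n) K) f hf x) m ρ₁ x₀ hρ₁
  have hden : Den H (CA ρ) := hZar G H hTB hcore hnlf K n ρ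
  obtain ⟨t, ht, l, hl, hroot⟩ := hNrt G H hTB hcore hnlf K n ρ hnt hirr hden
  have hdet : (ρ t).det = 1 := by
    have h := hPer G H hTB hcore hnlf K ((Matrix.detMonoidHom).comp ρ)
      (fun x y => mul_comm _ _) t
    simpa using h
  have hl0 : l ≠ 0 := by
    rintro rfl
    have h1 : (ρ t).charpoly.eval 0 = 0 := hl
    have h2 : (ρ t).det = 0 := by
      rw [Matrix.det_eq_sign_charpoly_coeff, Polynomial.coeff_zero_eq_eval_zero, h1, mul_zero]
    rw [hdet] at h2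
    exact one_ne_zero h2
  obtain ⟨V, hV⟩ := hAbs K l hl0 hroot
  obtain ⟨l₀, hl₀, hV₀⟩ := hRt1 K V n (ρ t) hdet l hl hV
  obtain ⟨f, hf, μ, hμ, hf1, hlim⟩ := hDet G K V n ρ t l₀ hl₀ hV₀
  exact ⟨K, iK, iA, V, n, ρ, t, ht, f, hf, μ, hμ, hf1, hlim⟩

end Pool.Agent.MPcc2398.BR
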