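import Pool.Agent.Lib.MP_cc2398_al.BR.Spec

/-!
# MP_cc2398_al, project BR: assembly of stage 2
-/

set_option autoImplicit false

namespace Pool.Agent.MPcc2398.BR

open Pool.Agent.MPcc2398 Matrix Filter Topology

universe u v w

/-- **St2**: see the docstring of `S_St2`. -/
theorem vSt2 (hZar : S_Zar.{u, v}) (hFd : S_Fd.{u, v}) (hPer : S_Per.{u, v}) (hSt1 : S_St1.{u, v})
    (hRep : S_Rep.{u, v}) (hPrl : S_Prl.{u, v}) : S_St2.{u, v} := by
  intro G _ H hH hN hlf F _ m ρ₀ x₀ hx₀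
  obtain ⟨K, iK, iA, V, n, ρ, t, htH, f, hf, μ, hμ, hf1, hlim⟩ := hSt1 G H hH hN hlf F m ρ₀ x₀ hx₀
  obtain ⟨N, R, a, φ, h1, h2, h3⟩ := hRep G K f (hFd G K n ρ f hf)
  have hμ0 : μ ≠ 0 := by
    rintro rfl
    rw [map_zero] at hμ
    linarith
  have hφa : φ ⬝ᵥ a = 1 := by
    have h := h1 1
    rw [map_one, Matrix.one_mulVec, hf1] at h
    exact h.symm
  obtain ⟨hPr, hIrr⟩ := hPrl G K V N R a φ t μ hμ0 h2 h3 hφa (by
    intro x g
    have h := hlim x g
    simp only [h1] at h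
    exact h)
  refine ⟨K, iK, iA, V, N, R, ?_, hZar G H hH hN hlf K N R, hIrr, t, htH, a, φ, μ, hPr⟩
  by_contra hlt
  have hN01 : N = 0 ∨ N = 1 := by omega
  rcases hN01 with rfl | rfl
  · simp [dotProduct] at hφa
  · have hcomm : ∀ x y, R x * R y = R y * R x := by
      intro x y
      ext i j
      fin_cases i
      fin_cases j
      simp [Matrix.mul_apply, mul_comm]
    have ht := hPer G H hH hN hlf (Matrix (Fin 1) (Fin 1) K) R hcomm t
    have h4 := hPr.2.2.1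
    rw [ht, Matrix.one_mulVec] at h4
    have h5 : φ ⬝ᵥ a = μ * (φ ⬝ᵥ a) := by
      have h6 : φ ⬝ᵥ (μ • a) = μ * (φ ⬝ᵥ a) := by
        rw [dotProduct_smul, smul_eq_mul]
      rw [← h6, ← h4]
    rw [hφa, mul_one] at h5
    rw [← h5, map_one] at hμ
    exact lt_irrefl _ hμ

end Pool.Agent.MPcc2398.BR
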