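import Pool.Agent.Lib.MP_cc2398_al.BR.Spec
import Pool.Agent.Lib.MP_cc2398_al.Bf.Tower

set_option autoImplicit false

/-!
# MP_cc2398_al, project BR: the theorem on towers with linear or abelian steps
-/

namespace Pool.Agent.MPcc2398.BR

open Pool.Agent.MPcc2398 Matrix Filter Topology

universe u v w

namespace TwLaux

theorem descend {G : Type u} [Group G] {X : Subgroup G} (hX : X ≤ ⁅X, X⁆) {c : ℕ}
    (hc : ∀ (F : Type w) [Field F] (ρ : X →* Matrix (Fin c) (Fin c) F) (g : X), ρ g = 1) (k : ℕ)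
    (N : ℕ → Subgroup G)
    (hN : ∀ i < k, (∀ a ∈ N (i + 1), ∀ b ∈ N (i + 1), a * b * a⁻¹ * b⁻¹ ∈ N i) ∨
      ∀ x : N (i + 1), (∀ (E : Type w) [Field E] (φ : N (i + 1) →* GL (Fin c) E), φ x = 1) → (x : G) ∈ N i)
    (hk : X ≤ N k) : X ≤ N 0 := by
  have key : ∀ j ≤ k, X ≤ N (k - j) := by
    intro j
    induction j with
    | zero => intro _; simpa using hk
    | succ j ih =>
      intro hj
      have h1 := ih (by omega)
      obtain ⟨i, hi⟩ : ∃ i, k - j = i + 1 := ⟨k - j - 1, by omega⟩
      have hi' : k - (j + 1) = i := by omega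
      rw [hi']
      rw [hi] at h1
      rcases hN i (by omega) with h | h
      · refine hX.trans ?_
        rw [Subgroup.commutator_le]
        intro a ha b hb
        exact h a (h1 ha) b (h1 hb)
      · intro g hg
        refine h ⟨g, h1 hg⟩ ?_
        intro E _ φ
        have h2 := hc E (((Units.coeHom (Matrix (Fin c) (Fin c) E)).comp φ).comp (Subgroup.inclusion h1))
          ⟨g, hg⟩
        exact Units.ext h2
  have := key k le_rfl
  simpa using this

end TwLaux

open Bf in
open Pointwise in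
theorem vTwL (hBFL : S_BFL.{u, w}) : S_TwL.{u, v, w} := by
  intro G _ Ω _ hinf hfaith hpre hbarely c himp
  have := hinf
  have := hfaith
  have := hpre
  have hLF : LF (⊤ : Subgroup G) := by
    by_contra hnlf
    obtain ⟨ω⟩ : Nonempty Ω := inferInstance
    obtain ⟨hTB, hcore⟩ := aAct G Ω inferInstance inferInstance inferInstance hbarely
      (fun F hF => by
        obtain ⟨B, h1, h2, h3, -⟩ := himp F hF
        exact ⟨B, h1, h2, h3⟩) ω
    obtain ⟨R, hRn, hRt, hRLF, h⟩ := hBFL G _ hTB hcore hnlf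
    obtain ⟨x, hx⟩ : ∃ x : G, x ∉ R := by
      by_contra hne
      push Not at hne
      exact hRt (by rw [Subgroup.eq_top_iff']; exact hne)
    obtain ⟨L, hLt, -, hxL, hL⟩ := h c x hx
    obtain ⟨hX1, hX2⟩ := hL L le_rfl
    obtain ⟨ω', hω'⟩ : ∃ ω' : Ω, x • ω' ≠ ω' := by
      by_contra hne
      push Not at hne
      apply hx
      have : x = 1 := FaithfulSMul.eq_of_smul_eq_smul (α := Ω) (fun a => by rw [one_smul, hne a])
      rw [this]
      exact R.one_mem
    obtain ⟨B, hFB, hBf, hB, k, N, hNk, hN0, hN⟩ := himp (MulAction.orbit L ω ∪ {ω'})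
      ((hbarely L hLt ω).union (Set.finite_singleton ω'))
    have hωB : ω ∈ B := hFB (Or.inl (MulAction.mem_orbit_self ω))
    have hLN : L ≤ N k := by
      intro l hl
      apply hNk l
      have h1 : l ∈ MulAction.stabilizer G B := stab_of_block hB hωB (hFB (Or.inl ⟨⟨l, hl⟩, rfl⟩))
      intro β hβ
      rw [MulAction.mem_stabilizer_iff] at h1
      rw [← h1]
      exact Set.smul_mem_smul_set hβ
    have hxN : NC L (Subgroup.zpowers x) ≤ N k := (NC_le ((Subgroup.zpowers_le).2 hxL)).trans hLN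
    have h0 := TwLaux.descend hX1 hX2 k N hN hxN
    exact hω' (hN0 x (h0 (le_NC L _ (Subgroup.mem_zpowers x))) ω' (hFB (Or.inr rfl)))
  intro s
  exact hLF s (by simp)

end Pool.Agent.MPcc2398.BR
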