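import Pool.Agent.Lib.MP_cc2398_al.BR.Spec

/-!
# MP_cc2398_al, project BR, module Ult: ultraproduct of representations of finitely generated subgroups
-/

set_option autoImplicit false

namespace Pool.Agent.MPcc2398.BR

open Pool.Agent.MPcc2398 Matrix Filter Topology

universe u v w

namespace Ultaux

variable {G : Type u} [Group G] {c : ℕ} {g : G} {F : Finset G → Type w} [∀ s, Field (F s)]

/-- the entry of the product representation -/
private noncomputable def en (ρ : ∀ s : Finset G, Subgroup.closure ((insert g s : Set G)) →* Matrix (Fin c) (Fin c) (F s))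
    (x : G) (i j : Fin c) : ∀ s, F s := by
  classical
  exact fun s => if hx : x ∈ Subgroup.closure (insert g s : Set G) then ρ s ⟨x, hx⟩ i j
    else (1 : Matrix (Fin c) (Fin c) (F s)) i j

private lemma en_pos (ρ : ∀ s : Finset G, Subgroup.closure ((insert g s : Set G)) →* Matrix (Fin c) (Fin c) (F s))
    (x : G) (i j : Fin c) (s : Finset G) (hx : x ∈ Subgroup.closure (insert g s : Set G)) :
    en ρ x i j s = ρ s ⟨x, hx⟩ i j := by
  classical
  unfold en
  exact dif_pos hx

/-- the ideal of the families which vanish eventually -/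
private def idl (G : Type u) (F : Finset G → Type w) [∀ s, Field (F s)] : Ideal (∀ s, F s) where
  carrier := {x | ∃ s₀ : Finset G, ∀ s, s₀ ⊆ s → x s = 0}
  add_mem' := by
    classical
    rintro a b ⟨s, hs⟩ ⟨t, ht⟩
    refine ⟨s ∪ t, fun r hr => ?_⟩
    rw [Pi.add_apply, hs r (Finset.union_subset_left hr), ht r (Finset.union_subset_right hr), add_zero]
  zero_mem' := ⟨∅, fun _ _ => rfl⟩
  smul_mem' := by
    rintro a b ⟨s, hs⟩
    refine ⟨s, fun r hr => ?_⟩
    rw [smul_eq_mul, Pi.mul_apply, hs r hr, mul_zero]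

end Ultaux

open Ultaux in
/-- **Ult** -/
theorem vUlt : S_Ult.{u, w} := by
  intro G _ c g h
  classical
  have h' : ∀ s : Finset G, ∃ (F : Type w) (_ : Field F)
      (ρ : Subgroup.closure ((insert g s : Set G)) →* Matrix (Fin c) (Fin c) F),
      ρ ⟨g, Subgroup.subset_closure (Set.mem_insert g _)⟩ ≠ 1 := by
    intro s
    have h1 := h (insert g s)
    rw [Finset.coe_insert] at h1
    exact h1 _
  choose F hF ρ hρ using h'
  have hI : idl G F ≠ ⊤ := by
    intro hI
    obtain ⟨s, hs⟩ := (Ideal.eq_top_iff_one _).1 hI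
    exact one_ne_zero (hs s (Finset.Subset.refl s))
  obtain ⟨m, hm, hIm⟩ := Ideal.exists_le_maximal (idl G F) hI
  let q : (∀ s, F s) →+* (∀ s, F s) ⧸ m := Ideal.Quotient.mk m
  let R : G → Matrix (Fin c) (Fin c) (∀ s, F s) := fun x => Matrix.of (en ρ x)
  have hone : R 1 = 1 := by
    ext i j s
    change en ρ 1 i j s = _
    rw [en_pos ρ 1 i j s (Subgroup.one_mem _)]
    have h1 : (⟨1, Subgroup.one_mem _⟩ : Subgroup.closure ((insert g s : Set G))) = 1 := rfl
    rw [h1, map_one]
    by_cases hij : i = j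
    · rw [hij, Matrix.one_apply_eq, Matrix.one_apply_eq, Pi.one_apply]
    · rw [Matrix.one_apply_ne hij, Matrix.one_apply_ne hij, Pi.zero_apply]
  have hmul : ∀ x z, (R (x * z)).map q = (R x * R z).map q := by
    intro x z
    ext i j
    rw [Matrix.map_apply, Matrix.map_apply]
    refine Ideal.Quotient.eq.2 (hIm ⟨{x, z}, fun s hs => ?_⟩)
    have hx : x ∈ Subgroup.closure ((insert g s : Set G)) :=
      Subgroup.subset_closure (Set.mem_insert_of_mem g (hs (by simp)))
    have hz : z ∈ Subgroup.closure ((insert g s : Set G)) :=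
      Subgroup.subset_closure (Set.mem_insert_of_mem g (hs (by simp)))
    rw [Pi.sub_apply, Matrix.mul_apply, Finset.sum_apply]
    change en ρ (x * z) i j s - ∑ k, en ρ x i k s * en ρ z k j s = 0
    rw [en_pos ρ (x * z) i j s (Subgroup.mul_mem _ hx hz)]
    have h1 : (⟨x * z, Subgroup.mul_mem _ hx hz⟩ : Subgroup.closure ((insert g s : Set G))) =
        ⟨x, hx⟩ * ⟨z, hz⟩ := rfl
    rw [h1, map_mul, Matrix.mul_apply, sub_eq_zero]
    refine Finset.sum_congr rfl fun k _ => ?_
    rw [en_pos ρ x i k s hx, en_pos ρ z k j s hz]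
  have hmap1 : (1 : Matrix (Fin c) (Fin c) (∀ s, F s)).map q = 1 := by
    rw [Matrix.map_one _ (map_zero q) (map_one q)]
  refine ⟨(∀ s, F s) ⧸ m, Ideal.Quotient.field m, ?_, ?_⟩
  · exact
      { toFun := fun x => (R x).map q
        map_one' := by rw [hone, hmap1]
        map_mul' := fun x z => by rw [hmul, Matrix.map_mul] }
  · intro hg
    have he : ∀ i j, (R g i j - (1 : Matrix (Fin c) (Fin c) (∀ s, F s)) i j) ∈ m := by
      intro i j
      refine Ideal.Quotient.eq.1 ?_
      have h1 : (R g).map q = (1 : Matrix (Fin c) (Fin c) (∀ s, F s)).map q := hg.trans hmap1.symm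
      exact congrFun (congrFun h1 i) j
    have hs : ∀ s, ∃ i j, (R g i j - (1 : Matrix (Fin c) (Fin c) (∀ s, F s)) i j) s ≠ 0 := by
      intro s
      by_contra hcon
      push Not at hcon
      refine hρ s ?_
      ext i j
      have h1 := hcon i j
      rw [Pi.sub_apply, sub_eq_zero] at h1
      change en ρ g i j s = _ at h1
      rw [en_pos ρ g i j s (Subgroup.subset_closure (Set.mem_insert g _))] at h1
      rw [h1]
      by_cases hij : i = j
      · rw [hij, Matrix.one_apply_eq, Matrix.one_apply_eq, Pi.one_apply]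
      · rw [Matrix.one_apply_ne hij, Matrix.one_apply_ne hij, Pi.zero_apply]
    choose i0 j0 hij using hs
    refine hm.ne_top ((Ideal.eq_top_iff_one _).2 ?_)
    have hsum : (1 : ∀ s, F s) = ∑ i, ∑ j, (fun s => if i = i0 s ∧ j = j0 s then
        ((R g i j - (1 : Matrix (Fin c) (Fin c) (∀ s, F s)) i j) s)⁻¹ else 0) *
        (R g i j - (1 : Matrix (Fin c) (Fin c) (∀ s, F s)) i j) := by
      funext s
      rw [Finset.sum_apply, Finset.sum_eq_single (i0 s)]
      · rw [Finset.sum_apply, Finset.sum_eq_single (j0 s)]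
        · rw [Pi.mul_apply, if_pos ⟨rfl, rfl⟩, inv_mul_cancel₀ (hij s), Pi.one_apply]
        · intro j _ hj
          rw [Pi.mul_apply, if_neg (fun hh => hj hh.2), zero_mul]
        · intro hh
          exact absurd (Finset.mem_univ _) hh
      · intro i _ hi
        rw [Finset.sum_apply]
        refine Finset.sum_eq_zero fun j _ => ?_
        rw [Pi.mul_apply, if_neg (fun hh => hi hh.1), zero_mul]
      · intro hh
        exact absurd (Finset.mem_univ _) hh
    rw [hsum]
    exact Ideal.sum_mem _ fun i _ => Ideal.sum_mem _ fun j _ => Ideal.mul_mem_left _ _ (he i j)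

end Pool.Agent.MPcc2398.BR
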