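import Pool.Agent.Lib.MP_cc2398_al.BR.Spec
import Pool.Agent.Lib.MP_cc2398_al.All

set_option autoImplicit false

namespace Pool.Agent.MPcc2398.BR

open Pool.Agent.MPcc2398 Matrix Filter Topology

universe u v w

/-- **Z2.**  A function in `A` which vanishes on `C` is zero. -/
theorem vZ2 : S_Z2.{u, v} := by
  intro G _ H hTB hcore hnlf K _ A hTI C hC hmin
  obtain ⟨R, hRn, hRt, hRLF, hRmax, hst⟩ := aMain G H hTB hcore hnlf
  obtain ⟨-, -, -, hcj, hinf, -, -⟩ := aCom G H hTB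
  obtain ⟨b1, -⟩ := hst C hC
  let Z : Subgroup G :=
    { carrier := {z | ∀ f ∈ A, Van C f → f z = 0}
      one_mem' := fun f _ hf => hf 1 C.one_mem
      mul_mem' := by
        intro a b ha hb f hf hv
        have h1 : ∀ c ∈ C, f (c * b) = 0 := fun c hc =>
          hb (fun g => f (c * g)) ((hTI f hf).2.1 c) (fun c' hc' => hv _ (C.mul_mem hc hc'))
        exact ha (fun g => f (g * b)) ((hTI f hf).1 b) h1
      inv_mem' := by
        intro a ha f hf hv
        exact ha (fun g => f g⁻¹) ((hTI f hf).2.2) (fun c hc => hv _ (C.inv_mem hc)) }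
  have hCZ : C ≤ Z := fun c hc f _ hv => hv c hc
  have hZn : Z.Normal := by
    refine ⟨fun z hz x => ?_⟩
    intro f hf hv
    have h1 : (fun g => f (x * g)) ∈ A := (hTI f hf).2.1 x
    have h2 : (fun g => f (x * (g * x⁻¹))) ∈ A := (hTI _ h1).1 x⁻¹
    have h3 : Van (C ⊓ cj x⁻¹ C) (fun g => f (x * (g * x⁻¹))) := by
      intro c hc
      have h4 : x⁻¹⁻¹ * c * x⁻¹ ∈ C := mem_cj'.1 hc.2
      rw [inv_inv, mul_assoc] at h4
      exact hv _ h4
    have h5 : Van C (fun g => f (x * (g * x⁻¹))) :=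
      hmin (C ⊓ cj x⁻¹ C) inf_le_left (hinf _ _ hC (hcj _ _ hC)) _ h2 h3
    have h6 := hz _ h2 h5
    rw [mul_assoc]
    exact h6
  have hZt : Z = ⊤ := by
    by_contra hne
    have hZR : Z ≤ R := hRmax Z hZn hne
    apply hRt
    rw [Subgroup.eq_top_iff']
    intro g
    apply b1 g
    intro k hk
    have hkR : k ∈ R := hZR (hCZ hk)
    have h1 : g * k * g⁻¹ ∈ R := hRn.conj_mem k hkR g
    exact R.mul_mem h1 (R.inv_mem hkR)
  intro f hf hv
  funext z
  have hz : z ∈ Z := by rw [hZt]; exact Subgroup.mem_top z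
  exact hz f hf hv

end Pool.Agent.MPcc2398.BR
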