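import Pool.Agent.Lib.MP_cc2398_al.BR.Spec
import Pool.Agent.Lib.MP_cc2398_al.All

/-! # MP_cc2398_al, project BR, module Zar: coefficient algebras are domains and `H` is dense -/

set_option autoImplicit false

namespace Pool.Agent.MPcc2398.BR

open Pool.Agent.MPcc2398 Matrix Filter Topology

universe u v w

theorem vZar (hZ1 : S_Z1.{u, v}) (hZ2 : S_Z2.{u, v}) (hCA : S_CA.{u, v}) : S_Zar.{u, v} := by
  intro G _ H hTB hcore hLF K _ n ρ
  obtain ⟨hN, hTI, _⟩ := hCA G K n ρ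
  obtain ⟨C, hC, hmin, hpr⟩ := hZ1 G H K (CA ρ) hN hTI
  have hz := hZ2 G H hTB hcore hLF K (CA ρ) hTI C hC hmin
  have hr : H.relIndex H ≠ 0 := by
    rw [Subgroup.relIndex_self]
    exact one_ne_zero
  have hHH : Co H H := ⟨hr, hr⟩
  refine ⟨?_, ?_⟩
  · intro f hf f' hf' h
    have h0 : Van C (f * f') := by
      intro c _
      rw [h]
      rfl
    rcases hpr f hf f' hf' h0 with h1 | h1
    · exact Or.inl (hz f hf h1)
    · exact Or.inr (hz f' hf' h1)
  · intro f hf h
    have hCH : Co H (C ⊓ H) := (aCom G H hTB).2.2.2.2.1 C H hC hHH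
    exact hz f hf (hmin (C ⊓ H) inf_le_left hCH f hf fun c hc => h c hc.2)

end Pool.Agent.MPcc2398.BR
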