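import Pool.Agent.Lib.MP_cc2398_al.BR.AllA
import Pool.Agent.Lib.MP_cc2398_al.BR.B1
import Pool.Agent.Lib.MP_cc2398_al.BR.B2
import Pool.Agent.Lib.MP_cc2398_al.BR.B3
import Pool.Agent.Lib.MP_cc2398_al.BR.B4
import Pool.Agent.Lib.MP_cc2398_al.BR.B5
import Pool.Agent.Lib.MP_cc2398_al.BR.B6
import Pool.Agent.Lib.MP_cc2398_al.BR.B7
import Pool.Agent.Lib.MP_cc2398_al.BR.B8
import Pool.Agent.Lib.MP_cc2398_al.BR.Bur
import Pool.Agent.Lib.MP_cc2398_al.BR.Z1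
import Pool.Agent.Lib.MP_cc2398_al.BR.Z2
import Pool.Agent.Lib.MP_cc2398_al.BR.CA
import Pool.Agent.Lib.MP_cc2398_al.BR.Zar
import Pool.Agent.Lib.MP_cc2398_al.BR.Fd
import Pool.Agent.Lib.MP_cc2398_al.BR.Gen
import Pool.Agent.Lib.MP_cc2398_al.BR.Per
import Pool.Agent.Lib.MP_cc2398_al.BR.Cnt
import Pool.Agent.Lib.MP_cc2398_al.BR.Ctb
import Pool.Agent.Lib.MP_cc2398_al.BR.Min
import Pool.Agent.Lib.MP_cc2398_al.BR.Nrt
import Pool.Agent.Lib.MP_cc2398_al.BR.Rt1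
import Pool.Agent.Lib.MP_cc2398_al.BR.Gr1
import Pool.Agent.Lib.MP_cc2398_al.BR.Gr2
import Pool.Agent.Lib.MP_cc2398_al.BR.GE
import Pool.Agent.Lib.MP_cc2398_al.BR.DtL
import Pool.Agent.Lib.MP_cc2398_al.BR.Det
import Pool.Agent.Lib.MP_cc2398_al.BR.St1
import Pool.Agent.Lib.MP_cc2398_al.BR.Rep
import Pool.Agent.Lib.MP_cc2398_al.BR.Prl
import Pool.Agent.Lib.MP_cc2398_al.BR.St2
import Pool.Agent.Lib.MP_cc2398_al.BR.Pln
import Pool.Agent.Lib.MP_cc2398_al.BR.Spc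
import Pool.Agent.Lib.MP_cc2398_al.BR.Prx
import Pool.Agent.Lib.MP_cc2398_al.BR.Null
import Pool.Agent.Lib.MP_cc2398_al.BR.Rob
import Pool.Agent.Lib.MP_cc2398_al.BR.BI
import Pool.Agent.Lib.MP_cc2398_al.BR.Opp
import Pool.Agent.Lib.MP_cc2398_al.BR.Dyn
import Pool.Agent.Lib.MP_cc2398_al.BR.ConM
import Pool.Agent.Lib.MP_cc2398_al.BR.BN
import Pool.Agent.Lib.MP_cc2398_al.BR.HI
import Pool.Agent.Lib.MP_cc2398_al.BR.Frm
import Pool.Agent.Lib.MP_cc2398_al.BR.PPL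
import Pool.Agent.Lib.MP_cc2398_al.BR.Fre
import Pool.Agent.Lib.MP_cc2398_al.BR.Lin
import Pool.Agent.Lib.MP_cc2398_al.BR.Ult
import Pool.Agent.Lib.MP_cc2398_al.BR.DL
import Pool.Agent.Lib.MP_cc2398_al.BR.BFL
import Pool.Agent.Lib.MP_cc2398_al.BR.TwL
import Pool.Agent.Lib.MP_cc2398_al.BR.Ix

/-!
# MP_cc2398_al, project BR: assembly
-/

set_option autoImplicit false

namespace Pool.Agent.MPcc2398.BR

universe u v w

theorem aBur : S_Bur.{u, v} := vBur vB1 (vB6 vB2 vB3 vB4 vB5) vB7 vB8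
theorem aCA : S_CA.{u, v} := vCA
theorem aZar : S_Zar.{u, v} := vZar vZ1 vZ2 aCA
theorem aGen : S_Gen.{u, v} := vGen aCA
theorem aNrt : S_Nrt.{u, v} := vNrt aCA aBur
theorem aGE : S_GE.{v} := vGE vGr1
theorem aDet : S_Det.{u, v} := vDet aCA aGE vDtL
theorem aSt1 : S_St1.{u, v} := vSt1 aZar vPer vCnt vCtb vMin aAbs aNrt vRt1 aDet
theorem aSt2 : S_St2.{u, v} := vSt2 aZar vFd vPer aSt1 vRep vPrl
theorem aPrx : S_Prx.{v} := vPrx vPln (vSpc (vGr2 vGr1))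
theorem aRob : S_Rob.{u, v} := vRob aGen vNul
theorem aBI : S_BI.{u, v} := vBI aRob aPrx
theorem aHI : S_HI.{v} := vHI vDyn vCon
theorem aFrm : S_Frm.{u, v} := vFrm vDyn vCon vBN
theorem aFre : S_Fre.{u, v} := vFre aGen aHI aFrm vPPL
theorem aLin : S_Lin.{u, v} := vLin aSt2 aBI vOpp aFre
theorem aBFL : S_BFL.{u, w} := vBFL aLin vUlt vDL
theorem aTwL : S_TwL.{u, v, w} := vTwL aBFL

end Pool.Agent.MPcc2398.BR
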