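import Pool.Agent.Lib.MP_cc2398_al.BR.A1
import Pool.Agent.Lib.MP_cc2398_al.BR.A2
import Pool.Agent.Lib.MP_cc2398_al.BR.A3
import Pool.Agent.Lib.MP_cc2398_al.BR.A4
import Pool.Agent.Lib.MP_cc2398_al.BR.A5
import Pool.Agent.Lib.MP_cc2398_al.BR.A6
import Pool.Agent.Lib.MP_cc2398_al.BR.A7
import Pool.Agent.Lib.MP_cc2398_al.BR.A8
import Pool.Agent.Lib.MP_cc2398_al.BR.A9

/-!
# MP_cc2398_al, project BR, package A: assembly
-/

set_option autoImplicit false

namespace Pool.Agent.MPcc2398.BR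

universe u

/-- An element `l ≠ 0` of a countable field which is not a root of unity has absolute value `≠ 1` for some absolute
value. -/
theorem aA9 : S_A9.{u} := vA9 (vA5 vA2 vA3 vA4) (vA8 vA1 vA6 vA7)

/-- The result of part A. -/
theorem aAbs : S_Abs.{u} := vAbs (vA5 vA2 vA3 vA4) (vA8 vA1 vA6 vA7)

end Pool.Agent.MPcc2398.BR
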