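import Pool.Agent.Lib.MP_cc2398_al.BR.Bur
import Pool.Agent.Lib.MP_cc2398_al.BR.B1
import Pool.Agent.Lib.MP_cc2398_al.BR.B2
import Pool.Agent.Lib.MP_cc2398_al.BR.B3
import Pool.Agent.Lib.MP_cc2398_al.BR.B4
import Pool.Agent.Lib.MP_cc2398_al.BR.B5
import Pool.Agent.Lib.MP_cc2398_al.BR.B6
import Pool.Agent.Lib.MP_cc2398_al.BR.B7
import Pool.Agent.Lib.MP_cc2398_al.BR.B8

/-!
# MP_cc2398_al, project BR, package B: assembly
-/

set_option autoImplicit false

namespace Pool.Agent.MPcc2398.BR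

universe u v

/-- The result of part B (Burnside - Schur). -/
theorem bBur : S_Bur.{u, v} := vBur vB1 (vB6 vB2 vB3 vB4 vB5) vB7 vB8

end Pool.Agent.MPcc2398.BR
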