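import Pool.Agent.Lib.MP_cc2398_al.Defs

/-!
# MP_cc2398_al, project BR (bounded rank): definitions and the interface statements of the parts A and B
-/

set_option autoImplicit false

namespace Pool.Agent.MPcc2398.BR

open Pool.Agent.MPcc2398 Matrix Filter Topology

universe u v w

/-- The representation `ρ`, restricted to the set `s`, has no proper invariant subspace (bilinear form):
for nonzero `u`, `ψ` some `x ∈ s` has `ψ (ρ x u) ≠ 0`. -/
def Irr {G : Type u} [Group G] {K : Type v} [Field K] {n : ℕ} (ρ : G →* Matrix (Fin n) (Fin n) K)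
    (s : Set G) : Prop :=
  ∀ a φ : Fin n → K, a ≠ 0 → φ ≠ 0 → ∃ x ∈ s, φ ⬝ᵥ (ρ x *ᵥ a) ≠ 0

/-- The algebra of functions generated by the coefficients of `ρ x` and `ρ x⁻¹`. -/
def CA {G : Type u} [Group G] {K : Type v} [Field K] {n : ℕ} (ρ : G →* Matrix (Fin n) (Fin n) K) :
    Subalgebra K (G → K) :=
  Algebra.adjoin K {f | ∃ i j, f = (fun g => ρ g i j) ∨ f = (fun g => ρ g⁻¹ i j)}

/-- `Y` is proximal with attracting vector `a` and repelling covector `φ`: for some `l ≠ 0` the powers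
`l ^ (-k) Y ^ k` converge to the matrix `a φ`, `φ a = 1`. -/
def Pr {K : Type v} [Field K] (V : AbsoluteValue K ℝ) {n : ℕ} (Y : Matrix (Fin n) (Fin n) K)
    (a φ : Fin n → K) (l : K) : Prop :=
  l ≠ 0 ∧ φ ⬝ᵥ a = 1 ∧ Y *ᵥ a = l • a ∧ φ ᵥ* Y = l • φ ∧
    ∀ i j, Tendsto (fun k : ℕ => V (l⁻¹ ^ k * (Y ^ k) i j - a i * φ j)) atTop (𝓝 0)

/-- The `ℓ¹` norm of a vector. -/
def nv {K : Type v} [Field K] (V : AbsoluteValue K ℝ) {n : ℕ} (x : Fin n → K) : ℝ := ∑ i, V (x i)

/-- The `ℓ¹` norm of a matrix. -/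
def mv {K : Type v} [Field K] (V : AbsoluteValue K ℝ) {m n : ℕ} (x : Matrix (Fin m) (Fin n) K) : ℝ :=
  ∑ i, ∑ j, V (x i j)

/-- **Abs** (result of part A).  An element `l ≠ 0` of a countable algebraically closed field which is not a root of
unity has absolute value `≠ 1` for some absolute value. -/
def S_Abs : Prop := ∀ (K : Type u) [Field K] [Countable K] [IsAlgClosed K] (l : K), l ≠ 0 →
  (∀ m : ℕ, 0 < m → l ^ m ≠ 1) → ∃ V : AbsoluteValue K ℝ, V l ≠ 1

/-- **Bur** (result of part B, Burnside - Schur).  A finitely generated irreducible linear group over an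
algebraically closed field all of whose elements have only roots of unity as eigenvalues is finite. -/
def S_Bur : Prop := ∀ (K : Type u) [Field K] [IsAlgClosed K] (Γ : Type v) [Group Γ], Group.FG Γ →
  ∀ (n : ℕ) (ρ : Γ →* Matrix (Fin n) (Fin n) K), Irr ρ Set.univ →
  (∀ (x : Γ) (l : K), (ρ x).charpoly.IsRoot l → ∃ m : ℕ, 0 < m ∧ l ^ m = 1) → (Set.range ρ).Finite

end Pool.Agent.MPcc2398.BR
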