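import Pool.Agent.Lib.MP_cc2398_al.BR.Spec

/-!
# MP_cc2398_al, project BR, module PPL (helper36): a ping-pong lemma
-/

set_option autoImplicit false

namespace Pool.Agent.MPcc2398.BR

open Pool.Agent.MPcc2398 Matrix Filter Topology

universe u v w

namespace PPLaux

/-- the product of a word -/
def pr {G : Type u} [Group G] (h : ℕ → G) (L : List (ℕ × Bool)) : G :=
  (L.map fun x => cond x.2 (h x.1) (h x.1)⁻¹).prod

lemma key {G : Type u} [Group G] {X : Type v} [MulAction G X] (h : ℕ → G) (B N : ℕ → Bool → Set X)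
    (h1 : ∀ i, ∀ x, x ∉ N i true → h i • x ∈ B i true) (h2 : ∀ i, ∀ x, x ∉ N i false → (h i)⁻¹ • x ∈ B i false)
    (h3 : ∀ i j b b', (i = j → b = b') → Disjoint (B i b) (N j b')) (j : ℕ) (p : X) (hp : p ∈ B j true) :
    ∀ L : List (ℕ × Bool), FreeGroup.IsReduced L → (∀ x ∈ L, x.1 ≠ j) → ∀ (y : ℕ × Bool) (L' : List (ℕ × Bool)),
      L = y :: L' → pr h L • p ∈ B y.1 y.2 := by
  intro L
  induction L with
  | nil => intro _ _ y L' e; exact absurd e (by simp)
  | cons x L ih =>
    intro hr hj y L' e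
    obtain ⟨rfl, rfl⟩ := List.cons.inj e
    have hq : pr h L • p ∉ N x.1 x.2 := by
      cases L with
      | nil =>
        have hne : x.1 ≠ j := hj x (by simp)
        have := h3 j x.1 true x.2 (fun e => absurd e.symm hne)
        have e1 : pr h ([] : List (ℕ × Bool)) • p = p := by simp [pr]
        rw [e1]
        exact fun hh => (Set.disjoint_left.1 this) hp hh
      | cons x' L'' =>
        have hr' : FreeGroup.IsReduced (x' :: L'') := (List.isChain_cons_cons.1 hr).2
        have hc := (List.isChain_cons_cons.1 hr).1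
        have hh := ih hr' (fun z hz => hj z (List.mem_cons_of_mem _ hz)) x' L'' rfl
        have := h3 x'.1 x.1 x'.2 x.2 (fun e => (hc e.symm).symm)
        exact fun hh' => (Set.disjoint_left.1 this) hh hh'
    have e2 : pr h (x :: L) • p = (cond x.2 (h x.1) (h x.1)⁻¹) • (pr h L • p) := by
      simp [pr, mul_smul]
    rw [e2]
    obtain ⟨i, b⟩ := x
    cases b
    · exact h2 i _ hq
    · exact h1 i _ hq

end PPLaux

open PPLaux in
theorem vPPL : S_PPL.{u, v} := by
  intro G _ X _ h B N h1 h2 h3 h4 h5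
  rw [injective_iff_map_eq_one]
  intro w hw
  by_contra hne
  have hL : w.toWord ≠ [] := fun e => hne (FreeGroup.toWord_eq_nil_iff.1 e)
  obtain ⟨y, L', e⟩ := List.exists_cons_of_ne_nil hL
  obtain ⟨j, hj⟩ : ∃ j : ℕ, ∀ x ∈ w.toWord, x.1 ≠ j := by
    obtain ⟨j, hj⟩ := Infinite.exists_notMem_finset (w.toWord.map Prod.fst).toFinset
    refine ⟨j, fun x hx hxj => hj ?_⟩
    rw [List.mem_toFinset, List.mem_map]
    exact ⟨x, hx, hxj⟩
  obtain ⟨p, hp⟩ := h5 j
  have hred : FreeGroup.IsReduced w.toWord := FreeGroup.isReduced_toWord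
  have hk := key h B N h1 h2 h3 j p hp w.toWord hred hj y L' e
  have e1 : pr h w.toWord = FreeGroup.lift h w := by
    conv_rhs => rw [← FreeGroup.mk_toWord (x := w)]
    rw [FreeGroup.lift_mk]
    rfl
  rw [e1, hw, one_smul] at hk
  have hyj : y.1 ≠ j := hj y (by rw [e]; simp)
  exact (Set.disjoint_left.1 (h4 j y.1 y.2 (Ne.symm hyj))) hp hk

end Pool.Agent.MPcc2398.BR
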