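import Pool.Agent.Lib.MP_cc2398_al.BR.Spec

/-!
# MP_cc2398_al, project BR, module Rt1: a root of absolute value greater than 1

The absolute values of the roots of the characteristic polynomial of a matrix of determinant `1` have product `1`;
if one of them is not `1` then one of them is greater than `1`.
-/

set_option autoImplicit false

namespace Pool.Agent.MPcc2398.BR

open Pool.Agent.MPcc2398 Matrix Filter Topology

universe u v w

/-- A multiset of nonnegative reals `≤ 1` with a member `< 1` has product `< 1`. -/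
private theorem Rt1_aux (s : Multiset ℝ) (h0 : ∀ x ∈ s, 0 ≤ x) (h1 : ∀ x ∈ s, x ≤ 1) :
    s.prod ≤ 1 ∧ 0 ≤ s.prod := by
  induction s using Multiset.induction_on with
  | empty => simp
  | cons a s ih =>
    have ih' := ih (fun x hx => h0 x (Multiset.mem_cons_of_mem hx))
      (fun x hx => h1 x (Multiset.mem_cons_of_mem hx))
    have ha0 := h0 a (Multiset.mem_cons_self a s)
    have ha1 := h1 a (Multiset.mem_cons_self a s)
    rw [Multiset.prod_cons]
    exact ⟨mul_le_one₀ ha1 ih'.2 ih'.1, mul_nonneg ha0 ih'.2⟩

theorem vRt1 : S_Rt1.{v} := by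
  intro K _ _ V n Y hdet l hl hVl
  by_contra hcon
  push Not at hcon
  have hprod : (Y.charpoly.roots.map V).prod = 1 := by
    have h1 : Y.charpoly.roots.prod = 1 := by
      rw [← hdet, Matrix.det_eq_prod_roots_charpoly]
    rw [← map_one V, ← h1, map_multiset_prod]
  have hne : Y.charpoly ≠ 0 := (Matrix.charpoly_monic Y).ne_zero
  have hmem : l ∈ Y.charpoly.roots := (Polynomial.mem_roots hne).2 hl
  have hle : ∀ x ∈ Y.charpoly.roots, V x ≤ 1 := fun x hx =>
    hcon x ((Polynomial.mem_roots hne).1 hx)
  have hlt : V l < 1 := lt_of_le_of_ne (hle l hmem) hVl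
  obtain ⟨s, hs⟩ := Multiset.exists_cons_of_mem hmem
  rw [hs, Multiset.map_cons, Multiset.prod_cons] at hprod
  have hs1 := Rt1_aux (s.map V)
    (fun x hx => by
      obtain ⟨y, -, rfl⟩ := Multiset.mem_map.1 hx
      exact V.nonneg y)
    (fun x hx => by
      obtain ⟨y, hy, rfl⟩ := Multiset.mem_map.1 hx
      exact hle y (by rw [hs]; exact Multiset.mem_cons_of_mem hy))
  have : V l * (s.map V).prod < 1 := by
    calc V l * (s.map V).prod ≤ V l * 1 := mul_le_mul_of_nonneg_left hs1.1 (V.nonneg l)
      _ < 1 := by linarith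
  exact absurd hprod this.ne

end Pool.Agent.MPcc2398.BR
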