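import Pool.Agent.Lib.MP_cc2398_al.BR.Spec

/-!
# MP_cc2398_al, project BR: a simple dominant eigenvalue is proximal
-/

set_option autoImplicit false

namespace Pool.Agent.MPcc2398.BR

open Pool.Agent.MPcc2398 Matrix Filter Topology

universe u v w

namespace Spcaux

variable {K : Type v} [Field K] {n : ℕ}

theorem det_eq_zero_of_isRoot (Y : Matrix (Fin n) (Fin n) K) (α : K) (h : Y.charpoly.IsRoot α) :
    (Y - α • (1 : Matrix (Fin n) (Fin n) K)).det = 0 := by
  have h1 : (Matrix.scalar (Fin n) α - Y).det = 0 := by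
    rw [← Matrix.eval_charpoly]; exact h
  have h2 : Y - α • (1 : Matrix (Fin n) (Fin n) K) = -(Matrix.scalar (Fin n) α - Y) := by
    rw [neg_sub, Matrix.smul_one_eq_diagonal]; rfl
  rw [h2, Matrix.det_neg, h1, mul_zero]

theorem isRoot_of_eig (Y : Matrix (Fin n) (Fin n) K) (α : K) (w : Fin n → K) (hw : w ≠ 0)
    (h : Y *ᵥ w = α • w) : Y.charpoly.IsRoot α := by
  have h1 : (Matrix.scalar (Fin n) α - Y).det = 0 := by
    rw [← Matrix.exists_mulVec_eq_zero_iff]
    refine ⟨w, hw, ?_⟩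
    rw [Matrix.sub_mulVec, h]
    have h2 : (Matrix.scalar (Fin n) α : Matrix (Fin n) (Fin n) K) = α • 1 := by
      rw [Matrix.smul_one_eq_diagonal]; rfl
    rw [h2, Matrix.smul_mulVec, Matrix.one_mulVec, sub_self]
  rw [← Matrix.eval_charpoly] at h1
  exact h1

theorem exists_eig (Y : Matrix (Fin n) (Fin n) K) (α : K) (h : Y.charpoly.IsRoot α) :
    ∃ a : Fin n → K, a ≠ 0 ∧ Y *ᵥ a = α • a := by
  obtain ⟨a, ha, h1⟩ := Matrix.exists_mulVec_eq_zero_iff.2 (det_eq_zero_of_isRoot Y α h)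
  refine ⟨a, ha, ?_⟩
  rw [Matrix.sub_mulVec, Matrix.smul_mulVec, Matrix.one_mulVec] at h1
  exact sub_eq_zero.1 h1

theorem exists_coeig (Y : Matrix (Fin n) (Fin n) K) (α : K) (h : Y.charpoly.IsRoot α) :
    ∃ φ : Fin n → K, φ ≠ 0 ∧ φ ᵥ* Y = α • φ := by
  obtain ⟨a, ha, h1⟩ := Matrix.exists_vecMul_eq_zero_iff.2 (det_eq_zero_of_isRoot Y α h)
  refine ⟨a, ha, ?_⟩
  rw [Matrix.vecMul_sub, Matrix.vecMul_smul, Matrix.vecMul_one] at h1
  exact sub_eq_zero.1 h1

theorem fred (Y : Matrix (Fin n) (Fin n) K) (α : K) (a φ : Fin n → K) (ha0 : a ≠ 0) (hφ : φ ≠ 0)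
    (hφY : φ ᵥ* Y = α • φ) (hline : ∀ w : Fin n → K, Y *ᵥ w = α • w → ∃ s : K, w = s • a)
    (h0 : φ ⬝ᵥ a = 0) : ∃ w : Fin n → K, Y *ᵥ w = α • w + a := by
  classical
  set M : Matrix (Fin n) (Fin n) K := Y - α • (1 : Matrix (Fin n) (Fin n) K) with hM
  set T : (Fin n → K) →ₗ[K] (Fin n → K) := M.mulVecLin with hT
  have hTa : ∀ w, T w = Y *ᵥ w - α • w := by
    intro w
    rw [hT, Matrix.mulVecLin_apply, hM, Matrix.sub_mulVec, Matrix.smul_mulVec, Matrix.one_mulVec]
  have hker : LinearMap.ker T ≤ Submodule.span K {a} := by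
    intro w hw
    rw [LinearMap.mem_ker, hTa] at hw
    obtain ⟨s, hs⟩ := hline w (sub_eq_zero.1 hw)
    rw [hs]
    exact Submodule.smul_mem _ _ (Submodule.mem_span_singleton_self a)
  have hk1 : Module.finrank K (LinearMap.ker T) ≤ 1 :=
    (Submodule.finrank_mono hker).trans (finrank_span_singleton ha0).le
  have hrk := LinearMap.finrank_range_add_finrank_ker T
  let f : (Fin n → K) →ₗ[K] K :=
    { toFun := fun z => φ ⬝ᵥ z
      map_add' := fun x y => dotProduct_add _ _ _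
      map_smul' := fun c x => by simp [dotProduct_smul] }
  have hfa : ∀ z, f z = φ ⬝ᵥ z := fun z => rfl
  have hf0 : f ≠ 0 := by
    intro h
    apply hφ
    funext i
    have h1 : f (Pi.single i 1) = 0 := by rw [h]; rfl
    rw [hfa, dotProduct_single, mul_one] at h1
    exact h1
  have hrf := LinearMap.finrank_range_add_finrank_ker f
  have hrange1 : 1 ≤ Module.finrank K (LinearMap.range f) := by
    rw [Nat.one_le_iff_ne_zero]
    intro h
    apply hf0
    rw [Submodule.finrank_eq_zero, LinearMap.range_eq_bot] at h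
    exact h
  have hle : LinearMap.range T ≤ LinearMap.ker f := by
    rintro _ ⟨w, rfl⟩
    rw [LinearMap.mem_ker, hfa, hTa, dotProduct_sub, Matrix.dotProduct_mulVec, hφY, smul_dotProduct,
      dotProduct_smul, sub_self]
  have heq : LinearMap.range T = LinearMap.ker f := by
    apply Submodule.eq_of_le_of_finrank_le hle
    omega
  have ha : a ∈ LinearMap.range T := by
    rw [heq, LinearMap.mem_ker, hfa]; exact h0
  obtain ⟨w, hw⟩ := ha
  refine ⟨w, ?_⟩
  rw [hTa] at hw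
  rw [← hw]; abel

theorem pow_split (Y P Y' : Matrix (Fin n) (Fin n) K) (α : K) (hY : Y = α • P + Y')
    (hPP : P * P = P) (hPY : P * Y' = 0) (hYP : Y' * P = 0) (k : ℕ) :
    Y ^ (k + 1) = α ^ (k + 1) • P + Y' ^ (k + 1) := by
  induction k with
  | zero => rw [zero_add, pow_one, pow_one, pow_one]; exact hY
  | succ k ih =>
    rw [pow_succ, ih]
    nth_rewrite 1 [hY]
    rw [add_mul, mul_add, mul_add, smul_mul_smul_comm, hPP, smul_mul_assoc, hPY, smul_zero, add_zero,
      mul_smul_comm]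
    have h1 : Y' ^ (k + 1) * P = 0 := by rw [pow_succ, mul_assoc, hYP, mul_zero]
    rw [h1, smul_zero, zero_add, ← pow_succ, ← pow_succ]

theorem tends (n : ℕ) (c ρ : ℝ) (h0 : 0 < ρ) (h1 : ρ < 1) :
    Tendsto (fun k : ℕ => c * ((k : ℝ) + 1) ^ n * ρ ^ k) atTop (𝓝 0) := by
  have h2 := tendsto_pow_const_mul_const_pow_of_abs_lt_one n
    (show |ρ| < 1 by rw [abs_of_pos h0]; exact h1)
  have h3 := (h2.comp (tendsto_add_atTop_nat 1)).const_mul (c * ρ⁻¹)
  rw [mul_zero] at h3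
  refine h3.congr ?_
  intro k
  simp only [Function.comp]
  push_cast
  rw [pow_succ]
  field_simp

end Spcaux

open Spcaux in
theorem vSpc (hGr2 : S_Gr2.{v}) : S_Spc.{v} := by
  intro K _ _ V n Y α q hα hq hqα hroots hind
  classical
  obtain ⟨a, ha, hYa⟩ := exists_eig Y α hα
  obtain ⟨φ₀, hφ₀, hφY₀⟩ := exists_coeig Y α hα
  have hline : ∀ w : Fin n → K, Y *ᵥ w = α • w → ∃ s : K, w = s • a := by
    intro w hw
    by_contra hcon
    push Not at hcon
    have hli : LinearIndependent K ![a, w] := by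
      rw [LinearIndependent.pair_iff' ha]
      intro s hs
      exact hcon s hs.symm
    apply hind a w 0 hli hYa
    rw [hw, zero_smul, add_zero]
  have hφa0 : φ₀ ⬝ᵥ a ≠ 0 := by
    intro h0
    obtain ⟨w, hw⟩ := fred Y α a φ₀ ha hφ₀ hφY₀ hline h0
    have hli : LinearIndependent K ![a, w] := by
      rw [LinearIndependent.pair_iff' ha]
      intro s hs
      apply ha
      rw [← hs, Matrix.mulVec_smul, hYa, smul_comm s α a] at hw
      exact (left_eq_add.1 hw)
    apply hind a w 1 hli hYa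
    rw [hw, one_smul]
  set φ : Fin n → K := (φ₀ ⬝ᵥ a)⁻¹ • φ₀ with hφ
  have hφa : φ ⬝ᵥ a = 1 := by
    rw [hφ, smul_dotProduct, smul_eq_mul, inv_mul_cancel₀ hφa0]
  have hφY : φ ᵥ* Y = α • φ := by
    rw [hφ, Matrix.smul_vecMul, hφY₀, smul_comm]
  have hVα : 0 < V α := lt_of_le_of_lt hq hqα
  have hα0 : α ≠ 0 := by
    intro h
    rw [h, map_zero] at hVα
    exact lt_irrefl _ hVα
  refine ⟨a, φ, hα0, hφa, hYa, hφY, ?_⟩
  set P : Matrix (Fin n) (Fin n) K := Matrix.vecMulVec a φ with hP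
  have hPij : ∀ i j, P i j = a i * φ j := fun i j => rfl
  have hPmul : ∀ w : Fin n → K, P *ᵥ w = (φ ⬝ᵥ w) • a := by
    intro w
    funext i
    simp only [Matrix.mulVec, dotProduct, hPij, Pi.smul_apply, smul_eq_mul, Finset.sum_mul]
    exact Finset.sum_congr rfl fun j _ => by ring
  have hPP : P * P = P := by
    rw [hP, Matrix.vecMulVec_mul_vecMulVec, hφa, one_smul]
  have hYP : Y * P = α • P := by
    rw [hP, Matrix.mul_vecMulVec, hYa, Matrix.smul_vecMulVec]
  have hPY : P * Y = α • P := by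
    rw [hP, Matrix.vecMulVec_mul, hφY, Matrix.vecMulVec_smul]
  set Y' : Matrix (Fin n) (Fin n) K := Y - α • P with hY'
  have hYs : Y = α • P + Y' := by rw [hY']; abel
  have hPY' : P * Y' = 0 := by
    rw [hY', mul_sub, hPY, mul_smul_comm, hPP, sub_self]
  have hY'P : Y' * P = 0 := by
    rw [hY', sub_mul, hYP, smul_mul_assoc, hPP, sub_self]
  set r : ℝ := max q (V α / 2) with hr
  have hr0 : 0 < r := lt_of_lt_of_le (half_pos hVα) (le_max_right _ _)
  have hrα : r < V α := max_lt hqα (half_lt_self hVα)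
  have hroot' : ∀ l : K, Y'.charpoly.IsRoot l → V l ≤ r := by
    intro l hl
    by_cases hl0 : l = 0
    · rw [hl0, map_zero]; exact hr0.le
    obtain ⟨w, hw, hYw⟩ := exists_eig Y' l hl
    have h1 : φ ⬝ᵥ w = 0 := by
      have h2 : P *ᵥ (Y' *ᵥ w) = 0 := by
        rw [Matrix.mulVec_mulVec, hPY', Matrix.zero_mulVec]
      rw [hYw, hPmul, dotProduct_smul, smul_eq_mul] at h2
      rcases smul_eq_zero.1 h2 with h3 | h3
      · rcases mul_eq_zero.1 h3 with h4 | h4
        · exact absurd h4 hl0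
        · exact h4
      · exact absurd h3 ha
    have hYw' : Y *ᵥ w = l • w := by
      rw [hYs, Matrix.add_mulVec, Matrix.smul_mulVec, hPmul, h1, zero_smul, smul_zero, zero_add, hYw]
    have hne : l ≠ α := by
      intro hla
      rw [hla] at hYw'
      obtain ⟨s, hs⟩ := hline w hYw'
      rw [hs, dotProduct_smul, hφa, smul_eq_mul, mul_one] at h1
      apply hw
      rw [hs, h1, zero_smul]
    exact (hroots l (isRoot_of_eig Y l w hw hYw') hne).trans (le_max_left _ _)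
  obtain ⟨c, hc, hgrow⟩ := hGr2 K V n Y' r hr0 hroot'
  intro i j
  have hlim := tends n c (r / V α) (div_pos hr0 hVα) ((div_lt_one hVα).2 hrα)
  refine squeeze_zero' (Eventually.of_forall fun k => V.nonneg _) ?_ hlim
  filter_upwards [eventually_ge_atTop 1] with k hk
  obtain ⟨m, rfl⟩ : ∃ m, k = m + 1 := ⟨k - 1, by omega⟩
  have hsplit := pow_split Y P Y' α hYs hPP hPY' hY'P m
  have h1 : α⁻¹ ^ (m + 1) * (Y ^ (m + 1)) i j - a i * φ j = α⁻¹ ^ (m + 1) * (Y' ^ (m + 1)) i j := by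
    rw [hsplit, Matrix.add_apply, Matrix.smul_apply, hPij, smul_eq_mul, mul_add, ← mul_assoc, ← mul_pow,
      inv_mul_cancel₀ hα0, one_pow, one_mul, add_sub_cancel_left]
  rw [h1, map_mul, map_pow, map_inv₀]
  calc (V α)⁻¹ ^ (m + 1) * V ((Y' ^ (m + 1)) i j)
      ≤ (V α)⁻¹ ^ (m + 1) * (c * (((m + 1 : ℕ) : ℝ) + 1) ^ n * r ^ (m + 1)) :=
        mul_le_mul_of_nonneg_left (hgrow (m + 1) i j) (by positivity)
    _ = c * (((m + 1 : ℕ) : ℝ) + 1) ^ n * (r / V α) ^ (m + 1) := by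
        rw [div_pow, inv_pow]; ring

end Pool.Agent.MPcc2398.BR
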