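import Pool.Agent.Lib.MP_cc2398_al.BR.Def

/-!
# MP_cc2398_al, project BR: bounded rank.  Parts Z, P, C, D, E, G, U

THEOREM (BR).  Let `G` be faithful and transitive on an infinite set, all proper subgroups having finite orbits, and
let `c` be a number.  Suppose that each finite set of points is contained in a finite block `B` which has a chain of
subgroups `N 0 ≤ .. ≤ N k`, `N 0` fixing `B` pointwise, `N k` containing the setwise stabilizer, such that each `N i`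
contains the commutators of `N (i + 1)` or all elements of `N (i + 1)` which are in the kernels of all homomorphisms
from `N (i + 1)` into groups `GL c E`, `E` a field.  Then `G` is locally finite.

PLAN.  `H` is the stabilizer of a point, `G` not locally finite.  Suppose that `G` has a nontrivial homomorphism into
`GL m F`, `F` a field.  (Z) Coefficient algebras of representations are domains, and functions in them vanishing on
`H` vanish.  (P) There is an irreducible nontrivial representation over a countable algebraically closed field.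
(B, A) Some `t ∈ H` has an eigenvalue of absolute value `≠ 1` for some absolute value `V`.  (C) The determinant `f` of
the dominant block satisfies `μ ^ (-k) f (x t ^ k g) → f x f g`.  (D) So the representation on the span of the right
translates of `f` is irreducible and `t` is proximal.  (E) Some `y ∈ H` has `y` and `y⁻¹` proximal.  (G) Ping-pong: for
`g i` in different double cosets of `H` there are `h i ∈ H (g i) H` which generate a free group, which is impossible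
(`OE.S_Fin`).  So `G` has no nontrivial linear representation.  (U) By an ultraproduct each `g ∈ G` is contained in a
finitely generated subgroup all of whose representations of degree `c` are trivial on `g`; then as in `Bf`.

Every `S_Xxx` is proved in its own file `BR/Xxx.lean` as `theorem vXxx`, with the used statements as hypotheses in the
order of the docstring; all modules are independent (import `BR.Spec` only, unless said otherwise), all other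
declarations `private`.  The proofs in the docstrings are complete.
-/

set_option autoImplicit false

namespace Pool.Agent.MPcc2398.BR

open Pool.Agent.MPcc2398 Matrix Filter Topology

universe u v w

/-! ## Part Z: coefficient algebras -/

/-- `A` is a domain, and a function in `A` which vanishes on `H` is `0`. -/
def Den {G : Type u} [Group G] (H : Subgroup G) {K : Type v} [Field K] (A : Subalgebra K (G → K)) : Prop :=
  (∀ f ∈ A, ∀ f' ∈ A, f * f' = 0 → f = 0 ∨ f' = 0) ∧ ∀ f ∈ A, (∀ h ∈ H, f h = 0) → f = 0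

/-- `A` is closed under right and left translations and inversion. -/
def TI {G : Type u} [Group G] {K : Type v} [Field K] (A : Subalgebra K (G → K)) : Prop :=
  ∀ f ∈ A, (∀ x : G, (fun g => f (g * x)) ∈ A) ∧ (∀ x : G, (fun g => f (x * g)) ∈ A) ∧ (fun g => f g⁻¹) ∈ A

/-- `f` vanishes on `C`. -/
def Van {G : Type u} [Group G] {K : Type v} [Field K] (C : Subgroup G) (f : G → K) : Prop := ∀ c ∈ C, f c = 0

/-- **Z1** (110 lines).  Proof.  For a subgroup `C` let `I C` be the ideal of `↥A` of the functions vanishing on `C`.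
`C' ≤ C` implies `I C ≤ I C'`.  The set of the ideals `I C` with `Co H C` is not empty (`Co H H`), and `↥A` is
Noetherian: choose `C` with `Co H C` and `I C` maximal (`set_has_maximal_iff_noetherian`, `WellFoundedGT`).  If
`C' ≤ C`, `Co H C'`, then `I C ≤ I C'`, so `I C' = I C`: the second claim.  Third claim: `I C` is prime.  `I C ≠ ⊤` and
`I C ≤ M₁ = {f | f 1 = 0}` (`1 ∈ C`), a prime ideal (kernel of the evaluation `A → K`).  So there is a minimal prime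
`P` over `I C` with `P ≤ M₁` (`Ideal.exists_minimalPrimes_le`).  For `c ∈ C` the right translation
`τ c : f ↦ (g ↦ f (g c))` is a ring automorphism of `A` (`TI`; the inverse is `τ c⁻¹`) which maps `I C` onto itself; so
`comap (τ c) P` is a minimal prime over `I C`.  There are finitely many of them
(`Ideal.finite_minimalPrimes_of_isNoetherianRing`).  Let `C' = {c ∈ C | comap (τ c) P = P}`, a subgroup;
`comap (τ c) P = comap (τ c') P` iff `c, c'` are in the same coset of `C'` in `C`, so `C'.relIndex C ≠ 0`.  So `Co H C'`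
(`Subgroup.relIndex_ne_zero_trans`, and `C' ≤ C` for the other one).  For `f ∈ P`, `c ∈ C'`: `τ c f ∈ P` (or `f = τ c f'`
with..; use that `C'` is a group) so `f c = (τ c f) 1 = 0`.  So `P ≤ I C' = I C ≤ P` and `I C = P` is prime. -/
def S_Z1 : Prop := ∀ (G : Type u) [Group G] (H : Subgroup G) (K : Type v) [Field K] (A : Subalgebra K (G → K)),
  IsNoetherianRing A → TI A → ∃ C : Subgroup G, Co H C ∧
    (∀ C' : Subgroup G, C' ≤ C → Co H C' → ∀ f ∈ A, Van C' f → Van C f) ∧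
    ∀ f ∈ A, ∀ f' ∈ A, Van C (f * f') → Van C f ∨ Van C f'

/-- **Z2** (80 lines; import also `MP_cc2398_al.All` for `aMain`, `aCom`).  Proof.  Let `Z` be the set of the `z : G` with
`f z = 0` for all `f ∈ A` with `Van C f`.  `C ⊆ Z`.  `Z` is a subgroup: for `c ∈ C` and `f ∈ A`, `Van C f` the left
translate `g ↦ f (c g)` is in `A` and vanishes on `C`, so for `z ∈ Z` `f (c z) = 0`; so `g ↦ f (g z)` is in `A` and
vanishes on `C`, so `f (z' z) = 0` for `z' ∈ Z`.  Inverses: `g ↦ f g⁻¹` is in `A` and vanishes on `C`.  `Z` is normal: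
for `x : G`, `f ∈ A`, `Van C f` the function `f' g = f (x g x⁻¹)` is in `A` and vanishes on `cj x⁻¹ C`, so on
`C' = C ⊓ cj x⁻¹ C`, and `Co H C'` (`aCom` (4), (5)), so it vanishes on `C` by hypothesis: `f (x z x⁻¹) = f' z = 0`.
Let `R` be as in `aMain`.  If `Z ≠ ⊤` then `Z ≤ R` so `C ≤ R`, and (B1) for `C` (see `Bf/Core.lean`, the proof of
`hcomm`) shows that every `g` is in `R` (`R` normal), so `R = ⊤`, contradiction.  So `Z = ⊤`, which is the claim. -/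
def S_Z2 : Prop := ∀ (G : Type u) [Group G] (H : Subgroup G), TB H →
  (∀ N : Subgroup G, N.Normal → N ≤ H → N = ⊥) → ¬ LF (⊤ : Subgroup G) →
  ∀ (K : Type v) [Field K] (A : Subalgebra K (G → K)), TI A → ∀ C : Subgroup G, Co H C →
    (∀ C' : Subgroup G, C' ≤ C → Co H C' → ∀ f ∈ A, Van C' f → Van C f) → ∀ f ∈ A, Van C f → f = 0

/-- **CA** (80 lines).  Proof.  The generating set of `CA ρ` is finite, so `↥(CA ρ)` is a `K`-algebra of finite type
(`Subalgebra.fg_def`, `Algebra.FiniteType`), Noetherian (`Algebra.FiniteType.isNoetherianRing K _`).  `TI`: by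
`Algebra.adjoin_induction` for each of the three claims: constants, sums, products are clear; generators:
`ρ (g x) i j = ∑ k, ρ g i k * ρ x k j` is a linear combination of generators, in the same way
`ρ (x g) i j`, `ρ (g x)⁻¹ i j = ∑ k, ρ x⁻¹ i k * ρ g⁻¹ k j`, `ρ (x g)⁻¹ i j = ∑ k, ρ g⁻¹ i k * ρ x⁻¹ k j`.  Last claim:
linear combinations of generators. -/
def S_CA : Prop := ∀ (G : Type u) [Group G] (K : Type v) [Field K] (n : ℕ) (ρ : G →* Matrix (Fin n) (Fin n) K),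
  IsNoetherianRing (CA ρ) ∧ TI (CA ρ) ∧
    ∀ a φ : Fin n → K, (fun g => φ ⬝ᵥ (ρ g *ᵥ a)) ∈ CA ρ ∧ (fun g => φ ⬝ᵥ (ρ g⁻¹ *ᵥ a)) ∈ CA ρ

/-- **Zar** (40 lines; import also `MP_cc2398_al.All` for `aCom`; uses `S_Z1`, `S_Z2`, `S_CA`).  Proof.  `S_CA` for `ρ`,
`S_Z1`: `C`, `S_Z2`.  If `f f' = 0` then `Van C (f * f')`, so one of them vanishes on `C`, so it is `0`.  If `f` vanishes
on `H` then on `C ⊓ H`, and `Co H (C ⊓ H)` (`aCom` (5) and `Co H H`), so on `C`, so `f = 0`. -/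
def S_Zar : Prop := ∀ (G : Type u) [Group G] (H : Subgroup G), TB H →
  (∀ N : Subgroup G, N.Normal → N ≤ H → N = ⊥) → ¬ LF (⊤ : Subgroup G) →
  ∀ (K : Type v) [Field K] (n : ℕ) (ρ : G →* Matrix (Fin n) (Fin n) K), Den H (CA ρ)

/-- **Fd** (80 lines).  The right translates of a coefficient span a finite-dimensional space.  Proof.  For
`f : G → K` let `T f` be the span of the right translates.  The set of the `f` with `T f` finitely generated is a
subalgebra: `T (f + f') ≤ T f ⊔ T f'`, `T (f f') ≤ T f * T f'` (product of submodules of the algebra `G → K`,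
`Submodule.FG.mul`; a submodule of a finitely generated one over a field is finitely generated), constants are clear.
It contains the generators: `ρ (g x) i j` is in the span of the functions `g ↦ ρ g i k`, `ρ (g x)⁻¹ i j` in the span of
the `g ↦ ρ g⁻¹ k j`.  `Algebra.adjoin_le`. -/
def S_Fd : Prop := ∀ (G : Type u) [Group G] (K : Type v) [Field K] (n : ℕ) (ρ : G →* Matrix (Fin n) (Fin n) K),
  ∀ f ∈ CA ρ, FiniteDimensional K (Submodule.span K (Set.range fun x : G => fun g : G => f (g * x)))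

/-- **Gen** (60 lines, uses `S_CA`).  General position.  Proof.  For each `i` the functions `g ↦ φ i (ρ g (a i))` and
`g ↦ φ' i (ρ g⁻¹ (a' i))` are in `CA ρ`, and not `0` (`Irr`; for the second one take `g = x⁻¹`).  A product of finitely
many nonzero elements of `CA ρ` is a nonzero element of `CA ρ` (induction, `Den`), so it is not `0` at some `h ∈ H`. -/
def S_Gen : Prop := ∀ (G : Type u) [Group G] (H : Subgroup G) (K : Type v) [Field K] (n : ℕ)
  (ρ : G →* Matrix (Fin n) (Fin n) K), Den H (CA ρ) → Irr ρ Set.univ →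
  ∀ (ι : Type) [Finite ι] (a φ a' φ' : ι → Fin n → K), (∀ i, a i ≠ 0 ∧ φ i ≠ 0 ∧ a' i ≠ 0 ∧ φ' i ≠ 0) →
  ∃ h ∈ H, ∀ i, φ i ⬝ᵥ (ρ h *ᵥ a i) ≠ 0 ∧ φ' i ⬝ᵥ (ρ h⁻¹ *ᵥ a' i) ≠ 0

/-! ## Part P: preparations -/

/-- **Per** (40 lines; import also `MP_cc2398_al.All` for `aMain`).  Proof.  `⁅⊤, ⊤⁆ = ⊤` is proved in `Bf/Core.lean`
(`hcomm` in `aBF`; copy it).  `{x | f x = 1}` is a subgroup and contains all commutators, as
`f (x y x⁻¹ y⁻¹) = f x f y f x⁻¹ f y⁻¹ = f y f x f x⁻¹ f y⁻¹ = 1`. -/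
def S_Per : Prop := ∀ (G : Type u) [Group G] (H : Subgroup G), TB H →
  (∀ N : Subgroup G, N.Normal → N ≤ H → N = ⊥) → ¬ LF (⊤ : Subgroup G) →
  ∀ (M : Type v) [Monoid M] (f : G →* M), (∀ x y, f x * f y = f y * f x) → ∀ x, f x = 1

/-- **Cnt** (60 lines; import `MP_cc2398_al.OE.DC` for `OE.vDC : OE.S_DC`).  Proof.  `vDC` gives `g : ℕ → G` in different
double cosets of `H`.  Let `Γ = closure (range g)`.  The cosets `g i H` are different, so `H.relIndex Γ = 0` (otherwise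
`Γ ⧸ (H.subgroupOf Γ)` is finite and the map `i ↦ g i` into it is injective), so `Γ = ⊤` by `TB.rel`.  The closure of a
countable set is countable (`Subgroup.closure_countable`-like, or the image of the countable free group
`FreeGroup ℕ` under `FreeGroup.lift g`, `FreeGroup.range_lift_eq_closure`-like). -/
def S_Cnt : Prop := ∀ (G : Type u) [Group G] (H : Subgroup G), TB H → Countable G

/-- **Ctb** (70 lines).  Proof.  Let `F₁ = Subfield.closure` of the countable set of all entries `ρ₀ x i j`; it is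
countable (`Subfield.cardinalMk_closure_le_max`, or a similar statement; or write it as a countable union).
`K = AlgebraicClosure F₁`, algebraically closed and countable (`Algebra.IsAlgebraic.cardinalMk_le_max` or the
corresponding countability statement).  `ρ x` is the matrix `ρ₀ x`, with entries in `F₁`, mapped to `K`: a monoid
homomorphism because the map `Matrix (Fin m) (Fin m) F₁ → Matrix (Fin m) (Fin m) F` is injective. -/
def S_Ctb : Prop := ∀ (G : Type u) [Group G] [Countable G] (F : Type v) [Field F] (m : ℕ)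
  (ρ₀ : G →* Matrix (Fin m) (Fin m) F) (x₀ : G), ρ₀ x₀ ≠ 1 →
  ∃ (K : Type v) (_ : Field K) (_ : Countable K) (_ : IsAlgClosed K) (ρ : G →* Matrix (Fin m) (Fin m) K), ρ x₀ ≠ 1

/-- **Min** (120 lines).  A nontrivial representation of least degree is irreducible.  Proof.  Let `n` be the least
number such that there is `ρ : G →* Matrix (Fin n) (Fin n) K` with `ρ x ≠ 1` for some `x` (`Nat.find`).  Suppose that
`a, φ ≠ 0` and `φ (ρ x a) = 0` for all `x`.  Let `W` be the span of the `ρ x a` in `Fin n → K`: invariant under all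
`ρ x`, `W ≠ ⊥` (`ρ 1 a = a`), `W ≠ ⊤` (`φ` vanishes on `W`).  The action on `W` (in a basis of `W`, dimension
`< n`) is a homomorphism into matrices of smaller degree, so it is trivial: `ρ x w = w` for `w ∈ W`.  The same for the
action on `(Fin n → K) ⧸ W` (dimension `< n`): `ρ x b - b ∈ W` for all `b`.  (For the transfer: if `E` is a
`K`-space of finite dimension `m`, `σ : G →* (E →ₗ[K] E)`, then `LinearMap.toMatrixAlgEquiv` for a basis indexed by
`Fin m` gives `G →* Matrix (Fin m) (Fin m) K`.)  Then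
`ρ x (ρ y b) = ρ x (b + w_y) = b + w_x + w_y = ρ y (ρ x b)`: the `ρ x` commute, so `ρ` is trivial by hypothesis,
contradiction. -/
def S_Min : Prop := ∀ (G : Type u) [Group G] (K : Type v) [Field K],
  (∀ (n : ℕ) (f : G →* Matrix (Fin n) (Fin n) K), (∀ x y, f x * f y = f y * f x) → ∀ x, f x = 1) →
  ∀ (m : ℕ) (ρ₀ : G →* Matrix (Fin m) (Fin m) K) (x₀ : G), ρ₀ x₀ ≠ 1 →
  ∃ (n : ℕ) (ρ : G →* Matrix (Fin n) (Fin n) K), (∃ x, ρ x ≠ 1) ∧ Irr ρ Set.univ

/-- **Nrt** (130 lines; import also `MP_cc2398_al.All` for `aMain`, `aExt`, `aBig`; uses `S_CA`, `S_Bur`).  Proof.  Suppose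
that all roots of the characteristic polynomials of the `ρ h`, `h ∈ H`, are roots of unity.  The span of the `ρ h`,
`h ∈ H`, in the finite-dimensional space of the matrices is the span of the `ρ h`, `h ∈ s₀`, for a finite `s₀ ⊆ H`.
Let `s ⊆ H` be finite, `Γ = closure (s ∪ s₀) ≤ H`, finitely generated.  The restriction `ρ_Γ` of `ρ` to `Γ` is
irreducible: for `a, φ ≠ 0` the function `g ↦ φ (ρ g a)` is in `CA ρ` (`S_CA`) and not `0`, so by `Den` some `h ∈ H` has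
`φ (ρ h a) ≠ 0`; as `ρ h` is in the span of the `ρ h'`, `h' ∈ s₀`, one of these has `φ (ρ h' a) ≠ 0`.  By `S_Bur` the set
`ρ Γ` is finite.  Let `N = {x | ρ x = 1}`, a normal subgroup, `N ≠ ⊤`, so `N ≤ R` (`R` from `aMain`) is locally finite;
`N.relIndex Γ ≠ 0` as `ρ Γ` is finite, so `N.relIndex (closure s) ≠ 0`.  By `aExt` (`A = N`, `B = H`) `H` is locally
finite.  By `aExt` again (`A = H`, `B = ⊤`) `G` is locally finite: a finite set `s` is contained in a proper subgroup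
`L ≥ H` (`aBig`), `H.relIndex L ≠ 0` (`TB.rel`), so `H.relIndex (closure s) ≠ 0`.  Contradiction. -/
def S_Nrt : Prop := ∀ (G : Type u) [Group G] (H : Subgroup G), TB H →
  (∀ N : Subgroup G, N.Normal → N ≤ H → N = ⊥) → ¬ LF (⊤ : Subgroup G) →
  ∀ (K : Type v) [Field K] [IsAlgClosed K] (n : ℕ) (ρ : G →* Matrix (Fin n) (Fin n) K), (∃ x, ρ x ≠ 1) →
  Irr ρ Set.univ → Den H (CA ρ) →
  ∃ t ∈ H, ∃ l : K, (ρ t).charpoly.IsRoot l ∧ ∀ m : ℕ, 0 < m → l ^ m ≠ 1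

/-! ## Part C: the dominant determinant -/

/-- **Rt1** (50 lines).  Proof.  `1 = det Y` is the product of the roots of the characteristic polynomial
(`Matrix.det_eq_prod_roots_charpoly`), so `1 = ∏ V l` over the multiset of the roots (`map_multiset_prod`).  If all
`V l ≤ 1` then all are `1` (a factor `< 1` gives a product `< 1`). -/
def S_Rt1 : Prop := ∀ (K : Type v) [Field K] [IsAlgClosed K] (V : AbsoluteValue K ℝ) (n : ℕ)
  (Y : Matrix (Fin n) (Fin n) K), Y.det = 1 → ∀ l : K, Y.charpoly.IsRoot l → V l ≠ 1 →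
  ∃ l₀ : K, Y.charpoly.IsRoot l₀ ∧ 1 < V l₀

/-- **Gr1** (120 lines).  Growth.  Proof.  The `x` with the claimed property (for some `c`) form a submodule: use the
sum of the constants, resp. `V s * c` (`c` may be replaced by a larger number, so assume `0 ≤ c`).  So it suffices to
take `x` in the maximal generalised eigenspace of one `l` with `V l ≤ r`.  `D = Y - l • 1` has `D ^ n x = 0`
(`Module.End.maxGenEigenspace_eq_genEigenspace_finrank`, `Module.End.mem_genEigenspace_nat`), so `D ^ j x = 0` for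
`j ≥ n`.  `Y ^ k = (D + l • 1) ^ k = ∑ j ≤ k, (k choose j) l ^ (k - j) D ^ j` (`Commute.add_pow`).  So
`nv (Y ^ k x) ≤ ∑ j < n with j ≤ k, (k choose j) (V l) ^ (k - j) nv (D ^ j x)` (the value of a natural number `m` is at
most `m`), `(k choose j) ≤ k ^ j ≤ (k + 1) ^ n`, `(V l) ^ (k - j) ≤ r ^ (k - j) = r ^ k * (r⁻¹) ^ j`, so
`c = ∑ j < n, (r⁻¹) ^ j nv (D ^ j x)`. -/
def S_Gr1 : Prop := ∀ (K : Type v) [Field K] (V : AbsoluteValue K ℝ) (n : ℕ)
  (Y : Matrix (Fin n) (Fin n) K) (r : ℝ), 0 < r → ∀ x : Fin n → K,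
  (x ∈ ⨆ l : {l : K // V l ≤ r}, Module.End.maxGenEigenspace (Matrix.toLin' Y) (l : K)) →
  ∃ c : ℝ, 0 ≤ c ∧ ∀ k : ℕ, nv V ((Y ^ k) *ᵥ x) ≤ c * (k + 1) ^ n * r ^ k

/-- **Gr2** (50 lines, uses `S_Gr1`).  Proof.  `⨆ l, maxGenEigenspace (toLin' Y) l = ⊤`
(`Module.End.iSup_maxGenEigenspace_eq_top`), and `maxGenEigenspace (toLin' Y) l = ⊥` if `l` is not a root of the
characteristic polynomial (it is not an eigenvalue: `Module.End.hasEigenvalue_iff_isRoot_charpoly`,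
`LinearMap.charpoly_toLin'`-like; `maxGenEigenspace` is `⊥` if `ker (toLin' Y - l) = ⊥`, powers of an injective map).
So `S_Gr1` applies to the unit vectors `e_j = Pi.single j 1`; `V ((Y ^ k) i j) ≤ nv (Y ^ k e_j)`. -/
def S_Gr2 : Prop := ∀ (K : Type v) [Field K] [IsAlgClosed K] (V : AbsoluteValue K ℝ) (n : ℕ)
  (Y : Matrix (Fin n) (Fin n) K) (r : ℝ), 0 < r → (∀ l : K, Y.charpoly.IsRoot l → V l ≤ r) →
  ∃ c : ℝ, 0 ≤ c ∧ ∀ (k : ℕ) (i j : Fin n), V ((Y ^ k) i j) ≤ c * (k + 1) ^ n * r ^ k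

/-- **GE** (150 lines, uses `S_Gr1`).  The dominant block.  Proof.  Let `T = toLin' Y`, `E l` its maximal
generalised eigenspaces; `⨆ l, E l = ⊤`, independent (`Module.End.iSup_maxGenEigenspace_eq_top`,
`Module.End.independent_maxGenEigenspace`), and `E l = ⊥` unless `l` is a root of the characteristic polynomial.  The
set of the roots is finite; let `R` be the maximum of the `V l` over the roots, `R ≥ V l₀ > 1`, and choose `R'` with
`0 < R' < R` and `V l ≤ R'` for each root with `V l ≠ R`.  Let `E₁ = ⨆ l with V l = R, E l` and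
`E₂ = ⨆ l with V l ≠ R, E l`: complementary (`iSupIndep.disjoint_biSup`-like, `IsCompl`) and invariant under `T`;
`E₁ ≠ ⊥`.  `r = finrank E₁`, `L` = the matrix whose columns are a basis of `E₁`, `J` = the matrix of the projection onto
`E₁` along `E₂` (`Submodule.linearProjOfIsCompl` or its new name), in this basis.  `J * L = 1`, `L * J` = the
projection `e` of the space onto `E₁` along `E₂`, which commutes with `Y` as `E₁`, `E₂` are invariant; so
`Y * L = Y * L * J * L = L * J * Y * L`, and `J * Y = J * L * J * Y = J * Y * L * J`.  The eigenvalues of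
`J * Y * L` (roots of its characteristic polynomial) have absolute value `R`: if `(J Y L) z = l z`, `z ≠ 0`, then
`Y L z = L J Y L z = l L z` and `L z ≠ 0` is in `E₁` and in `E l`, so `V l = R` (if `V l ≠ R` then `L z ∈ E₂ ⊓ E₁`).
The determinant is the product of the `r` roots, so `V (det) = R ^ r`.  Growth: the columns of `L` are in
`⨆ l with V l ≤ R, E l` (`S_Gr1` with `R`), the columns of `1 - L * J` are in `E₂ ≤ ⨆ l with V l ≤ R', E l`
(`E l = ⊥` if `l` is not a root; `S_Gr1` with `R'`); take the maximum (sum) of the finitely many constants. -/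
def S_GE : Prop := ∀ (K : Type v) [Field K] [IsAlgClosed K] (V : AbsoluteValue K ℝ) (n : ℕ)
  (Y : Matrix (Fin n) (Fin n) K) (l₀ : K), Y.charpoly.IsRoot l₀ → 1 < V l₀ →
  ∃ (r : ℕ) (L : Matrix (Fin n) (Fin r) K) (J : Matrix (Fin r) (Fin n) K) (R R' c : ℝ), 0 < r ∧ 1 < R ∧ 0 < R' ∧
    R' < R ∧ 0 ≤ c ∧ J * L = 1 ∧ Y * L = L * (J * Y * L) ∧ V (J * Y * L).det = R ^ r ∧
    (∀ (k : ℕ) (i : Fin n) (j : Fin r), V ((Y ^ k * L) i j) ≤ c * (k + 1) ^ n * R ^ k) ∧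
    (∀ (k : ℕ) (i j : Fin n), V ((Y ^ k * ((1 : Matrix (Fin n) (Fin n) K) - L * J)) i j) ≤ c * (k + 1) ^ n * R' ^ k)

/-- **DtL** (120 lines).  Proof.  (1) If `V (x i) ≤ p`, `V (z i) ≤ q` for `i ∈ s`, `0 ≤ p, q`, then
`V (∏ i ∈ s, (x i + z i) - ∏ i ∈ s, x i) ≤ (p + q) ^ |s| - p ^ |s|` (induction:
`(x + z) P' - x P = (x + z) (P' - P) + z P`), and `(p + q) ^ r - p ^ r ≤ r q (p + q) ^ (r - 1)`.  (2) So
`V (det (A + B) - det A) ≤ r! r q (p + q) ^ (r - 1)` if the entries are bounded by `p`, `q`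
(`Matrix.det_apply`, sum over permutations, `V (sign) = 1`).  (3) With `p = c (k + 1) ^ d R ^ k`,
`q = c (k + 1) ^ d R' ^ k ≤ p`: `q (p + q) ^ (r - 1) ≤ 2 ^ r c ^ r (k + 1) ^ (d r) R' ^ k R ^ (k (r - 1))`; divide by
`V m ^ k = R ^ (r k)`: `≤ C (k + 1) ^ (d r) (R' / R) ^ k → 0` (`tendsto_pow_const_mul_const_pow_of_abs_lt_one` or a
similar statement; for `r = 0` both determinants are `1`). -/
def S_DtL : Prop := ∀ (K : Type v) [Field K] (V : AbsoluteValue K ℝ) (r d : ℕ)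
  (A B : ℕ → Matrix (Fin r) (Fin r) K) (m : K) (R R' c : ℝ), 0 < R' → R' < R → 0 ≤ c → V m = R ^ r →
  (∀ k i j, V (A k i j) ≤ c * ((k : ℝ) + 1) ^ d * R ^ k) → (∀ k i j, V (B k i j) ≤ c * ((k : ℝ) + 1) ^ d * R' ^ k) →
  Tendsto (fun k : ℕ => V (m⁻¹ ^ k * ((A k + B k).det - (A k).det))) atTop (𝓝 0)

/-- **Det** (120 lines, uses `S_CA`, `S_GE`, `S_DtL`).  Proof.  `Y = ρ t`; `L`, `J`, `R`, `R'`, `c` from `S_GE`;
`T = J * Y * L`, `μ = det T`, `f x = det (J * ρ x * L)`.  `f ∈ CA ρ`: the determinant is a polynomial in the entries,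
which are linear combinations of coefficients (`S_CA`, last claim, or directly: `Matrix.det_apply`, sums and products in
the subalgebra).  `f 1 = det (J * L) = 1`.  `V μ = R ^ r > 1`.  `Y ^ k * L = L * T ^ k` by induction.  Let `X = ρ x`,
`Z = ρ g`.  `J X Y ^ k Z L = J X Y ^ k (L J) Z L + J X Y ^ k (1 - L J) Z L = A k + B k` with
`A k = (J X L) T ^ k (J Z L) = J X (Y ^ k L) (J Z L)`, so `det (A k) = f x μ ^ k f g`, and the entries of `A k`, `B k` are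
bounded by `c' (k + 1) ^ n R ^ k`, `c' (k + 1) ^ n R' ^ k` (`V ((P Q S) i j) ≤ ∑ V (P i p) V (Q p q) V (S q j)`).  `S_DtL`
with `m = μ`: `V (μ⁻¹ ^ k f (x t ^ k g) - f x f g) = V (μ⁻¹ ^ k (det (A k + B k) - det (A k)))` (`μ ≠ 0`). -/
def S_Det : Prop := ∀ (G : Type u) [Group G] (K : Type v) [Field K] [IsAlgClosed K] (V : AbsoluteValue K ℝ) (n : ℕ)
  (ρ : G →* Matrix (Fin n) (Fin n) K) (t : G) (l₀ : K), (ρ t).charpoly.IsRoot l₀ → 1 < V l₀ →
  ∃ f ∈ CA ρ, ∃ μ : K, 1 < V μ ∧ f 1 = 1 ∧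
    ∀ x g : G, Tendsto (fun k : ℕ => V (μ⁻¹ ^ k * f (x * t ^ k * g) - f x * f g)) atTop (𝓝 0)

/-- **St1** (60 lines, uses `S_Zar`, `S_Per`, `S_Cnt`, `S_Ctb`, `S_Min`, `S_Abs`, `S_Nrt`, `S_Rt1`, `S_Det`, in this
order).  Proof.  `G` is countable (`S_Cnt`); `S_Ctb`:
a nontrivial representation over a countable algebraically closed `K`; `S_Min` (hypothesis from `S_Per` with
`M = Matrix ..`): `ρ` nontrivial and irreducible.  `S_Zar`: `Den H (CA ρ)`.  `S_Nrt`: `t ∈ H` and a root `l` which is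
not a root of unity; `l ≠ 0` as `ρ t` is invertible (`det (ρ t) = 1`: `S_Per` for the homomorphism `x ↦ det (ρ x)` into
`K`; `l = 0` would give `det = 0`).  `S_Abs`: `V l ≠ 1`.  `S_Rt1`: a root `l₀` with `1 < V l₀`.  `S_Det`. -/
def S_St1 : Prop := ∀ (G : Type u) [Group G] (H : Subgroup G), TB H →
  (∀ N : Subgroup G, N.Normal → N ≤ H → N = ⊥) → ¬ LF (⊤ : Subgroup G) →
  ∀ (F : Type v) [Field F] (m : ℕ) (ρ₀ : G →* Matrix (Fin m) (Fin m) F) (x₀ : G), ρ₀ x₀ ≠ 1 →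
  ∃ (K : Type v) (_ : Field K) (_ : IsAlgClosed K) (V : AbsoluteValue K ℝ) (n : ℕ)
    (ρ : G →* Matrix (Fin n) (Fin n) K), ∃ t ∈ H, ∃ f ∈ CA ρ, ∃ μ : K, 1 < V μ ∧ f 1 = 1 ∧
    ∀ x g : G, Tendsto (fun k : ℕ => V (μ⁻¹ ^ k * f (x * t ^ k * g) - f x * f g)) atTop (𝓝 0)

/-! ## Part D: a representation in which `t` is proximal -/

/-- **Rep** (120 lines).  Proof.  Let `E` be the span of the right translates `x · f = (g ↦ f (g x))`, `N` its
dimension, `b j` (`j : Fin N`) a basis.  `E` is invariant under all right translations, `(x y) · h = x · (y · h)`, so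
`R x` = the matrix of `h ↦ x · h` in this basis (`LinearMap.toMatrix`, or `toMatrixAlgEquiv`) is a monoid homomorphism.
`a` = the coordinates of `f` (`f = 1 · f ∈ E`), `φ j = (b j) 1`.  For `h ∈ E` with coordinates `z`: `φ z = h 1`, and `R x z`
are the coordinates of `x · h`, so `φ (R x z) = h x`.  First claim: `h = f`.  Third claim: if `h x = 0` for all `x`
then `h = 0`.  Second claim: the `x · f` span `E`, so the vectors `R x a` span `Fin N → K`; if `ψ` vanishes on them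
then `ψ = 0`. -/
def S_Rep : Prop := ∀ (G : Type u) [Group G] (K : Type v) [Field K] (f : G → K),
  FiniteDimensional K (Submodule.span K (Set.range fun x : G => fun g : G => f (g * x))) →
  ∃ (N : ℕ) (R : G →* Matrix (Fin N) (Fin N) K) (a φ : Fin N → K), (∀ x, f x = φ ⬝ᵥ (R x *ᵥ a)) ∧
    (∀ ψ : Fin N → K, (∀ x, ψ ⬝ᵥ (R x *ᵥ a) = 0) → ψ = 0) ∧ ∀ z : Fin N → K, (∀ x, φ ⬝ᵥ (R x *ᵥ z) = 0) → z = 0

/-- **Prl** (140 lines).  Proof.  (1) The vectors `R g a` span `Fin N → K`: otherwise a nonzero linear form vanishes on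
them (`Submodule.exists_le_ker_of_lt_top`), it has the form `ψ ⬝ᵥ ·`, contradiction.  In the same way the covectors
`φ ᵥ* R x` span.  (2) For all `ψ`, `z`: `V (μ⁻¹ ^ k * ψ (R t ^ k z) - (ψ a) (φ z)) → 0`: true for `ψ = φ ᵥ* R x`,
`z = R g a` by hypothesis (`φ (R x (R t ^ k (R g a))) = φ (R (x t ^ k g) a)`), and the set of the `ψ` (for all `z` in a
spanning set), then the set of the `z`, is closed under linear combinations (`Submodule.span_induction` twice).  With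
`ψ`, `z` unit vectors: the last clause of `Pr` (`(R t ^ k) i j = R (t ^ k) i j`).  (3) `φ a = f 1 = 1`.  (4) `R t a = μ a`:
for a covector `ψ`, `μ⁻¹ ^ (k + 1) ψ (R t ^ (k + 1) a)` tends to `(ψ a) (φ a) = ψ a`; it is also
`μ⁻¹ * (μ⁻¹ ^ k (ψ ᵥ* R t) (R t ^ k a))`, which tends to `μ⁻¹ (ψ (R t a)) (φ a)`.  Limits are unique
(`V (x - z) ≤ V (x - x_k) + V (x_k - z) → 0`), so `ψ (R t a) = μ ψ a` for all `ψ`.  In the same way `φ ᵥ* R t = μ φ`.
(5) `Irr`: let `z, ψ ≠ 0`.  There are `x₁` with `φ (R x₁ z) ≠ 0` and `x₂` with `ψ (R x₂ a) ≠ 0`.  By (2)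
`μ⁻¹ ^ k ψ (R x₂ (R t ^ k (R x₁ z))) → ψ (R x₂ a) φ (R x₁ z) ≠ 0`, so `ψ (R (x₂ t ^ k x₁) z) ≠ 0` for large `k`. -/
def S_Prl : Prop := ∀ (G : Type u) [Group G] (K : Type v) [Field K] (V : AbsoluteValue K ℝ) (N : ℕ)
  (R : G →* Matrix (Fin N) (Fin N) K) (a φ : Fin N → K) (t : G) (μ : K), μ ≠ 0 →
  (∀ ψ : Fin N → K, (∀ x, ψ ⬝ᵥ (R x *ᵥ a) = 0) → ψ = 0) →
  (∀ z : Fin N → K, (∀ x, φ ⬝ᵥ (R x *ᵥ z) = 0) → z = 0) → φ ⬝ᵥ a = 1 →
  (∀ x g : G, Tendsto (fun k : ℕ => V (μ⁻¹ ^ k * (φ ⬝ᵥ (R (x * t ^ k * g) *ᵥ a)) -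
    (φ ⬝ᵥ (R x *ᵥ a)) * (φ ⬝ᵥ (R g *ᵥ a)))) atTop (𝓝 0)) →
  Pr V (R t) a φ μ ∧ Irr R Set.univ

/-- **St2** (60 lines, uses `S_Zar`, `S_Fd`, `S_Per`, `S_St1`, `S_Rep`, `S_Prl`).  Proof.  `S_St1`: `ρ`, `t`, `f`, `μ`.
`S_Fd`, `S_Rep`: `R`, `a`, `φ`; `φ a = f 1 = 1` (`R 1 = 1`).  `S_Prl` (`μ ≠ 0` as `1 < V μ`).  `S_Zar` for `R`.  `2 ≤ N`: for
`N = 0` `φ a = 0`; for `N = 1` the matrices `R x` commute, so `R t = 1` by `S_Per`, `a = μ a`, `μ = 1`, against
`1 < V μ`. -/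
def S_St2 : Prop := ∀ (G : Type u) [Group G] (H : Subgroup G), TB H →
  (∀ N : Subgroup G, N.Normal → N ≤ H → N = ⊥) → ¬ LF (⊤ : Subgroup G) →
  ∀ (F : Type v) [Field F] (m : ℕ) (ρ₀ : G →* Matrix (Fin m) (Fin m) F) (x₀ : G), ρ₀ x₀ ≠ 1 →
  ∃ (K : Type v) (_ : Field K) (_ : IsAlgClosed K) (V : AbsoluteValue K ℝ) (N : ℕ)
    (R : G →* Matrix (Fin N) (Fin N) K), 2 ≤ N ∧ Den H (CA R) ∧ Irr R Set.univ ∧
    ∃ t ∈ H, ∃ (a φ : Fin N → K) (l : K), Pr V (R t) a φ l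

/-! ## Part E: `y` and `y⁻¹` proximal -/

/-- **Pln** (90 lines).  Proof.  Let `m k l = w₁ k * w₂ l - w₁ l * w₂ k`.  As `w₁`, `w₂` are linearly independent, some
`m k l ≠ 0`; choose `(i, j)` with `M = V (m i j) > 0` maximal.  `(Y w₁) i (Y w₂) j - (Y w₁) j (Y w₂) i` is
`α w₁ i (β w₂ j + γ w₁ j) - α w₁ j (β w₂ i + γ w₁ i) = α β m i j`, and it is
`∑ k, ∑ l, Y i k * Y j l * m k l` (the second product is `∑ k, ∑ l, Y j l w₁ l * Y i k w₂ k`).  As `m` is antisymmetric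
`∑ k, ∑ l, u i η k u j η l m k l = 0` (exchange `k` and `l`; in characteristic two `m k k = 0`: pair the terms; or use
`∑ ∑ η k η l w₁ k w₂ l = (η w₁) (η w₂) = ∑ ∑ η k η l w₁ l w₂ k`).  So with `Δ = Y - u η`:
`α β m i j = ∑ ∑ (u i η k Δ j l + Δ i k u j η l + Δ i k Δ j l) m k l`, so
`V (α β) M ≤ n ^ 2 (2 C ^ 2 ε + ε ^ 2) M`. -/
def S_Pln : Prop := ∀ (K : Type v) [Field K] (V : AbsoluteValue K ℝ) (n : ℕ) (Y : Matrix (Fin n) (Fin n) K)
  (u η : Fin n → K) (C ε : ℝ), 0 ≤ C → 0 ≤ ε → (∀ i, V (u i) ≤ C) → (∀ i, V (η i) ≤ C) →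
  (∀ i j, V (Y i j - u i * η j) ≤ ε) → ∀ (w₁ w₂ : Fin n → K) (α β γ : K), LinearIndependent K ![w₁, w₂] →
  Y *ᵥ w₁ = α • w₁ → Y *ᵥ w₂ = β • w₂ + γ • w₁ → V (α * β) ≤ n ^ 2 * (2 * C ^ 2 * ε + ε ^ 2)

/-- **Spc** (150 lines, uses `S_Gr2`).  Proof.  `ker (Y - α)` contains some `a ≠ 0`
(`Matrix.exists_mulVec_eq_zero_iff`, `det (Y - α) = 0`), and it is the line `K a` (a second independent `w₂` would be
excluded by the hypothesis with `γ = 0`).  There is `φ ≠ 0` with `φ (Y - α) = 0`.  The image of `Y - α` has dimension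
`n - 1` and it is contained in `ker φ` of dimension `n - 1`, so it is equal to `ker φ`.  If `φ a = 0` then
`a = (Y - α) w₂` for some `w₂`; `w₂`, `a` are linearly independent (`w₂ = s a` would give `a = 0`), and
`Y w₂ = α w₂ + a`, excluded.  So `φ a ≠ 0`, and we may assume `φ a = 1`.  Let `P = a φ` (`Matrix.vecMulVec a φ`),
`P ^ 2 = P`, `Y P = P Y = α P`, `Y' = Y - α P`: `P Y' = Y' P = 0`, `Y = α P + Y'`, `Y ^ k = α ^ k P + Y' ^ k` for
`k ≥ 1`.  Each root `γ` of the characteristic polynomial of `Y'` has `V γ ≤ q`: let `Y' w = γ w`, `w ≠ 0`, `γ ≠ 0`;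
`γ (φ w) = φ (Y' w) = 0` so `φ w = 0`, `Y w = γ w`; `γ ≠ α`, as otherwise `w ∈ K a`, `φ w ≠ 0`.  So `V γ ≤ q` by
hypothesis.  `S_Gr2` for `Y'` with `r`, `q ≤ r`, `0 < r < V α`:
`V (α⁻¹ ^ k Y ^ k i j - a i φ j) = V (α)⁻¹ ^ k V (Y' ^ k i j) ≤ c (k + 1) ^ n (r / V α) ^ k → 0`. -/
def S_Spc : Prop := ∀ (K : Type v) [Field K] [IsAlgClosed K] (V : AbsoluteValue K ℝ) (n : ℕ)
  (Y : Matrix (Fin n) (Fin n) K) (α : K) (q : ℝ), Y.charpoly.IsRoot α → 0 ≤ q → q < V α →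
  (∀ β : K, Y.charpoly.IsRoot β → β ≠ α → V β ≤ q) →
  (∀ (w₁ w₂ : Fin n → K) (γ : K), LinearIndependent K ![w₁, w₂] → Y *ᵥ w₁ = α • w₁ →
    Y *ᵥ w₂ ≠ α • w₂ + γ • w₁) → ∃ a φ : Fin n → K, Pr V Y a φ α

/-- **Prx** (100 lines, uses `S_Pln`, `S_Spc`).  Proof.  We may assume `C ≥ 0` and `n > 0` (otherwise `V (η u) = 0`).
Let `s = κ / (2 n)` and `ε` so small that `0 < ε ≤ 1`, `n ε ≤ κ / 2`, `q' = n ^ 2 (2 C ^ 2 ε + ε ^ 2) < s ^ 2`.  The trace
of `Y` is `η u + ∑ (Y - u η) i i`, so `V (trace) ≥ κ - n ε ≥ κ / 2`.  It is the sum of the `n` roots of the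
characteristic polynomial (`Matrix.trace_eq_sum_roots_charpoly`), so some root `α` has `V α ≥ κ / (2 n) = s` (choose
`α` with `V α` maximal).  If `β ≠ α` is another root, eigenvectors `w₁`, `w₂` for `α`, `β` are linearly independent
(`Module.End.eigenvectors_linearIndependent`-like, or directly), so `V (α β) ≤ q'` by `S_Pln` (`γ = 0`),
`V β ≤ q' / s < s ≤ V α`.  If `w₁`, `w₂` are independent, `Y w₁ = α w₁`, `Y w₂ = α w₂ + γ w₁` then `s ^ 2 ≤ V (α α) ≤ q'`,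
contradiction.  `S_Spc` with `q = q' / s`. -/
def S_Prx : Prop := ∀ (K : Type v) [Field K] [IsAlgClosed K] (V : AbsoluteValue K ℝ) (n : ℕ) (κ C : ℝ), 0 < κ →
  ∃ ε : ℝ, 0 < ε ∧ ∀ (Y : Matrix (Fin n) (Fin n) K) (u η : Fin n → K), (∀ i, V (u i) ≤ C) → (∀ i, V (η i) ≤ C) →
    κ ≤ V (η ⬝ᵥ u) → (∀ i j, V (Y i j - u i * η j) ≤ ε) → ∃ (a φ : Fin n → K) (l : K), Pr V Y a φ l

/-- **Nul** (110 lines).  Proof.  Let `I` be the ideal generated by `P`.  `MvPolynomial σ K` is Noetherian, so there is a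
finite `F ⊆ P` which generates `I` (`Submodule.fg_span_iff_fg_span_finset_subset`, or a similar statement).  The zero
locus of `I` is contained in `{0}`, so `X i` vanishes on it, and by the Nullstellensatz
(`MvPolynomial.vanishingIdeal_zeroLocus_eq_radical`) `X i ^ m i ∈ I = span F`, so `X i ^ m i = ∑ p ∈ F, q i p * p`
(`Submodule.mem_span_finset`).  For a polynomial `q` and `τ` with all `V (τ i) ≤ 1`: `V (eval τ q) ≤ ‖q‖ = ∑ V (coeff)`
(`MvPolynomial.eval_eq`).  Let `D = 1 + ∑ i, ∑ p ∈ F, ‖q i p‖`, `κ = 1 / D`.  If `V (τ i) = 1` then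
`1 = V (τ i ^ m i) ≤ ∑ p ∈ F, ‖q i p‖ V (p τ)`; if all `V (p τ) < κ` this is `< 1` (or `≤ (D - 1) κ < 1`). -/
def S_Nul : Prop := ∀ (K : Type v) [Field K] [IsAlgClosed K] (V : AbsoluteValue K ℝ) (σ : Type) [Finite σ]
  (P : Set (MvPolynomial σ K)), (∀ τ : σ → K, (∀ p ∈ P, MvPolynomial.eval τ p = 0) → τ = 0) →
  ∃ (F : Finset (MvPolynomial σ K)) (κ : ℝ), 0 < κ ∧ (F : Set (MvPolynomial σ K)) ⊆ P ∧
    ∀ τ : σ → K, (∀ i, V (τ i) ≤ 1) → (∃ i, V (τ i) = 1) → ∃ p ∈ F, κ ≤ V (MvPolynomial.eval τ p)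

/-- **Rob** (130 lines, uses `S_Gen`, `S_Nul`).  Proof.  For `b, c ∈ H` let `P b c` be the polynomial
`(∑ i j, (φ ᵥ* R b) i (R c a) j X (i, j)) * (∑ i j, (φ ᵥ* R b⁻¹) i (R c⁻¹ a) j X (i, j))` in
`MvPolynomial (Fin N × Fin N) K`; its value at `τ` is `φ (R b τ R c a) * φ (R b⁻¹ τ R c⁻¹ a)`.  If `τ ≠ 0`
then some `P b c` is not `0` at `τ`: some row `ψ` of `τ` is not `0`; `S_Gen` gives `c ∈ H` with `ψ (R c a) ≠ 0` and
`ψ (R c⁻¹ a) ≠ 0`, so `z = τ (R c a)` and `z' = τ (R c⁻¹ a)` are not `0`; `S_Gen` gives `b ∈ H` with `φ (R b z) ≠ 0`,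
`φ (R b⁻¹ z') ≠ 0`.  `S_Nul` for the set of the `P b c`, `b, c ∈ H`: a finite set of polynomials; choose a pair
`(b, c)` for each of them, which gives the finite set `F`, and `κ₀ > 0`.  For `τ` with all `V (τ i j) ≤ 1` both factors
are bounded by a constant `D ≥ 1` for all `(b, c) ∈ F`; if the product has value `≥ κ₀` then each factor has value
`≥ κ₀ / D = κ`. -/
def S_Rob : Prop := ∀ (G : Type u) [Group G] (H : Subgroup G) (K : Type v) [Field K] [IsAlgClosed K]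
  (V : AbsoluteValue K ℝ) (N : ℕ) (R : G →* Matrix (Fin N) (Fin N) K), Den H (CA R) → Irr R Set.univ →
  ∀ a φ : Fin N → K, a ≠ 0 → φ ≠ 0 → ∃ (F : Finset (G × G)) (κ : ℝ), 0 < κ ∧ (∀ p ∈ F, p.1 ∈ H ∧ p.2 ∈ H) ∧
    ∀ τ : Matrix (Fin N) (Fin N) K, (∀ i j, V (τ i j) ≤ 1) → (∃ i j, V (τ i j) = 1) →
      ∃ p ∈ F, κ ≤ V (φ ⬝ᵥ ((R p.1 * τ * R p.2) *ᵥ a)) ∧ κ ≤ V (φ ⬝ᵥ ((R p.1⁻¹ * τ * R p.2⁻¹) *ᵥ a))

/-- **BI** (150 lines, uses `S_Rob`, `S_Prx`).  Proof.  `F`, `κ` from `S_Rob`.  Scaling: `Pr V Y a φ l` and `s ≠ 0`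
imply `Pr V (s • Y) a φ (s * l)`.  Let `D ≥ 1` bound the values of all entries of `a`, `φ`, `R b`, `R b⁻¹`, `R c`, `R c⁻¹`,
`(b, c) ∈ F`, and `C = (N + 1) ^ 4 D ^ 4`.  `ε` from `S_Prx` for `κ`, `C`.  By `Pr V (R t) a φ l` there is `n` such that
`E = l⁻¹ ^ n (R t) ^ n - a φ` has all entries of value `≤ ε / C`.  Let `s` be an entry of the matrix `R (t⁻¹) ^ n` of
maximal value (it is not `0`, the matrix is invertible, `N > 0` as `φ a = 1`), `τ = s⁻¹ R (t⁻¹) ^ n`: entries of value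
`≤ 1`, one of them `1`.  Let `(b, c) ∈ F` be the pair for `τ`, `y = t ^ n b (t⁻¹) ^ n c ∈ H`.  Then
`(l ^ n s)⁻¹ R y = (a φ + E) R b τ R c`, close to `u η` with `u = a`, `η = φ ᵥ* (R b τ R c)`, `η u = φ (R b τ R c a)`, and
`y⁻¹ = c⁻¹ t ^ n b⁻¹ (t⁻¹) ^ n`, `(l ^ n s)⁻¹ R y⁻¹ = R c⁻¹ (a φ + E) R b⁻¹ τ`, close to `u' η'` with `u' = R c⁻¹ a`,
`η' = φ ᵥ* (R b⁻¹ τ)`, `η' u' = φ (R b⁻¹ τ R c⁻¹ a)`.  The entries of `u, η, u', η'` have value `≤ C`, those of the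
differences `≤ ε` (products of three matrices).  `S_Prx` and scaling. -/
def S_BI : Prop := ∀ (G : Type u) [Group G] (H : Subgroup G) (K : Type v) [Field K] [IsAlgClosed K]
  (V : AbsoluteValue K ℝ) (N : ℕ) (R : G →* Matrix (Fin N) (Fin N) K), Den H (CA R) → Irr R Set.univ →
  ∀ t ∈ H, ∀ (a φ : Fin N → K) (l : K), Pr V (R t) a φ l →
  ∃ y ∈ H, (∃ (a φ : Fin N → K) (l : K), Pr V (R y) a φ l) ∧ ∃ (a φ : Fin N → K) (l : K), Pr V (R y⁻¹) a φ l

/-- **Opp** (90 lines).  Proof.  `Z a' = l' a'` gives `a' = Y Z a' = l' Y a'`, so `φ a' = l' φ (Y a') = l' l φ a'`; so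
`φ a' = 0` or `l l' = 1`; by symmetry (`Z Y = 1`) `φ' a = 0` or `l l' = 1`.  Suppose `l l' = 1`.  Then
`(l⁻¹ ^ k Y ^ k) (l'⁻¹ ^ k Z ^ k) = 1` for all `k` (`Y ^ k Z ^ k = 1`, `Y`, `Z` commute).  The entries of both factors
converge (in `V`), to `a i φ j` and `a' i φ' j`, so `1 i j = a i (φ a') φ' j` for all `i, j` (limit of sums of products:
`V (x z - x₀ z₀) ≤ V (x - x₀) V (z - z₀) + V (x - x₀) V z₀ + V x₀ V (z - z₀)`).  With `c = φ a'`:
`a 0 c φ' 0 = 1`, `a 1 c φ' 1 = 1`, `a 0 c φ' 1 = 0`, contradiction. -/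
def S_Opp : Prop := ∀ (K : Type v) [Field K] (V : AbsoluteValue K ℝ) (n : ℕ), 2 ≤ n →
  ∀ Y Z : Matrix (Fin n) (Fin n) K, Y * Z = 1 → ∀ (a φ a' φ' : Fin n → K) (l l' : K), Pr V Y a φ l →
  Pr V Z a' φ' l' → φ ⬝ᵥ a' = 0 ∧ φ' ⬝ᵥ a = 0

/-! ## Part G: ping-pong -/

/-- A neighbourhood of the point `a` (`φ a = 1`): a cone. -/
def Bs {K : Type v} [Field K] (V : AbsoluteValue K ℝ) {n : ℕ} (a φ : Fin n → K) (δ : ℝ) : Set (Fin n → K) :=
  {x | nv V (x - (φ ⬝ᵥ x) • a) < δ * V (φ ⬝ᵥ x)}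

/-- A neighbourhood of the hyperplane `ker φ`: a cone. -/
def Ns {K : Type v} [Field K] (V : AbsoluteValue K ℝ) {n : ℕ} (φ : Fin n → K) (δ : ℝ) : Set (Fin n → K) :=
  {x | V (φ ⬝ᵥ x) ≤ δ * nv V x}

/-- The data of `y` with `y` and `y⁻¹` proximal. -/
structure PD {G : Type u} [Group G] {K : Type v} [Field K] (V : AbsoluteValue K ℝ) {n : ℕ}
    (R : G →* Matrix (Fin n) (Fin n) K) (y : G) (a φ : Bool → Fin n → K) : Prop where
  pos : ∃ l, Pr V (R y) (a true) (φ true) l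
  neg : ∃ l, Pr V (R y⁻¹) (a false) (φ false) l
  opp : ∀ b, φ b ⬝ᵥ a (!b) = 0

/-- **Dyn** (70 lines).  Proof.  `E k = l⁻¹ ^ k Y ^ k - a φ`, `mv V (E k) → 0` (finite sum).  Let `k` be so large that
`mv V (E k) < δ δ'`.  `φ (Y ^ k x) = l ^ k φ x` (induction from `φ ᵥ* Y = l • φ`).  So
`Y ^ k x - φ (Y ^ k x) a = l ^ k (E k x)`, with `nv ≤ V l ^ k mv V (E k) nv V x`.  `x ∉ Ns V φ δ`:
`δ nv V x < V (φ x)`, so `V (φ x) > 0` and `V l ^ k mv V (E k) nv V x ≤ V l ^ k mv V (E k) V (φ x) / δ <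
δ' V l ^ k V (φ x) = δ' V (φ (Y ^ k x))`. -/
def S_Dyn : Prop := ∀ (K : Type v) [Field K] (V : AbsoluteValue K ℝ) (n : ℕ) (Y : Matrix (Fin n) (Fin n) K)
  (a φ : Fin n → K) (l : K), Pr V Y a φ l → ∀ δ δ' : ℝ, 0 < δ → 0 < δ' →
  ∃ k₀ : ℕ, ∀ k ≥ k₀, ∀ x : Fin n → K, x ∉ Ns V φ δ → (Y ^ k) *ᵥ x ∈ Bs V a φ δ'

/-- **Con** (60 lines).  Proof.  `x ∈ Bs V a φ δ`: `x = φ x • a + r`, `nv V r < δ V (φ x)`, so `V (φ x) > 0`.  `A x =
φ x • A a + A r`.  `nv V (A x) ≤ V (φ x) (nv V (A a) + mv V A δ)`,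
`V (ψ (A x)) ≥ V (φ x) (V (ψ (A a)) - nv V ψ mv V A δ)`.  With `e = V (ψ (A a)) > 0` choose `0 < δ ≤ 1` with
`nv V ψ * mv V A * δ ≤ e / 2` and `δ (nv V (A a) + mv V A) < e / 2`.  (`V (ψ r) ≤ nv V ψ * nv V r`,
`nv V (A r) ≤ mv V A * nv V r`.) -/
def S_Con : Prop := ∀ (K : Type v) [Field K] (V : AbsoluteValue K ℝ) (n : ℕ) (A : Matrix (Fin n) (Fin n) K)
  (a φ ψ : Fin n → K), ψ ⬝ᵥ (A *ᵥ a) ≠ 0 → ∃ δ : ℝ, 0 < δ ∧ ∀ δ' : ℝ, 0 < δ' → δ' ≤ δ →
  ∀ x ∈ Bs V a φ δ', A *ᵥ x ∉ Ns V ψ δ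

/-- **BN** (60 lines).  Proof.  (1), (2) monotonicity (`nv V x ≥ 0`, `V ≥ 0`).  (3) `x ∈ Bs V a φ δ` gives
`0 < V (φ x)` and `nv V x ≤ nv V (x - φ x • a) + V (φ x) nv V a < (δ + nv V a) V (φ x)`; if moreover
`V (φ x) ≤ δ nv V x` then `V (φ x) < δ (δ + nv V a) V (φ x)`; so `δ₀ = 1 / (2 + nv V a)` works.  (4) If `ψ a = 0`,
`x ∈ Bs V a φ δ` then `V (ψ x) = V (ψ (x - φ x • a)) ≤ nv V ψ δ V (φ x) ≤ nv V ψ δ nv V φ nv V x`; take
`δ₀ = δ' / (1 + nv V ψ * nv V φ)`. -/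
def S_BN : Prop := ∀ (K : Type v) [Field K] (V : AbsoluteValue K ℝ) (n : ℕ) (a φ ψ : Fin n → K),
  (∀ δ δ' : ℝ, δ ≤ δ' → Bs V a φ δ ⊆ Bs V a φ δ') ∧ (∀ δ δ' : ℝ, δ ≤ δ' → Ns V φ δ ⊆ Ns V φ δ') ∧
  (∃ δ₀ : ℝ, 0 < δ₀ ∧ ∀ δ : ℝ, 0 < δ → δ ≤ δ₀ → Disjoint (Bs V a φ δ) (Ns V φ δ)) ∧
  (ψ ⬝ᵥ a = 0 → ∀ δ' : ℝ, 0 < δ' → ∃ δ₀ : ℝ, 0 < δ₀ ∧ ∀ δ : ℝ, 0 < δ → δ ≤ δ₀ → Bs V a φ δ ⊆ Ns V ψ δ')

/-- **HI** (40 lines, uses `S_Dyn`, `S_Con`).  Proof.  `S_Con` for `A`, `ψ = φ`: `δ₁`.  `S_Dyn` with `(δ, δ₁)`: for large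
`k`, `Y ^ k x ∈ Bs V a φ δ₁`; so `A (Y ^ k x) ∉ Ns V φ δ₁`; `S_Dyn` with `(δ₁, δ)`. -/
def S_HI : Prop := ∀ (K : Type v) [Field K] (V : AbsoluteValue K ℝ) (n : ℕ) (Y A : Matrix (Fin n) (Fin n) K)
  (a φ : Fin n → K) (l : K), Pr V Y a φ l → φ ⬝ᵥ (A *ᵥ a) ≠ 0 → ∀ δ : ℝ, 0 < δ →
  ∃ k₀ : ℕ, ∀ k ≥ k₀, ∀ x : Fin n → K, x ∉ Ns V φ δ → (Y ^ k) *ᵥ (A *ᵥ ((Y ^ k) *ᵥ x)) ∈ Bs V a φ δ

/-- **Frm** (150 lines, uses `S_Dyn`, `S_Con`, `S_BN`).  Proof.  Write `y_true = y`, `y_false = y⁻¹`.  For all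
`b, e, b' : Bool`: `S_Con` for `A = R x⁻¹`, `a b`, `φ b`, `ψ = φ e`; and `S_Con` for `A = R x`, `a e`, `φ e`, `ψ = φ b'`.
Let `δ₁ > 0` be the minimum of all these finitely many `δ` (the claim of `S_Con` holds for all smaller `δ'` with the
old `δ` in `Ns`, so by (2) of `S_BN` also with `δ₁` in both places).  `S_Dyn` for `y_e` with `(δ₁, δ₁)`: for
`m ≥ M`: `w ∈ Bs V (a b) (φ b) δ₁` implies `R x⁻¹ w ∉ Ns V (φ e) δ₁`, `R y_e ^ m (R x⁻¹ w) ∈ Bs V (a e) (φ e) δ₁`,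
`R x (..) ∉ Ns V (φ b') δ₁`.  For `d > 0` take `e = true`, `m = M d`:
`(x y x⁻¹) ^ (M d) = x y ^ (M d) x⁻¹`; for `d < 0` take `e = false`, `m = M |d|`.  Now choose `δ ≤ δ₁` by (3) and (4) of
`S_BN`: `Bs V (a b) (φ b) δ` is disjoint from `Ns V (φ b) δ` and contained in `Ns V (φ (!b)) δ₁`
(`φ (!b) (a b) = 0`).  As the image is not in `Ns V (φ b') δ₁` for both `b'`, it is not in `Ns V (φ b') δ` and not in
`Bs V (a b') (φ b') δ`. -/
def S_Frm : Prop := ∀ (G : Type u) [Group G] (K : Type v) [Field K] (V : AbsoluteValue K ℝ) (n : ℕ)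
  (R : G →* Matrix (Fin n) (Fin n) K) (y x : G) (a φ : Bool → Fin n → K), PD V R y a φ →
  (∀ b b', φ b ⬝ᵥ (R x *ᵥ a b') ≠ 0 ∧ φ b ⬝ᵥ (R x⁻¹ *ᵥ a b') ≠ 0) →
  ∃ (δ : ℝ) (M : ℕ), 0 < δ ∧ (∀ b, Disjoint (Bs V (a b) (φ b) δ) (Ns V (φ b) δ)) ∧
    ∀ d : ℤ, d ≠ 0 → ∀ b b', ∀ w ∈ Bs V (a b) (φ b) δ,
      R ((x * y * x⁻¹) ^ ((M : ℤ) * d)) *ᵥ w ∉ Ns V (φ b') δ ∧
      R ((x * y * x⁻¹) ^ ((M : ℤ) * d)) *ᵥ w ∉ Bs V (a b') (φ b') δ

/-- **PPL** (100 lines).  A ping-pong lemma.  Proof.  Write `h i ^ true = h i`, `h i ^ false = (h i)⁻¹`.  Let `L` be a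
nonempty reduced list of pairs `(i, b)` (`FreeGroup.IsReduced`: neighbours with the same index have the same sign) and
`p ∈ B j true` with `j` not occurring in `L`.  CLAIM: the product of the `h i ^ b`, `(i, b) ∈ L`, maps `p` into
`B i b`, `(i, b)` the head of `L`.  Induction: for `L = [(i, b)]`: `i ≠ j`, so `p ∉ N i b`, `h i ^ b p ∈ B i b`.  For
`(i, b) :: (i', b') :: L'` the tail maps `p` to `q ∈ B i' b'`; `i = i'` implies `b = b'`, so `q ∉ N i b`, and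
`h i ^ b q ∈ B i b`.  Now let `w ≠ 1` be in the kernel of `FreeGroup.lift h`, `L = w.toWord` (reduced, not empty), `j` an
index which does not occur in `L`, `p ∈ B j true`: the product maps `p` to `p ∈ B i b`, which is disjoint from
`B j true` (`i ≠ j`).  (`FreeGroup.lift_mk`: the value is the product of the list.) -/
def S_PPL : Prop := ∀ (G : Type u) [Group G] (X : Type v) [MulAction G X] (h : ℕ → G) (B N : ℕ → Bool → Set X),
  (∀ i, ∀ x, x ∉ N i true → h i • x ∈ B i true) → (∀ i, ∀ x, x ∉ N i false → (h i)⁻¹ • x ∈ B i false) →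
  (∀ i j b b', (i = j → b = b') → Disjoint (B i b) (N j b')) →
  (∀ i j b, i ≠ j → Disjoint (B i true) (B j b)) → (∀ i, (B i true).Nonempty) →
  Function.Injective (FreeGroup.lift h)

/-- **Fre** (130 lines; import `MP_cc2398_al.OE.DC`, `MP_cc2398_al.OE.Fin` for `OE.vDC`, `OE.vFin`; uses `S_Gen`, `S_HI`,
`S_Frm`, `S_PPL`).  Proof.  `OE.vDC`: `g : ℕ → G` in different double cosets.  `S_Gen` (index type `Bool × Bool`):
`x ∈ H` with the hypothesis of `S_Frm` (`a b ≠ 0`, `φ b ≠ 0` as `φ b (a b) = 1`).  `S_Frm`: `δ`, `M`; `z = x y x⁻¹ ∈ H`.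
For each `i`: `S_Gen` for `a = R (g i) (a true)`, `φ = φ true`, `a' = a false`, `φ' = φ false ᵥ* R (g i)⁻¹` (all `≠ 0`):
`w ∈ H` with `φ_true (R (w g i) a_true) ≠ 0` and `φ_false (R (w g i)⁻¹ a_false) ≠ 0`.  `S_HI` for `R y`, `A = R (w g i)`
and for `R y⁻¹`, `A = R (w g i)⁻¹`: `k` such that `h⁰ = y ^ k w g i y ^ k` maps the complement of `Ns V (φ true) δ` into
`Bs V (a true) (φ true) δ` and its inverse maps the complement of `Ns V (φ false) δ` into
`Bs V (a false) (φ false) δ`.  Let `h i = z ^ (M i) h⁰ z ^ (-M i) ∈ H (g i) H`.  `S_PPL` for the action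
`g • w = R g *ᵥ w` (define the `MulAction`), `B i b = {w | R (z ^ (-M i)) w ∈ Bs V (a b) (φ b) δ}`,
`N i b = {w | R (z ^ (-M i)) w ∈ Ns V (φ b) δ}`; for `i ≠ j` use the last claim of `S_Frm` with `d = i - j`
(`z ^ (-M j) = z ^ (M (i - j)) z ^ (-M i)`); `B i true` contains `R (z ^ (M i)) a_true`.  So `FreeGroup.lift h` is
injective; `(h i)⁻¹ h j ∉ H` for `i ≠ j` as `g i`, `g j` are in different double cosets; `OE.vFin`: contradiction. -/
def S_Fre : Prop := ∀ (G : Type u) [Group G] (H : Subgroup G), TB H → ∀ (K : Type v) [Field K]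
  (V : AbsoluteValue K ℝ) (n : ℕ) (R : G →* Matrix (Fin n) (Fin n) K), Den H (CA R) → Irr R Set.univ →
  ∀ y ∈ H, ∀ a φ : Bool → Fin n → K, ¬ PD V R y a φ

/-- **Lin** (40 lines, uses `S_St2`, `S_BI`, `S_Opp`, `S_Fre`).  No linear representations.  Proof.  Otherwise `S_St2`,
`S_BI`: `y ∈ H`; `S_Opp` for `Y = R y`, `Z = R y⁻¹`: `PD`; `S_Fre`. -/
def S_Lin : Prop := ∀ (G : Type u) [Group G] (H : Subgroup G), TB H →
  (∀ N : Subgroup G, N.Normal → N ≤ H → N = ⊥) → ¬ LF (⊤ : Subgroup G) →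
  ∀ (F : Type v) [Field F] (m : ℕ) (ρ : G →* Matrix (Fin m) (Fin m) F) (x : G), ρ x = 1

/-! ## Part U: ultraproducts and blocks -/

/-- `g` is in a finitely generated subgroup of `K` all of whose representations of degree `c` are trivial on `g`. -/
def KL {G : Type u} [Group G] (c : ℕ) (K : Subgroup G) (g : G) : Prop :=
  ∃ s : Finset G, (s : Set G) ⊆ K ∧ ∃ h : g ∈ Subgroup.closure (s : Set G),
    ∀ (F : Type w) [Field F] (ρ : Subgroup.closure (s : Set G) →* Matrix (Fin c) (Fin c) F), ρ ⟨g, h⟩ = 1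

/-- **Ult** (130 lines).  Proof.  For `s : Finset G` let `s' = s ∪ {g}`, and choose `F s`, `ρ s` for `s'`.  Let
`A = ∀ s, F s` (commutative ring), `I` the ideal of the `x` with `x s = 0` for all `s ⊇ s₀`, for some `s₀`.  For
`x : G` let `ρ' x : Matrix (Fin c) (Fin c) A` with `(ρ' x i j) s = ρ s ⟨x, _⟩ i j` if `x ∈ closure s'`, and the entry of
`1` otherwise.  Let `e i j = ρ' g i j - 1 i j`.  `I` is a proper ideal, contained in a maximal ideal `m`
(`Ideal.exists_le_maximal`), `F* = A ⧸ m` (a field: `Ideal.Quotient.field`).  `ρ* x` = the matrix of the classes.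
`ρ* (x z) = ρ* x ρ* z`: the entries of `ρ' (x z) - ρ' x ρ' z` vanish at all `s ⊇ {x, z}`, so they are in `I`.
`ρ* 1 = 1`.  `ρ* g ≠ 1`: otherwise all `e i j ∈ m`; for each `s` some `e i j s ≠ 0`; choose
`x i j ∈ A` with `∑ x i j s * e i j s = 1` for all `s` (`x i j s = (e i j s)⁻¹` for one chosen pair, `0` for the other
pairs); so `1 ∈ m`, contradiction.  (`I` is proper as `1 s ≠ 0`.) -/
def S_Ult : Prop := ∀ (G : Type u) [Group G] (c : ℕ) (g : G),
  (∀ s : Finset G, ∀ hg : g ∈ Subgroup.closure (s : Set G), ∃ (F : Type w) (_ : Field F)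
    (ρ : Subgroup.closure (s : Set G) →* Matrix (Fin c) (Fin c) F), ρ ⟨g, hg⟩ ≠ 1) →
  ∃ (F : Type (max u w)) (_ : Field F) (ρ : G →* Matrix (Fin c) (Fin c) F), ρ g ≠ 1

/-- **DL** (110 lines).  Proof.  See `Bf/Core.lean`, `DD` and `inv_DD`.  Subgroup: `1`: `s = ∅`.  Products: `s ∪ t`; a
representation of `closure (s ∪ t)` restricts to `closure s` and `closure t` (`Subgroup.inclusion`), so it is trivial on
both factors.  Inverses: the same `s`.  `Inv L D`: for `l ∈ L` take `s.image (l * · * l⁻¹)`; a representation `ρ` of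
`closure (l s l⁻¹)` gives the representation `x ↦ ρ (l x l⁻¹)` of `closure s`.  Last claim: restrict `ρ` to
`closure s ≤ K`. -/
def S_DL : Prop := ∀ (G : Type u) [Group G] (c : ℕ) (K : Subgroup G), ∃ D : Subgroup G,
  (∀ g, g ∈ D ↔ KL.{u, w} c K g) ∧ (∀ L : Subgroup G, Inv L K → Inv L D) ∧
  ∀ (F : Type w) [Field F] (ρ : K →* Matrix (Fin c) (Fin c) F) (g : K), (g : G) ∈ D → ρ g = 1

/-- **BFL** (130 lines; import `MP_cc2398_al.Bf.Core` (`exists_NC`, `comm_fin`, `inv_comm`, `NC_le_of_inv`, `NC_mono`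
in `Bf`, and the proof of `aBF`, which is to be imitated); uses `S_Lin` (in the form below), `S_Ult`, `S_DL`).  Proof.
`R` from `aMain`.  Let `x ∉ R`; `normalClosure {x} = ⊤`, `⁅⊤, ⊤⁆ = ⊤` as in `aBF`.  `KL c ⊤ x`: otherwise `S_Ult` (for
`g = x`) gives a representation of `G` which is not trivial on `x`, against `S_Lin`.  So there is a finite set `t` with
`x ∈ closure t` and all representations of degree `c` of `closure t` are trivial on `x`.  `comm_fin`: `s`;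
`exists_NC` for `s ∪ t`: `L₀`; `aBig`: `L ≥ L₀`, `L ≥ H`, `x ∈ L`, `L ≠ ⊤`.  For `L' ≥ L` let `X = NC L' (zpowers x)`; `s, t ⊆ X`.  `X ≤ ⁅X, X⁆`
as in `aBF`.  `D` from `S_DL` for `X`: `x ∈ D` (by `t ⊆ X`), `Inv L' D` (`Inv L' X`: `inv_NC`), so `X ≤ D`
(`NC_le_of_inv`), so each representation of `X` of degree `c` is trivial. -/
def S_BFL : Prop := ∀ (G : Type u) [Group G] (H : Subgroup G), TB H →
  (∀ N : Subgroup G, N.Normal → N ≤ H → N = ⊥) → ¬ LF (⊤ : Subgroup G) →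
  ∃ R : Subgroup G, R.Normal ∧ R ≠ ⊤ ∧ LF R ∧
    ∀ (c : ℕ) (x : G), x ∉ R → ∃ L : Subgroup G, L ≠ ⊤ ∧ H ≤ L ∧ x ∈ L ∧
      ∀ L' : Subgroup G, L ≤ L' →
      NC L' (Subgroup.zpowers x) ≤ ⁅NC L' (Subgroup.zpowers x), NC L' (Subgroup.zpowers x)⁆ ∧
      ∀ (F : Type w) [Field F] (ρ : NC L' (Subgroup.zpowers x) →* Matrix (Fin c) (Fin c) F)
        (g : NC L' (Subgroup.zpowers x)), ρ g = 1

/-- **TwL** (120 lines; import `MP_cc2398_al.Bf.Tower` (imitate `aTower`); uses `S_BFL`).  THE THEOREM.  Proof.  As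
`aTower`: the chain is descended by `X = NC L (zpowers x)`: if `X ≤ N (i + 1)` then `X ≤ N i`: in the first case
`X ≤ ⁅X, X⁆ ≤ N i`; in the second case the restriction to `X` of each `φ : N (i + 1) →* GL (Fin c) E` (composed with
`Units.coeHom`, `GL (Fin c) E → Matrix`) is trivial by `S_BFL`, so each `g ∈ X` has `φ g = 1` for all `E`, `φ`, so
`g ∈ N i`. -/
def S_TwL : Prop := ∀ (G : Type u) [Group G] (Ω : Type v) [MulAction G Ω], Infinite Ω → FaithfulSMul G Ω →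
  MulAction.IsPretransitive G Ω →
  (∀ K : Subgroup G, K ≠ ⊤ → ∀ ω : Ω, (MulAction.orbit K ω).Finite) → ∀ c : ℕ,
  (∀ F : Set Ω, F.Finite → ∃ B : Set Ω, F ⊆ B ∧ B.Finite ∧ MulAction.IsBlock G B ∧
    ∃ (k : ℕ) (N : ℕ → Subgroup G), (∀ g : G, (∀ β ∈ B, g • β ∈ B) → g ∈ N k) ∧
      (∀ g ∈ N 0, ∀ β ∈ B, g • β = β) ∧
      ∀ i < k, (∀ a ∈ N (i + 1), ∀ b ∈ N (i + 1), a * b * a⁻¹ * b⁻¹ ∈ N i) ∨
        ∀ x : N (i + 1), (∀ (E : Type w) [Field E] (φ : N (i + 1) →* GL (Fin c) E), φ x = 1) → (x : G) ∈ N i) →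
  ∀ s : Finset G, ((Subgroup.closure (s : Set G) : Subgroup G) : Set G).Finite

end Pool.Agent.MPcc2398.BR
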