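import Pool.Agent.Lib.MP_cc2398_al.BR.Def

/-!
# MP_cc2398_al, project BR, package A: an absolute value with `v l ≠ 1`

THEOREM A.  Let `K` be a countable field and `l ∈ K`, `l ≠ 0`, not a root of unity.  Then there is an absolute value
`v : K → ℝ` with `v l ≠ 1` (`S_A9`, last statement of this file).

PLAN.  If `l` is transcendental over the prime field, choose a subfield `k'` such that `l` is transcendental over `k'`
and `K` is algebraic over `k'(l)` (`S_A4`); the degree is an absolute value of `k'(l)` with `v l = 2` (`S_A3`), and
nonarchimedean absolute values extend to algebraic extensions (`S_A2`, the spectral norm on the algebraic closure of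
the completion).  An algebraic element of a field of positive characteristic is `0` or a root of unity.  Let `l` be
algebraic over `ℚ`.  If `l` is not an algebraic integer, its minimal polynomial has a root `m` of norm `> 1` in
`PadicAlgCl p` for some `p` (`S_A6`); if it is an algebraic integer, a root `m ∈ ℂ` with `‖m‖ ≠ 1` by Kronecker
(`S_A7`).  In both cases `K` embeds into the uncountable algebraically closed field with `l ↦ m`, since `K` is
countable (`S_A1`).

Every `S_Ai` is proved in its own file `BR/Ai.lean` as `theorem vAi`, with the used statements as hypotheses in the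
order of the docstring; all modules are independent (import this file only), all other declarations `private`.
The proofs in the docstrings are complete.
-/

set_option autoImplicit false

namespace Pool.Agent.MPcc2398.BR

open Polynomial

universe u

/-- **A1** (80 lines).  A countable field embeds into each uncountable algebraically closed field, over a common
subfield `F`.  Proof.  `algebraMap F K` is injective, so `F` is countable.  Let `x : ι → K` be a transcendence basis of
`K / F` (`exists_isTranscendenceBasis'` or a set of elements with `Subtype.val`) and `y : κ → Ω` one of `Ω / F`.  `ι` is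
countable (`x` is injective).  `κ` is infinite: otherwise `#Ω ≤ max (max #F #κ) ℵ₀ ≤ ℵ₀`
(`IsAlgClosed.cardinal_le_max_transcendence_basis`), but `Ω` is uncountable.  So there is an injective `e : ι → κ`, and
`y ∘ e` is algebraically independent over `F`.  Let `A = Algebra.adjoin F (range x)`; `A ≃ MvPolynomial ι F → Ω`
(`AlgebraicIndependent.aevalEquiv`, `aeval (y ∘ e)`) is an injective homomorphism of `F`-algebras, it makes `Ω` an
`A`-algebra (`RingHom.toAlgebra`; scalar tower `F, A, Ω`).  `K` is algebraic over `A`
(`IsTranscendenceBasis.isAlgebraic`), so `IsAlgClosed.lift : K →ₐ[A] Ω` exists; restrict scalars to `F`. -/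
def S_A1 : Prop := ∀ (F K : Type u) (Ω : Type) [Field F] [Field K] [Field Ω] [Algebra F K] [Algebra F Ω]
  [Countable K] [IsAlgClosed Ω], Uncountable Ω → Nonempty (K →ₐ[F] Ω)

/-- **A2** (100 lines).  A nontrivial nonarchimedean absolute value extends to each algebraic extension.  Proof.  Let
`k₁ = WithAbs v` (or `k` with the normed field structure of `v`): a nontrivially normed field, ultrametric
(`IsUltrametricDist.isUltrametricDist_of_forall_norm_add_le_max_norm`).  Let `k₂` be its completion
(`UniformSpace.Completion k₁`): a complete normed field with `‖(x : k₂)‖ = ‖x‖`; it is nontrivially normed (image of an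
element of norm `> 1`) and ultrametric (`‖(n : k₂)‖ = ‖(n : k₁)‖ ≤ 1` for natural `n` and
`IsUltrametricDist.isUltrametricDist_of_forall_norm_natCast_le_one`, or by density).  Let `L = AlgebraicClosure k₂` with
the norm `spectralNorm.normedField k₂ L`, `‖algebraMap k₂ L x‖ = ‖x‖` (`spectralNorm_extends`).  `L` is a `k`-algebra
(by the composition `k → k₁ → k₂ → L`), algebraically closed, `K` is algebraic over `k`, so there is
`φ : K →ₐ[k] L` (`IsAlgClosed.lift`); `w x = ‖φ x‖`. -/
def S_A2 : Prop := ∀ (k K : Type u) [Field k] [Field K] [Algebra k K] [Algebra.IsAlgebraic k K]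
  (v : AbsoluteValue k ℝ), v.IsNontrivial → (∀ x y, v (x + y) ≤ max (v x) (v y)) →
  ∃ w : AbsoluteValue K ℝ, ∀ x, w (algebraMap k K x) = v x

/-- **A3** (50 lines).  The degree absolute value.  Proof.  `v r = 0` for `r = 0` and `v r = 2 ^ r.intDegree`
otherwise (`RatFunc.intDegree_mul`, `RatFunc.intDegree_add_le`, `RatFunc.intDegree_X`).  (Or from
`FunctionField.inftyValuation`.)  The triangle inequality follows from the strong one. -/
def S_A3 : Prop := ∀ (k : Type u) [Field k], ∃ v : AbsoluteValue (RatFunc k) ℝ, v RatFunc.X = 2 ∧
  ∀ x y, v (x + y) ≤ max (v x) (v y)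

/-- **A4** (100 lines).  Proof.  Let `A = Algebra.adjoin k {l}` and let `x : ι → K` be a transcendence basis of `K`
over `A`.  The family `Sum.elim x (fun _ : Unit => l)` is algebraically independent over `k`
(`AlgebraicIndependent.sumElim_iff`, as `l` is transcendental over `k`), so is the swapped family
`Sum.elim (fun _ : Unit => l) x` (composition with `Equiv.sumComm`), so `l` is transcendental over
`B = Algebra.adjoin k (range x)`.  Let `k' = IntermediateField.adjoin k (range x)`: each element of `k'` is a quotient of
elements of `B` (`k'` is a fraction field of `B`; or: `k'` is algebraic over `B`), so `l` is transcendental over `k'`.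
`K` is algebraic over `Algebra.adjoin A (range x)`, a subring of `k'(l)`, hence algebraic over `k'(l)`.
Alternative: Zorn's lemma for the intermediate fields `k'` over which `l` is transcendental, and the exchange
lemma. -/
def S_A4 : Prop := ∀ (k K : Type u) [Field k] [Field K] [Algebra k K] (l : K), Transcendental k l →
  ∃ k' : IntermediateField k K, Transcendental k' l ∧ Algebra.IsAlgebraic (IntermediateField.adjoin k' {l}) K

/-- **A5** (80 lines, uses `S_A2`, `S_A3`, `S_A4`).  Proof.  Take `k'` from `S_A4`, `v` on `RatFunc k'` from
`S_A3` (nontrivial since `v X = 2`).  As `l` is transcendental over `k'` the homomorphism `k'[X] → K`, `X ↦ l` is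
injective and extends to `ψ : RatFunc k' → K` with `ψ X = l` (`IsFractionRing.lift` or `RatFunc.liftAlgHom`); `K` is an
algebra over `RatFunc k'` by `ψ`, and algebraic, because it is algebraic over `k'(l)`, the image of `ψ` (the image of
`ψ` is a field containing `k'` and `l`).  `S_A2` gives `w` on `K` with `w l = w (ψ X) = v X = 2`. -/
def S_A5 : Prop := ∀ (k K : Type u) [Field k] [Field K] [Algebra k K] (l : K), Transcendental k l →
  ∃ v : AbsoluteValue K ℝ, v l ≠ 1

/-- **A6** (100 lines).  Proof.  Some coefficient `a` of `f` is not an integer (otherwise `f` is the image of a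
polynomial over `ℤ`).  Let `p` be a prime divisor of `a.den`; then `1 < ‖(a : ℚ_[p])‖` (`padicNormE.norm_rat_le_one_iff`
or similar: the norm is `≤ 1` iff `p` does not divide the denominator).  In `L = PadicAlgCl p` the monic polynomial `f`
splits: it is the product of `X - m` over its roots (`IsAlgClosed.splits`,
`Polynomial.Splits.eq_prod_roots_of_monic` or similar).  If all roots have norm `≤ 1`, then all coefficients of the
product have norm `≤ 1`: the polynomials with this property are closed under multiplication because the norm is
nonarchimedean (`PadicAlgCl.isUltrametricDist`; e.g. they are the polynomials with coefficients in a subring).  But the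
coefficient `a` has norm `‖algebraMap ℚ_[p] L a‖ = ‖(a : ℚ_[p])‖ > 1` (`PadicAlgCl.norm_extends`).  So some root has
norm `> 1`. -/
def S_A6 : Prop := ∀ f : ℚ[X], f.Monic → (∀ g : ℤ[X], g.map (Int.castRingHom ℚ) ≠ f) →
  ∃ (p : ℕ) (_ : Fact p.Prime) (m : PadicAlgCl p), aeval m f = 0 ∧ 1 < ‖m‖

/-- **A7** (60 lines).  Proof.  Suppose that all complex roots of `minpoly ℚ l` have norm `1`.  `E = ℚ⟮l⟯`
(`IntermediateField.adjoin ℚ {l}`, finite-dimensional since `l` is integral) is a number field, `g` its generator
(`IntermediateField.AdjoinSimple.gen ℚ l`), integral over `ℤ`.  For each `φ : E →+* ℂ` the number `φ g` is a root of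
`minpoly ℚ l` (`φ` is a homomorphism of `ℚ`-algebras), so `‖φ g‖ = 1`.  By
`NumberField.Embeddings.pow_eq_one_of_norm_eq_one` `g ^ n = 1` for some `n > 0`, so `l ^ n = 1`. -/
def S_A7 : Prop := ∀ (K : Type u) [Field K] [CharZero K] (l : K), IsIntegral ℤ l → (∀ n : ℕ, 0 < n → l ^ n ≠ 1) →
  ∃ m : ℂ, aeval m (minpoly ℚ l) = 0 ∧ ‖m‖ ≠ 1

/-- **A8** (80 lines, uses `S_A1`, `S_A6`, `S_A7`).  Proof.  Let `f = minpoly ℚ l` (monic).  (a) If `f` is not the
image of a polynomial over `ℤ`: `p`, `m` from `S_A6`.  Let `E = ℚ⟮l⟯`; `PadicAlgCl p` is an `E`-algebra by the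
homomorphism `E → PadicAlgCl p` with `l ↦ m` (`IntermediateField.algHomAdjoinIntegralEquiv` or
`(AdjoinRoot.liftAlgHom ..)` and `IntermediateField.adjoinRootEquivAdjoin`), and it is uncountable
(`continuum_le_cardinal_of_nontriviallyNormedField ℚ_[p]` and the injective map `ℚ_[p] → PadicAlgCl p`).  `S_A1` for
`F = E` gives `φ : K → PadicAlgCl p` with `φ l = m`; `v x = ‖φ x‖`.  (b) If `f` is the image of `g ∈ ℤ[X]`, then `g` is
monic and `g(l) = 0`, so `l` is integral over `ℤ`; `m` from `S_A7` and the same construction with `ℂ` in the place of
`PadicAlgCl p`. -/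
def S_A8 : Prop := ∀ (K : Type u) [Field K] [CharZero K] [Countable K] (l : K), IsAlgebraic ℚ l →
  (∀ n : ℕ, 0 < n → l ^ n ≠ 1) → ∃ v : AbsoluteValue K ℝ, v l ≠ 1

/-- **A9** (80 lines, uses `S_A5`, `S_A8`; `BR/A9.lean` also contains `theorem vAbs : S_Abs.{u}` with the same
hypotheses, the statement of `BR/Def.lean`, a special case).  Proof.  Characteristic `0`: `K` is a `ℚ`-algebra;
`S_A5` with `k = ℚ` (lifted to `Type u` by `ULift`, or take for `k` the prime subfield `(⊥ : Subfield K)`) if `l` is transcendental over `ℚ`, otherwise `S_A8`.  Characteristic `p > 0`: let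
`k = (⊥ : Subfield K)`, a finite field (it is the image of `ZMod p`).  If `l` is transcendental over `k` use `S_A5`.
Otherwise `k(l)` is a finite field (finite-dimensional over `k`) and `l ≠ 0`, so `l` has finite order: `l ^ n = 1` with
`n = #k(l) - 1 > 0`, contradiction. -/
def S_A9 : Prop := ∀ (K : Type u) [Field K] [Countable K] (l : K), l ≠ 0 → (∀ n : ℕ, 0 < n → l ^ n ≠ 1) →
  ∃ v : AbsoluteValue K ℝ, v l ≠ 1

end Pool.Agent.MPcc2398.BR
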