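import Pool.Agent.Lib.MP_cc2398_al.BR.Def

/-!
# MP_cc2398_al, project BR, package B: Burnside - Schur

THEOREM B (`S_Bur`, `BR/Def.lean`).  Let `K` be an algebraically closed field, `Γ` a finitely generated group, `ρ` an
irreducible representation of `Γ` of degree `n` over `K` such that all eigenvalues of all `ρ x` are roots of unity.
Then the image of `ρ` is finite.

PLAN.  The entries of the `ρ x` lie in a finitely generated subring `A` of `K` (`S_B2`).  `A` has two maximal ideals
`m₁`, `m₂` with finite residue fields such that no prime number `≠ 0` in `A` lies in both (`S_B3`).  If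
`Y` is a matrix over `A`, `Y = 1` modulo a prime ideal `m`, and an eigenvalue `z` of `Y` has a power `z ^ k ≠ 1` with
`(z ^ k) ^ q = 1`, then `q ∈ m` (`S_B4`).  For some `e > 0` all matrices `ρ (x ^ e)` are `1` modulo `m` (`S_B5`).  So
the eigenvalues of all `ρ x` are `e`-th roots of unity for one `e` (`S_B6`), and there are only finitely many traces
(`S_B8`).  By Burnside's theorem the `ρ x` span the algebra of matrices (`S_B1`), so the image is finite (`S_B7`).

Every `S_Bi` is proved in its own file `BR/Bi.lean` as `theorem vBi`, with the used statements as hypotheses in the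
order of the docstring; all modules are independent (import this file only), all other declarations `private`.
`BR/Bur.lean` contains `theorem vBur : S_Bur` with the hypotheses `S_B1`, `S_B6`, `S_B7`, `S_B8`.  The proofs in the
docstrings are complete.
-/

set_option autoImplicit false

namespace Pool.Agent.MPcc2398.BR

open Polynomial Matrix

universe u v

/-- **B1** (90 lines).  Burnside's theorem.  Proof.  `n = 0`: clear.  Let `n > 0`, `V = Fin n → K` and
`A = Algebra.adjoin K (range (fun x => Matrix.toLin' (ρ x)))`, a subalgebra of `Module.End K V`; `V` is an `A`-module.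
It is simple: `V ≠ 0`, and let `N` be an `A`-submodule, `a ∈ N`, `a ≠ 0`.  The `K`-submodule spanned by all
`ρ x *ᵥ a` is contained in `N`, and it is everything: otherwise some linear functional `≠ 0` vanishes on it
(`Submodule.exists_dual_map_eq_bot_of_lt_top` or `Submodule.exists_le_ker_of_lt_top`), it is `v ↦ φ ⬝ᵥ v` with `φ ≠ 0`,
against `Irr`.  `IsSimpleModule.algebraMap_end_bijective_of_isAlgClosed`: the endomorphisms of the `A`-module `V` are
the multiplications by scalars.  So `V` is a finite module over `Module.End A V`, and each `T : V →ₗ[K] V` is linear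
over `Module.End A V`; by `Module.Finite.toModuleEnd_moduleEnd_surjective` (Jacobson density; or `jacobson_density`
with the standard basis) there is `r ∈ A` with `r v = T v` for all `v`, so `A = ⊤`.  Finally `A` is the span of the
`toLin' (ρ x)` (`Algebra.adjoin_eq_span`, the set is a submonoid: `MonoidHom.mrange` of the composition), and
`toLin'` is a linear equivalence. -/
def S_B1 : Prop := ∀ (K : Type u) [Field K] [IsAlgClosed K] (Γ : Type v) [Group Γ] (n : ℕ)
  (ρ : Γ →* Matrix (Fin n) (Fin n) K), Irr ρ Set.univ → Submodule.span K (Set.range ρ) = ⊤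

/-- **B2** (50 lines).  Proof.  Let `S` be a finite set generating `Γ` as a monoid (`Group.fg_iff_monoid_fg`,
`Monoid.fg_iff`), `T` the finite set of all entries of the `ρ s`, `s ∈ S`, and `A = Subring.closure T` (or the subring
of `Algebra.adjoin ℤ T`).  The `x` such that all entries of `ρ x` are in `A` form a submonoid containing `S`
(`Matrix.mul_apply`, `Submonoid.closure_induction`), so it is everything.  `A` is a `ℤ`-algebra of finite type:
`Algebra.adjoin ℤ T` is a finitely generated subalgebra (`Subalgebra.fg_adjoin_finset`,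
`Subalgebra.fg_iff_finiteType`), with the same elements (`Algebra.adjoin_int`; the two structures of a `ℤ`-algebra
are equal by `Subsingleton.elim`; or transfer by a ring equivalence: `RingHom.FiniteType`,
`Algebra.FiniteType.of_surjective`). -/
def S_B2 : Prop := ∀ (K : Type u) [Field K] (Γ : Type v) [Group Γ], Group.FG Γ →
  ∀ (n : ℕ) (ρ : Γ →* Matrix (Fin n) (Fin n) K),
  ∃ A : Subring K, Algebra.FiniteType ℤ A ∧ ∀ x i j, ρ x i j ∈ A

/-- **B3** (80 lines).  Proof.  (a) `ℤ` is a Jacobson ring (`isJacobsonRing_iff_prime_eq`): a prime ideal `≠ ⊥` is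
maximal, so equal to its Jacobson radical; if `x ∈ jacobson ⊥`, then `1 + x * x` is a unit (`Ideal.mem_jacobson_bot`),
so `x = 0` (`Int.isUnit_iff`).  So `A` is a Jacobson ring (`isJacobsonRing_of_finiteType`).  (b) If `m` is a maximal
ideal of `A`, then the field `A ⧸ m` (`Ideal.Quotient.field`) is of finite type over `ℤ`, so a finite `ℤ`-module
(`finite_of_finite_type_of_isJacobsonRing ℤ (A ⧸ m)`).  It is integral over `ℤ`, so the kernel of `ℤ → A ⧸ m` is maximal
(`Ideal.isMaximal_comap_of_isIntegral_of_isMaximal`), not `⊥`, so some `N ≠ 0` is zero in `A ⧸ m`, and `A ⧸ m`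
is a finitely generated torsion group, so finite (`Module.finite_of_fg_torsion`).  (c) Let `m₁` be a maximal ideal
(`Ideal.exists_maximal`) and `p` the characteristic of the finite field `A ⧸ m₁`, a prime number, so
`p ∈ m₁` and each prime number `q ∈ m₁` is equal to `p` (otherwise `1 ∈ m₁`).  If `p = 0` in `A`, let `m₂ = m₁`.
Otherwise `p` is not in the Jacobson radical of `⊥`, which is `⊥`, since `A` is a domain and a Jacobson ring: so there is
a maximal ideal `m₂` with `p ∉ m₂` (`Ideal.jacobson`, `Ideal.mem_sInf`), and no prime number is in both ideals. -/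
def S_B3 : Prop := ∀ (A : Type u) [CommRing A] [IsDomain A] [Algebra.FiniteType ℤ A],
  ∃ m₁ m₂ : Ideal A, m₁.IsMaximal ∧ m₂.IsMaximal ∧ Finite (A ⧸ m₁) ∧ Finite (A ⧸ m₂) ∧
    ∀ q : ℕ, q.Prime → (q : A) ∈ m₁ → (q : A) ∈ m₂ → (q : A) = 0

/-- **B4** (90 lines).  Proof.  Let `Y'` be the matrix over `A` with `Y' i j = Y i j`, `f = Y'.charpoly`, monic, and
`f.map A.subtype = Y.charpoly` (`Matrix.charpoly_map`), so `z` is a root of `f` in `K`, integral over `A`.  Let
`B = integralClosure A K`, `z ∈ B`.  There is a prime ideal `m'` of `B` with `m'.comap (algebraMap A B) = m`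
(`Ideal.exists_ideal_over_prime_of_isIntegral_of_isDomain` or `Ideal.exists_ideal_over_prime_of_isIntegral`; `A → B` is
injective).  Let `π : A → B → B ⧸ m'` and let `t ∈ B ⧸ m'` be the class of `z`.  The image of
`Y'` under `π` is the matrix `1`, so `f.map π = (1 : Matrix ..).charpoly = (X - 1) ^ n` (`Matrix.charpoly_one`), and
`t` is a root of it: `(t - 1) ^ n = 0`, so `t = 1` in the domain `B ⧸ m'`.  Let `w = z ^ k ∈ B`, its class is `1`.  From
`(∑ i ∈ range q, w ^ i) * (w - 1) = w ^ q - 1 = 0` (`geom_sum_mul`) and `w ≠ 1` we get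
`∑ i ∈ range q, w ^ i = 0`, modulo `m'`: `(q : B ⧸ m') = 0`, so `q ∈ m'`, so `q ∈ m`. -/
def S_B4 : Prop := ∀ (K : Type u) [Field K] (A : Subring K) (m : Ideal A), m.IsPrime →
  ∀ (n : ℕ) (Y : Matrix (Fin n) (Fin n) K),
  (∀ i j, ∃ y : A, y ∈ m ∧ (y : K) = Y i j - (1 : Matrix (Fin n) (Fin n) K) i j) →
  ∀ z : K, Y.charpoly.IsRoot z → ∀ q k : ℕ, z ^ k ≠ 1 → (z ^ k) ^ q = 1 → (q : A) ∈ m

/-- **B5** (60 lines).  Proof.  `ρ' : Γ →* Matrix (Fin n) (Fin n) A` with `(ρ' x i j : K) = ρ x i j`, composed with
`(Ideal.Quotient.mk m).mapMatrix`, is a homomorphism `φ` into the finite monoid of the matrices over `A ⧸ m`.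
`φ.toHomUnits` has values in a finite group, of order `e > 0`; `φ (x ^ e) = (φ x) ^ e = 1` (`pow_card_eq_one'`).  So
all entries of `ρ' (x ^ e) - 1` are in `m` (`Ideal.Quotient.eq`). -/
def S_B5 : Prop := ∀ (K : Type u) [Field K] (A : Subring K) (m : Ideal A), Finite (A ⧸ m) →
  ∀ (Γ : Type v) [Group Γ] (n : ℕ) (ρ : Γ →* Matrix (Fin n) (Fin n) K), (∀ x i j, ρ x i j ∈ A) →
  ∃ e : ℕ, 0 < e ∧ ∀ x i j, ∃ y : A, y ∈ m ∧ (y : K) = ρ (x ^ e) i j - (1 : Matrix (Fin n) (Fin n) K) i j

/-- **B6** (80 lines, uses `S_B2`, `S_B3`, `S_B4`, `S_B5`).  Proof.  Take `A` from `S_B2`, `m₁`, `m₂` from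
`S_B3` and `e₁`, `e₂` for `m₁`, `m₂` from `S_B5`, `e = e₁ * e₂`, so that `ρ (x ^ e) = ρ ((x ^ e₂) ^ e₁)` is
`1` modulo `m₁` and modulo `m₂` for each `x`.  Let `z` be a root of `(ρ x).charpoly`.  Then `w = z ^ e` is a root of
`(ρ (x ^ e)).charpoly`, since `ρ (x ^ e) = (ρ x) ^ e` and an eigenvector of `ρ x` for `z` is one of
`(ρ x) ^ e` for `z ^ e` (`Matrix.exists_mulVec_eq_zero_iff`, `Matrix.eval_charpoly`; or
`Matrix.mem_spectrum_iff_isRoot_charpoly` and `spectrum.pow_mem_pow`).  `w` has finite order `N = orderOf w > 0`.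
Suppose `w ≠ 1`, let `q` be a prime divisor of `N` and `k = N / q`: `w ^ k ≠ 1`, `(w ^ k) ^ q = 1`.  By `S_B4`
`q ∈ m₁` and `q ∈ m₂`, so `q = 0` in `A` and in `K`: `K` has characteristic `q` (`CharP`), and
`(w ^ k - 1) ^ q = (w ^ k) ^ q - 1 = 0` (`sub_pow_char`), so `w ^ k = 1`, a contradiction. -/
def S_B6 : Prop := ∀ (K : Type u) [Field K] (Γ : Type v) [Group Γ], Group.FG Γ →
  ∀ (n : ℕ) (ρ : Γ →* Matrix (Fin n) (Fin n) K),
  (∀ (x : Γ) (z : K), (ρ x).charpoly.IsRoot z → ∃ m : ℕ, 0 < m ∧ z ^ m = 1) →
  ∃ e : ℕ, 0 < e ∧ ∀ (x : Γ) (z : K), (ρ x).charpoly.IsRoot z → z ^ e = 1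

/-- **B7** (60 lines).  Proof.  The space of matrices is finite-dimensional, so there is a finite set `s` of elements
of `Γ` such that the `ρ y`, `y ∈ s`, span it (a basis contained in `range ρ`: `exists_linearIndependent`, or
`Submodule.fg_span_iff_fg_span_finset_subset`).  Let `T` be the finite set of the traces of all `ρ x`.  The map
`F : X ↦ (trace (X * ρ y))`, `y ∈ s`, is injective on matrices: if `trace (X * ρ y) = trace (X' * ρ y)` for all
`y ∈ s`, then `trace ((X - X') * Z) = 0` for all matrices `Z` (`Submodule.span_induction`), so `X = X'`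
(`Matrix.ext_iff_trace_mul_right` or `Z = Matrix.single i j 1`).  It maps `range ρ` into the finite set of the
functions `s → T`, since `trace (ρ x * ρ y) = trace (ρ (x * y))`.  So `range ρ` is finite (`Set.Finite.of_finite_image`,
`Set.Finite.pi`). -/
def S_B7 : Prop := ∀ (K : Type u) [Field K] (Γ : Type v) [Group Γ] (n : ℕ)
  (ρ : Γ →* Matrix (Fin n) (Fin n) K), Submodule.span K (Set.range ρ) = ⊤ →
  (Set.range fun x => (ρ x).trace).Finite → (Set.range ρ).Finite

/-- **B8** (50 lines).  Proof.  Let `R` be the finite set of the `z : K` with `z ^ e = 1` (roots of `X ^ e - 1`, which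
is not `0`; `Polynomial.nthRoots` or `rootSet`).  The trace of `Y` is the sum of the roots of its characteristic
polynomial (`Matrix.trace_eq_sum_roots_charpoly`), a multiset of `n` elements of `R` (the polynomial splits and has
degree `n`: `IsAlgClosed.card_roots_eq_natDegree` or similar, `Matrix.charpoly_natDegree_eq_dim`), and there are only
finitely many multisets with `n` elements in `R` (`Finset.sym R n`; or they are the images of the functions
`Fin n → R`, `∑ i, g i`: `Multiset` to `List`, `List.ofFn`).  Only `≤ n` roots are needed. -/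
def S_B8 : Prop := ∀ (K : Type u) [Field K] [IsAlgClosed K] (e n : ℕ), 0 < e →
  {t : K | ∃ Y : Matrix (Fin n) (Fin n) K, (∀ z : K, Y.charpoly.IsRoot z → z ^ e = 1) ∧ t = Y.trace}.Finite

end Pool.Agent.MPcc2398.BR
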