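import Pool.Agent.Lib.MP_cc2398_al.BR.Spec

/-!
# MP_cc2398_al, project BR, Z1: a commensurable subgroup with prime vanishing ideal
-/

set_option autoImplicit false

namespace Pool.Agent.MPcc2398.BR

open Pool.Agent.MPcc2398 Matrix Filter Topology

universe u v w

section

variable {G : Type u} [Group G] {K : Type v} [Field K] (A : Subalgebra K (G → K))

/-- The ideal of the functions vanishing on `C`. -/
private def z1I (C : Subgroup G) : Ideal ↥A where
  carrier := {f | ∀ c ∈ C, f.1 c = 0}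
  add_mem' := by
    intro a b ha hb c hc
    show a.1 c + b.1 c = 0
    rw [ha c hc, hb c hc, add_zero]
  zero_mem' := fun c _ => rfl
  smul_mem' := by
    intro r a ha c hc
    show r.1 c * a.1 c = 0
    rw [ha c hc, mul_zero]

private theorem mem_z1I (C : Subgroup G) (f : ↥A) : f ∈ z1I A C ↔ ∀ c ∈ C, f.1 c = 0 := Iff.rfl

private theorem z1I_mono {C C' : Subgroup G} (h : C' ≤ C) : z1I A C ≤ z1I A C' :=
  fun _ hf c hc => hf c (h hc)

/-- Evaluation at one. -/
private def z1ev : ↥A →+* K where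
  toFun f := f.1 1
  map_one' := rfl
  map_mul' _ _ := rfl
  map_zero' := rfl
  map_add' _ _ := rfl

/-- Right translation. -/
private def z1t (hA : TI A) (x : G) : ↥A →+* ↥A where
  toFun f := ⟨fun g => f.1 (g * x), (hA f.1 f.2).1 x⟩
  map_one' := rfl
  map_mul' _ _ := rfl
  map_zero' := rfl
  map_add' _ _ := rfl

private theorem z1t_apply (hA : TI A) (x : G) (f : ↥A) (g : G) : (z1t A hA x f).1 g = f.1 (g * x) := rfl

private theorem z1t_mul (hA : TI A) (x y : G) (f : ↥A) :
    z1t A hA x (z1t A hA y f) = z1t A hA (x * y) f := by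
  apply Subtype.ext
  funext g
  show f.1 (g * x * y) = f.1 (g * (x * y))
  rw [mul_assoc]

private theorem z1t_one (hA : TI A) (f : ↥A) : z1t A hA 1 f = f := by
  apply Subtype.ext
  funext g
  show f.1 (g * 1) = f.1 g
  rw [mul_one]

private theorem z1t_surj (hA : TI A) (x : G) : Function.Surjective (z1t A hA x) := by
  intro f
  refine ⟨z1t A hA x⁻¹ f, ?_⟩
  rw [z1t_mul, mul_inv_cancel, z1t_one]

private theorem comap_z1I (hA : TI A) (C : Subgroup G) {c : G} (hc : c ∈ C) :
    Ideal.comap (z1t A hA c) (z1I A C) = z1I A C := by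
  ext f
  rw [Ideal.mem_comap, mem_z1I, mem_z1I]
  constructor
  · intro h d hd
    have h1 := h (d * c⁻¹) (C.mul_mem hd (C.inv_mem hc))
    rw [z1t_apply, inv_mul_cancel_right] at h1
    exact h1
  · intro h d hd
    rw [z1t_apply]
    exact h _ (C.mul_mem hd hc)

private theorem z1cc (hA : TI A) (x y : G) (P : Ideal ↥A) :
    Ideal.comap (z1t A hA x) (Ideal.comap (z1t A hA y) P) = Ideal.comap (z1t A hA (y * x)) P := by
  ext f
  rw [Ideal.mem_comap, Ideal.mem_comap, Ideal.mem_comap, z1t_mul]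

private theorem z1c1 (hA : TI A) (P : Ideal ↥A) : Ideal.comap (z1t A hA 1) P = P := by
  ext f
  rw [Ideal.mem_comap, z1t_one]

/-- The elements of `C` whose right translation fixes `P`. -/
private def z1S (hA : TI A) (C : Subgroup G) (P : Ideal ↥A) : Subgroup G where
  carrier := {c | c ∈ C ∧ Ideal.comap (z1t A hA c) P = P}
  mul_mem' := by
    rintro a b ⟨ha, ha'⟩ ⟨hb, hb'⟩
    refine ⟨C.mul_mem ha hb, ?_⟩
    rw [← z1cc, ha', hb']
  one_mem' := ⟨C.one_mem, z1c1 A hA P⟩
  inv_mem' := by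
    rintro a ⟨ha, ha'⟩
    refine ⟨C.inv_mem ha, ?_⟩
    have h := z1cc A hA a⁻¹ a P
    rw [ha', mul_inv_cancel, z1c1] at h
    exact h

private theorem z1S_rel (hN : IsNoetherianRing ↥A) (hA : TI A) (C : Subgroup G) (P : Ideal ↥A)
    (hP : P ∈ (z1I A C).minimalPrimes) : (z1S A hA C P).relIndex C ≠ 0 := by
  have hmin : ∀ c ∈ C, Ideal.comap (z1t A hA c) P ∈ (z1I A C).minimalPrimes := by
    intro c hc
    have h := Ideal.minimalPrimes_comap_of_surjective (z1t_surj A hA c) hP
    rw [comap_z1I A hA C hc] at h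
    exact h
  have hfin : Finite ↥((z1I A C).minimalPrimes) :=
    (Ideal.finite_minimalPrimes_of_isNoetherianRing ↥A (z1I A C)).to_subtype
  have hq : Finite (↥C ⧸ (z1S A hA C P).subgroupOf C) := by
    refine Finite.of_injective (fun q : ↥C ⧸ (z1S A hA C P).subgroupOf C =>
      (⟨Ideal.comap (z1t A hA ((Quotient.out q : ↥C) : G)⁻¹) P,
        hmin _ (C.inv_mem (Quotient.out q).2)⟩ : ↥((z1I A C).minimalPrimes))) ?_
    intro q q' h
    have h1 : Ideal.comap (z1t A hA ((Quotient.out q : ↥C) : G)⁻¹) P =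
        Ideal.comap (z1t A hA ((Quotient.out q' : ↥C) : G)⁻¹) P := congrArg Subtype.val h
    have h2 : ((Quotient.out q : ↥C) : ↥C ⧸ (z1S A hA C P).subgroupOf C) =
        ((Quotient.out q' : ↥C) : ↥C ⧸ (z1S A hA C P).subgroupOf C) := by
      rw [QuotientGroup.eq, Subgroup.mem_subgroupOf]
      refine ⟨C.mul_mem (C.inv_mem (Quotient.out q).2) (Quotient.out q').2, ?_⟩
      show Ideal.comap (z1t A hA (((Quotient.out q : ↥C) : G)⁻¹ * ((Quotient.out q' : ↥C) : G))) P = P
      rw [← z1cc, h1, z1cc, inv_mul_cancel, z1c1]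
    rwa [QuotientGroup.out_eq', QuotientGroup.out_eq'] at h2
  exact Subgroup.index_ne_zero_of_finite

end

theorem vZ1 : S_Z1.{u, v} := by
  intro G _ H K _ A hN hA
  have hHH : Co H H := ⟨by rw [Subgroup.relIndex_self]; exact one_ne_zero,
    by rw [Subgroup.relIndex_self]; exact one_ne_zero⟩
  obtain ⟨I, ⟨C, hC, rfl⟩, hmax⟩ := (set_has_maximal_iff_noetherian (R := ↥A) (M := ↥A)).2 hN
    {I : Ideal ↥A | ∃ C : Subgroup G, Co H C ∧ z1I A C = I} ⟨z1I A H, H, hHH, rfl⟩
  have hkey : ∀ C' : Subgroup G, C' ≤ C → Co H C' → z1I A C' = z1I A C := by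
    intro C' hle hC'
    have h1 : z1I A C ≤ z1I A C' := z1I_mono A hle
    have h2 := hmax (z1I A C') ⟨C', hC', rfl⟩
    exact (h1.eq_of_not_lt h2).symm
  refine ⟨C, hC, ?_, ?_⟩
  · intro C' hle hC' f hf hv
    have h1 : (⟨f, hf⟩ : ↥A) ∈ z1I A C' := hv
    rw [hkey C' hle hC'] at h1
    exact h1
  · have hM : (RingHom.ker (z1ev A)).IsPrime := RingHom.ker_isPrime _
    have hle : z1I A C ≤ RingHom.ker (z1ev A) := fun f hf => by
      rw [RingHom.mem_ker]
      exact hf 1 C.one_mem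
    obtain ⟨P, hP, hPM⟩ := Ideal.exists_minimalPrimes_le hle
    have hrel := z1S_rel A hN hA C P hP
    have hSC : z1S A hA C P ≤ C := fun c hc => hc.1
    have hCo : Co H (z1S A hA C P) := ⟨Subgroup.relIndex_ne_zero_trans hrel hC.1,
      Subgroup.relIndex_ne_zero_trans hC.2 (by rw [Subgroup.relIndex_eq_one.2 hSC]; exact one_ne_zero)⟩
    have hPI : P ≤ z1I A (z1S A hA C P) := by
      intro f hf c hc
      have h1 : f ∈ Ideal.comap (z1t A hA c) P := by
        rw [hc.2]
        exact hf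
      have h2 : z1t A hA c f ∈ RingHom.ker (z1ev A) := hPM (Ideal.mem_comap.1 h1)
      rw [RingHom.mem_ker] at h2
      have h3 : f.1 (1 * c) = 0 := h2
      rwa [one_mul] at h3
    rw [hkey _ hSC hCo] at hPI
    have hle2 : z1I A C ≤ P := hP.1.2
    have hPr : P.IsPrime := hP.1.1
    intro f hf f' hf' hv
    have h1 : (⟨f, hf⟩ : ↥A) * ⟨f', hf'⟩ ∈ P := hle2 (show _ ∈ z1I A C from hv)
    rcases hPr.mem_or_mem h1 with h | h
    · exact Or.inl (hPI h)
    · exact Or.inr (hPI h)

end Pool.Agent.MPcc2398.BR
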